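import Pool.Agent.Lib.MP_dd84fd_nt.QZ.Za
import Pool.Agent.Lib.MP_dd84fd_nt.BX.AsDefs
import Pool.Agent.Lib.MP_dd84fd_nt.BX.Gal
import Pool.Agent.Lib.MP_dd84fd_nt.BX.Sl

/-!
# QZ-Hv: a large norm `sN` gives a heavy interval; `SmBD`.  Prefix aux lemmas `hv_`.

PROOF of hv_win. Cells `(t h, (t+1) h]`, `h = ⌊X / L^(2B+2)⌋` (BX/Sl `sl_norm`): `κ² X h / (16 L²) ≤ ∑_t ‖Fc t‖²`.  Brun-Titchmarsh
(BX/BrB `sum_Sv`): `‖Fc t‖ ≤ C h/L`.  The cells with `t h < κ₁ X` and the last one contribute little, so some cell with `κ₁ X ≤ t h`,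
`(t+1) h ≤ X` has `‖Fc t‖ ≥ (κ/8) h/L`.  `Λ(p) = log p = log x + O(h/x)` on the cell: multiply by `log x ≥ L/2`; proper prime powers
negligible.  So `|∑ Λ ψ| ≥ lam h`, `lam = κ/32`, `B' = 2B + 3`.
smBD: za with `c = 1/2` and hv_win.
-/

set_option autoImplicit false

namespace Pool.MP_dd84fd_nt.QZ

open Finset
open Pool.MP_dd84fd_nt.En (Rough rho)

open Pool.MP_dd84fd_nt.BX (PC pv IsPC sN)
open Pool.MP_dd84fd_nt.BX (Fc nt sl_norm Sv CB)
open Pool.MP_dd84fd_nt.IX (zI)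

/-- powers of the logarithm -/
private theorem hv_log (C s : ℝ) (k : ℕ) (hs : 0 < s) : ∃ X0 : ℕ, ∀ X : ℕ, X0 ≤ X →
    C * Real.log X ^ k ≤ (X : ℝ) ^ s := by
  have h1 : (fun x : ℝ => Real.log x ^ (k : ℝ)) =o[Filter.atTop] fun x : ℝ => x ^ s :=
    isLittleO_log_rpow_rpow_atTop _ hs
  have h2 := (h1.const_mul_left C).bound (c := 1) one_pos
  have h3 := (tendsto_natCast_atTop_atTop (R := ℝ)).eventually h2
  obtain ⟨X0, hX0⟩ := Filter.eventually_atTop.1 h3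
  refine ⟨X0, fun X hX => ?_⟩
  have h4 := hX0 X hX
  rw [one_mul, Real.norm_of_nonneg (Real.rpow_nonneg (Nat.cast_nonneg X) s),
    Real.rpow_natCast] at h4
  exact (le_abs_self _).trans h4

/-- the logarithm is large -/
private theorem hv_big (C : ℝ) : ∃ X0 : ℕ, ∀ X : ℕ, X0 ≤ X → C ≤ Real.log X := by
  have h3 := (Real.tendsto_log_atTop.comp (tendsto_natCast_atTop_atTop (R := ℝ))).eventually_ge_atTop C
  obtain ⟨X0, hX0⟩ := Filter.eventually_atTop.1 h3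
  exact ⟨X0, fun X hX => hX0 X hX⟩

/-- primes in short intervals -/
private theorem hv_bt : ∃ C : ℝ, 1 ≤ C ∧ ∃ X0 : ℕ, ∀ X : ℕ, X0 ≤ X → ∀ u v h : ℕ, u ≤ v → v ≤ u + h →
    h ≤ u → (X : ℝ) ^ (1 / 2 : ℝ) ≤ h →
    (((Ioc u v).filter Nat.Prime).card : ℝ) ≤ C * h / Real.log X := by
  obtain ⟨X1, hX1⟩ := hv_log 1 (1 / 4) 1 (by norm_num)
  refine ⟨32 * CB + 1, by linarith [BX.CB_pos], max X1 (2 ^ 32), fun X hX u v h huv hvh hhu hXh => ?_⟩
  have hXa : X1 ≤ X := (le_max_left _ _).trans hX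
  have hXb : 2 ^ 32 ≤ X := (le_max_right _ _).trans hX
  have hX0 : (0 : ℝ) < X := by exact_mod_cast (by omega : 0 < X)
  have hX1' : (1 : ℝ) ≤ X := by exact_mod_cast (by omega : 1 ≤ X)
  set z : ℝ := (X : ℝ) ^ (1 / 32 : ℝ) with hz
  have hz2 : 2 ≤ z := by
    have h1 : ((2 : ℝ) ^ (32 : ℕ)) ^ (1 / 32 : ℝ) ≤ z :=
      Real.rpow_le_rpow (by positivity) (by exact_mod_cast hXb) (by norm_num)
    rw [← Real.rpow_natCast, ← Real.rpow_mul (by norm_num)] at h1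
    norm_num at h1
    exact h1
  have hlz : Real.log z = Real.log X / 32 := by
    rw [hz, Real.log_rpow hX0]
    ring
  have hL : 0 < Real.log X := by
    have : 0 < Real.log z := Real.log_pos (by linarith)
    linarith
  have hzh : z ≤ h := (Real.rpow_le_rpow_of_exponent_le hX1' (by norm_num)).trans hXh
  have hz8 : z ^ (4 * 1 + 4) = (X : ℝ) ^ (1 / 4 : ℝ) := by
    rw [hz, ← Real.rpow_natCast, ← Real.rpow_mul hX0.le]
    norm_num
  have h1 : (((Ioc u v).filter Nat.Prime).card : ℝ) ≤ ∑ n ∈ Ioc u v, Sv 1 z n := by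
    rw [card_eq_sum_ones, Nat.cast_sum]
    refine le_trans (sum_le_sum fun p hp => ?_)
      (sum_le_sum_of_subset_of_nonneg (filter_subset _ _) fun n _ _ => BX.Sv_nonneg 1 z n)
    rw [mem_filter, mem_Ioc] at hp
    rw [BX.Sv_rough 1 (by linarith), Nat.cast_one]
    intro q hq hqp
    rw [(Nat.prime_dvd_prime_iff_eq hq hp.2).1 hqp]
    have : h ≤ p := by omega
    exact hzh.trans (by exact_mod_cast this)
  refine h1.trans ((BX.sum_Sv 1 hz2 u v huv).trans ?_)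
  rw [hz8, hlz]
  have h2 : (v : ℝ) - u ≤ h := by
    have : (v : ℝ) ≤ u + h := by exact_mod_cast hvh
    linarith
  have h3 : (X : ℝ) ^ (1 / 4 : ℝ) ≤ h / Real.log X := by
    rw [le_div_iff₀ hL]
    have h4 := hX1 X hXa
    rw [one_mul, pow_one] at h4
    calc (X : ℝ) ^ (1 / 4 : ℝ) * Real.log X ≤ (X : ℝ) ^ (1 / 4 : ℝ) * (X : ℝ) ^ (1 / 4 : ℝ) :=
          mul_le_mul_of_nonneg_left h4 (by positivity)
      _ = (X : ℝ) ^ (1 / 2 : ℝ) := by
          rw [← Real.rpow_add hX0]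
          norm_num
      _ ≤ h := hXh
  have h5 : CB * ((v : ℝ) - u) / (Real.log X / 32) ≤ 32 * CB * (h / Real.log X) := by
    rw [div_div_eq_mul_div, mul_div_assoc', div_le_div_iff_of_pos_right hL]
    nlinarith [BX.CB_pos]
  calc _ ≤ 32 * CB * (h / Real.log X) + h / Real.log X := add_le_add h5 h3
    _ = _ := by ring

/-- a large norm gives a large cell -/
private theorem hv_cell {X h : ℕ} {T κ C : ℝ} (hκ : 0 < κ) (hC : 1 ≤ C) (hT : 1 ≤ T) (hX : 3 ≤ X)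
    (hh : 1 ≤ h) (hz : zI X ≤ h) (hhT : 2 * h * T ≤ X) (ψ : PC) (hs : κ ≤ sN X T ψ)
    (h1 : 32 * Real.log X * T ^ 2 * (h / X) ≤ κ / 2)
    (h2 : C ^ 2 * (h / X) ≤ κ ^ 2 / 128)
    (hbt : ∀ t ∈ Icc 1 (X / h), ‖Fc X h ψ t‖ ≤ C * h / Real.log X) :
    ∃ t : ℕ, 1 ≤ t ∧ κ ^ 2 / (64 * C ^ 2) * X ≤ t * h ∧ (t + 1) * h ≤ X ∧
      κ / 8 * h / Real.log X ≤ ‖Fc X h ψ t‖ := by
  by_contra hcon
  push Not at hcon
  have hX0 : (0 : ℝ) < X := by exact_mod_cast (by omega : 0 < X)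
  have hh0 : (0 : ℝ) < h := by exact_mod_cast hh
  have hL : 0 < Real.log X := Real.log_pos (by exact_mod_cast (by omega : 1 < X))
  have hn := sl_norm X h T hT hX hh hz hhT ψ
  set L := Real.log X with hLdef
  set N := nt (X / h) (Fc X h ψ) with hN
  have hsq : Real.sqrt ((X : ℝ) * h) ^ 2 = X * h := Real.sq_sqrt (by positivity)
  have hsq0 : 0 < Real.sqrt ((X : ℝ) * h) := Real.sqrt_pos.2 (by positivity)
  have hNlow : κ / 4 * Real.sqrt ((X : ℝ) * h) / L ≤ N := by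
    have h3 : κ / 4 ≤ L / Real.sqrt ((X : ℝ) * h) * N := by linarith
    rw [div_le_iff₀ hL]
    calc κ / 4 * Real.sqrt ((X : ℝ) * h) ≤ (L / Real.sqrt ((X : ℝ) * h) * N) *
          Real.sqrt ((X : ℝ) * h) := mul_le_mul_of_nonneg_right h3 hsq0.le
      _ = N * L := by field_simp
  have hN2 : κ ^ 2 / 16 * (X * h) / L ^ 2 ≤ N ^ 2 := by
    calc κ ^ 2 / 16 * (X * h) / L ^ 2 = (κ / 4 * Real.sqrt ((X : ℝ) * h) / L) ^ 2 := by
          rw [div_pow, mul_pow, hsq]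
          ring
      _ ≤ N ^ 2 := pow_le_pow_left₀ (by positivity) hNlow 2
  have hNeq : N ^ 2 = ∑ t ∈ Icc 1 (X / h), ‖Fc X h ψ t‖ ^ 2 := by
    rw [hN, nt, Real.sq_sqrt (sum_nonneg fun t _ => by positivity)]
  set κ₁ := κ ^ 2 / (64 * C ^ 2) with hκ₁
  have hκ₁0 : 0 < κ₁ := by positivity
  -- pointwise
  have hpt : ∀ t ∈ Icc 1 (X / h), ‖Fc X h ψ t‖ ^ 2 ≤ (κ / 8 * h / L) ^ 2 +
      (if (t : ℝ) * h < κ₁ * X then (C * h / L) ^ 2 else 0) +
      (if X < (t + 1) * h then (C * h / L) ^ 2 else 0) := by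
    intro t ht
    have h3 := hbt t ht
    have h4 : ‖Fc X h ψ t‖ ^ 2 ≤ (C * h / L) ^ 2 := pow_le_pow_left₀ (norm_nonneg _) h3 2
    have h5 : 0 ≤ (κ / 8 * h / L) ^ 2 := by positivity
    have h6 : 0 ≤ (C * h / L) ^ 2 := by positivity
    by_cases c1 : (t : ℝ) * h < κ₁ * X
    · rw [if_pos c1]
      have : (0 : ℝ) ≤ (if X < (t + 1) * h then (C * h / L) ^ 2 else 0) := by
        split_ifs <;> linarith
      linarith
    · rw [if_neg c1]
      by_cases c2 : X < (t + 1) * h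
      · rw [if_pos c2]
        linarith
      · rw [if_neg c2]
        have h7 := hcon t (mem_Icc.1 ht).1 (not_lt.1 c1) (not_lt.1 c2)
        have h8 := pow_le_pow_left₀ (norm_nonneg (Fc X h ψ t)) h7.le 2
        linarith
  have hsum := sum_le_sum hpt
  rw [sum_add_distrib, sum_add_distrib, sum_const, nsmul_eq_mul, Nat.card_Icc, Nat.add_sub_cancel,
    ← sum_filter, ← sum_filter, sum_const, sum_const, nsmul_eq_mul, nsmul_eq_mul, ← hNeq] at hsum
  have c1 : ((X / h : ℕ) : ℝ) ≤ X / h := Nat.cast_div_le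
  have c2 : (((Icc 1 (X / h)).filter fun t : ℕ => (t : ℝ) * h < κ₁ * X).card : ℝ) ≤ κ₁ * X / h := by
    have h3 : ((Icc 1 (X / h)).filter fun t : ℕ => (t : ℝ) * h < κ₁ * X) ⊆
        Icc 1 ⌊κ₁ * X / h⌋₊ := by
      intro t ht
      rw [mem_filter, mem_Icc] at ht
      rw [mem_Icc]
      refine ⟨ht.1.1, Nat.le_floor ?_⟩
      rw [le_div_iff₀ hh0]
      exact ht.2.le
    have h4 := card_le_card h3
    rw [Nat.card_Icc, Nat.add_sub_cancel] at h4
    exact (by exact_mod_cast h4 : _ ≤ (⌊κ₁ * X / h⌋₊ : ℝ)).trans (Nat.floor_le (by positivity))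
  have c3 : (((Icc 1 (X / h)).filter fun t : ℕ => X < (t + 1) * h).card : ℝ) ≤ 1 := by
    have h3 : ((Icc 1 (X / h)).filter fun t : ℕ => X < (t + 1) * h) ⊆ {X / h} := by
      intro t ht
      rw [mem_filter, mem_Icc] at ht
      rw [mem_singleton]
      have : X / h < t + 1 := (Nat.div_lt_iff_lt_mul (by omega)).2 ht.2
      omega
    have h4 := card_le_card h3
    rw [card_singleton] at h4
    exact_mod_cast h4
  have d1 : ((X / h : ℕ) : ℝ) * (κ / 8 * h / L) ^ 2 ≤ X / h * (κ / 8 * h / L) ^ 2 :=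
    mul_le_mul_of_nonneg_right c1 (by positivity)
  have d2 := mul_le_mul_of_nonneg_right c2 (show (0 : ℝ) ≤ (C * h / L) ^ 2 by positivity)
  have d3 := mul_le_mul_of_nonneg_right c3 (show (0 : ℝ) ≤ (C * h / L) ^ 2 by positivity)
  have d4 : N ^ 2 ≤ X / h * (κ / 8 * h / L) ^ 2 + κ₁ * X / h * (C * h / L) ^ 2 +
      1 * (C * h / L) ^ 2 := by linarith
  have hC0 : (0 : ℝ) < C := by linarith
  have d5 : X / h * (κ / 8 * h / L) ^ 2 + κ₁ * X / h * (C * h / L) ^ 2 + 1 * (C * h / L) ^ 2 =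
      X * h / L ^ 2 * (κ ^ 2 / 64 + κ ^ 2 / 64 + C ^ 2 * (h / X)) := by
    rw [hκ₁]
    field_simp
    ring
  have d6 : X * h / L ^ 2 * (κ ^ 2 / 64 + κ ^ 2 / 64 + C ^ 2 * (h / X)) ≤
      X * h / L ^ 2 * (κ ^ 2 / 64 + κ ^ 2 / 64 + κ ^ 2 / 128) :=
    mul_le_mul_of_nonneg_left (by linarith) (by positivity)
  have d7 : κ ^ 2 / 16 * (X * h) / L ^ 2 ≤
      X * h / L ^ 2 * (κ ^ 2 / 64 + κ ^ 2 / 64 + κ ^ 2 / 128) := by
    linarith [hN2, d4, d5, d6]
  have d8 : κ ^ 2 / 16 * (X * h) / L ^ 2 = X * h / L ^ 2 * (κ ^ 2 / 16) := by ring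
  rw [d8] at d7
  have d9 : 0 < X * h / L ^ 2 := by positivity
  have := le_of_mul_le_mul_left d7 d9
  nlinarith [pow_pos hκ 2]

/-- from the primes to `Λ` -/
private theorem hv_conv {X h t : ℕ} {μ : ℝ} (hX : 3 ≤ X) (hh : 1 ≤ h) (ht : 1 ≤ t)
    (htX : (t + 1) * h ≤ X) (hx : (X : ℝ) ^ (1 / 2 : ℝ) ≤ t * h) (hμ : 0 < μ) (ψ : PC)
    (hF : μ * h / Real.log X ≤ ‖Fc X h ψ t‖) (e1 : (h : ℝ) * (h / (t * h)) ≤ μ / 8 * h)
    (e2 : 2 * Real.sqrt X * Real.log X ≤ μ / 8 * h) :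
    μ / 4 * h ≤ ‖∑ n ∈ Ioc (t * h) ((t + 1) * h),
      ((ArithmeticFunction.vonMangoldt n : ℝ) : ℂ) * pv ψ n‖ := by
  have hX0 : (0 : ℝ) < X := by exact_mod_cast (by omega : 0 < X)
  have hh0 : (0 : ℝ) < h := by exact_mod_cast hh
  have ht0 : (0 : ℝ) < t := by exact_mod_cast ht
  have hL : 0 < Real.log X := Real.log_pos (by exact_mod_cast (by omega : 1 < X))
  set x : ℝ := (t : ℝ) * h with hxdef
  have hx0 : 0 < x := by positivity
  have hlx : Real.log X / 2 ≤ Real.log x := by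
    have h1 := Real.log_le_log (by positivity) hx
    rw [Real.log_rpow hX0] at h1
    linarith
  set S := Ioc (t * h) ((t + 1) * h) with hS
  have hFc : Fc X h ψ t = ∑ n ∈ S.filter Nat.Prime, pv ψ n := by
    unfold BX.Fc
    rw [min_eq_left htX]
  -- the nonprimes
  have hB : ‖∑ n ∈ S.filter (fun n => ¬ n.Prime),
      ((ArithmeticFunction.vonMangoldt n : ℝ) : ℂ) * pv ψ n‖ ≤ μ / 8 * h := by
    refine le_trans ?_ e2
    refine (norm_sum_le _ _).trans ?_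
    have h1 : ∑ n ∈ S.filter (fun n => ¬ n.Prime),
        ‖((ArithmeticFunction.vonMangoldt n : ℝ) : ℂ) * pv ψ n‖ ≤
        ∑ n ∈ S.filter (fun n => ¬ n.Prime), ArithmeticFunction.vonMangoldt n := by
      refine sum_le_sum fun n _ => ?_
      rw [norm_mul, Complex.norm_real, Real.norm_of_nonneg ArithmeticFunction.vonMangoldt_nonneg]
      exact mul_le_of_le_one_right ArithmeticFunction.vonMangoldt_nonneg (BX.pv_norm_le ψ n)
    refine h1.trans ?_
    have h2 := Chebyshev.psi_sub_theta_le (x := (X : ℝ)) (by exact_mod_cast (by omega : 1 ≤ X))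
    rw [Chebyshev.psi_sub_theta_eq_sum_not_prime, Nat.floor_natCast] at h2
    refine le_trans ?_ h2
    refine sum_le_sum_of_subset_of_nonneg ?_ fun n _ _ => ArithmeticFunction.vonMangoldt_nonneg
    refine filter_subset_filter _ (Ioc_subset_Ioc (Nat.zero_le _) htX)
  -- the primes
  have hA : ‖∑ n ∈ S.filter Nat.Prime, ((ArithmeticFunction.vonMangoldt n : ℝ) : ℂ) * pv ψ n -
      ((Real.log x : ℝ) : ℂ) * Fc X h ψ t‖ ≤ μ / 8 * h := by
    refine le_trans ?_ e1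
    rw [hFc, mul_sum, ← sum_sub_distrib]
    refine (norm_sum_le _ _).trans ?_
    have h1 : ∀ n ∈ S.filter Nat.Prime, ‖((ArithmeticFunction.vonMangoldt n : ℝ) : ℂ) * pv ψ n -
        ((Real.log x : ℝ) : ℂ) * pv ψ n‖ ≤ h / x := by
      intro n hn
      rw [mem_filter, hS, mem_Ioc] at hn
      obtain ⟨⟨h1, h2⟩, hp⟩ := hn
      have h3 : x < n := by
        rw [hxdef]
        exact_mod_cast h1
      have h4 : (n : ℝ) ≤ x + h := by
        rw [hxdef]
        have : (n : ℝ) ≤ ((t : ℝ) + 1) * h := by exact_mod_cast h2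
        linarith
      rw [ArithmeticFunction.vonMangoldt_apply_prime hp, ← sub_mul, ← Complex.ofReal_sub, norm_mul,
        Complex.norm_real]
      have h5 : 0 ≤ Real.log n - Real.log x := by
        have := Real.log_le_log hx0 h3.le
        linarith
      rw [Real.norm_of_nonneg h5]
      have h6 : Real.log n - Real.log x ≤ h / x := by
        rw [← Real.log_div (by linarith) hx0.ne']
        have h7 := Real.log_le_sub_one_of_pos (show 0 < (n : ℝ) / x by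
          have : (0 : ℝ) < n := by linarith
          positivity)
        have h8 : (n : ℝ) / x - 1 ≤ h / x := by
          rw [sub_le_iff_le_add, div_add_one hx0.ne', div_le_div_iff_of_pos_right hx0]
          linarith
        exact h7.trans h8
      calc (Real.log n - Real.log x) * ‖pv ψ n‖ ≤ (Real.log n - Real.log x) * 1 :=
            mul_le_mul_of_nonneg_left (BX.pv_norm_le ψ n) h5
        _ ≤ h / x := by linarith
    refine (sum_le_sum h1).trans ?_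
    rw [sum_const, nsmul_eq_mul]
    refine mul_le_mul_of_nonneg_right ?_ (by positivity)
    have h2 : (S.filter Nat.Prime).card ≤ h := by
      refine (card_filter_le _ _).trans ?_
      rw [hS, Nat.card_Ioc, add_mul, one_mul, Nat.add_sub_cancel_left]
    exact_mod_cast h2
  have hM : μ / 2 * h ≤ ‖((Real.log x : ℝ) : ℂ) * Fc X h ψ t‖ := by
    have h0 : 0 ≤ Real.log x := by linarith
    rw [norm_mul, Complex.norm_real, Real.norm_of_nonneg h0]
    calc μ / 2 * h = Real.log X / 2 * (μ * h / Real.log X) := by field_simp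
      _ ≤ Real.log x * ‖Fc X h ψ t‖ := mul_le_mul hlx hF (by positivity) h0
  rw [← sum_filter_add_sum_filter_not S Nat.Prime]
  set P := ∑ n ∈ S.filter Nat.Prime, ((ArithmeticFunction.vonMangoldt n : ℝ) : ℂ) * pv ψ n
  set Q := ∑ n ∈ S.filter (fun n => ¬ n.Prime), ((ArithmeticFunction.vonMangoldt n : ℝ) : ℂ) * pv ψ n
  set R := ((Real.log x : ℝ) : ℂ) * Fc X h ψ t
  have h9 : ‖R‖ ≤ ‖P + Q‖ + ‖P - R‖ + ‖Q‖ := by
    calc ‖R‖ = ‖(P + Q) - (P - R) - Q‖ := by congr 1; ring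
      _ ≤ ‖(P + Q) - (P - R)‖ + ‖Q‖ := norm_sub_le _ _
      _ ≤ ‖P + Q‖ + ‖P - R‖ + ‖Q‖ := by linarith [norm_sub_le (P + Q) (P - R)]
  linarith

theorem hv_win (κ : ℝ) (hκ : 0 < κ) : ∃ lam : ℝ, 0 < lam ∧ ∀ B : ℕ, ∃ B' X0 : ℕ, ∀ X : ℕ, X0 ≤ X →
    ∀ T : ℝ, 1 ≤ T → T ≤ (Real.log X) ^ B → ∀ ψ : PC, κ ≤ sN X T ψ →
    Hvy lam (1 / 2) B' X ψ := by
  obtain ⟨C, hC, X1, hbt⟩ := hv_bt
  refine ⟨κ / 8 / 4, by positivity, fun B => ?_⟩
  set κ₁ := κ ^ 2 / (64 * C ^ 2) with hκ₁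
  have hC0 : (0 : ℝ) < C := by linarith
  have hκ₁0 : 0 < κ₁ := by positivity
  -- conditions on `X`
  obtain ⟨X2, hX2⟩ := hv_big (max (max 2 (64 / κ)) (max (128 * C ^ 2 / κ ^ 2) (64 / (κ * κ₁))))
  obtain ⟨X3, hX3⟩ := hv_log (1 / κ₁) (1 / 2) 0 (by norm_num)
  obtain ⟨X4, hX4⟩ := hv_log 2 (1 / 2) (2 * B + 2) (by norm_num)
  obtain ⟨X5, hX5⟩ := hv_log (256 / κ) (1 / 2) (2 * B + 3) (by norm_num)
  refine ⟨2 * B + 3, max (max (max X1 X2) (max X3 X4)) (max X5 3), fun X hX T hT hTB ψ hs => ?_⟩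
  simp only [max_le_iff] at hX
  obtain ⟨⟨⟨g1, g2⟩, g3, g4⟩, g5, hX3'⟩ := hX
  have f2 := hX2 X g2
  simp only [max_le_iff] at f2
  obtain ⟨⟨k1, k2⟩, k3, k4⟩ := f2
  have f3 := hX3 X g3
  have f4 := hX4 X g4
  have f5 := hX5 X g5
  have hX0 : (0 : ℝ) < X := by exact_mod_cast (by omega : 0 < X)
  have hX1' : (1 : ℝ) ≤ X := by exact_mod_cast (by omega : 1 ≤ X)
  set L := Real.log X with hLdef
  have hL : 0 < L := by linarith
  have hL1 : 1 ≤ L := by linarith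
  have hLp : 0 < L ^ (2 * B + 2) := by positivity
  set s : ℝ := (X : ℝ) ^ (1 / 2 : ℝ) with hsdef
  have hs0 : 0 < s := by positivity
  have hs1 : 1 ≤ s := Real.one_le_rpow hX1' (by norm_num)
  have hss : s * s = X := by
    rw [hsdef, ← Real.rpow_add hX0]
    norm_num
  have hsqrt : Real.sqrt X = s := by rw [hsdef, Real.sqrt_eq_rpow]
  -- `h`
  set y : ℝ := X / L ^ (2 * B + 2) with hy
  have hy2 : 2 * s ≤ y := by
    rw [hy, le_div_iff₀ hLp, ← hss]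
    nlinarith
  set h : ℕ := ⌊y⌋₊ with hh
  have hy0 : 0 ≤ y := by positivity
  have h1 : (h : ℝ) ≤ y := Nat.floor_le hy0
  have h2 : y - 1 < h := by
    have := Nat.lt_floor_add_one y
    linarith
  have h3 : y / 2 ≤ h := by linarith
  have h4 : s ≤ h := by linarith
  have h5 : 1 ≤ h := by
    have : (1 : ℝ) ≤ h := hs1.trans h4
    exact_mod_cast this
  have hh0 : (0 : ℝ) < h := by exact_mod_cast h5
  have h6 : (h : ℝ) * L ^ (2 * B + 2) ≤ X := by
    calc (h : ℝ) * L ^ (2 * B + 2) ≤ y * L ^ (2 * B + 2) := mul_le_mul_of_nonneg_right h1 hLp.le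
      _ = X := by rw [hy]; field_simp
  have h7 : (h : ℝ) / X ≤ 1 / L ^ (2 * B + 2) := by
    rw [div_le_div_iff₀ hX0 hLp]
    linarith
  have hLL : L ≤ L ^ (2 * B + 2) := le_self_pow₀ hL1 (by omega)
  have h8 : (h : ℝ) / X ≤ 1 / L := h7.trans (one_div_le_one_div_of_le hL hLL)
  have hz : zI X ≤ h := by
    refine Nat.ceil_le.2 (le_trans ?_ h4)
    exact Real.rpow_le_rpow_of_exponent_le hX1' (by norm_num)
  have hhT : 2 * (h : ℝ) * T ≤ X := by
    refine le_trans ?_ h6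
    have h9 : 2 * T ≤ L ^ (2 * B + 2) := by
      calc 2 * T ≤ L * L ^ B := mul_le_mul k1 hTB (by linarith) hL.le
        _ = L ^ (B + 1) := by ring
        _ ≤ L ^ (2 * B + 2) := pow_le_pow_right₀ hL1 (by omega)
    nlinarith
  have hT2 : T ^ 2 ≤ L ^ (2 * B) := by
    rw [pow_mul']
    exact pow_le_pow_left₀ (by linarith) hTB 2
  have e1 : 32 * L * T ^ 2 * (h / X) ≤ κ / 2 := by
    calc 32 * L * T ^ 2 * (h / X) ≤ 32 * L * L ^ (2 * B) * (1 / L ^ (2 * B + 2)) := by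
          refine mul_le_mul (mul_le_mul_of_nonneg_left hT2 (by positivity)) h7 (by positivity)
            (by positivity)
      _ = 32 / L := by
          field_simp
          ring
      _ ≤ κ / 2 := by
          rw [div_le_iff₀ hκ] at k2
          rw [div_le_iff₀ hL]
          linarith
  have e2 : C ^ 2 * ((h : ℝ) / X) ≤ κ ^ 2 / 128 := by
    calc C ^ 2 * ((h : ℝ) / X) ≤ C ^ 2 * (1 / L) := mul_le_mul_of_nonneg_left h8 (by positivity)
      _ ≤ κ ^ 2 / 128 := by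
          rw [div_le_iff₀ (by positivity)] at k3
          rw [mul_one_div, div_le_iff₀ hL]
          linarith
  have hbt' : ∀ t ∈ Icc 1 (X / h), ‖Fc X h ψ t‖ ≤ C * h / L := by
    intro t ht
    rw [mem_Icc] at ht
    have h9 : t * h ≤ X := (Nat.mul_le_mul_right h ht.2).trans (Nat.div_mul_le_self X h)
    have h10 : ‖Fc X h ψ t‖ ≤ (((Ioc (t * h) (min ((t + 1) * h) X)).filter Nat.Prime).card : ℝ) := by
      unfold BX.Fc
      refine (norm_sum_le _ _).trans ?_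
      rw [card_eq_sum_ones, Nat.cast_sum]
      exact sum_le_sum fun n _ => by
        rw [Nat.cast_one]
        exact BX.pv_norm_le ψ n
    refine h10.trans (hbt X g1 (t * h) (min ((t + 1) * h) X) h ?_ ?_ ?_ h4)
    · exact le_min (Nat.mul_le_mul_right h (by omega)) h9
    · exact (min_le_left _ _).trans (by rw [add_mul, one_mul])
    · exact Nat.le_mul_of_pos_left h ht.1
  obtain ⟨t, ht1, ht2, ht3, ht4⟩ := hv_cell hκ hC hT hX3' h5 hz hhT ψ hs e1 e2 hbt'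
  rw [← hκ₁] at ht2
  have hsx : s ≤ (t : ℝ) * h := by
    refine le_trans ?_ ht2
    rw [pow_zero, mul_one, div_le_iff₀ hκ₁0] at f3
    calc s = 1 * s := (one_mul s).symm
      _ ≤ s * κ₁ * s := mul_le_mul_of_nonneg_right f3 hs0.le
      _ = κ₁ * X := by rw [← hss]; ring
  have ht0 : (1 : ℝ) ≤ t := by exact_mod_cast ht1
  have hth0 : 0 < (t : ℝ) * h := by positivity
  have e3 : (h : ℝ) * (h / (t * h)) ≤ κ / 8 / 8 * h := by
    rw [mul_comm]
    refine mul_le_mul_of_nonneg_right ?_ hh0.le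
    calc (h : ℝ) / (t * h) ≤ h / (κ₁ * X) :=
          div_le_div_of_nonneg_left hh0.le (by positivity) ht2
      _ = 1 / κ₁ * (h / X) := by field_simp
      _ ≤ 1 / κ₁ * (1 / L) := mul_le_mul_of_nonneg_left h8 (by positivity)
      _ ≤ κ / 8 / 8 := by
          rw [div_le_iff₀ (by positivity)] at k4
          rw [div_mul_div_comm, div_le_iff₀ (by positivity)]
          linarith
  have e4 : 2 * Real.sqrt X * L ≤ κ / 8 / 8 * h := by
    rw [hsqrt]
    have h9 : 256 / κ * L ^ (2 * B + 3) * s ≤ X := by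
      rw [← hss]
      exact mul_le_mul_of_nonneg_right f5 hs0.le
    have h10 : 256 / κ * L * s ≤ y := by
      rw [hy, le_div_iff₀ hLp]
      calc 256 / κ * L * s * L ^ (2 * B + 2) = 256 / κ * L ^ (2 * B + 3) * s := by ring
        _ ≤ X := h9
    have h11 : 256 * L * s ≤ y * κ := by
      have h12 := mul_le_mul_of_nonneg_right h10 hκ.le
      calc 256 * L * s = 256 / κ * L * s * κ := by field_simp
        _ ≤ y * κ := h12
    have h13 : y * κ ≤ 2 * h * κ := mul_le_mul_of_nonneg_right (by linarith) hκ.le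
    linarith
  have hfin := hv_conv hX3' h5 ht1 ht3 hsx (by positivity) ψ ht4 e3 e4
  have hcast : (t : ℝ) * h + h = (((t + 1) * h : ℕ) : ℝ) := by push_cast; ring
  refine ⟨(t : ℝ) * h, h, hh0, hsx, ?_, ?_, ?_, ?_⟩
  · rw [hcast]
    exact_mod_cast ht3
  · exact le_mul_of_one_le_left hh0.le ht0
  · have h9 : (t : ℝ) * h ≤ X := by
      have : (((t + 1) * h : ℕ) : ℝ) ≤ X := by exact_mod_cast ht3
      rw [← hcast] at this
      linarith
    refine h9.trans ?_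
    have h10 : (X : ℝ) = y * L ^ (2 * B + 2) := by rw [hy]; field_simp
    calc (X : ℝ) = y * L ^ (2 * B + 2) := h10
      _ ≤ (L * h) * L ^ (2 * B + 2) := by
          refine mul_le_mul_of_nonneg_right ?_ hLp.le
          calc y ≤ 2 * h := by linarith
            _ ≤ L * h := mul_le_mul_of_nonneg_right k1 hh0.le
      _ = h * L ^ (2 * B + 3) := by ring
  · rw [hcast, Nat.floor_natCast, show (t : ℝ) * h = ((t * h : ℕ) : ℝ) by push_cast; ring,
      Nat.floor_natCast]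
    exact hfin

/-- (SM) at most one heavy primitive character of small conductor -/
def SmBD : Prop := ∀ κ : ℝ, 0 < κ → ∃ δ : ℝ, 0 < δ ∧ ∀ B : ℕ, ∃ X0 : ℕ, ∀ X : ℕ, X0 ≤ X →
  ∀ T : ℝ, 1 ≤ T → T ≤ (Real.log X) ^ B → ∀ ψ₁ ψ₂ : PC, IsPC ψ₁ → IsPC ψ₂ → 2 ≤ ψ₁.1 → 2 ≤ ψ₂.1 →
  (ψ₁.1 : ℝ) ≤ (X : ℝ) ^ δ → (ψ₂.1 : ℝ) ≤ (X : ℝ) ^ δ →
  κ ≤ sN X T ψ₁ → κ ≤ sN X T ψ₂ → ψ₁ = ψ₂

theorem smBD : SmBD := by
  intro κ hκ
  obtain ⟨lam, hlam, hwin⟩ := hv_win κ hκ
  obtain ⟨δ, hδ, hza⟩ := za lam (1 / 2) hlam (by norm_num)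
  refine ⟨δ, hδ, fun B => ?_⟩
  obtain ⟨B', X1, hX1⟩ := hwin B
  obtain ⟨X2, hX2⟩ := hza B'
  refine ⟨max X1 X2, fun X hX T hT hTB ψ₁ ψ₂ h1 h2 h3 h4 h5 h6 h7 h8 => ?_⟩
  have hXa : X1 ≤ X := (le_max_left _ _).trans hX
  have hXb : X2 ≤ X := (le_max_right _ _).trans hX
  exact hX2 X hXb ψ₁ ψ₂ h1 h2 h3 h4 h5 h6 (hX1 X hXa T hT hTB ψ₁ h7) (hX1 X hXa T hT hTB ψ₂ h8)

end Pool.MP_dd84fd_nt.QZ
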