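import Pool.Agent.Lib.MP_dd84fd_nt.QZ.Defs
import Pool.Agent.Lib.MP_dd84fd_nt.En.BT

/-!
# QZ-BtA: Brun-Titchmarsh for `La z`.  Prefix aux lemmas `bt_`.

PROOF. bt: if `v < z`: `La z n = 0` for `n ≤ v` (`n ≥ 2` has a prime factor `< z`, `Λ(1) = 0`).  Else `H ≥ v z^(-1/8) ≥ v^(7/8)`.
Primes `p ∈ (u, v]`, `p ≥ H^(1/16) =: z'`: `≤ ∑ Sv 1 z' ≤ CB H/log z' + z'^8 ≤ C H/log H` (BX/BrB sum_Sv, Sv_rough), times
`log v ≤ (8/7) log H`; primes `< z'`: `≤ H^(1/16) log H`.  Proper prime powers `p^a ≤ v`: `∑ Λ ≤ C √v log v ≤ C v^(7/8)` (Mathlib Chebyshev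
`psi - theta`, or count `p ≤ √v`).  `La z ≤ Λ`.
bt_inv: `∑_{n ≤ x} Λ(n)/n ≤ log x + C` (Mertens; library: `En.sum_log_div` for primes, or Chebyshev `ψ(x) ≤ C x` and partial summation).
-/

set_option autoImplicit false

namespace Pool.MP_dd84fd_nt.QZ

open Finset
open Pool.MP_dd84fd_nt.En (Rough rho)

private theorem bt_la_le (z : ℝ) (n : ℕ) : La z n ≤ ArithmeticFunction.vonMangoldt n := by
  unfold La rho
  split_ifs
  · rw [one_mul]
  · rw [zero_mul]
    exact ArithmeticFunction.vonMangoldt_nonneg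

private theorem bt_zero {z : ℝ} {n : ℕ} (h : (n : ℝ) < z) : La z n = 0 := by
  unfold La
  by_cases hn : IsPrimePow n
  · obtain ⟨p, k, hp, hk, rfl⟩ := hn
    have hp' := hp.nat_prime
    have h1 : ¬ Rough z (p ^ k) := by
      intro hr
      have h1 := hr p hp' (dvd_pow_self p hk.ne')
      have h2 : p ≤ p ^ k := Nat.le_self_pow hk.ne' p
      have h3 : (p : ℝ) ≤ ((p ^ k : ℕ) : ℝ) := by exact_mod_cast h2
      linarith
    unfold rho
    rw [if_neg h1, zero_mul]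
  · rw [ArithmeticFunction.vonMangoldt_eq_zero_iff.2 hn, mul_zero]

private theorem bt_core : ∃ C : ℝ, 0 < C ∧ ∀ (u v : ℕ) (H : ℝ), 16 ≤ (v : ℝ) → u ≤ v →
    (v : ℝ) - u ≤ H → H ≤ v → (v : ℝ) ^ (7 / 8 : ℝ) ≤ H →
    ∑ n ∈ Ioc u v, ArithmeticFunction.vonMangoldt n ≤ C * H := by
  classical
  obtain ⟨C, hC, hps⟩ := En.prime_short
  refine ⟨8 * C + 8, by positivity, ?_⟩
  intro u v H hv huv hd hH hvH
  have hv0 : (0 : ℝ) < v := by linarith
  have hv1 : (1 : ℝ) ≤ v := by linarith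
  have hH1 : 1 ≤ H := by
    refine le_trans ?_ hvH
    exact Real.one_le_rpow hv1 (by norm_num)
  have hlv : 0 < Real.log v := Real.log_pos (by linarith)
  have hs4 : 4 ≤ Real.sqrt v := by
    rw [show (4 : ℝ) = Real.sqrt 16 by
      rw [show (16 : ℝ) = 4 ^ 2 by norm_num, Real.sqrt_sq (by norm_num)]]
    exact Real.sqrt_le_sqrt hv
  have hsH : Real.sqrt v ≤ H := by
    refine le_trans ?_ hvH
    rw [Real.sqrt_eq_rpow]
    exact Real.rpow_le_rpow_of_exponent_le hv1 (by norm_num)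
  -- non primes
  have hnp : ∑ n ∈ (Ioc u v).filter (fun n => ¬ n.Prime), ArithmeticFunction.vonMangoldt n ≤
      6 * H := by
    have h1 : ∑ n ∈ (Ioc u v).filter (fun n => ¬ n.Prime), ArithmeticFunction.vonMangoldt n ≤
        Chebyshev.psi v - Chebyshev.theta v := by
      rw [Chebyshev.psi_sub_theta_eq_sum_not_prime, Nat.floor_natCast]
      refine sum_le_sum_of_subset_of_nonneg ?_ fun _ _ _ => ArithmeticFunction.vonMangoldt_nonneg
      intro n hn
      rw [mem_filter, mem_Ioc] at hn ⊢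
      exact ⟨⟨by omega, hn.1.2⟩, hn.2⟩
    have h2 := Chebyshev.abs_psi_sub_theta_le_sqrt_mul_log hv1
    have h3 := Real.log_le_rpow_div hv0.le (by norm_num : (0 : ℝ) < 3 / 8)
    have h4 : Real.sqrt v * (v : ℝ) ^ (3 / 8 : ℝ) = (v : ℝ) ^ (7 / 8 : ℝ) := by
      rw [Real.sqrt_eq_rpow, ← Real.rpow_add hv0]
      norm_num
    have h5 : 2 * Real.sqrt v * Real.log v ≤ 6 * (v : ℝ) ^ (7 / 8 : ℝ) := by
      calc 2 * Real.sqrt v * Real.log v ≤ 2 * Real.sqrt v * ((v : ℝ) ^ (3 / 8 : ℝ) / (3 / 8)) :=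
            mul_le_mul_of_nonneg_left h3 (by positivity)
        _ = 16 / 3 * (Real.sqrt v * (v : ℝ) ^ (3 / 8 : ℝ)) := by ring
        _ = 16 / 3 * (v : ℝ) ^ (7 / 8 : ℝ) := by rw [h4]
        _ ≤ 6 * (v : ℝ) ^ (7 / 8 : ℝ) :=
            mul_le_mul_of_nonneg_right (by norm_num) (by positivity)
    have h6 := le_abs_self (Chebyshev.psi v - Chebyshev.theta v)
    linarith
  -- primes
  set u' : ℝ := max (u : ℝ) (Real.sqrt v) with hu'
  have hp : ∑ n ∈ (Ioc u v).filter (fun n => n.Prime), ArithmeticFunction.vonMangoldt n ≤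
      (8 * C + 2) * H := by
    have h1 : ∑ n ∈ (Ioc u v).filter (fun n => n.Prime), ArithmeticFunction.vonMangoldt n =
        ∑ n ∈ (Ioc u v).filter (fun n => n.Prime), Real.log (n : ℝ) := by
      refine sum_congr rfl fun n hn => ?_
      rw [mem_filter] at hn
      exact ArithmeticFunction.vonMangoldt_apply_prime hn.2
    have hsub : (Ioc u v).filter (fun n => n.Prime) ⊆
        ((Ioc 0 ⌊Real.sqrt v⌋₊).filter (fun n => n.Prime)) ∪
          Pool.MP_67663b_nt.Odd.pr u' (u' + (H + 1)) := by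
      intro n hn
      rw [mem_filter, mem_Ioc] at hn
      obtain ⟨⟨h2, h3⟩, h4⟩ := hn
      have h3' : (n : ℝ) ≤ v := by exact_mod_cast h3
      have h2' : (u : ℝ) ≤ n := by exact_mod_cast h2.le
      rw [mem_union, mem_filter, mem_Ioc, Pool.MP_67663b_nt.Odd.mem_pr]
      rcases le_total (n : ℝ) (Real.sqrt v) with h5 | h5
      · left
        exact ⟨⟨h4.pos, Nat.le_floor h5⟩, h4⟩
      · right
        refine ⟨h4, max_le h2' h5, ?_⟩
        have h6 : (u : ℝ) ≤ u' := le_max_left _ _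
        linarith
    have h2 : ∑ n ∈ (Ioc u v).filter (fun n => n.Prime), Real.log (n : ℝ) ≤
        Chebyshev.theta (Real.sqrt v) +
          ∑ p ∈ Pool.MP_67663b_nt.Odd.pr u' (u' + (H + 1)), Real.log (p : ℝ) := by
      refine (sum_le_sum_of_subset_of_nonneg hsub fun n _ _ => Real.log_natCast_nonneg n).trans ?_
      have h3 := sum_union_inter (s₁ := (Ioc 0 ⌊Real.sqrt v⌋₊).filter (fun n => n.Prime))
        (s₂ := Pool.MP_67663b_nt.Odd.pr u' (u' + (H + 1))) (f := fun n : ℕ => Real.log (n : ℝ))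
      have h4 : 0 ≤ ∑ n ∈ (Ioc 0 ⌊Real.sqrt v⌋₊).filter (fun n => n.Prime) ∩
          Pool.MP_67663b_nt.Odd.pr u' (u' + (H + 1)), Real.log (n : ℝ) :=
        sum_nonneg fun n _ => Real.log_natCast_nonneg n
      unfold Chebyshev.theta
      linarith
    have h3 := Chebyshev.theta_le_log4_mul_x (Real.sqrt_nonneg (v : ℝ))
    have h4 : Real.log 4 ≤ 2 := by
      rw [show (4 : ℝ) = 2 ^ 2 by norm_num, Real.log_pow]
      have := Real.log_two_lt_d9
      push_cast
      linarith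
    have h5 : Real.sqrt (Real.sqrt v) ≤ H + 1 := by
      have h6 : Real.sqrt (Real.sqrt v) ≤ Real.sqrt v := by
        rw [Real.sqrt_le_left (Real.sqrt_nonneg _)]
        nlinarith
      linarith
    have h6 := hps (Real.sqrt v) (by linarith) u' (H + 1) (le_max_right _ _) h5
    have h7 : Real.log (u' + (H + 1)) ≤ 2 * Real.log v := by
      have h8 : u' ≤ v := by
        refine max_le (by exact_mod_cast huv) ?_
        rw [Real.sqrt_le_left hv0.le]
        nlinarith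
      have h9 : 0 < u' := lt_of_lt_of_le (by linarith) (le_max_right _ _)
      calc Real.log (u' + (H + 1)) ≤ Real.log ((v : ℝ) ^ 2) :=
            Real.log_le_log (by linarith) (by nlinarith)
        _ = 2 * Real.log v := by rw [Real.log_pow]; norm_num
    have h8 : Real.log (Real.sqrt v) = Real.log v / 2 := Real.log_sqrt hv0.le
    have h9 : C * (H + 1) * Real.log (u' + (H + 1)) / Real.log (Real.sqrt v) ≤ 8 * C * H := by
      rw [h8, div_le_iff₀ (by linarith)]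
      calc C * (H + 1) * Real.log (u' + (H + 1)) ≤ C * (H + 1) * (2 * Real.log v) :=
            mul_le_mul_of_nonneg_left h7 (by positivity)
        _ ≤ C * (2 * H) * (2 * Real.log v) := by
            refine mul_le_mul_of_nonneg_right ?_ (by positivity)
            exact mul_le_mul_of_nonneg_left (by linarith) hC.le
        _ = 8 * C * H * (Real.log v / 2) := by ring
    have h10 : Real.log 4 * Real.sqrt v ≤ 2 * H := by
      refine mul_le_mul h4 hsH (Real.sqrt_nonneg _) (by norm_num)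
    rw [h1]
    linarith
  rw [← sum_filter_add_sum_filter_not (Ioc u v) (fun n => n.Prime)]
  linarith

/-- `La z` in intervals `(u, v]` of relative length at least `z^(-1/8)`, no upper limit for `v` -/
theorem bt : ∃ C z0 : ℝ, 0 < C ∧ 2 ≤ z0 ∧ ∀ z : ℝ, z0 ≤ z → ∀ (u v : ℕ) (H : ℝ), u ≤ v →
    (v : ℝ) - u ≤ H → (v : ℝ) ≤ H * z ^ (1 / 8 : ℝ) → ∑ n ∈ Ioc u v, La z n ≤ C * H := by
  obtain ⟨C, hC, hc⟩ := bt_core
  refine ⟨C, 16, hC, by norm_num, ?_⟩
  intro z hz u v H huv hd hvH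
  have huv' : (u : ℝ) ≤ v := by exact_mod_cast huv
  have hH0 : 0 ≤ H := by linarith
  rcases lt_or_ge (v : ℝ) z with h | h
  · rw [sum_eq_zero]
    · positivity
    · intro n hn
      rw [mem_Ioc] at hn
      refine bt_zero ?_
      have : (n : ℝ) ≤ v := by exact_mod_cast hn.2
      linarith
  · have hv0 : (0 : ℝ) < v := by linarith
    have h1 : (v : ℝ) ^ (7 / 8 : ℝ) ≤ H := by
      have h2 : (v : ℝ) ≤ H * (v : ℝ) ^ (1 / 8 : ℝ) :=
        hvH.trans (mul_le_mul_of_nonneg_left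
          (Real.rpow_le_rpow (by linarith) h (by norm_num)) hH0)
      have h3 : (0 : ℝ) < (v : ℝ) ^ (1 / 8 : ℝ) := Real.rpow_pos_of_pos hv0 _
      have h4 : (v : ℝ) ^ (7 / 8 : ℝ) * (v : ℝ) ^ (1 / 8 : ℝ) = v := by
        rw [← Real.rpow_add hv0]
        norm_num
      refine le_of_mul_le_mul_right ?_ h3
      rw [h4]
      exact h2
    have h2 : (v : ℝ) ^ (7 / 8 : ℝ) ≤ v := by
      calc (v : ℝ) ^ (7 / 8 : ℝ) ≤ (v : ℝ) ^ (1 : ℝ) :=
            Real.rpow_le_rpow_of_exponent_le (by linarith) (by norm_num)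
        _ = v := Real.rpow_one _
    have h3 := hc u v (min H v) (by linarith) huv
      (le_min hd (by have : (0 : ℝ) ≤ u := Nat.cast_nonneg _; linarith)) (min_le_right _ _)
      (le_min h1 h2)
    calc ∑ n ∈ Ioc u v, La z n ≤ ∑ n ∈ Ioc u v, ArithmeticFunction.vonMangoldt n :=
          sum_le_sum fun n _ => bt_la_le z n
      _ ≤ C * min H v := h3
      _ ≤ C * H := mul_le_mul_of_nonneg_left (min_le_left _ _) hC.le

private theorem bt_mertens (N : ℕ) (hN : 1 ≤ N) :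
    ∑ n ∈ Ioc 0 N, ArithmeticFunction.vonMangoldt n / n ≤ Real.log N + 6 := by
  have hN0 : (0 : ℝ) < N := by exact_mod_cast hN
  have h1 := ArithmeticFunction.sum_Ioc_mul_zeta_eq_sum (R := ℝ) ArithmeticFunction.vonMangoldt N
  rw [ArithmeticFunction.vonMangoldt_mul_zeta] at h1
  have h2 : ∑ n ∈ Ioc 0 N, (ArithmeticFunction.log n : ℝ) ≤ N * Real.log N := by
    calc ∑ n ∈ Ioc 0 N, (ArithmeticFunction.log n : ℝ) ≤ ∑ n ∈ Ioc 0 N, Real.log N := by
          refine sum_le_sum fun n hn => ?_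
          rw [mem_Ioc] at hn
          rw [ArithmeticFunction.log_apply]
          exact Real.log_le_log (by exact_mod_cast hn.1) (by exact_mod_cast hn.2)
      _ = N * Real.log N := by rw [sum_const, Nat.card_Ioc, nsmul_eq_mul, Nat.sub_zero]
  have h3 : Chebyshev.psi N ≤ 6 * N := by
    have h4 := Chebyshev.psi_le_const_mul_self hN0.le
    have h5 : Real.log 4 ≤ 2 := by
      rw [show (4 : ℝ) = 2 ^ 2 by norm_num, Real.log_pow]
      have := Real.log_two_lt_d9
      push_cast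
      linarith
    nlinarith
  have h4 : (N : ℝ) * ∑ n ∈ Ioc 0 N, ArithmeticFunction.vonMangoldt n / n ≤
      ∑ n ∈ Ioc 0 N, ArithmeticFunction.vonMangoldt n * ((N / n : ℕ) : ℝ) + Chebyshev.psi N := by
    unfold Chebyshev.psi
    rw [Nat.floor_natCast, mul_sum, ← sum_add_distrib]
    refine sum_le_sum fun n hn => ?_
    rw [mem_Ioc] at hn
    have hn0 : (0 : ℝ) < n := by exact_mod_cast hn.1
    have h5 : (N : ℝ) / n ≤ ((N / n : ℕ) : ℝ) + 1 := by
      have h6 := Nat.lt_div_mul_add (a := N) hn.1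
      rw [div_le_iff₀ hn0]
      have h7 : N ≤ (N / n + 1) * n := by
        rw [add_mul, one_mul]
        exact h6.le
      exact_mod_cast h7
    have h6 : (0 : ℝ) ≤ ArithmeticFunction.vonMangoldt n := ArithmeticFunction.vonMangoldt_nonneg
    calc (N : ℝ) * (ArithmeticFunction.vonMangoldt n / n) =
          ArithmeticFunction.vonMangoldt n * ((N : ℝ) / n) := by ring
      _ ≤ ArithmeticFunction.vonMangoldt n * (((N / n : ℕ) : ℝ) + 1) :=
          mul_le_mul_of_nonneg_left h5 h6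
      _ = _ := by ring
  rw [← h1] at h4
  refine le_of_mul_le_mul_left ?_ hN0
  linarith

/-- Chebyshev / Mertens -/
theorem bt_inv : ∃ C z0 : ℝ, 0 < C ∧ 2 ≤ z0 ∧ ∀ z : ℝ, z0 ≤ z → ∀ x : ℝ, 1 ≤ x →
    ∑ n ∈ Icc 1 ⌊x⌋₊, La z n / n ≤ C * (1 + Real.log x) := by
  refine ⟨6, 2, by norm_num, le_rfl, ?_⟩
  intro z _ x hx
  have hN : 1 ≤ ⌊x⌋₊ := (Nat.one_le_floor_iff x).2 hx
  have h1 := bt_mertens ⌊x⌋₊ hN
  have h2 : Real.log (⌊x⌋₊ : ℝ) ≤ Real.log x :=
    Real.log_le_log (by exact_mod_cast hN) (Nat.floor_le (by linarith))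
  have h3 : 0 ≤ Real.log x := Real.log_nonneg hx
  have h4 : ∑ n ∈ Icc 1 ⌊x⌋₊, La z n / n ≤
      ∑ n ∈ Ioc 0 ⌊x⌋₊, ArithmeticFunction.vonMangoldt n / n := by
    have h5 : Icc 1 ⌊x⌋₊ = Ioc 0 ⌊x⌋₊ := by
      ext n
      rw [mem_Icc, mem_Ioc]
      omega
    rw [h5]
    exact sum_le_sum fun n _ => div_le_div_of_nonneg_right (bt_la_le z n) (Nat.cast_nonneg _)
  linarith

end Pool.MP_dd84fd_nt.QZ
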