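import Pool.Agent.Lib.MP_dd84fd_nt.QZ.Grid

/-!
# QZ-Dfc: the defect identity.  Prefix aux lemmas `dfc_`.

PROOF of defect. `‖f m u(y/m) + u y‖² = ‖f m‖²‖u(y/m)‖² + ‖u y‖² + 2 Re(f m u(y/m) conj(u y))`; if `La z m ≠ 0` then `m` is rough: `‖f m‖ = 1`.
Sum with `La/m`: `∑ (La/m)‖u(y/m)‖² + ‖u y‖² mass(y) + 2 Re(conj(u y) ∑ (La/m) f u(y/m))`, last sum `= -u y log y + O(C log z)` (sel).
So `DD = ∑ (La/m) G(y/m) - G(y) log y + O(log z)`, `G = ‖u‖²`.  grid with `F = G`, `A = C²`, `A' = 2C·Cδ` (`A'(1 + log y) ≤ C' δ L`), and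
`|G(y) log y - G(Y_k) h k| ≤ A' log y + A h`.
defect_sum: grid with `F = DD z f u`: on `[1, y]` `|F| ≤ 4C² mass ≤ C' log y` (y ≥ z), slow variation: from defect,
`|F t' - F t| ≤ 2C' log z + |Dh(k') - Dh(k)|`, `k' ∈ {k, k+1}`, `|Dq h G (k+1) - Dq h G k| = h(k+1)|G_k - G_{k+1}| ≤ (L + h) 2C² δ ≤ C log z`.
Then `h ∑ DD(Y_i) ≤ h ∑ (Dh i + C' log z)` (kk h (Y h i) = i).
-/

set_option autoImplicit false

namespace Pool.MP_dd84fd_nt.QZ

open Finset
open Pool.MP_dd84fd_nt.En (Rough rho)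

private theorem dfc_La_nonneg (z : ℝ) (n : ℕ) : 0 ≤ La z n := by
  unfold La rho
  split_ifs
  · rw [one_mul]; exact ArithmeticFunction.vonMangoldt_nonneg
  · simp

private theorem dfc_one_le_log {z : ℝ} (h : Real.exp 1 ≤ z) : 1 ≤ Real.log z := by
  have := Real.log_le_log (Real.exp_pos 1) h
  rwa [Real.log_exp] at this

private theorem dfc_kk_le {h y : ℝ} (hh : 0 < h) (hy : 1 ≤ y) : h * (kk h y : ℝ) ≤ Real.log y := by
  unfold kk
  have h1 : (⌊Real.log y / h⌋₊ : ℝ) ≤ Real.log y / h :=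
    Nat.floor_le (div_nonneg (Real.log_nonneg hy) hh.le)
  rw [le_div_iff₀ hh] at h1
  linarith

private theorem dfc_lt_kk {h y : ℝ} (hh : 0 < h) : Real.log y < h * (kk h y : ℝ) + h := by
  unfold kk
  have h1 := Nat.lt_floor_add_one (Real.log y / h)
  rw [div_lt_iff₀ hh] at h1
  linarith

private theorem dfc_kk_Y {h : ℝ} (hh : 0 < h) (i : ℕ) : kk h (Y h i) = i := by
  unfold kk Y
  rw [Real.log_exp, mul_div_cancel_left₀ _ hh.ne', Nat.floor_natCast]

private theorem dfc_Y_le {h y : ℝ} (hh : 0 < h) (hy : 1 ≤ y) {i : ℕ} (hi : i ≤ kk h y) :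
    Y h i ≤ y := by
  unfold Y
  have h1 : h * (i : ℝ) ≤ Real.log y := by
    have h2 : (i : ℝ) ≤ kk h y := by exact_mod_cast hi
    exact (mul_le_mul_of_nonneg_left h2 hh.le).trans (dfc_kk_le hh hy)
  calc Real.exp (h * i) ≤ Real.exp (Real.log y) := Real.exp_le_exp.2 h1
    _ = y := Real.exp_log (by linarith)

private theorem dfc_one_le_Y {h : ℝ} (hh : 0 < h) (i : ℕ) : 1 ≤ Y h i :=
  Real.one_le_exp (by positivity)

private theorem dfc_Y_succ (h : ℝ) (i : ℕ) : Y h (i + 1) = Y h i * Real.exp h := by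
  unfold Y
  rw [← Real.exp_add]
  congr 1
  push_cast
  ring

/-- the slow variation of the square of the norm -/
private theorem dfc_slow {C z L δ h : ℝ} {f : ℕ → ℂ} {u : ℝ → ℂ} (hC : 0 < C)
    (hS : Sys C z L δ h f u) {t t' : ℝ} (ht : 0 < t) (h1 : t ≤ t')
    (h2 : t' ≤ t * Real.exp h) : |‖u t'‖ ^ 2 - ‖u t‖ ^ 2| ≤ 2 * C ^ 2 * δ := by
  have h3 := hS.slow t t' ht h1 h2
  have h4 := hS.bd t
  have h5 := hS.bd t'
  have h6 : |‖u t'‖ - ‖u t‖| ≤ C * δ := (abs_norm_sub_norm_le _ _).trans h3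
  have h7 : ‖u t'‖ ^ 2 - ‖u t‖ ^ 2 = (‖u t'‖ + ‖u t‖) * (‖u t'‖ - ‖u t‖) := by ring
  rw [h7, abs_mul, abs_of_nonneg (by positivity)]
  calc (‖u t'‖ + ‖u t‖) * |‖u t'‖ - ‖u t‖| ≤ (C + C) * (C * δ) :=
        mul_le_mul (add_le_add h5 h4) h6 (abs_nonneg _) (by positivity)
    _ = 2 * C ^ 2 * δ := by ring

private theorem dfc_sq_le {C z L δ h : ℝ} {f : ℕ → ℂ} {u : ℝ → ℂ}
    (hS : Sys C z L δ h f u) (t : ℝ) : ‖u t‖ ^ 2 ≤ C ^ 2 :=
  pow_le_pow_left₀ (norm_nonneg _) (hS.bd t) 2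

/-- expansion of the defect -/
private theorem dfc_expand {C z L δ h : ℝ} {f : ℕ → ℂ} {u : ℝ → ℂ}
    (hS : Sys C z L δ h f u) (y : ℝ) :
    DD z f u y = ∑ m ∈ Icc 1 ⌊y⌋₊, La z m / m * ‖u (y / m)‖ ^ 2 +
      ‖u y‖ ^ 2 * ∑ m ∈ Icc 1 ⌊y⌋₊, La z m / m +
      2 * ((∑ m ∈ Icc 1 ⌊y⌋₊, ((La z m / m : ℝ) : ℂ) * f m * u (y / m)) *
        (starRingEnd ℂ) (u y)).re := by
  unfold DD
  rw [Finset.sum_mul, Complex.re_sum, Finset.mul_sum, Finset.mul_sum, ← Finset.sum_add_distrib,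
    ← Finset.sum_add_distrib]
  refine Finset.sum_congr rfl fun m hm => ?_
  rw [Finset.mem_Icc] at hm
  have h1 : La z m / m * ‖f m * u (y / m)‖ ^ 2 = La z m / m * ‖u (y / m)‖ ^ 2 := by
    by_cases hR : Rough z m
    · rw [norm_mul, hS.one m hm.1 hR, one_mul]
    · have : La z m = 0 := by
        unfold La rho
        rw [if_neg hR, zero_mul]
      rw [this]
      simp
  have h2 : ‖f m * u (y / m) + u y‖ ^ 2 = ‖f m * u (y / m)‖ ^ 2 + ‖u y‖ ^ 2 +
      2 * ((f m * u (y / m)) * (starRingEnd ℂ) (u y)).re := by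
    rw [← Complex.normSq_eq_norm_sq, ← Complex.normSq_eq_norm_sq, ← Complex.normSq_eq_norm_sq,
      Complex.normSq_add]
  have h3 : (((La z m / m : ℝ) : ℂ) * f m * u (y / m) * (starRingEnd ℂ) (u y)).re =
      La z m / m * ((f m * u (y / m)) * (starRingEnd ℂ) (u y)).re := by
    have : ((La z m / m : ℝ) : ℂ) * f m * u (y / m) * (starRingEnd ℂ) (u y) =
        ((La z m / m : ℝ) : ℂ) * ((f m * u (y / m)) * (starRingEnd ℂ) (u y)) := by ring
    rw [this, Complex.re_ofReal_mul]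
  rw [h2, mul_add, mul_add, h1, h3]
  ring

theorem defect (C : ℝ) (hC : 0 < C) : ∃ C' : ℝ, 0 < C' ∧ ∀ (z L δ h : ℝ) (f : ℕ → ℂ) (u : ℝ → ℂ),
    Pm z L δ h → Sys C z L δ h f u → ∀ y, 1 ≤ y → y ≤ Real.exp L →
    |DD z f u y - Dh h u (kk h y)| ≤ C' * Real.log z := by
  obtain ⟨Cg, hCg, hg⟩ := grid
  obtain ⟨Cm, hCm, hm⟩ := mass
  refine ⟨5 * Cg * C ^ 2 + C ^ 2 * Cm + 2 * C ^ 2 + 3 * C ^ 2, by positivity, ?_⟩
  intro z L δ h f u hP hS y hy hyL
  have hl1 := dfc_one_le_log hP.z0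
  have hδ0 := hP.d0
  have hδ1 := hP.d1
  have hzL := hP.zL
  have hh0 := hP.h0
  have hh1 := hP.h1
  have hy0 : 0 < y := by linarith
  have hly : 0 ≤ Real.log y := Real.log_nonneg hy
  have hlyL : Real.log y ≤ L := by
    have := Real.log_le_log hy0 hyL
    rwa [Real.log_exp] at this
  have hδy : δ * Real.log y ≤ Real.log z := by
    rw [hzL]
    exact mul_le_mul_of_nonneg_left hlyL hδ0.le
  obtain ⟨k, hk⟩ : ∃ k, k = kk h y := ⟨_, rfl⟩
  -- the grid
  have h1 := hg z L δ h hP y hy hyL (fun t => ‖u t‖ ^ 2) (C ^ 2) (2 * C ^ 2 * δ)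
    (fun t _ _ => by
      show |‖u t‖ ^ 2| ≤ C ^ 2
      rw [abs_of_nonneg (by positivity)]
      exact dfc_sq_le hS t)
    (fun t t' ht htt' ht' _ => dfc_slow hC hS (by linarith) htt' ht')
  rw [← hk] at h1
  have h1' : Cg * (C ^ 2 * Real.log z + 2 * C ^ 2 * δ * (1 + Real.log y)) ≤
      5 * Cg * C ^ 2 * Real.log z := by
    have h2 : δ * (1 + Real.log y) ≤ 2 * Real.log z := by nlinarith
    have h3 : 2 * C ^ 2 * δ * (1 + Real.log y) ≤ 2 * C ^ 2 * (2 * Real.log z) := by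
      rw [mul_assoc]
      exact mul_le_mul_of_nonneg_left h2 (by positivity)
    calc Cg * (C ^ 2 * Real.log z + 2 * C ^ 2 * δ * (1 + Real.log y))
        ≤ Cg * (C ^ 2 * Real.log z + 2 * C ^ 2 * (2 * Real.log z)) :=
          mul_le_mul_of_nonneg_left (by linarith) hCg.le
      _ = 5 * Cg * C ^ 2 * Real.log z := by ring
  -- the mass
  have h2 := hm z L δ h hP y hy hyL
  -- the cross term
  have h3 := hS.sel y hy hyL
  obtain ⟨Sg, hSg⟩ : ∃ Sg : ℂ, Sg = ∑ m ∈ Icc 1 ⌊y⌋₊, ((La z m / m : ℝ) : ℂ) * f m * u (y / m) :=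
    ⟨_, rfl⟩
  obtain ⟨Ms, hMs⟩ : ∃ Ms : ℝ, Ms = ∑ m ∈ Icc 1 ⌊y⌋₊, La z m / m := ⟨_, rfl⟩
  obtain ⟨Gs, hGs⟩ : ∃ Gs : ℝ, Gs = ∑ m ∈ Icc 1 ⌊y⌋₊, La z m / m * ‖u (y / m)‖ ^ 2 := ⟨_, rfl⟩
  have hexp := dfc_expand hS y
  rw [← hSg, ← hMs, ← hGs] at hexp
  rw [← hSg] at h3
  rw [← hMs] at h2
  rw [← hGs] at h1
  have h4 : |2 * (Sg * (starRingEnd ℂ) (u y)).re + 2 * (‖u y‖ ^ 2 * Real.log y)| ≤
      2 * C ^ 2 * Real.log z := by
    have h5 : 2 * (Sg * (starRingEnd ℂ) (u y)).re + 2 * (‖u y‖ ^ 2 * Real.log y) =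
        2 * ((u y * ((Real.log y : ℝ) : ℂ) + Sg) * (starRingEnd ℂ) (u y)).re := by
      have h6 : (u y * ((Real.log y : ℝ) : ℂ) + Sg) * (starRingEnd ℂ) (u y) =
          ((Real.log y : ℝ) : ℂ) * (u y * (starRingEnd ℂ) (u y)) + Sg * (starRingEnd ℂ) (u y) := by
        ring
      rw [h6, Complex.mul_conj, Complex.normSq_eq_norm_sq, ← Complex.ofReal_mul, Complex.add_re,
        Complex.ofReal_re]
      ring
    rw [h5, abs_mul, abs_of_pos (by norm_num : (0 : ℝ) < 2)]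
    have h7 : |((u y * ((Real.log y : ℝ) : ℂ) + Sg) * (starRingEnd ℂ) (u y)).re| ≤
        C * Real.log z * C := by
      refine (Complex.abs_re_le_norm _).trans ?_
      rw [norm_mul, RCLike.norm_conj]
      exact mul_le_mul h3 (hS.bd y) (norm_nonneg _) (by positivity)
    calc 2 * |((u y * ((Real.log y : ℝ) : ℂ) + Sg) * (starRingEnd ℂ) (u y)).re|
        ≤ 2 * (C * Real.log z * C) := by linarith
      _ = 2 * C ^ 2 * Real.log z := by ring
  have h5 : |‖u y‖ ^ 2 * (Ms - Real.log y)| ≤ C ^ 2 * Cm * Real.log z := by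
    rw [abs_mul, abs_of_nonneg (by positivity)]
    calc ‖u y‖ ^ 2 * |Ms - Real.log y| ≤ C ^ 2 * (Cm * Real.log z) :=
          mul_le_mul (dfc_sq_le hS y) h2 (abs_nonneg _) (by positivity)
      _ = C ^ 2 * Cm * Real.log z := by ring
  -- comparison with the grid point
  have hkY : Y h k ≤ y := dfc_Y_le hh0 hy (by rw [hk])
  have hYk : y ≤ Y h k * Real.exp h := by
    have h6 := dfc_lt_kk (y := y) hh0
    rw [← hk] at h6
    unfold Y
    rw [← Real.exp_add]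
    calc y = Real.exp (Real.log y) := (Real.exp_log hy0).symm
      _ ≤ _ := Real.exp_le_exp.2 h6.le
  have h6 := dfc_slow hC hS (lt_of_lt_of_le one_pos (dfc_one_le_Y hh0 k)) hkY hYk
  have h7 : |‖u y‖ ^ 2 * Real.log y - h * k * ‖u (Y h k)‖ ^ 2| ≤ 3 * C ^ 2 * Real.log z := by
    have h8 : ‖u y‖ ^ 2 * Real.log y - h * k * ‖u (Y h k)‖ ^ 2 =
        (‖u y‖ ^ 2 - ‖u (Y h k)‖ ^ 2) * Real.log y + ‖u (Y h k)‖ ^ 2 * (Real.log y - h * k) := by
      ring
    have h9 : |Real.log y - h * k| ≤ h := by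
      have h10 := dfc_kk_le hh0 hy
      have h11 := dfc_lt_kk (y := y) hh0
      rw [← hk] at h10 h11
      rw [abs_le]
      constructor <;> linarith
    rw [h8]
    refine (abs_add_le _ _).trans ?_
    rw [abs_mul, abs_mul, abs_of_nonneg hly, abs_of_nonneg (by positivity : 0 ≤ ‖u (Y h k)‖ ^ 2)]
    have h12 : |‖u y‖ ^ 2 - ‖u (Y h k)‖ ^ 2| * Real.log y ≤ 2 * C ^ 2 * Real.log z := by
      calc |‖u y‖ ^ 2 - ‖u (Y h k)‖ ^ 2| * Real.log y ≤ 2 * C ^ 2 * δ * Real.log y :=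
            mul_le_mul_of_nonneg_right h6 hly
        _ = 2 * C ^ 2 * (δ * Real.log y) := by ring
        _ ≤ 2 * C ^ 2 * Real.log z := mul_le_mul_of_nonneg_left hδy (by positivity)
    have h13 : ‖u (Y h k)‖ ^ 2 * |Real.log y - h * k| ≤ C ^ 2 * Real.log z := by
      calc ‖u (Y h k)‖ ^ 2 * |Real.log y - h * k| ≤ C ^ 2 * h :=
            mul_le_mul (dfc_sq_le hS _) h9 (abs_nonneg _) (by positivity)
        _ ≤ C ^ 2 * Real.log z := mul_le_mul_of_nonneg_left (by linarith) (by positivity)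
    linarith
  have hD : Dh h u (kk h y) = h * ∑ i ∈ range k, ‖u (Y h i)‖ ^ 2 - h * k * ‖u (Y h k)‖ ^ 2 := by
    rw [← hk]
    rfl
  rw [hD, hexp]
  obtain ⟨a1, b1⟩ := abs_le.1 (h1.trans h1')
  obtain ⟨a4, b4⟩ := abs_le.1 h4
  obtain ⟨a5, b5⟩ := abs_le.1 h5
  obtain ⟨a7, b7⟩ := abs_le.1 h7
  rw [abs_le]
  constructor <;> nlinarith

theorem defect_sum (C : ℝ) (hC : 0 < C) : ∃ C' : ℝ, 0 < C' ∧
    ∀ (z L δ h : ℝ) (f : ℕ → ℂ) (u : ℝ → ℂ),
    Pm z L δ h → Sys C z L δ h f u → ∀ y, z ≤ y → y ≤ Real.exp L →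
    ∑ m ∈ Icc 1 ⌊y⌋₊, La z m / m * DD z f u (y / m) ≤
      h * ∑ i ∈ range (kk h y), Dh h u i + C' * Real.log z * Real.log y := by
  obtain ⟨Cg, hCg, hg⟩ := grid
  obtain ⟨Cm, hCm, hm⟩ := mass
  obtain ⟨Cd, hCd, hd⟩ := defect C hC
  refine ⟨Cg * (4 * C ^ 2 * (1 + Cm) + 2 * (2 * Cd + 2 * C ^ 2)) + Cd, by positivity, ?_⟩
  intro z L δ h f u hP hS y hzy hyL
  have hl1 := dfc_one_le_log hP.z0
  have hδ0 := hP.d0
  have hδ1 := hP.d1
  have hzL := hP.zL
  have hh0 := hP.h0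
  have hh1 := hP.h1
  have hz1 : 1 ≤ z := by
    have := hP.z0
    have h2 := Real.add_one_le_exp (1 : ℝ)
    linarith
  have hz0 : 0 < z := by linarith
  have hy : 1 ≤ y := hz1.trans hzy
  have hy0 : 0 < y := by linarith
  have hly : Real.log z ≤ Real.log y := Real.log_le_log hz0 hzy
  have hly1 : 1 ≤ Real.log y := hl1.trans hly
  have hlyL : Real.log y ≤ L := by
    have := Real.log_le_log hy0 hyL
    rwa [Real.log_exp] at this
  -- upper bound of the defect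
  have hA : ∀ t, 1 ≤ t → t ≤ y → |DD z f u t| ≤ 4 * C ^ 2 * (1 + Cm) * Real.log y := by
    intro t ht hty
    have h1 : 0 ≤ DD z f u t := Finset.sum_nonneg fun m _ =>
      mul_nonneg (div_nonneg (dfc_La_nonneg z m) (Nat.cast_nonneg m)) (by positivity)
    rw [abs_of_nonneg h1]
    have h2 : DD z f u t ≤ ∑ m ∈ Icc 1 ⌊t⌋₊, La z m / m * (4 * C ^ 2) := by
      refine Finset.sum_le_sum fun m hm' => ?_
      rw [Finset.mem_Icc] at hm'
      rcases eq_or_lt_of_le (dfc_La_nonneg z m) with h3 | h3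
      · rw [← h3]; simp
      · have hR : Rough z m := by
          by_contra hR
          have : La z m = 0 := by
            unfold La rho
            rw [if_neg hR, zero_mul]
          linarith
        refine mul_le_mul_of_nonneg_left ?_ (div_nonneg h3.le (Nat.cast_nonneg m))
        have h4 : ‖f m * u (t / m) + u t‖ ≤ 2 * C := by
          refine (norm_add_le _ _).trans ?_
          rw [norm_mul, hS.one m hm'.1 hR, one_mul]
          have := hS.bd (t / m)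
          have := hS.bd t
          linarith
        calc ‖f m * u (t / m) + u t‖ ^ 2 ≤ (2 * C) ^ 2 := pow_le_pow_left₀ (norm_nonneg _) h4 2
          _ = 4 * C ^ 2 := by ring
    refine h2.trans ?_
    rw [← Finset.sum_mul]
    have h3 := (abs_le.1 (hm z L δ h hP t ht (hty.trans hyL))).2
    have h4 : Real.log t ≤ Real.log y := Real.log_le_log (by linarith) hty
    have h5 : ∑ m ∈ Icc 1 ⌊t⌋₊, La z m / m ≤ (1 + Cm) * Real.log y := by nlinarith
    calc (∑ m ∈ Icc 1 ⌊t⌋₊, La z m / m) * (4 * C ^ 2) ≤ (1 + Cm) * Real.log y * (4 * C ^ 2) :=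
          mul_le_mul_of_nonneg_right h5 (by positivity)
      _ = _ := by ring
  -- slow variation
  have hA' : ∀ t t', 1 ≤ t → t ≤ t' → t' ≤ t * Real.exp h → t' ≤ y →
      |DD z f u t' - DD z f u t| ≤ (2 * Cd + 2 * C ^ 2) * Real.log z := by
    intro t t' ht htt' ht' ht'y
    have ht'1 : 1 ≤ t' := ht.trans htt'
    have h1 := hd z L δ h f u hP hS t ht ((htt'.trans ht'y).trans hyL)
    have h2 := hd z L δ h f u hP hS t' ht'1 (ht'y.trans hyL)
    have h3 : |Dh h u (kk h t') - Dh h u (kk h t)| ≤ 2 * C ^ 2 * Real.log z := by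
      have h4 : Real.log t ≤ Real.log t' := Real.log_le_log (by linarith) htt'
      have h5 : Real.log t' ≤ Real.log t + h := by
        have := Real.log_le_log (by linarith) ht'
        rwa [Real.log_mul (by linarith) (Real.exp_pos h).ne', Real.log_exp] at this
      have h6 : kk h t ≤ kk h t' := Nat.floor_mono (div_le_div_of_nonneg_right h4 hh0.le)
      have h7 : kk h t' ≤ kk h t + 1 := by
        have h8 := dfc_kk_le hh0 ht'1
        have h9 := dfc_lt_kk (y := t) hh0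
        have h10 : h * (kk h t' : ℝ) < h * (kk h t + 2 : ℝ) := by linarith
        have h11 := lt_of_mul_lt_mul_left h10 hh0.le
        have h12 : kk h t' < kk h t + 2 := by exact_mod_cast h11
        omega
      rcases Nat.lt_or_ge (kk h t) (kk h t') with h8 | h8
      · have h9 : kk h t' = kk h t + 1 := by omega
        have h10 := dfc_kk_le hh0 ht'1
        rw [h9]
        rw [h9] at h10
        obtain ⟨k, hk⟩ : ∃ k, k = kk h t := ⟨_, rfl⟩
        rw [← hk] at h10 ⊢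
        have h11 : Dh h u (k + 1) - Dh h u k =
            -(h * ((k + 1 : ℕ) : ℝ)) * (‖u (Y h (k + 1))‖ ^ 2 - ‖u (Y h k)‖ ^ 2) := by
          unfold Dh Dq
          rw [Finset.sum_range_succ]
          push_cast
          ring
        have h12 := dfc_slow hC hS (lt_of_lt_of_le one_pos (dfc_one_le_Y hh0 k))
          (by rw [dfc_Y_succ]
              exact le_mul_of_one_le_right (zero_le_one.trans (dfc_one_le_Y hh0 k))
                (Real.one_le_exp hh0.le)) (dfc_Y_succ h k).le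
        have h13 : h * ((k + 1 : ℕ) : ℝ) ≤ L :=
          h10.trans ((Real.log_le_log (by linarith) ht'y).trans hlyL)
        have h14 : 0 ≤ h * ((k + 1 : ℕ) : ℝ) := by positivity
        rw [h11, abs_mul, abs_neg, abs_of_nonneg h14]
        calc h * ((k + 1 : ℕ) : ℝ) * |‖u (Y h (k + 1))‖ ^ 2 - ‖u (Y h k)‖ ^ 2|
            ≤ L * (2 * C ^ 2 * δ) := mul_le_mul h13 h12 (abs_nonneg _) (h14.trans h13)
          _ = 2 * C ^ 2 * Real.log z := by rw [hzL]; ring
      · have h9 : kk h t' = kk h t := le_antisymm h8 h6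
        rw [h9, sub_self, abs_zero]
        positivity
    obtain ⟨a1, b1⟩ := abs_le.1 h1
    obtain ⟨a2, b2⟩ := abs_le.1 h2
    obtain ⟨a3, b3⟩ := abs_le.1 h3
    rw [abs_le]
    constructor <;> linarith
  have h1 := (abs_le.1 (hg z L δ h hP y hy hyL (DD z f u) _ _ hA hA')).2
  have h2 : h * ∑ i ∈ range (kk h y), DD z f u (Y h i) ≤
      h * ∑ i ∈ range (kk h y), Dh h u i + Cd * Real.log z * Real.log y := by
    have h3 : ∑ i ∈ range (kk h y), DD z f u (Y h i) ≤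
        ∑ i ∈ range (kk h y), (Dh h u i + Cd * Real.log z) := by
      refine Finset.sum_le_sum fun i hi => ?_
      rw [Finset.mem_range] at hi
      have h4 := (abs_le.1 (hd z L δ h f u hP hS (Y h i) (dfc_one_le_Y hh0 i)
        ((dfc_Y_le hh0 hy hi.le).trans hyL))).2
      rw [dfc_kk_Y hh0 i] at h4
      linarith
    rw [Finset.sum_add_distrib, Finset.sum_const, Finset.card_range, nsmul_eq_mul] at h3
    have h5 := mul_le_mul_of_nonneg_left h3 hh0.le
    have h6 := dfc_kk_le hh0 hy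
    have h7 : h * ((kk h y : ℝ) * (Cd * Real.log z)) ≤ Cd * Real.log z * Real.log y := by
      calc h * ((kk h y : ℝ) * (Cd * Real.log z)) = h * (kk h y : ℝ) * (Cd * Real.log z) := by ring
        _ ≤ Real.log y * (Cd * Real.log z) := mul_le_mul_of_nonneg_right h6 (by positivity)
        _ = _ := by ring
    rw [mul_add] at h5
    linarith
  have h3 : Cg * (4 * C ^ 2 * (1 + Cm) * Real.log y * Real.log z +
      (2 * Cd + 2 * C ^ 2) * Real.log z * (1 + Real.log y)) ≤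
      Cg * (4 * C ^ 2 * (1 + Cm) + 2 * (2 * Cd + 2 * C ^ 2)) * Real.log z * Real.log y := by
    have h4 : (2 * Cd + 2 * C ^ 2) * Real.log z * (1 + Real.log y) ≤
        (2 * Cd + 2 * C ^ 2) * Real.log z * (2 * Real.log y) :=
      mul_le_mul_of_nonneg_left (by linarith) (by positivity)
    calc Cg * (4 * C ^ 2 * (1 + Cm) * Real.log y * Real.log z +
        (2 * Cd + 2 * C ^ 2) * Real.log z * (1 + Real.log y))
        ≤ Cg * (4 * C ^ 2 * (1 + Cm) * Real.log y * Real.log z +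
          (2 * Cd + 2 * C ^ 2) * Real.log z * (2 * Real.log y)) :=
          mul_le_mul_of_nonneg_left (by linarith) hCg.le
      _ = _ := by ring
  calc ∑ m ∈ Icc 1 ⌊y⌋₊, La z m / m * DD z f u (y / m)
      ≤ h * ∑ i ∈ range (kk h y), DD z f u (Y h i) +
        Cg * (4 * C ^ 2 * (1 + Cm) * Real.log y * Real.log z +
      (2 * Cd + 2 * C ^ 2) * Real.log z * (1 + Real.log y)) := by linarith
    _ ≤ _ := by linarith

end Pool.MP_dd84fd_nt.QZ
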