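import Pool.Agent.Lib.MP_dd84fd_nt.QZ.Grid

/-!
# QZ-TLow: lower bound for `TT`.  Prefix aux lemmas `tlow_`.

tt_split: `rho(n) lam2(n)/n = La(n) log n/n + ∑_{mk=n} La(m) La(k)/(mk)` (rho is completely multiplicative on positive integers), reorder;
the sum over `k` is empty for `m > y` (`⌊y/m⌋₊ = 0`).
t_low. `w = log y`, `l = log z`, `G_i = ‖u_i y‖²`, `d_i(m) = f_i m u_i(y/m) + u_i y`.  `f_i(m) ph u_i y m = -G_i + d_i(m) conj(u_i y)`, so the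
product with the conjugate of the other is `G_1 G_2 + O(C³(|d_1| + |d_2|))`.  `∑ La log m/m |d_i(m)| ≤ w √mass √(DD_i)` (Cauchy; mass(y) ≤ C w by
`mass`, y ≥ z).
Two variables: `f(m) f(k) u(y/(mk)) = f(m) (d^(m)(k) - u(y/m)) = f(m) d^(m)(k) - d(m) + u(y)`, `d^(m)(k) = f(k) u((y/m)/k) + u(y/m)`, so again
`G_1 G_2 + O(C³ ∑_i (|d_i^(m)(k)| + |d_i(m)|))`; `∑_m (La/m) ∑_k (La/k) |d^(m)(k)| ≤ ∑_m (La/m) √(mass(y/m)) √(DD(y/m)) ≤ C w √(∑_m (La/m) DD(y/m))`.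
Main: `∑ La log m/m + ∑_m (La/m) mass(y/m) ≥ ∑_m (La/m) (log m + log(y/m) - C l) = (w - C l) mass(y) ≥ w² - C' w l` (if `w < C l` use that the
left side is `≥ 0 ≥ w² - C w l`).  (y/m ≥ 1 for m ≤ y.)  Errors from Cauchy with `La ≥ 0`.
-/

set_option autoImplicit false

namespace Pool.MP_dd84fd_nt.QZ

open Finset
open Pool.MP_dd84fd_nt.En (Rough rho)

private theorem tlow_rho (z : ℝ) (a b : ℕ) : rho z (a * b) = rho z a * rho z b := by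
  have h : Rough z (a * b) ↔ Rough z a ∧ Rough z b := by
    constructor
    · intro h
      exact ⟨fun p hp hd => h p hp (hd.mul_right b), fun p hp hd => h p hp (hd.mul_left a)⟩
    · rintro ⟨h1, h2⟩ p hp hd
      rcases (hp.dvd_mul).1 hd with h | h
      · exact h1 p hp h
      · exact h2 p hp h
  unfold rho
  by_cases h1 : Rough z a <;> by_cases h2 : Rough z b <;> simp [h, h1, h2]

private theorem tlow_reorder (N : ℕ) (F : ℕ → ℕ → ℂ) :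
    ∑ n ∈ Icc 1 N, ∑ a ∈ n.divisorsAntidiagonal, F a.1 a.2 =
      ∑ m ∈ Icc 1 N, ∑ k ∈ Icc 1 (N / m), F m k := by
  rw [Finset.sum_sigma', Finset.sum_sigma']
  refine Finset.sum_nbij' (fun p => ⟨p.2.1, p.2.2⟩) (fun p => ⟨p.1 * p.2, (p.1, p.2)⟩) ?_ ?_ ?_ ?_ ?_
  · rintro ⟨n, a, b⟩ h
    simp only [mem_sigma, mem_Icc, Nat.mem_divisorsAntidiagonal] at h ⊢
    obtain ⟨⟨h1, h2⟩, h3, h4⟩ := h
    have ha : 0 < a := Nat.pos_of_ne_zero fun h => by rw [h] at h3; omega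
    have hb : 0 < b := Nat.pos_of_ne_zero fun h => by rw [h] at h3; omega
    have h5 : a ≤ a * b := Nat.le_mul_of_pos_right a hb
    refine ⟨⟨ha, by omega⟩, hb, ?_⟩
    rw [Nat.le_div_iff_mul_le ha, Nat.mul_comm]
    omega
  · rintro ⟨m, k⟩ h
    simp only [mem_sigma, mem_Icc, Nat.mem_divisorsAntidiagonal] at h ⊢
    obtain ⟨⟨h1, h2⟩, h3, h4⟩ := h
    rw [Nat.le_div_iff_mul_le h1, Nat.mul_comm] at h4
    have h5 : 0 < m * k := Nat.mul_pos h1 h3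
    exact ⟨⟨h5, h4⟩, trivial, by omega⟩
  · rintro ⟨n, a, b⟩ h
    simp only [mem_sigma, mem_Icc, Nat.mem_divisorsAntidiagonal] at h
    obtain ⟨-, h3, -⟩ := h
    subst h3
    rfl
  · rintro ⟨m, k⟩ _
    rfl
  · rintro ⟨n, a, b⟩ _
    rfl

/-- `TT` as a sum over one and over two variables -/
theorem tt_split (z : ℝ) (f1 f2 : ℕ → ℂ) (u1 u2 : ℝ → ℂ) (y : ℝ)
    (h1 : ∀ m n : ℕ, f1 (m * n) = f1 m * f1 n) (h2 : ∀ m n : ℕ, f2 (m * n) = f2 m * f2 n) :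
    TT z f1 f2 u1 u2 y =
      (∑ m ∈ Icc 1 ⌊y⌋₊, ((La z m * Real.log m / m : ℝ) : ℂ) *
        ((f1 m * ph u1 y m) * (starRingEnd ℂ) (f2 m * ph u2 y m))) +
      ∑ m ∈ Icc 1 ⌊y⌋₊, ∑ k ∈ Icc 1 ⌊y / m⌋₊, ((La z m * La z k / (m * k) : ℝ) : ℂ) *
        ((f1 m * f1 k * ph u1 y (m * k)) * (starRingEnd ℂ) (f2 m * f2 k * ph u2 y (m * k))) := by
  have hr : ∀ m : ℕ, ⌊y / m⌋₊ = ⌊y⌋₊ / m := fun m => Nat.floor_div_natCast y m
  have hr2 : ∑ m ∈ Icc 1 ⌊y⌋₊, ∑ k ∈ Icc 1 ⌊y / m⌋₊, ((La z m * La z k / (m * k) : ℝ) : ℂ) *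
        ((f1 m * f1 k * ph u1 y (m * k)) * (starRingEnd ℂ) (f2 m * f2 k * ph u2 y (m * k))) =
      ∑ n ∈ Icc 1 ⌊y⌋₊, ∑ a ∈ n.divisorsAntidiagonal,
        ((La z a.1 * La z a.2 / (a.1 * a.2) : ℝ) : ℂ) *
        ((f1 a.1 * f1 a.2 * ph u1 y (a.1 * a.2)) *
          (starRingEnd ℂ) (f2 a.1 * f2 a.2 * ph u2 y (a.1 * a.2))) := by
    rw [tlow_reorder ⌊y⌋₊ (fun m k => ((La z m * La z k / (m * k) : ℝ) : ℂ) *
        ((f1 m * f1 k * ph u1 y (m * k)) * (starRingEnd ℂ) (f2 m * f2 k * ph u2 y (m * k))))]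
    exact sum_congr rfl fun m _ => by rw [hr]
  rw [hr2, ← sum_add_distrib]
  unfold TT
  refine sum_congr rfl fun n hn => ?_
  have e1 : ∀ a ∈ n.divisorsAntidiagonal, ((La z a.1 * La z a.2 / (a.1 * a.2) : ℝ) : ℂ) *
        ((f1 a.1 * f1 a.2 * ph u1 y (a.1 * a.2)) *
          (starRingEnd ℂ) (f2 a.1 * f2 a.2 * ph u2 y (a.1 * a.2))) =
      ((ArithmeticFunction.vonMangoldt a.1 * ArithmeticFunction.vonMangoldt a.2 : ℝ) : ℂ) *
        (((rho z n / n : ℝ) : ℂ) * (f1 n * (starRingEnd ℂ) (f2 n)) *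
          (ph u1 y n * (starRingEnd ℂ) (ph u2 y n))) := by
    rintro ⟨a, b⟩ hab
    obtain ⟨h3, -⟩ := Nat.mem_divisorsAntidiagonal.1 hab
    simp only at h3 ⊢
    subst h3
    rw [tlow_rho, h1, h2, Nat.cast_mul]
    unfold La
    push_cast
    simp only [map_mul]
    ring
  rw [sum_congr rfl e1, ← sum_mul, ← Complex.ofReal_sum]
  unfold lam2 La
  push_cast
  simp only [map_mul]
  ring

private theorem tlow_La_nonneg (z : ℝ) (m : ℕ) : 0 ≤ La z m := by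
  unfold La rho
  split_ifs
  · rw [one_mul]
    exact ArithmeticFunction.vonMangoldt_nonneg
  · rw [zero_mul]

/-- inequalities have to be proved at rough numbers only -/
private theorem tlow_La_mul {z : ℝ} {m : ℕ} {c X Y : ℝ} (hc : 0 ≤ c) (h : Rough z m → X ≤ Y) :
    La z m * c * X ≤ La z m * c * Y := by
  by_cases hm : Rough z m
  · exact mul_le_mul_of_nonneg_left (h hm) (mul_nonneg (tlow_La_nonneg z m) hc)
  · have : La z m = 0 := by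
      unfold La rho
      rw [if_neg hm, zero_mul]
    rw [this, zero_mul, zero_mul, zero_mul]

private theorem tlow_alg (s G1 G2 : ℝ) (e1 e2 : ℂ) (hs : s ^ 2 = 1) (hs2 : |s| = 1) (h1 : 0 ≤ G1)
    (h2 : 0 ≤ G2) :
    G1 * G2 - (G1 * ‖e2‖ + G2 * ‖e1‖ + ‖e1‖ * ‖e2‖) ≤
      ((((s * G1 : ℝ) : ℂ) + e1) * (starRingEnd ℂ) (((s * G2 : ℝ) : ℂ) + e2)).re := by
  have k0 : ((((s * G1 : ℝ) : ℂ) + e1) * (starRingEnd ℂ) (((s * G2 : ℝ) : ℂ) + e2)).re =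
      s ^ 2 * (G1 * G2) + s * G1 * e2.re + s * G2 * e1.re + (e1 * (starRingEnd ℂ) e2).re := by
    simp only [map_add, Complex.conj_ofReal, Complex.mul_re, Complex.add_re, Complex.add_im,
      Complex.ofReal_re, Complex.ofReal_im, Complex.conj_re, Complex.conj_im]
    ring
  rw [k0, hs]
  have k1 : |s * G1 * e2.re| ≤ G1 * ‖e2‖ := by
    rw [abs_mul, abs_mul, hs2, one_mul, abs_of_nonneg h1]
    exact mul_le_mul_of_nonneg_left (Complex.abs_re_le_norm e2) h1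
  have k2 : |s * G2 * e1.re| ≤ G2 * ‖e1‖ := by
    rw [abs_mul, abs_mul, hs2, one_mul, abs_of_nonneg h2]
    exact mul_le_mul_of_nonneg_left (Complex.abs_re_le_norm e1) h2
  have k3 : |(e1 * (starRingEnd ℂ) e2).re| ≤ ‖e1‖ * ‖e2‖ := by
    refine (Complex.abs_re_le_norm _).trans (le_of_eq ?_)
    rw [norm_mul, Complex.norm_conj]
  have k4 := (abs_le.1 k1).1
  have k5 := (abs_le.1 k2).1
  have k6 := (abs_le.1 k3).1
  linarith

private theorem tlow_alg2 (C s : ℝ) (hC : 0 < C) (v1 v2 e1 e2 : ℂ) (D1 D2 : ℝ) (hs : s ^ 2 = 1)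
    (hs2 : |s| = 1) (h1 : ‖v1‖ ≤ C) (h2 : ‖v2‖ ≤ C) (he1 : ‖e1‖ ≤ C * D1) (he2 : ‖e2‖ ≤ C * D2)
    (hD1 : D1 ≤ 4 * C) :
    ‖v1‖ ^ 2 * ‖v2‖ ^ 2 - 5 * C ^ 3 * (D1 + D2) ≤
      ((((s * ‖v1‖ ^ 2 : ℝ) : ℂ) + e1) * (starRingEnd ℂ) (((s * ‖v2‖ ^ 2 : ℝ) : ℂ) + e2)).re := by
  refine le_trans ?_ (tlow_alg s _ _ e1 e2 hs hs2 (sq_nonneg _) (sq_nonneg _))
  have g1 : ‖v1‖ ^ 2 ≤ C ^ 2 := pow_le_pow_left₀ (norm_nonneg _) h1 2
  have g2 : ‖v2‖ ^ 2 ≤ C ^ 2 := pow_le_pow_left₀ (norm_nonneg _) h2 2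
  have d1 : 0 ≤ C * D1 := (norm_nonneg _).trans he1
  have d2 : 0 ≤ C * D2 := (norm_nonneg _).trans he2
  have c2 : (0 : ℝ) ≤ C ^ 2 := sq_nonneg _
  have t1 : ‖v1‖ ^ 2 * ‖e2‖ ≤ C ^ 2 * (C * D2) := mul_le_mul g1 he2 (norm_nonneg _) c2
  have t2 : ‖v2‖ ^ 2 * ‖e1‖ ≤ C ^ 2 * (C * D1) := mul_le_mul g2 he1 (norm_nonneg _) c2
  have t3 : ‖e1‖ * ‖e2‖ ≤ (C * (4 * C)) * (C * D2) :=
    mul_le_mul (he1.trans (mul_le_mul_of_nonneg_left hD1 hC.le)) he2 (norm_nonneg _)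
      (by positivity)
  have t4 : 0 ≤ 4 * C ^ 2 * (C * D1) := by positivity
  have t5 : 5 * C ^ 3 * (D1 + D2) = C ^ 2 * (C * D1) + C ^ 2 * (C * D2) +
      (C * (4 * C)) * (C * D2) + 4 * C ^ 2 * (C * D1) := by ring
  linarith

private theorem tlow_cs (s : Finset ℕ) (a X : ℕ → ℝ) (ha : ∀ m ∈ s, 0 ≤ a m) :
    ∑ m ∈ s, a m * X m ≤ Real.sqrt (∑ m ∈ s, a m) * Real.sqrt (∑ m ∈ s, a m * X m ^ 2) := by
  have h := Finset.sum_sq_le_sum_mul_sum_of_sq_le_mul s (r := fun m => a m * X m)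
    (f := a) (g := fun m => a m * X m ^ 2) ha
    (fun m hm => mul_nonneg (ha m hm) (sq_nonneg _)) (fun m _ => le_of_eq (by ring))
  rw [← Real.sqrt_mul (sum_nonneg ha)]
  exact Real.le_sqrt_of_sq_le h

private theorem tlow_sqrt {K w : ℝ} (hK : 1 ≤ K) (hw : 0 ≤ w) {M : ℝ} (hM : M ≤ K * w) :
    Real.sqrt M ≤ K * Real.sqrt w := by
  have h1 : Real.sqrt M ≤ Real.sqrt (K ^ 2 * w) := by
    apply Real.sqrt_le_sqrt
    have h2 : K * w ≤ K ^ 2 * w := by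
      have h3 : K ≤ K ^ 2 := by
        rw [pow_two]
        exact le_mul_of_one_le_left (by linarith) hK
      exact mul_le_mul_of_nonneg_right h3 hw
    linarith
  rwa [Real.sqrt_mul (sq_nonneg _), Real.sqrt_sq (by linarith)] at h1

private theorem tlow_div {y : ℝ} (hy : 1 ≤ y) {m : ℕ} (hm : m ∈ Icc 1 ⌊y⌋₊) :
    1 ≤ (m : ℝ) ∧ (m : ℝ) ≤ y ∧ 1 ≤ y / m ∧ y / m ≤ y := by
  obtain ⟨h1, h2⟩ := mem_Icc.1 hm
  have h3 : (1 : ℝ) ≤ m := by exact_mod_cast h1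
  have h4 : (m : ℝ) ≤ y := (Nat.le_floor_iff (by linarith)).1 h2
  have h5 : (0 : ℝ) < m := by linarith
  refine ⟨h3, h4, (one_le_div h5).2 h4, div_le_self (by linarith) h3⟩

private theorem tlow_err (z y K : ℝ) (f : ℕ → ℂ) (u : ℝ → ℂ) (hy : 1 ≤ y) (hK : 1 ≤ K)
    (hM : ∀ t, 1 ≤ t → t ≤ y → ∑ k ∈ Icc 1 ⌊t⌋₊, La z k / k ≤ K * Real.log y) :
    (∑ m ∈ Icc 1 ⌊y⌋₊, La z m / m * Real.log m * ‖f m * u (y / m) + u y‖ ≤
      K ^ 2 * (Real.log y * Real.sqrt (Real.log y) * Real.sqrt (DD z f u y))) ∧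
    (∑ m ∈ Icc 1 ⌊y⌋₊, La z m / m * (∑ k ∈ Icc 1 ⌊y / m⌋₊, La z k / k) *
        ‖f m * u (y / m) + u y‖ ≤
      K ^ 2 * (Real.log y * Real.sqrt (Real.log y) * Real.sqrt (DD z f u y))) ∧
    ∑ m ∈ Icc 1 ⌊y⌋₊, La z m / m * ∑ k ∈ Icc 1 ⌊y / m⌋₊,
        La z k / k * ‖f k * u (y / m / k) + u (y / m)‖ ≤
      K ^ 2 * (Real.log y * Real.sqrt (∑ m ∈ Icc 1 ⌊y⌋₊, La z m / m * DD z f u (y / m))) := by
  obtain ⟨w, hw⟩ : ∃ w, w = Real.log y := ⟨_, rfl⟩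
  rw [← hw] at hM ⊢
  have hw0 : 0 ≤ w := by rw [hw]; exact Real.log_nonneg hy
  have ha : ∀ m : ℕ, 0 ≤ La z m / m := fun m => div_nonneg (tlow_La_nonneg z m) (Nat.cast_nonneg m)
  have hK0 : 0 ≤ K := by linarith
  have hB : ∑ m ∈ Icc 1 ⌊y⌋₊, La z m / m * ‖f m * u (y / m) + u y‖ ≤
      K * Real.sqrt w * Real.sqrt (DD z f u y) := by
    refine (tlow_cs _ _ _ fun m _ => ha m).trans ?_
    exact mul_le_mul_of_nonneg_right (tlow_sqrt hK hw0 (hM y hy le_rfl)) (Real.sqrt_nonneg _)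
  have hR : 0 ≤ w * Real.sqrt w * Real.sqrt (DD z f u y) := by positivity
  refine ⟨?_, ?_, ?_⟩
  · calc ∑ m ∈ Icc 1 ⌊y⌋₊, La z m / m * Real.log m * ‖f m * u (y / m) + u y‖
        ≤ ∑ m ∈ Icc 1 ⌊y⌋₊, w * (La z m / m * ‖f m * u (y / m) + u y‖) := by
          refine sum_le_sum fun m hm => ?_
          obtain ⟨g1, g2, -, -⟩ := tlow_div hy hm
          have g3 : Real.log m ≤ w := by
            rw [hw]
            exact Real.log_le_log (by linarith) g2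
          have g4 := mul_le_mul_of_nonneg_left g3
            (mul_nonneg (ha m) (norm_nonneg (f m * u (y / m) + u y)))
          linarith
      _ = w * ∑ m ∈ Icc 1 ⌊y⌋₊, La z m / m * ‖f m * u (y / m) + u y‖ := by rw [mul_sum]
      _ ≤ w * (K * Real.sqrt w * Real.sqrt (DD z f u y)) := mul_le_mul_of_nonneg_left hB hw0
      _ = K * (w * Real.sqrt w * Real.sqrt (DD z f u y)) := by ring
      _ ≤ K ^ 2 * (w * Real.sqrt w * Real.sqrt (DD z f u y)) := by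
          refine mul_le_mul_of_nonneg_right ?_ hR
          rw [pow_two]
          exact le_mul_of_one_le_left hK0 hK
  · calc ∑ m ∈ Icc 1 ⌊y⌋₊, La z m / m * (∑ k ∈ Icc 1 ⌊y / m⌋₊, La z k / k) *
          ‖f m * u (y / m) + u y‖
        ≤ ∑ m ∈ Icc 1 ⌊y⌋₊, (K * w) * (La z m / m * ‖f m * u (y / m) + u y‖) := by
          refine sum_le_sum fun m hm => ?_
          obtain ⟨-, -, g1, g2⟩ := tlow_div hy hm
          have g4 := mul_le_mul_of_nonneg_left (hM _ g1 g2)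
            (mul_nonneg (ha m) (norm_nonneg (f m * u (y / m) + u y)))
          linarith
      _ = (K * w) * ∑ m ∈ Icc 1 ⌊y⌋₊, La z m / m * ‖f m * u (y / m) + u y‖ := by rw [mul_sum]
      _ ≤ (K * w) * (K * Real.sqrt w * Real.sqrt (DD z f u y)) :=
          mul_le_mul_of_nonneg_left hB (mul_nonneg hK0 hw0)
      _ = K ^ 2 * (w * Real.sqrt w * Real.sqrt (DD z f u y)) := by ring
  · have hD : ∀ t, 0 ≤ DD z f u t := fun t => by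
      unfold DD
      exact sum_nonneg fun m _ => mul_nonneg (ha m) (sq_nonneg _)
    calc ∑ m ∈ Icc 1 ⌊y⌋₊, La z m / m * ∑ k ∈ Icc 1 ⌊y / m⌋₊,
          La z k / k * ‖f k * u (y / m / k) + u (y / m)‖
        ≤ ∑ m ∈ Icc 1 ⌊y⌋₊, (K * Real.sqrt w) * (La z m / m * Real.sqrt (DD z f u (y / m))) := by
          refine sum_le_sum fun m hm => ?_
          obtain ⟨-, -, g1, g2⟩ := tlow_div hy hm
          have g3 : ∑ k ∈ Icc 1 ⌊y / m⌋₊, La z k / k * ‖f k * u (y / m / k) + u (y / m)‖ ≤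
              K * Real.sqrt w * Real.sqrt (DD z f u (y / m)) := by
            refine (tlow_cs _ _ _ fun m _ => ha m).trans ?_
            exact mul_le_mul_of_nonneg_right (tlow_sqrt hK hw0 (hM _ g1 g2)) (Real.sqrt_nonneg _)
          have g4 := mul_le_mul_of_nonneg_left g3 (ha m)
          linarith
      _ = (K * Real.sqrt w) * ∑ m ∈ Icc 1 ⌊y⌋₊, La z m / m * Real.sqrt (DD z f u (y / m)) := by
          rw [mul_sum]
      _ ≤ (K * Real.sqrt w) * ((K * Real.sqrt w) *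
            Real.sqrt (∑ m ∈ Icc 1 ⌊y⌋₊, La z m / m * DD z f u (y / m))) := by
          refine mul_le_mul_of_nonneg_left ?_ (mul_nonneg hK0 (Real.sqrt_nonneg _))
          have g3 := tlow_cs (Icc 1 ⌊y⌋₊) (fun m => La z m / m)
            (fun m => Real.sqrt (DD z f u (y / m))) fun m _ => ha m
          have g5 : ∑ m ∈ Icc 1 ⌊y⌋₊, La z m / m * Real.sqrt (DD z f u (y / m)) ^ 2 =
              ∑ m ∈ Icc 1 ⌊y⌋₊, La z m / m * DD z f u (y / m) :=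
            sum_congr rfl fun m _ => by rw [Real.sq_sqrt (hD _)]
          rw [g5] at g3
          refine g3.trans ?_
          exact mul_le_mul_of_nonneg_right (tlow_sqrt hK hw0 (hM y hy le_rfl)) (Real.sqrt_nonneg _)
      _ = K ^ 2 * ((Real.sqrt w * Real.sqrt w) *
            Real.sqrt (∑ m ∈ Icc 1 ⌊y⌋₊, La z m / m * DD z f u (y / m))) := by ring
      _ = K ^ 2 * (w * Real.sqrt (∑ m ∈ Icc 1 ⌊y⌋₊, La z m / m * DD z f u (y / m))) := by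
          rw [Real.mul_self_sqrt hw0]

private theorem tlow_La_mul2 {z : ℝ} {m k : ℕ} {c X Y : ℝ} (hc : 0 ≤ c)
    (h : Rough z m → Rough z k → X ≤ Y) :
    La z m * La z k * c * X ≤ La z m * La z k * c * Y := by
  by_cases hm : Rough z m
  · have h1 : La z k * c * X ≤ La z k * c * Y := tlow_La_mul hc fun hk => h hm hk
    have h2 := mul_le_mul_of_nonneg_left h1 (tlow_La_nonneg z m)
    linarith
  · have : La z m = 0 := by
      unfold La rho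
      rw [if_neg hm, zero_mul]
    rw [this]
    simp

private theorem tlow_one {C z L δ h : ℝ} {f : ℕ → ℂ} {u : ℝ → ℂ} (S : Sys C z L δ h f u) (y : ℝ)
    {m : ℕ} (hm : 1 ≤ m) (hr : Rough z m) :
    ∃ e : ℂ, f m * ph u y m = ((-1 * ‖u y‖ ^ 2 : ℝ) : ℂ) + e ∧
      ‖e‖ ≤ C * ‖f m * u (y / m) + u y‖ ∧ ‖f m * u (y / m) + u y‖ ≤ 2 * C := by
  have k0 : u y * (starRingEnd ℂ) (u y) = ((‖u y‖ ^ 2 : ℝ) : ℂ) := by
    rw [Complex.mul_conj, Complex.normSq_eq_norm_sq]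
  refine ⟨(f m * u (y / m) + u y) * (starRingEnd ℂ) (u y), ?_, ?_, ?_⟩
  · have k1 : (((-1 * ‖u y‖ ^ 2 : ℝ)) : ℂ) = -(((‖u y‖ ^ 2 : ℝ)) : ℂ) := by
      push_cast
      ring
    rw [k1, ← k0]
    unfold ph
    ring
  · rw [norm_mul, Complex.norm_conj, mul_comm]
    exact mul_le_mul_of_nonneg_right (S.bd y) (norm_nonneg _)
  · refine (norm_add_le _ _).trans ?_
    rw [norm_mul, S.one m hm hr, one_mul]
    linarith [S.bd y, S.bd (y / m)]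

private theorem tlow_two {C z L δ h : ℝ} {f : ℕ → ℂ} {u : ℝ → ℂ} (S : Sys C z L δ h f u) (y : ℝ)
    {m k : ℕ} (hm : 1 ≤ m) (hk : 1 ≤ k) (hr : Rough z m) (hr2 : Rough z k) :
    ∃ e : ℂ, f m * f k * ph u y (m * k) = ((1 * ‖u y‖ ^ 2 : ℝ) : ℂ) + e ∧
      ‖e‖ ≤ C * (‖f k * u (y / m / k) + u (y / m)‖ + ‖f m * u (y / m) + u y‖) ∧
      ‖f k * u (y / m / k) + u (y / m)‖ + ‖f m * u (y / m) + u y‖ ≤ 4 * C := by
  have k0 : u y * (starRingEnd ℂ) (u y) = ((‖u y‖ ^ 2 : ℝ) : ℂ) := by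
    rw [Complex.mul_conj, Complex.normSq_eq_norm_sq]
  have k2 : ‖f m * u (y / m) + u y‖ ≤ 2 * C := by
    refine (norm_add_le _ _).trans ?_
    rw [norm_mul, S.one m hm hr, one_mul]
    linarith [S.bd y, S.bd (y / m)]
  have k3 : ‖f k * u (y / m / k) + u (y / m)‖ ≤ 2 * C := by
    refine (norm_add_le _ _).trans ?_
    rw [norm_mul, S.one k hk hr2, one_mul]
    linarith [S.bd (y / m / k), S.bd (y / m)]
  refine ⟨(f m * (f k * u (y / m / k) + u (y / m)) - (f m * u (y / m) + u y)) *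
    (starRingEnd ℂ) (u y), ?_, ?_, by linarith⟩
  · have k1 : (((1 * ‖u y‖ ^ 2 : ℝ)) : ℂ) = (((‖u y‖ ^ 2 : ℝ)) : ℂ) := by
      rw [one_mul]
    rw [k1, ← k0]
    unfold ph
    rw [div_div]
    ring
  · rw [norm_mul, Complex.norm_conj, mul_comm]
    refine mul_le_mul (S.bd y) ?_ (norm_nonneg _) ((norm_nonneg _).trans (S.bd y))
    refine (norm_sub_le _ _).trans ?_
    rw [norm_mul, S.one m hm hr, one_mul]

private theorem tlow_sum1 (s : Finset ℕ) (a : ℕ → ℝ) (g c : ℝ) (D1 D2 : ℕ → ℝ) :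
    ∑ m ∈ s, a m * (g - c * (D1 m + D2 m)) =
      g * ∑ m ∈ s, a m - c * (∑ m ∈ s, a m * D1 m + ∑ m ∈ s, a m * D2 m) := by
  rw [← sum_add_distrib, mul_sum, mul_sum, ← sum_sub_distrib]
  exact sum_congr rfl fun m _ => by ring

private theorem tlow_sum2 (s : Finset ℕ) (t : ℕ → Finset ℕ) (a b : ℕ → ℝ) (g c : ℝ)
    (E1 E2 : ℕ → ℕ → ℝ) (D1 D2 : ℕ → ℝ) :
    ∑ m ∈ s, a m * ∑ k ∈ t m, b k * (g - c * ((E1 m k + D1 m) + (E2 m k + D2 m))) =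
      g * ∑ m ∈ s, a m * ∑ k ∈ t m, b k -
        c * ((∑ m ∈ s, a m * ∑ k ∈ t m, b k * E1 m k) +
          (∑ m ∈ s, a m * ∑ k ∈ t m, b k * E2 m k) +
          (∑ m ∈ s, a m * (∑ k ∈ t m, b k) * D1 m) +
          (∑ m ∈ s, a m * (∑ k ∈ t m, b k) * D2 m)) := by
  rw [← sum_add_distrib, ← sum_add_distrib, ← sum_add_distrib, mul_sum, mul_sum,
    ← sum_sub_distrib]
  refine sum_congr rfl fun m _ => ?_
  rw [tlow_sum1 (t m) b g c (fun k => E1 m k + D1 m) (fun k => E2 m k + D2 m)]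
  simp only [mul_add, sum_add_distrib, ← sum_mul]
  ring

theorem t_low (C : ℝ) (hC : 0 < C) : ∃ C' : ℝ, 0 < C' ∧
    ∀ (z L δ h : ℝ) (f1 f2 : ℕ → ℂ) (u1 u2 : ℝ → ℂ), Pm z L δ h →
    Sys C z L δ h f1 u1 → Sys C z L δ h f2 u2 →
    ∀ y, z ≤ y → y ≤ Real.exp L →
    ‖u1 y‖ ^ 2 * ‖u2 y‖ ^ 2 * (Real.log y) ^ 2 -
      C' * (Real.log y * Real.log z +
        Real.log y * Real.sqrt (Real.log y) * (Real.sqrt (DD z f1 u1 y) + Real.sqrt (DD z f2 u2 y)) +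
        Real.log y * (Real.sqrt (∑ m ∈ Icc 1 ⌊y⌋₊, La z m / m * DD z f1 u1 (y / m)) +
          Real.sqrt (∑ m ∈ Icc 1 ⌊y⌋₊, La z m / m * DD z f2 u2 (y / m)))) ≤
      (TT z f1 f2 u1 u2 y).re := by
  obtain ⟨Cm, hCm, hmass⟩ := mass
  obtain ⟨K, hK⟩ : ∃ K, K = 1 + Cm := ⟨_, rfl⟩
  have hK1 : 1 ≤ K := by linarith
  refine ⟨2 * C ^ 4 * Cm + 10 * C ^ 3 * K ^ 2, by positivity, ?_⟩
  intro z L δ h f1 f2 u1 u2 P S1 S2 y hzy hyL
  have hez : (1 : ℝ) < Real.exp 1 := by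
    have := Real.add_one_lt_exp (x := 1) one_ne_zero
    linarith
  have hz1 : 1 < z := hez.trans_le P.z0
  have hy1 : 1 ≤ y := by linarith
  obtain ⟨w, hw⟩ : ∃ w, w = Real.log y := ⟨_, rfl⟩
  obtain ⟨l, hl⟩ : ∃ l, l = Real.log z := ⟨_, rfl⟩
  have hl0 : 0 ≤ l := by rw [hl]; exact Real.log_nonneg hz1.le
  have hlw : l ≤ w := by
    rw [hl, hw]
    exact Real.log_le_log (by linarith) hzy
  have hw0 : 0 ≤ w := hl0.trans hlw
  have hM : ∀ t, 1 ≤ t → t ≤ y → ∑ k ∈ Icc 1 ⌊t⌋₊, La z k / k ≤ K * Real.log y := by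
    intro t ht1 ht2
    have g1 := (abs_le.1 (hmass z L δ h P t ht1 (ht2.trans hyL))).2
    have g2 : Real.log t ≤ w := by
      rw [hw]
      exact Real.log_le_log (by linarith) ht2
    have g3 : Cm * l ≤ Cm * w := mul_le_mul_of_nonneg_left hlw hCm.le
    rw [← hl] at g1
    rw [← hw, hK]
    linarith
  obtain ⟨E11, E12, E13⟩ := tlow_err z y K f1 u1 hy1 hK1 hM
  obtain ⟨E21, E22, E23⟩ := tlow_err z y K f2 u2 hy1 hK1 hM
  obtain ⟨GG, hGG⟩ : ∃ GG, GG = ‖u1 y‖ ^ 2 * ‖u2 y‖ ^ 2 := ⟨_, rfl⟩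
  have hGG0 : 0 ≤ GG := by rw [hGG]; positivity
  have hGG1 : GG ≤ C ^ 4 := by
    have g1 : ‖u1 y‖ ^ 2 ≤ C ^ 2 := pow_le_pow_left₀ (norm_nonneg _) (S1.bd y) 2
    have g2 : ‖u2 y‖ ^ 2 ≤ C ^ 2 := pow_le_pow_left₀ (norm_nonneg _) (S2.bd y) 2
    calc GG = ‖u1 y‖ ^ 2 * ‖u2 y‖ ^ 2 := hGG
      _ ≤ C ^ 2 * C ^ 2 := mul_le_mul g1 g2 (sq_nonneg _) (sq_nonneg _)
      _ = C ^ 4 := by ring
  have ha : ∀ m : ℕ, 0 ≤ La z m / m := fun m => div_nonneg (tlow_La_nonneg z m) (Nat.cast_nonneg m)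
  -- one variable
  have A1 : GG * ∑ m ∈ Icc 1 ⌊y⌋₊, La z m / m * Real.log m -
      5 * C ^ 3 * ((∑ m ∈ Icc 1 ⌊y⌋₊, La z m / m * Real.log m * ‖f1 m * u1 (y / m) + u1 y‖) +
        ∑ m ∈ Icc 1 ⌊y⌋₊, La z m / m * Real.log m * ‖f2 m * u2 (y / m) + u2 y‖) ≤
      (∑ m ∈ Icc 1 ⌊y⌋₊, ((La z m * Real.log m / m : ℝ) : ℂ) *
        ((f1 m * ph u1 y m) * (starRingEnd ℂ) (f2 m * ph u2 y m))).re := by
    rw [← tlow_sum1, Complex.re_sum]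
    refine sum_le_sum fun m hm => ?_
    obtain ⟨h1, -⟩ := mem_Icc.1 hm
    obtain ⟨g1, -, -, -⟩ := tlow_div hy1 hm
    rw [Complex.re_ofReal_mul, mul_div_assoc]
    have g2 : La z m / m * Real.log m = La z m * (Real.log m / m) := by ring
    rw [g2]
    refine tlow_La_mul (div_nonneg (Real.log_nonneg g1) (by linarith)) fun hr => ?_
    obtain ⟨e1, q1, q2, q3⟩ := tlow_one S1 y h1 hr
    obtain ⟨e2, r1, r2, r3⟩ := tlow_one S2 y h1 hr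
    rw [q1, r1, hGG]
    exact tlow_alg2 C (-1) hC (u1 y) (u2 y) e1 e2 _ _ (by norm_num) (by norm_num) (S1.bd y) (S2.bd y)
      q2 r2 (by linarith)
  -- two variables
  have A2 : GG * (∑ m ∈ Icc 1 ⌊y⌋₊, La z m / m * ∑ k ∈ Icc 1 ⌊y / m⌋₊, La z k / k) -
      5 * C ^ 3 * ((∑ m ∈ Icc 1 ⌊y⌋₊, La z m / m * ∑ k ∈ Icc 1 ⌊y / m⌋₊,
          La z k / k * ‖f1 k * u1 (y / m / k) + u1 (y / m)‖) +
        (∑ m ∈ Icc 1 ⌊y⌋₊, La z m / m * ∑ k ∈ Icc 1 ⌊y / m⌋₊,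
          La z k / k * ‖f2 k * u2 (y / m / k) + u2 (y / m)‖) +
        (∑ m ∈ Icc 1 ⌊y⌋₊, La z m / m * (∑ k ∈ Icc 1 ⌊y / m⌋₊, La z k / k) *
          ‖f1 m * u1 (y / m) + u1 y‖) +
        (∑ m ∈ Icc 1 ⌊y⌋₊, La z m / m * (∑ k ∈ Icc 1 ⌊y / m⌋₊, La z k / k) *
          ‖f2 m * u2 (y / m) + u2 y‖)) ≤
      (∑ m ∈ Icc 1 ⌊y⌋₊, ∑ k ∈ Icc 1 ⌊y / m⌋₊, ((La z m * La z k / (m * k) : ℝ) : ℂ) *
        ((f1 m * f1 k * ph u1 y (m * k)) *
          (starRingEnd ℂ) (f2 m * f2 k * ph u2 y (m * k)))).re := by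
    rw [← tlow_sum2 (Icc 1 ⌊y⌋₊) (fun m => Icc 1 ⌊y / m⌋₊) (fun m => La z m / m)
      (fun k => La z k / k) GG (5 * C ^ 3)
      (fun m k => ‖f1 k * u1 (y / m / k) + u1 (y / m)‖)
      (fun m k => ‖f2 k * u2 (y / m / k) + u2 (y / m)‖)
      (fun m => ‖f1 m * u1 (y / m) + u1 y‖) (fun m => ‖f2 m * u2 (y / m) + u2 y‖),
      Complex.re_sum]
    refine sum_le_sum fun m hm => ?_
    obtain ⟨h1, -⟩ := mem_Icc.1 hm
    rw [Complex.re_sum, mul_sum]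
    refine sum_le_sum fun k hk => ?_
    obtain ⟨h2, -⟩ := mem_Icc.1 hk
    obtain ⟨R, hR⟩ : ∃ R, R = ((f1 m * f1 k * ph u1 y (m * k)) *
      (starRingEnd ℂ) (f2 m * f2 k * ph u2 y (m * k))).re := ⟨_, rfl⟩
    obtain ⟨Q, hQ⟩ : ∃ Q, Q = GG - 5 * C ^ 3 * ((‖f1 k * u1 (y / m / k) + u1 (y / m)‖ +
      ‖f1 m * u1 (y / m) + u1 y‖) + (‖f2 k * u2 (y / m / k) + u2 (y / m)‖ +
      ‖f2 m * u2 (y / m) + u2 y‖)) := ⟨_, rfl⟩
    rw [Complex.re_ofReal_mul, ← hR, ← hQ]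
    have g3 : La z m / m * (La z k / k * Q) = La z m * La z k * (1 / ((m : ℝ) * k)) * Q := by ring
    have g4 : La z m * La z k / ((m : ℝ) * k) * R = La z m * La z k * (1 / ((m : ℝ) * k)) * R := by
      ring
    rw [g3, g4]
    refine tlow_La_mul2 (by positivity) fun hr hr2 => ?_
    obtain ⟨e1, q1, q2, q3⟩ := tlow_two S1 y h1 h2 hr hr2
    obtain ⟨e2, r1, r2, r3⟩ := tlow_two S2 y h1 h2 hr hr2
    rw [hR, hQ, q1, r1, hGG]
    exact tlow_alg2 C 1 hC (u1 y) (u2 y) e1 e2 _ _ (by norm_num) (by norm_num) (S1.bd y) (S2.bd y)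
      q2 r2 (by linarith)
  -- main term
  obtain ⟨T1, hT1⟩ : ∃ T1, T1 = ∑ m ∈ Icc 1 ⌊y⌋₊, La z m / m * Real.log m := ⟨_, rfl⟩
  obtain ⟨T2, hT2⟩ : ∃ T2, T2 = ∑ m ∈ Icc 1 ⌊y⌋₊, La z m / m * ∑ k ∈ Icc 1 ⌊y / m⌋₊, La z k / k :=
    ⟨_, rfl⟩
  have B0 : 0 ≤ T1 + T2 := by
    rw [hT1, hT2]
    refine add_nonneg (sum_nonneg fun m hm => mul_nonneg (ha m) ?_)
      (sum_nonneg fun m _ => mul_nonneg (ha m) (sum_nonneg fun k _ => ha k))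
    exact Real.log_nonneg (tlow_div hy1 hm).1
  have B1 : (w - Cm * l) * ∑ m ∈ Icc 1 ⌊y⌋₊, La z m / m ≤ T1 + T2 := by
    rw [hT1, hT2, ← sum_add_distrib, mul_sum]
    refine sum_le_sum fun m hm => ?_
    obtain ⟨g1, g2, g3, g4⟩ := tlow_div hy1 hm
    have g5 := (abs_le.1 (hmass z L δ h P _ g3 (g4.trans hyL))).1
    rw [Real.log_div (by linarith) (by linarith), ← hw, ← hl] at g5
    have g6 : w - Cm * l ≤ Real.log m + ∑ k ∈ Icc 1 ⌊y / m⌋₊, La z k / k := by linarith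
    have g7 := mul_le_mul_of_nonneg_left g6 (ha m)
    linarith
  have B2 : w ^ 2 - 2 * Cm * (w * l) ≤ T1 + T2 := by
    have g5 := (abs_le.1 (hmass z L δ h P y hy1 hyL)).1
    rw [← hw, ← hl] at g5
    have g6 : 0 ≤ Cm * l := mul_nonneg hCm.le hl0
    by_cases hc : Cm * l ≤ w
    · have g7 : (w - Cm * l) * (w - Cm * l) ≤ (w - Cm * l) * ∑ m ∈ Icc 1 ⌊y⌋₊, La z m / m :=
        mul_le_mul_of_nonneg_left (by linarith) (by linarith)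
      have g8 : 0 ≤ (Cm * l) * (Cm * l) := mul_nonneg g6 g6
      linarith
    · push Not at hc
      have g7 : w * w ≤ w * (Cm * l) := mul_le_mul_of_nonneg_left hc.le hw0
      have g8 : 0 ≤ w * (Cm * l) := mul_nonneg hw0 g6
      linarith
  have B3 : GG * w ^ 2 - 2 * C ^ 4 * Cm * (w * l) ≤ GG * T1 + GG * T2 := by
    have g1 := mul_le_mul_of_nonneg_left B2 hGG0
    have g2 : GG * (2 * Cm * (w * l)) ≤ C ^ 4 * (2 * Cm * (w * l)) :=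
      mul_le_mul_of_nonneg_right hGG1 (by positivity)
    linarith
  rw [tt_split z f1 f2 u1 u2 y S1.mul S2.mul, Complex.add_re]
  rw [← hT1] at A1
  rw [← hT2] at A2
  refine le_trans ?_ (add_le_add A1 A2)
  rw [← hw, ← hl, ← hGG]
  rw [← hw] at E11 E12 E13 E21 E22 E23
  obtain ⟨p1, hp1⟩ : ∃ p, p = Real.sqrt (DD z f1 u1 y) := ⟨_, rfl⟩
  obtain ⟨p2, hp2⟩ : ∃ p, p = Real.sqrt (DD z f2 u2 y) := ⟨_, rfl⟩
  obtain ⟨q1, hq1⟩ : ∃ p, p = Real.sqrt (∑ m ∈ Icc 1 ⌊y⌋₊, La z m / m * DD z f1 u1 (y / m)) :=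
    ⟨_, rfl⟩
  obtain ⟨q2, hq2⟩ : ∃ p, p = Real.sqrt (∑ m ∈ Icc 1 ⌊y⌋₊, La z m / m * DD z f2 u2 (y / m)) :=
    ⟨_, rfl⟩
  obtain ⟨sw, hsw⟩ : ∃ p, p = Real.sqrt w := ⟨_, rfl⟩
  rw [← hsw, ← hp1] at E11 E12
  rw [← hsw, ← hp2] at E21 E22
  rw [← hq1] at E13
  rw [← hq2] at E23
  rw [← hsw, ← hp1, ← hp2, ← hq1, ← hq2]
  have np1 : 0 ≤ p1 := by rw [hp1]; exact Real.sqrt_nonneg _
  have np2 : 0 ≤ p2 := by rw [hp2]; exact Real.sqrt_nonneg _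
  have nq1 : 0 ≤ q1 := by rw [hq1]; exact Real.sqrt_nonneg _
  have nq2 : 0 ≤ q2 := by rw [hq2]; exact Real.sqrt_nonneg _
  have nsw : 0 ≤ sw := by rw [hsw]; exact Real.sqrt_nonneg _
  clear hp1 hp2 hq1 hq2 hsw A1 A2 B0 B1 B2 hT1 hT2
  have F := add_le_add (add_le_add (add_le_add E11 E21) (add_le_add E12 E22)) (add_le_add E13 E23)
  have F2 := mul_le_mul_of_nonneg_left F (show 0 ≤ 5 * C ^ 3 by positivity)
  have n1 : 0 ≤ 10 * C ^ 3 * K ^ 2 * (w * l) := by positivity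
  have n2 : 0 ≤ 2 * C ^ 4 * Cm * (w * sw * (p1 + p2)) := by positivity
  have n3 : 0 ≤ 2 * C ^ 4 * Cm * (w * (q1 + q2)) := by positivity
  have n4 : 0 ≤ 5 * C ^ 3 * K ^ 2 * (w * (q1 + q2)) := by positivity
  linarith

end Pool.MP_dd84fd_nt.QZ
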