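import Pool.Agent.Lib.MP_dd84fd_nt.QZ.Defs

/-!
# QZ-TUp: upper bound for `TT`.  Prefix aux lemmas `tup_`.

PROOF. `φ(t) = ph u1 y t * conj(ph u2 y t)`: `|φ| ≤ C⁴`, `|φ(t') - φ(t)| ≤ 2C⁴ δ` for `0 < t ≤ t' ≤ t e^h` (Sys.slow for `y/t' ≤ y/t`).
Windows `W_j = (Y_j, Y_{j+1}]`, `0 ≤ j ≤ k = kk h y` (n = 1: lam2 1 = 0; the last window may be cut by `y`).
On `W_j`: `|φ(n)/n - φ(Y_j)/Y_j| ≤ 3C⁴ δ/Y_j`.  So a full window contributes at most `4C⁵ h log z`, the last one at most `C⁵ h L ≤ C⁵ log z`.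
-/

set_option autoImplicit false

namespace Pool.MP_dd84fd_nt.QZ

open Finset
open Pool.MP_dd84fd_nt.En (Rough rho)

private theorem tup_rho_nonneg (z : ℝ) (n : ℕ) : 0 ≤ rho z n := by
  unfold rho
  split_ifs <;> norm_num

private theorem tup_lam2_nonneg (n : ℕ) : 0 ≤ lam2 n :=
  add_nonneg (mul_nonneg ArithmeticFunction.vonMangoldt_nonneg (Real.log_natCast_nonneg n))
    (sum_nonneg fun _ _ => mul_nonneg ArithmeticFunction.vonMangoldt_nonneg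
      ArithmeticFunction.vonMangoldt_nonneg)

private theorem tup_lam2_one : lam2 1 = 0 := by
  unfold lam2
  simp

private theorem tup_ph_le {C : ℝ} {u : ℝ → ℂ} (hb : ∀ y : ℝ, ‖u y‖ ≤ C) (y t : ℝ) :
    ‖ph u y t‖ ≤ C ^ 2 := by
  unfold ph
  rw [norm_mul, RCLike.norm_conj, pow_two]
  exact mul_le_mul (hb _) (hb _) (norm_nonneg _) ((norm_nonneg _).trans (hb y))

private theorem tup_ph_slow {C δ h : ℝ} {u : ℝ → ℂ} (hb : ∀ y : ℝ, ‖u y‖ ≤ C)
    (hs : ∀ y y' : ℝ, 0 < y → y ≤ y' → y' ≤ y * Real.exp h → ‖u y' - u y‖ ≤ C * δ)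
    {y t t' : ℝ} (hy : 0 < y) (ht : 0 < t) (h1 : t ≤ t') (h2 : t' ≤ t * Real.exp h) :
    ‖ph u y t' - ph u y t‖ ≤ C ^ 2 * δ := by
  have ht' : 0 < t' := ht.trans_le h1
  have h3 : ‖u (y / t) - u (y / t')‖ ≤ C * δ := by
    refine hs _ _ (by positivity) ?_ ?_
    · gcongr
    · rw [div_mul_eq_mul_div, div_le_div_iff₀ ht ht']
      nlinarith
  unfold ph
  rw [← sub_mul, norm_mul, RCLike.norm_conj, norm_sub_rev]
  calc ‖u (y / t) - u (y / t')‖ * ‖u y‖ ≤ (C * δ) * C :=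
        mul_le_mul h3 (hb y) (norm_nonneg _) ((norm_nonneg _).trans h3)
    _ = C ^ 2 * δ := by ring

private noncomputable def tup_phi (u1 u2 : ℝ → ℂ) (y t : ℝ) : ℂ :=
  ph u1 y t * (starRingEnd ℂ) (ph u2 y t)

private theorem tup_phi_le {C : ℝ} {u1 u2 : ℝ → ℂ} (hb1 : ∀ y : ℝ, ‖u1 y‖ ≤ C)
    (hb2 : ∀ y : ℝ, ‖u2 y‖ ≤ C) (y t : ℝ) : ‖tup_phi u1 u2 y t‖ ≤ C ^ 4 := by
  unfold tup_phi
  rw [norm_mul, RCLike.norm_conj]
  calc ‖ph u1 y t‖ * ‖ph u2 y t‖ ≤ C ^ 2 * C ^ 2 :=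
        mul_le_mul (tup_ph_le hb1 y t) (tup_ph_le hb2 y t) (norm_nonneg _) (sq_nonneg C)
    _ = C ^ 4 := by ring

private theorem tup_phi_slow {C δ h : ℝ} {u1 u2 : ℝ → ℂ} (hb1 : ∀ y : ℝ, ‖u1 y‖ ≤ C)
    (hb2 : ∀ y : ℝ, ‖u2 y‖ ≤ C)
    (hs1 : ∀ y y' : ℝ, 0 < y → y ≤ y' → y' ≤ y * Real.exp h → ‖u1 y' - u1 y‖ ≤ C * δ)
    (hs2 : ∀ y y' : ℝ, 0 < y → y ≤ y' → y' ≤ y * Real.exp h → ‖u2 y' - u2 y‖ ≤ C * δ)
    {y t t' : ℝ} (hy : 0 < y) (ht : 0 < t) (h1 : t ≤ t') (h2 : t' ≤ t * Real.exp h) :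
    ‖tup_phi u1 u2 y t' - tup_phi u1 u2 y t‖ ≤ 2 * C ^ 4 * δ := by
  have e : tup_phi u1 u2 y t' - tup_phi u1 u2 y t =
      (ph u1 y t' - ph u1 y t) * (starRingEnd ℂ) (ph u2 y t') +
        ph u1 y t * (starRingEnd ℂ) (ph u2 y t' - ph u2 y t) := by
    unfold tup_phi
    rw [map_sub]
    ring
  have a1 := tup_ph_slow hb1 hs1 hy ht h1 h2
  have a2 := tup_ph_slow hb2 hs2 hy ht h1 h2
  have n1 : ‖(ph u1 y t' - ph u1 y t) * (starRingEnd ℂ) (ph u2 y t')‖ ≤ C ^ 2 * δ * C ^ 2 := by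
    rw [norm_mul, RCLike.norm_conj]
    exact mul_le_mul a1 (tup_ph_le hb2 y t') (norm_nonneg _) ((norm_nonneg _).trans a1)
  have n2 : ‖ph u1 y t * (starRingEnd ℂ) (ph u2 y t' - ph u2 y t)‖ ≤ C ^ 2 * (C ^ 2 * δ) := by
    rw [norm_mul, RCLike.norm_conj]
    exact mul_le_mul (tup_ph_le hb1 y t) a2 (norm_nonneg _) (sq_nonneg C)
  rw [e]
  refine (norm_add_le _ _).trans ((add_le_add n1 n2).trans (le_of_eq ?_))
  ring

/-- one window -/
private theorem tup_win {C z L δ h : ℝ} (hC : 0 < C) {f1 f2 : ℕ → ℂ} {u1 u2 : ℝ → ℂ}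
    (hP : Pm z L δ h) (hs1 : Sys C z L δ h f1 u1) (hs2 : Sys C z L δ h f2 u2)
    (hW : Win2 C z L h (fun n => f1 n * (starRingEnd ℂ) (f2 n))) {y : ℝ} (hy : 0 < y)
    {M : ℝ} (hM1 : 1 ≤ M) (hM2 : M ≤ Real.exp L) :
    ‖∑ n ∈ Ioc ⌊M⌋₊ ⌊M * Real.exp h⌋₊, ((rho z n * lam2 n / n : ℝ) : ℂ) *
      (f1 n * (starRingEnd ℂ) (f2 n)) * (ph u1 y n * (starRingEnd ℂ) (ph u2 y n))‖ ≤
      4 * C ^ 5 * h * Real.log z := by
  have hM0 : 0 < M := by linarith
  obtain ⟨w1, w2⟩ := hW M hM1 hM2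
  have hδ := hP.d0
  have hh := hP.h0
  have hzL := hP.zL
  have hexp : 0 < Real.exp h := Real.exp_pos h
  have e : ∑ n ∈ Ioc ⌊M⌋₊ ⌊M * Real.exp h⌋₊, ((rho z n * lam2 n / n : ℝ) : ℂ) *
      (f1 n * (starRingEnd ℂ) (f2 n)) * (ph u1 y n * (starRingEnd ℂ) (ph u2 y n)) =
      (∑ n ∈ Ioc ⌊M⌋₊ ⌊M * Real.exp h⌋₊, ((rho z n * lam2 n : ℝ) : ℂ) *
        (f1 n * (starRingEnd ℂ) (f2 n)) *
          (tup_phi u1 u2 y n / (n : ℂ) - tup_phi u1 u2 y M / (M : ℂ))) +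
      (∑ n ∈ Ioc ⌊M⌋₊ ⌊M * Real.exp h⌋₊, ((rho z n * lam2 n : ℝ) : ℂ) *
        (f1 n * (starRingEnd ℂ) (f2 n))) * (tup_phi u1 u2 y M / (M : ℂ)) := by
    rw [sum_mul, ← sum_add_distrib]
    refine sum_congr rfl fun n _ => ?_
    unfold tup_phi
    push_cast
    ring
  have k1 : ∀ n ∈ Ioc ⌊M⌋₊ ⌊M * Real.exp h⌋₊, ‖((rho z n * lam2 n : ℝ) : ℂ) *
        (f1 n * (starRingEnd ℂ) (f2 n)) *
          (tup_phi u1 u2 y n / (n : ℂ) - tup_phi u1 u2 y M / (M : ℂ))‖ ≤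
      rho z n * lam2 n * (3 * C ^ 4 * δ / M) := by
    intro n hn
    obtain ⟨hn1, hn2⟩ := mem_Ioc.1 hn
    have hMn : M < n := (Nat.floor_lt hM0.le).1 hn1
    have hn0 : (0 : ℝ) < n := hM0.trans hMn
    have hnM : (n : ℝ) ≤ M * Real.exp h :=
      (Nat.le_floor_iff (by positivity)).1 hn2
    have hcoef : ‖((rho z n * lam2 n : ℝ) : ℂ) * (f1 n * (starRingEnd ℂ) (f2 n))‖ ≤
        rho z n * lam2 n := by
      rw [norm_mul, norm_mul, RCLike.norm_conj, Complex.norm_real, Real.norm_eq_abs,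
        abs_of_nonneg (mul_nonneg (tup_rho_nonneg z n) (tup_lam2_nonneg n))]
      by_cases hr : Rough z n
      · have hn1' : 1 ≤ n := by exact_mod_cast hn0
        rw [hs1.one n hn1' hr, hs2.one n hn1' hr, mul_one, mul_one]
      · have h0 : rho z n = 0 := by unfold rho; rw [if_neg hr]
        rw [h0]
        simp
    have hphi := tup_phi_slow hs1.bd hs2.bd hs1.slow hs2.slow hy hM0 hMn.le hnM
    have hdiff : ‖tup_phi u1 u2 y n / (n : ℂ) - tup_phi u1 u2 y M / (M : ℂ)‖ ≤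
        3 * C ^ 4 * δ / M := by
      have e2 : tup_phi u1 u2 y n / (n : ℂ) - tup_phi u1 u2 y M / (M : ℂ) =
          (tup_phi u1 u2 y n - tup_phi u1 u2 y M) / (n : ℂ) +
            tup_phi u1 u2 y M * (((1 / n - 1 / M : ℝ)) : ℂ) := by
        push_cast
        ring
      have m1 : ‖(tup_phi u1 u2 y n - tup_phi u1 u2 y M) / (n : ℂ)‖ ≤ 2 * C ^ 4 * δ / M := by
        rw [norm_div, Complex.norm_natCast]
        exact div_le_div₀ (by positivity) hphi hM0 hMn.le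
      have m3 : |1 / (n : ℝ) - 1 / M| ≤ δ / M := by
        have h5 : 1 / (n : ℝ) ≤ 1 / M := one_div_le_one_div_of_le hM0 hMn.le
        rw [abs_sub_comm, abs_of_nonneg (by linarith)]
        have h6 : 1 / (M * Real.exp h) ≤ 1 / (n : ℝ) := one_div_le_one_div_of_le hn0 hnM
        have h7 : 1 / (M * Real.exp h) = Real.exp (-h) / M := by
          rw [Real.exp_neg]
          field_simp
        have h8 : 1 - h ≤ Real.exp (-h) := by
          have := Real.add_one_le_exp (-h)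
          linarith
        have h9 : (1 - h) / M ≤ Real.exp (-h) / M := by gcongr
        have h10 : 1 / M - (1 - h) / M = h / M := by ring
        have h11 : h / M ≤ δ / M := by
          have := hP.h1
          gcongr
        rw [h7] at h6
        linarith
      have m2 : ‖tup_phi u1 u2 y M * (((1 / n - 1 / M : ℝ)) : ℂ)‖ ≤ C ^ 4 * (δ / M) := by
        rw [norm_mul, Complex.norm_real, Real.norm_eq_abs]
        exact mul_le_mul (tup_phi_le hs1.bd hs2.bd y M) m3 (abs_nonneg _) (by positivity)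
      rw [e2]
      refine (norm_add_le _ _).trans ((add_le_add m1 m2).trans (le_of_eq ?_))
      ring
    rw [norm_mul]
    exact mul_le_mul hcoef hdiff (norm_nonneg _)
      (mul_nonneg (tup_rho_nonneg z n) (tup_lam2_nonneg n))
  have s1 : ‖∑ n ∈ Ioc ⌊M⌋₊ ⌊M * Real.exp h⌋₊, ((rho z n * lam2 n : ℝ) : ℂ) *
        (f1 n * (starRingEnd ℂ) (f2 n)) *
          (tup_phi u1 u2 y n / (n : ℂ) - tup_phi u1 u2 y M / (M : ℂ))‖ ≤
      3 * C ^ 5 * h * Real.log z := by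
    refine (norm_sum_le _ _).trans ((sum_le_sum k1).trans ?_)
    rw [← sum_mul]
    calc (∑ n ∈ Ioc ⌊M⌋₊ ⌊M * Real.exp h⌋₊, rho z n * lam2 n) * (3 * C ^ 4 * δ / M) ≤
          (C * (h * M) * L) * (3 * C ^ 4 * δ / M) := by gcongr
      _ = 3 * C ^ 5 * h * (δ * L) := by field_simp
      _ = 3 * C ^ 5 * h * Real.log z := by rw [hzL]
  have s2 : ‖(∑ n ∈ Ioc ⌊M⌋₊ ⌊M * Real.exp h⌋₊, ((rho z n * lam2 n : ℝ) : ℂ) *
        (f1 n * (starRingEnd ℂ) (f2 n))) * (tup_phi u1 u2 y M / (M : ℂ))‖ ≤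
      C ^ 5 * h * Real.log z := by
    rw [norm_mul, norm_div, Complex.norm_real, Real.norm_eq_abs, abs_of_pos hM0]
    calc _ ≤ (C * (h * M) * Real.log z) * (C ^ 4 / M) := by
          refine mul_le_mul w1 ?_ (by positivity) ((norm_nonneg _).trans w1)
          exact div_le_div_of_nonneg_right (tup_phi_le hs1.bd hs2.bd y M) hM0.le
      _ = C ^ 5 * h * Real.log z := by field_simp
  rw [e]
  refine (norm_add_le _ _).trans ((add_le_add s1 s2).trans (le_of_eq ?_))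
  ring

theorem t_up (C : ℝ) (hC : 0 < C) : ∃ C' : ℝ, 0 < C' ∧
    ∀ (z L δ h : ℝ) (f1 f2 : ℕ → ℂ) (u1 u2 : ℝ → ℂ), Pm z L δ h →
    Sys C z L δ h f1 u1 → Sys C z L δ h f2 u2 →
    Win2 C z L h (fun n => f1 n * (starRingEnd ℂ) (f2 n)) →
    ∀ y, z ≤ y → y ≤ Real.exp L →
    ‖TT z f1 f2 u1 u2 y‖ ≤ C' * Real.log z * Real.log y := by
  refine ⟨5 * C ^ 5, by positivity, fun z L δ h f1 f2 u1 u2 hP hs1 hs2 hW y hzy hyL => ?_⟩
  have hz1 : 1 < z := lt_of_lt_of_le (by have := Real.add_one_le_exp (1 : ℝ); linarith) hP.z0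
  have hy0 : 0 < y := by linarith
  have hh := hP.h0
  have hlz : 1 ≤ Real.log z := by
    rw [Real.le_log_iff_exp_le (by linarith)]
    exact hP.z0
  have hly : Real.log z ≤ Real.log y := Real.log_le_log (by linarith) hzy
  set F : ℕ → ℂ := fun n => ((rho z n * lam2 n / n : ℝ) : ℂ) *
      (f1 n * (starRingEnd ℂ) (f2 n)) * (ph u1 y n * (starRingEnd ℂ) (ph u2 y n)) with hF
  have hY1 : ∀ j, 1 ≤ Y h j := fun j => by
    unfold Y
    exact Real.one_le_exp (by positivity)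
  have hYs : ∀ j, Y h (j + 1) = Y h j * Real.exp h := fun j => by
    unfold Y
    rw [← Real.exp_add]
    congr 1
    push_cast
    ring
  have hYm : ∀ j, Y h j ≤ Y h (j + 1) := fun j => by
    rw [hYs]
    have h1 := hY1 j
    have h2 : 1 ≤ Real.exp h := Real.one_le_exp hh.le
    nlinarith
  set k : ℕ := kk h y with hk
  have hkY : ∀ j ≤ k, Y h j ≤ y := by
    intro j hj
    unfold Y
    rw [← Real.le_log_iff_exp_le hy0]
    have h1 : (j : ℝ) ≤ Real.log y / h := by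
      refine le_trans ?_ (Nat.floor_le (div_nonneg (by linarith) hh.le))
      exact_mod_cast hj
    rw [le_div_iff₀ hh] at h1
    linarith
  have hk1 : h * k ≤ Real.log y := by
    have h1 : (k : ℝ) ≤ Real.log y / h :=
      Nat.floor_le (div_nonneg (by linarith) hh.le)
    rw [le_div_iff₀ hh] at h1
    linarith
  have hk2 : y ≤ Y h (k + 1) := by
    have h1 : Real.log y / h < k + 1 := Nat.lt_floor_add_one _
    rw [div_lt_iff₀ hh] at h1
    unfold Y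
    rw [← Real.exp_log hy0]
    refine Real.exp_le_exp.2 ?_
    push_cast
    linarith
  -- the full windows
  have hsum : ∀ j ≤ k, ‖∑ n ∈ Ioc 1 ⌊Y h j⌋₊, F n‖ ≤ j * (4 * C ^ 5 * h * Real.log z) := by
    intro j
    induction j with
    | zero =>
      intro _
      have : ⌊Y h 0⌋₊ = 1 := by
        unfold Y
        simp
      rw [this]
      simp
    | succ j ih =>
      intro hj
      have h1 : 1 ≤ ⌊Y h j⌋₊ := (Nat.one_le_floor_iff _).2 (hY1 j)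
      have h2 : ⌊Y h j⌋₊ ≤ ⌊Y h (j + 1)⌋₊ := Nat.floor_mono (hYm j)
      rw [← sum_Ioc_consecutive _ h1 h2]
      have h3 := tup_win hC hP hs1 hs2 hW hy0 (hY1 j) ((hkY j (by omega)).trans hyL)
      rw [← hYs j] at h3
      refine (norm_add_le _ _).trans ((add_le_add (ih (by omega)) h3).trans (le_of_eq ?_))
      push_cast
      ring
  -- the last window
  have hlast : ‖∑ n ∈ Ioc ⌊Y h k⌋₊ ⌊y⌋₊, F n‖ ≤ C ^ 5 * Real.log z := by
    have hM1 := hY1 k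
    have hM0 : 0 < Y h k := by linarith
    have hM2 : Y h k ≤ Real.exp L := (hkY k le_rfl).trans hyL
    obtain ⟨-, w2⟩ := hW (Y h k) hM1 hM2
    have k1 : ∀ n ∈ Ioc ⌊Y h k⌋₊ ⌊y⌋₊, ‖F n‖ ≤ rho z n * lam2 n * (C ^ 4 / Y h k) := by
      intro n hn
      obtain ⟨hn1, hn2⟩ := mem_Ioc.1 hn
      have hMn : Y h k < n := (Nat.floor_lt hM0.le).1 hn1
      have hn0 : (0 : ℝ) < n := hM0.trans hMn
      have hpos : 0 ≤ rho z n * lam2 n := mul_nonneg (tup_rho_nonneg z n) (tup_lam2_nonneg n)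
      have hphi : ‖ph u1 y n * (starRingEnd ℂ) (ph u2 y n)‖ ≤ C ^ 4 :=
        tup_phi_le hs1.bd hs2.bd y n
      have hg : ‖((rho z n * lam2 n / n : ℝ) : ℂ) * (f1 n * (starRingEnd ℂ) (f2 n))‖ ≤
          rho z n * lam2 n / Y h k := by
        rw [norm_mul, norm_mul, RCLike.norm_conj, Complex.norm_real, Real.norm_eq_abs,
          abs_of_nonneg (div_nonneg hpos hn0.le)]
        by_cases hr : Rough z n
        · have hn1' : 1 ≤ n := by exact_mod_cast hn0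
          rw [hs1.one n hn1' hr, hs2.one n hn1' hr, mul_one, mul_one]
          exact div_le_div_of_nonneg_left hpos hM0 hMn.le
        · have h0 : rho z n = 0 := by unfold rho; rw [if_neg hr]
          rw [h0]
          simp
      rw [hF]
      dsimp only
      rw [norm_mul]
      calc _ ≤ (rho z n * lam2 n / Y h k) * C ^ 4 :=
            mul_le_mul hg hphi (norm_nonneg _) (by positivity)
        _ = _ := by ring
    have hsub : Ioc ⌊Y h k⌋₊ ⌊y⌋₊ ⊆ Ioc ⌊Y h k⌋₊ ⌊Y h k * Real.exp h⌋₊ := by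
      rw [← hYs k]
      exact Ioc_subset_Ioc_right (Nat.floor_mono hk2)
    have hLpos : 0 ≤ L := by
      have h1 : 0 < δ * L := by
        rw [← hP.zL]
        linarith
      exact (pos_of_mul_pos_right h1 hP.d0.le).le
    refine (norm_sum_le _ _).trans ((sum_le_sum k1).trans ?_)
    rw [← sum_mul]
    calc (∑ n ∈ Ioc ⌊Y h k⌋₊ ⌊y⌋₊, rho z n * lam2 n) * (C ^ 4 / Y h k) ≤
          (∑ n ∈ Ioc ⌊Y h k⌋₊ ⌊Y h k * Real.exp h⌋₊, rho z n * lam2 n) * (C ^ 4 / Y h k) := by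
            refine mul_le_mul_of_nonneg_right (sum_le_sum_of_subset_of_nonneg hsub
              fun n _ _ => mul_nonneg (tup_rho_nonneg z n) (tup_lam2_nonneg n)) (by positivity)
      _ ≤ (C * (h * Y h k) * L) * (C ^ 4 / Y h k) := by gcongr
      _ = C ^ 5 * (h * L) := by field_simp
      _ ≤ C ^ 5 * (δ * L) := by
            have := hP.h1
            gcongr
      _ = C ^ 5 * Real.log z := by rw [hP.zL]
  have hTT : TT z f1 f2 u1 u2 y = ∑ n ∈ Ioc 1 ⌊Y h k⌋₊, F n + ∑ n ∈ Ioc ⌊Y h k⌋₊ ⌊y⌋₊, F n := by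
    rw [sum_Ioc_consecutive _ ((Nat.one_le_floor_iff _).2 (hY1 k)) (Nat.floor_mono (hkY k le_rfl))]
    have h1 : 1 ≤ ⌊y⌋₊ := (Nat.one_le_floor_iff _).2 (by linarith)
    unfold TT
    rw [← add_sum_Ioc_eq_sum_Icc h1]
    rw [tup_lam2_one]
    simp [hF]
  rw [hTT]
  refine (norm_add_le _ _).trans ((add_le_add (hsum k le_rfl) hlast).trans ?_)
  have hC5 : 0 < C ^ 5 := by positivity
  have h1 : (k : ℝ) * (4 * C ^ 5 * h * Real.log z) ≤ 4 * C ^ 5 * Real.log z * Real.log y := by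
    have h2 : (k : ℝ) * (4 * C ^ 5 * h * Real.log z) = 4 * C ^ 5 * Real.log z * (h * k) := by ring
    rw [h2]
    gcongr
  have h3 : C ^ 5 * Real.log z ≤ C ^ 5 * Real.log z * Real.log y := by
    have : 0 ≤ C ^ 5 * Real.log z := by positivity
    nlinarith
  linarith

end Pool.MP_dd84fd_nt.QZ
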