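import Pool.Agent.Lib.MP_dd84fd_nt.QZ.Seq
import Pool.Agent.Lib.MP_dd84fd_nt.QZ.Dfc
import Pool.Agent.Lib.MP_dd84fd_nt.QZ.TUp
import Pool.Agent.Lib.MP_dd84fd_nt.QZ.TLow

/-!
# QZ-Core: two heavy functions give a contradiction.  Prefix aux lemmas `core_`.

PROOF. `G_i k = ‖u_i (Y h k)‖²`, `K_i = kk h y_i`: slow gives `‖u_i(Y_{K_i})‖ ≥ lam - Cδ ≥ lam/2`.  `Dh = Dq h G ≥ -C' log z` for `k ≤ K_i`: DD ≥ 0 and
defect at `y = Y h k ≤ y_i` (`kk h (Y h k) = k`).  `h K_i ≥ log y_i - h ≥ (c/2) L`.  Seq with `A = max(1, C², C')`, `lam²/4`, `ε` small, `l = log z ≤ δ0 L`,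
`h ≤ δ ≤ 1 ≤ log z`.  At `y = Y h k` (`≥ z` since `h k ≥ l/ε`): defect: `DD_i ≤ Dh k + C' l ≤ C'' ε w`; defect_sum: `∑ (La/m) DD_i(y/m) ≤ C'' ε w²`.
t_low: `Re TT ≥ (lam²/8)² w² - C3(ε + √ε) w²`, t_up: `‖TT‖ ≤ C' l w ≤ C' ε w²`.  Contradiction for ε small (w > 0).
-/

set_option autoImplicit false

namespace Pool.MP_dd84fd_nt.QZ

open Finset
open Pool.MP_dd84fd_nt.En (Rough rho)

theorem core_kk (h : ℝ) (hh : 0 < h) (k : ℕ) : kk h (Y h k) = k := by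
  unfold kk Y
  rw [Real.log_exp, mul_div_cancel_left₀ _ hh.ne', Nat.floor_natCast]

theorem core_logY (h : ℝ) (k : ℕ) : Real.log (Y h k) = h * k := by
  unfold Y
  rw [Real.log_exp]

theorem core_DD_nonneg (z : ℝ) (f : ℕ → ℂ) (u : ℝ → ℂ) (y : ℝ) : 0 ≤ DD z f u y := by
  unfold DD La
  refine sum_nonneg fun m _ => mul_nonneg (div_nonneg (mul_nonneg ?_ ?_) (Nat.cast_nonneg _)) (sq_nonneg _)
  · unfold rho
    split_ifs <;> norm_num
  · exact ArithmeticFunction.vonMangoldt_nonneg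

/-- the grid point below `y` -/
theorem core_start (C lam c z L δ h : ℝ) (f : ℕ → ℂ) (u : ℝ → ℂ) (hC : 1 ≤ C) (hlam : 0 < lam)
    (hc : 0 < c) (hPm : Pm z L δ h) (hS : Sys C z L δ h f u) (hδ1 : δ ≤ lam / (2 * C))
    (hδ2 : δ ≤ c / 2) (y : ℝ) (hy1 : Real.exp (c * L) ≤ y) (hy : lam ≤ ‖u y‖) :
    c / 2 * L ≤ h * kk h y ∧ Y h (kk h y) ≤ y ∧ lam ^ 2 / 4 ≤ ‖u (Y h (kk h y))‖ ^ 2 := by
  have hh := hPm.h0
  have hδ0 := hPm.d0
  have hz0 := hPm.z0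
  have hy0 : 0 < y := lt_of_lt_of_le (Real.exp_pos _) hy1
  have hlz : 1 ≤ Real.log z := by
    rw [Real.le_log_iff_exp_le (lt_of_lt_of_le (Real.exp_pos 1) hz0)]
    exact hz0
  have hzL := hPm.zL
  have hδL : 1 ≤ δ * L := by rw [← hzL]; exact hlz
  have hL0 : 0 < L := by
    by_contra hcon
    push Not at hcon
    have := mul_nonpos_of_nonneg_of_nonpos hδ0.le hcon
    linarith
  have hlogy : c * L ≤ Real.log y := by
    rw [Real.le_log_iff_exp_le hy0]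
    exact hy1
  have hlogy0 : 0 ≤ Real.log y / h := by
    apply div_nonneg _ hh.le
    have : 0 < c * L := by positivity
    linarith
  have hf1 : ((kk h y : ℕ) : ℝ) ≤ Real.log y / h := Nat.floor_le hlogy0
  have hf2 : Real.log y / h < (kk h y : ℕ) + 1 := Nat.lt_floor_add_one _
  have g1 : h * kk h y ≤ Real.log y := by
    rw [le_div_iff₀ hh] at hf1
    linarith
  have g2 : Real.log y < h * kk h y + h := by
    rw [div_lt_iff₀ hh] at hf2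
    linarith
  have hYy : Y h (kk h y) ≤ y := by
    unfold Y
    calc Real.exp (h * kk h y) ≤ Real.exp (Real.log y) := Real.exp_le_exp.2 g1
      _ = y := Real.exp_log hy0
  have hyY : y ≤ Y h (kk h y) * Real.exp h := by
    unfold Y
    rw [← Real.exp_add]
    calc y = Real.exp (Real.log y) := (Real.exp_log hy0).symm
      _ ≤ _ := Real.exp_le_exp.2 g2.le
  have hY0 : 0 < Y h (kk h y) := Real.exp_pos _
  refine ⟨?_, hYy, ?_⟩
  · have h1 : h ≤ c / 2 * L := by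
      have h2 : h ≤ δ := hPm.h1
      have h3 : δ * 1 ≤ δ * (δ * L) := mul_le_mul_of_nonneg_left hδL hδ0.le
      have h4 : δ * (δ * L) ≤ 1 * (δ * L) := by
        apply mul_le_mul_of_nonneg_right hPm.d1 (by linarith)
      have h5 : δ * L ≤ c / 2 * L := mul_le_mul_of_nonneg_right hδ2 hL0.le
      linarith
    have : c * L = c / 2 * L + c / 2 * L := by ring
    linarith
  · have h1 := hS.slow (Y h (kk h y)) y hY0 hYy hyY
    have h2 : ‖u y‖ ≤ ‖u (Y h (kk h y))‖ + ‖u y - u (Y h (kk h y))‖ := by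
      have := norm_add_le (u (Y h (kk h y))) (u y - u (Y h (kk h y)))
      simpa using this
    have h3 : C * δ ≤ lam / 2 := by
      have h4 : C * δ ≤ C * (lam / (2 * C)) := mul_le_mul_of_nonneg_left hδ1 (by linarith)
      have h5 : C * (lam / (2 * C)) = lam / 2 := by field_simp
      linarith
    have h4 : lam / 2 ≤ ‖u (Y h (kk h y))‖ := by linarith
    calc lam ^ 2 / 4 = (lam / 2) ^ 2 := by ring
      _ ≤ _ := pow_le_pow_left₀ (by positivity) h4 2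

/-- the numerical contradiction -/
theorem core_num (C1 C2 C3 C4 q w l η G1 G2 D1 D2 S1 S2 T : ℝ) (hC1 : 0 < C1) (hC2 : 0 < C2)
    (hC3 : 0 < C3) (hC4 : 0 < C4) (hq : 0 < q) (hη0 : 0 < η) (hη1 : η ≤ 1)
    (hη : η * (C3 * (5 + 2 * C1 + 2 * C2) + C4) < q ^ 2) (hw : 0 < w)
    (hl : l ≤ η ^ 2 * w) (hG1 : q ≤ G1) (hG2 : q ≤ G2)
    (hD1 : D1 ≤ (1 + C1) * (η ^ 2 * w)) (hD2 : D2 ≤ (1 + C1) * (η ^ 2 * w))
    (hS1 : S1 ≤ (1 + C2) * (η ^ 2 * w ^ 2)) (hS2 : S2 ≤ (1 + C2) * (η ^ 2 * w ^ 2))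
    (hlow : G1 * G2 * w ^ 2 - C3 * (w * l + w * Real.sqrt w * (Real.sqrt D1 + Real.sqrt D2) +
      w * (Real.sqrt S1 + Real.sqrt S2)) ≤ T) (hup : T ≤ C4 * l * w) : False := by
  have hsw : Real.sqrt w * Real.sqrt w = w := Real.mul_self_sqrt hw.le
  have hsw0 : 0 ≤ Real.sqrt w := Real.sqrt_nonneg w
  have hsD : ∀ D, D ≤ (1 + C1) * (η ^ 2 * w) → Real.sqrt D ≤ (1 + C1) * η * Real.sqrt w := by
    intro D hD
    rw [Real.sqrt_le_left (by positivity)]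
    have e1 : ((1 + C1) * η * Real.sqrt w) ^ 2 = (1 + C1) ^ 2 * η ^ 2 * (Real.sqrt w * Real.sqrt w) := by
      ring
    rw [e1, hsw]
    have e2 : (1 + C1) * 1 ≤ (1 + C1) * (1 + C1) := mul_le_mul_of_nonneg_left (by linarith) (by linarith)
    have e3 : (1 + C1) * (η ^ 2 * w) ≤ (1 + C1) * (1 + C1) * (η ^ 2 * w) :=
      mul_le_mul_of_nonneg_right (by linarith) (by positivity)
    calc D ≤ (1 + C1) * (1 + C1) * (η ^ 2 * w) := hD.trans e3
      _ = _ := by ring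
  have hsS : ∀ S, S ≤ (1 + C2) * (η ^ 2 * w ^ 2) → Real.sqrt S ≤ (1 + C2) * η * w := by
    intro S hS
    rw [Real.sqrt_le_left (by positivity)]
    have e3 : (1 + C2) * (η ^ 2 * w ^ 2) ≤ (1 + C2) * (1 + C2) * (η ^ 2 * w ^ 2) := by
      have e2 : (1 + C2) * 1 ≤ (1 + C2) * (1 + C2) :=
        mul_le_mul_of_nonneg_left (by linarith) (by linarith)
      exact mul_le_mul_of_nonneg_right (by linarith) (by positivity)
    calc S ≤ (1 + C2) * (1 + C2) * (η ^ 2 * w ^ 2) := hS.trans e3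
      _ = _ := by ring
  have hη2 : η ^ 2 ≤ η := by
    have : η * η ≤ η * 1 := mul_le_mul_of_nonneg_left hη1 hη0.le
    calc η ^ 2 = η * η := by ring
      _ ≤ _ := by linarith
  have hlw : l ≤ η * w := hl.trans (mul_le_mul_of_nonneg_right hη2 hw.le)
  have e1 : w * l ≤ η * w ^ 2 := by
    calc w * l ≤ w * (η * w) := mul_le_mul_of_nonneg_left hlw hw.le
      _ = _ := by ring
  have e2 : w * Real.sqrt w * (Real.sqrt D1 + Real.sqrt D2) ≤ 2 * (1 + C1) * η * w ^ 2 := by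
    have h1 : Real.sqrt D1 + Real.sqrt D2 ≤ 2 * ((1 + C1) * η * Real.sqrt w) := by
      linarith [hsD D1 hD1, hsD D2 hD2]
    calc w * Real.sqrt w * (Real.sqrt D1 + Real.sqrt D2)
        ≤ w * Real.sqrt w * (2 * ((1 + C1) * η * Real.sqrt w)) :=
          mul_le_mul_of_nonneg_left h1 (by positivity)
      _ = 2 * (1 + C1) * η * w * (Real.sqrt w * Real.sqrt w) := by ring
      _ = _ := by rw [hsw]; ring
  have e3 : w * (Real.sqrt S1 + Real.sqrt S2) ≤ 2 * (1 + C2) * η * w ^ 2 := by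
    have h1 : Real.sqrt S1 + Real.sqrt S2 ≤ 2 * ((1 + C2) * η * w) := by
      linarith [hsS S1 hS1, hsS S2 hS2]
    calc w * (Real.sqrt S1 + Real.sqrt S2) ≤ w * (2 * ((1 + C2) * η * w)) :=
          mul_le_mul_of_nonneg_left h1 hw.le
      _ = _ := by ring
  have e4 : C3 * (w * l + w * Real.sqrt w * (Real.sqrt D1 + Real.sqrt D2) +
      w * (Real.sqrt S1 + Real.sqrt S2)) ≤ C3 * ((5 + 2 * C1 + 2 * C2) * η * w ^ 2) := by
    apply mul_le_mul_of_nonneg_left _ hC3.le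
    have : (5 + 2 * C1 + 2 * C2) * η * w ^ 2 = η * w ^ 2 + 2 * (1 + C1) * η * w ^ 2 +
        2 * (1 + C2) * η * w ^ 2 := by ring
    rw [this]
    linarith
  have e5 : q ^ 2 * w ^ 2 ≤ G1 * G2 * w ^ 2 := by
    have : q * q ≤ G1 * G2 := mul_le_mul hG1 hG2 hq.le (by linarith)
    have h2 : q ^ 2 = q * q := by ring
    rw [h2]
    exact mul_le_mul_of_nonneg_right this (by positivity)
  have e6 : C4 * l * w ≤ C4 * η * w ^ 2 := by
    calc C4 * l * w = C4 * (w * l) := by ring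
      _ ≤ C4 * (η * w ^ 2) := mul_le_mul_of_nonneg_left e1 hC4.le
      _ = _ := by ring
  have e7 : q ^ 2 * w ^ 2 ≤ η * (C3 * (5 + 2 * C1 + 2 * C2) + C4) * w ^ 2 := by
    have : η * (C3 * (5 + 2 * C1 + 2 * C2) + C4) * w ^ 2 =
        C3 * ((5 + 2 * C1 + 2 * C2) * η * w ^ 2) + C4 * η * w ^ 2 := by ring
    rw [this]
    linarith
  have e8 : η * (C3 * (5 + 2 * C1 + 2 * C2) + C4) * w ^ 2 < q ^ 2 * w ^ 2 :=
    mul_lt_mul_of_pos_right hη (by positivity)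
  linarith

theorem core (C lam c : ℝ) (hC : 1 ≤ C) (hlam : 0 < lam) (hc : 0 < c) : ∃ δ0 : ℝ, 0 < δ0 ∧
    ∀ (z L δ h : ℝ) (f1 f2 : ℕ → ℂ) (u1 u2 : ℝ → ℂ), Pm z L δ h → δ ≤ δ0 →
    Sys C z L δ h f1 u1 → Sys C z L δ h f2 u2 →
    Win2 C z L h (fun n => f1 n * (starRingEnd ℂ) (f2 n)) →
    ∀ y1 y2 : ℝ, Real.exp (c * L) ≤ y1 → y1 ≤ Real.exp L → Real.exp (c * L) ≤ y2 →
    y2 ≤ Real.exp L → lam ≤ ‖u1 y1‖ → lam ≤ ‖u2 y2‖ → False := by
  have hC0 : 0 < C := by linarith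
  obtain ⟨C1, hC1, hdef⟩ := defect C hC0
  obtain ⟨C2, hC2, hdsum⟩ := defect_sum C hC0
  obtain ⟨C3, hC3, hlow⟩ := t_low C hC0
  obtain ⟨C4, hC4, hup⟩ := t_up C hC0
  obtain ⟨q, hq⟩ : ∃ q : ℝ, q = lam ^ 2 / 8 := ⟨_, rfl⟩
  have hq0 : 0 < q := by rw [hq]; positivity
  obtain ⟨K, hK⟩ : ∃ K : ℝ, K = C3 * (5 + 2 * C1 + 2 * C2) + C4 := ⟨_, rfl⟩
  have hK0 : 0 < K := by rw [hK]; positivity
  obtain ⟨η, hηd⟩ : ∃ η : ℝ, η = min 1 (q ^ 2 / (2 * K)) := ⟨_, rfl⟩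
  have hη0 : 0 < η := by rw [hηd]; exact lt_min one_pos (by positivity)
  have hη1 : η ≤ 1 := by rw [hηd]; exact min_le_left _ _
  have hη2 : η * K < q ^ 2 := by
    have h1 : η ≤ q ^ 2 / (2 * K) := by rw [hηd]; exact min_le_right _ _
    have h2 : η * K ≤ q ^ 2 / (2 * K) * K := mul_le_mul_of_nonneg_right h1 hK0.le
    have h3 : q ^ 2 / (2 * K) * K = q ^ 2 / 2 := by field_simp
    have h4 : 0 < q ^ 2 := by positivity
    linarith
  obtain ⟨A, hA⟩ : ∃ A : ℝ, A = max 1 (max (C ^ 2) C1) := ⟨_, rfl⟩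
  have hA1 : 1 ≤ A := by rw [hA]; exact le_max_left _ _
  have hAC : C ^ 2 ≤ A := by rw [hA]; exact (le_max_left _ _).trans (le_max_right _ _)
  have hAC1 : C1 ≤ A := by rw [hA]; exact (le_max_right _ _).trans (le_max_right _ _)
  obtain ⟨δ1, hδ1, hseq⟩ := seq A (lam ^ 2 / 4) (η ^ 2) (c / 2) hA1 (by positivity) (by positivity)
    (by positivity)
  refine ⟨min δ1 (min (lam / (2 * C)) (c / 2)), lt_min hδ1 (lt_min (by positivity) (by positivity)),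
    ?_⟩
  intro z L δ h f1 f2 u1 u2 hPm hδ hS1 hS2 hW y1 y2 hy1 hy1' hy2 hy2' hu1 hu2
  have hδa : δ ≤ δ1 := hδ.trans (min_le_left _ _)
  have hδb : δ ≤ lam / (2 * C) := hδ.trans ((min_le_right _ _).trans (min_le_left _ _))
  have hδc : δ ≤ c / 2 := hδ.trans ((min_le_right _ _).trans (min_le_right _ _))
  have hh := hPm.h0
  have hδ0 := hPm.d0
  have hzL := hPm.zL
  have hzpos : 0 < z := lt_of_lt_of_le (Real.exp_pos 1) hPm.z0
  have hlz : 1 ≤ Real.log z := by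
    rw [Real.le_log_iff_exp_le hzpos]
    exact hPm.z0
  have hL0 : 0 < L := by
    by_contra hcon
    push Not at hcon
    have := mul_nonpos_of_nonneg_of_nonpos hδ0.le hcon
    linarith
  obtain ⟨a1, a2, a3⟩ := core_start C lam c z L δ h f1 u1 hC hlam hc hPm hS1 hδb hδc y1 hy1 hu1
  obtain ⟨b1, b2, b3⟩ := core_start C lam c z L δ h f2 u2 hC hlam hc hPm hS2 hδb hδc y2 hy2 hu2
  have hYmono : ∀ i j : ℕ, i ≤ j → Y h i ≤ Y h j := by
    intro i j hij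
    unfold Y
    apply Real.exp_le_exp.2
    have : (i : ℝ) ≤ j := by exact_mod_cast hij
    exact mul_le_mul_of_nonneg_left this hh.le
  have hY1 : ∀ i : ℕ, 1 ≤ Y h i := by
    intro i
    unfold Y
    exact Real.one_le_exp (by positivity)
  have hDq : ∀ (f : ℕ → ℂ) (u : ℝ → ℂ), Sys C z L δ h f u → ∀ K : ℕ, Y h K ≤ Real.exp L →
      ∀ k ≤ K, |DD z f u (Y h k) - Dq h (fun i => ‖u (Y h i)‖ ^ 2) k| ≤ C1 * Real.log z := by
    intro f u hS K hK k hk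
    have h1 := hdef z L δ h f u hPm hS (Y h k) (hY1 k) ((hYmono k K hk).trans hK)
    rw [core_kk h hh k] at h1
    exact h1
  have hDqlow : ∀ (f : ℕ → ℂ) (u : ℝ → ℂ), Sys C z L δ h f u → ∀ K : ℕ, Y h K ≤ Real.exp L →
      ∀ k ≤ K, -(A * Real.log z) ≤ Dq h (fun i => ‖u (Y h i)‖ ^ 2) k := by
    intro f u hS K hK k hk
    have h1 := (abs_le.1 (hDq f u hS K hK k hk)).2
    have h2 := core_DD_nonneg z f u (Y h k)
    have h3 : C1 * Real.log z ≤ A * Real.log z := mul_le_mul_of_nonneg_right hAC1 (by linarith)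
    linarith
  have hGb : ∀ (f : ℕ → ℂ) (u : ℝ → ℂ), Sys C z L δ h f u → ∀ k : ℕ,
      0 ≤ ‖u (Y h k)‖ ^ 2 ∧ ‖u (Y h k)‖ ^ 2 ≤ A := by
    intro f u hS k
    exact ⟨by positivity, (pow_le_pow_left₀ (norm_nonneg _) (hS.bd _) 2).trans hAC⟩
  have hYK1 : Y h (kk h y1) ≤ Real.exp L := a2.trans hy1'
  have hYK2 : Y h (kk h y2) ≤ Real.exp L := b2.trans hy2'
  obtain ⟨k, hk1, hk2, hkl, hG1, hG2, hE1, hE2, hF1, hF2⟩ := hseq h (Real.log z) L
    (fun i => ‖u1 (Y h i)‖ ^ 2) (fun i => ‖u2 (Y h i)‖ ^ 2) (kk h y1) (kk h y2) hh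
    (by linarith [hPm.h1, hPm.d1]) hL0
    (by rw [hzL]; exact mul_le_mul_of_nonneg_right hδa hL0.le) a1 b1 (hGb f1 u1 hS1) (hGb f2 u2 hS2)
    (hDqlow f1 u1 hS1 _ hYK1) (hDqlow f2 u2 hS2 _ hYK2) a3 b3
  have hη22 : η ^ 2 ≤ 1 := pow_le_one₀ hη0.le hη1
  have hw0 : 0 < h * k := by
    by_contra hcon
    push Not at hcon
    have := mul_nonpos_of_nonneg_of_nonpos (sq_nonneg η) hcon
    linarith
  have hwl : Real.log z ≤ h * k := by
    have : η ^ 2 * (h * k) ≤ 1 * (h * k) := mul_le_mul_of_nonneg_right hη22 hw0.le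
    linarith
  have hzy : z ≤ Y h k := by
    unfold Y
    calc z = Real.exp (Real.log z) := (Real.exp_log hzpos).symm
      _ ≤ _ := Real.exp_le_exp.2 hwl
  have hyL : Y h k ≤ Real.exp L := (hYmono k _ hk1).trans hYK1
  have hDD : ∀ (f : ℕ → ℂ) (u : ℝ → ℂ), Sys C z L δ h f u →
      Dq h (fun i => ‖u (Y h i)‖ ^ 2) k ≤ η ^ 2 * (h * k) →
      DD z f u (Y h k) ≤ (1 + C1) * (η ^ 2 * (h * k)) := by
    intro f u hS hE
    have h1 := (abs_le.1 (hDq f u hS k hyL k le_rfl)).2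
    have h2 : C1 * Real.log z ≤ C1 * (η ^ 2 * (h * k)) := mul_le_mul_of_nonneg_left hkl hC1.le
    have h3 : (1 + C1) * (η ^ 2 * (h * k)) = η ^ 2 * (h * k) + C1 * (η ^ 2 * (h * k)) := by ring
    linarith
  have hSS : ∀ (f : ℕ → ℂ) (u : ℝ → ℂ), Sys C z L δ h f u →
      h * ∑ i ∈ range k, Dq h (fun i => ‖u (Y h i)‖ ^ 2) i ≤ η ^ 2 * (h * k) ^ 2 →
      ∑ m ∈ Icc 1 ⌊Y h k⌋₊, La z m / m * DD z f u (Y h k / m) ≤
        (1 + C2) * (η ^ 2 * (h * k) ^ 2) := by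
    intro f u hS hF
    have h1 := hdsum z L δ h f u hPm hS (Y h k) hzy hyL
    rw [core_kk h hh k, core_logY] at h1
    have h2 : C2 * Real.log z * (h * k) ≤ C2 * (η ^ 2 * (h * k)) * (h * k) := by
      apply mul_le_mul_of_nonneg_right _ hw0.le
      exact mul_le_mul_of_nonneg_left hkl hC2.le
    have h3 : (1 + C2) * (η ^ 2 * (h * k) ^ 2) =
        η ^ 2 * (h * k) ^ 2 + C2 * (η ^ 2 * (h * k)) * (h * k) := by ring
    have h4 : h * ∑ i ∈ range k, Dh h u i ≤ η ^ 2 * (h * k) ^ 2 := hF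
    linarith
  have hlow' := hlow z L δ h f1 f2 u1 u2 hPm hS1 hS2 (Y h k) hzy hyL
  have hup' := hup z L δ h f1 f2 u1 u2 hPm hS1 hS2 hW (Y h k) hzy hyL
  rw [core_logY] at hlow' hup'
  have hre : (TT z f1 f2 u1 u2 (Y h k)).re ≤ C4 * Real.log z * (h * k) :=
    ((le_abs_self _).trans (Complex.abs_re_le_norm _)).trans hup'
  exact core_num C1 C2 C3 C4 q (h * k) (Real.log z) η _ _ _ _ _ _ _ hC1 hC2 hC3 hC4 hq0 hη0 hη1
    (by rw [← hK]; exact hη2) hw0 hkl (by rw [hq]; linarith) (by rw [hq]; linarith)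
    (hDD f1 u1 hS1 hE1) (hDD f2 u2 hS2 hE2) (hSS f1 u1 hS1 hF1) (hSS f2 u2 hS2 hF2) hlow' hre

end Pool.MP_dd84fd_nt.QZ
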