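import Pool.Agent.Lib.MP_dd84fd_nt.BX.BrB
import Pool.Agent.Lib.MP_dd84fd_nt.SW.PNT

/-!
# Project QZ (MP_dd84fd_nt): at most one heavy character of small conductor, definitions (helper98)

`rho z`: indicator of the `z`-rough numbers (library), `La z n = rho z n Λ(n)`,
`lam2 n = Λ(n) log n + (Λ * Λ)(n)`.  `Ch z f`: completely multiplicative functions with small sums.
`uu z f α β y`: normalised sum of `La z n f(n)` over the window `(α y, β y]`.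
`Pm`: parameters.  `Sys`: what is used of the functions `u = uu ..`.
`DD`: the defect, `Dq`, `Dh`: its discrete form on the grid `Y h i = e^(h i)`.
-/

set_option autoImplicit false

namespace Pool.MP_dd84fd_nt.QZ

open Finset
open Pool.MP_dd84fd_nt.En (Rough rho)

/-- von Mangoldt function on the `z`-rough numbers -/
noncomputable def La (z : ℝ) (n : ℕ) : ℝ := rho z n * ArithmeticFunction.vonMangoldt n

/-- `Λ(n) log n + (Λ * Λ)(n)` -/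
noncomputable def lam2 (n : ℕ) : ℝ :=
  ArithmeticFunction.vonMangoldt n * Real.log n +
    ∑ a ∈ n.divisorsAntidiagonal,
      ArithmeticFunction.vonMangoldt a.1 * ArithmeticFunction.vonMangoldt a.2

/-- completely multiplicative, bounded by `1`, of modulus `1` at the `z`-rough numbers, all sums
over intervals at most `z` -/
structure Ch (z : ℝ) (f : ℕ → ℂ) : Prop where
  mul : ∀ m n : ℕ, f (m * n) = f m * f n
  bd : ∀ n : ℕ, ‖f n‖ ≤ 1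
  one : ∀ n : ℕ, 1 ≤ n → Rough z n → ‖f n‖ = 1
  pv : ∀ a b : ℕ, ‖∑ n ∈ Ioc a b, f n‖ ≤ z

/-- normalised sum over the window `(α y, β y]` -/
noncomputable def uu (z : ℝ) (f : ℕ → ℂ) (α β y : ℝ) : ℂ :=
  ((1 / ((β - α) * y) : ℝ) : ℂ) * ∑ n ∈ Ioc ⌊α * y⌋₊ ⌊β * y⌋₊, ((La z n : ℝ) : ℂ) * f n

/-- the grid -/
noncomputable def Y (h : ℝ) (i : ℕ) : ℝ := Real.exp (h * i)

/-- index of the grid -/
noncomputable def kk (h y : ℝ) : ℕ := ⌊Real.log y / h⌋₊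

/-- parameters: `log z = δ L`, step `h ≤ δ`; the windows `(M, M e^h]` have the expected mass -/
structure Pm (z L δ h : ℝ) : Prop where
  z0 : Real.exp 1 ≤ z
  d0 : 0 < δ
  d1 : δ ≤ 1
  zL : Real.log z = δ * L
  h0 : 0 < h
  h1 : h ≤ δ
  win : ∀ M : ℝ, z ≤ M → M ≤ Real.exp L →
    |∑ m ∈ Ioc ⌊M⌋₊ ⌊M * Real.exp h⌋₊, La z m / m - h| ≤ δ * h
  win1 : ∀ M : ℝ, 1 ≤ M → M ≤ Real.exp L →
    ∑ m ∈ Ioc ⌊M⌋₊ ⌊M * Real.exp h⌋₊, La z m / m ≤ 2 * h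

/-- what is used of a pair `f`, `u = uu z f α β` -/
structure Sys (C z L δ h : ℝ) (f : ℕ → ℂ) (u : ℝ → ℂ) : Prop where
  mul : ∀ m n : ℕ, f (m * n) = f m * f n
  one : ∀ n : ℕ, 1 ≤ n → Rough z n → ‖f n‖ = 1
  bd : ∀ y : ℝ, ‖u y‖ ≤ C
  zero : ∀ y : ℝ, y < z → u y = 0
  slow : ∀ y y' : ℝ, 0 < y → y ≤ y' → y' ≤ y * Real.exp h → ‖u y' - u y‖ ≤ C * δ
  sel : ∀ y : ℝ, 1 ≤ y → y ≤ Real.exp L →
    ‖u y * ((Real.log y : ℝ) : ℂ) +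
      ∑ m ∈ Icc 1 ⌊y⌋₊, ((La z m / m : ℝ) : ℂ) * f m * u (y / m)‖ ≤ C * Real.log z

/-- the defect -/
noncomputable def DD (z : ℝ) (f : ℕ → ℂ) (u : ℝ → ℂ) (y : ℝ) : ℝ :=
  ∑ m ∈ Icc 1 ⌊y⌋₊, La z m / m * ‖f m * u (y / m) + u y‖ ^ 2

/-- discrete defect of a sequence -/
noncomputable def Dq (h : ℝ) (G : ℕ → ℝ) (k : ℕ) : ℝ := h * ∑ i ∈ range k, G i - h * k * G k

/-- discrete defect of `u` -/
noncomputable def Dh (h : ℝ) (u : ℝ → ℂ) (k : ℕ) : ℝ := Dq h (fun i => ‖u (Y h i)‖ ^ 2) k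

/-- `u(y/t) conj(u(y))` -/
noncomputable def ph (u : ℝ → ℂ) (y t : ℝ) : ℂ := u (y / t) * (starRingEnd ℂ) (u y)

/-- the sum which is computed in two ways -/
noncomputable def TT (z : ℝ) (f1 f2 : ℕ → ℂ) (u1 u2 : ℝ → ℂ) (y : ℝ) : ℂ :=
  ∑ n ∈ Icc 1 ⌊y⌋₊, ((rho z n * lam2 n / n : ℝ) : ℂ) * (f1 n * (starRingEnd ℂ) (f2 n)) *
    (ph u1 y n * (starRingEnd ℂ) (ph u2 y n))

/-- Selberg's weights on the windows `(M, M e^h]` -/
def Win2 (C z L h : ℝ) (g : ℕ → ℂ) : Prop :=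
  ∀ M : ℝ, 1 ≤ M → M ≤ Real.exp L →
    ‖∑ n ∈ Ioc ⌊M⌋₊ ⌊M * Real.exp h⌋₊, ((rho z n * lam2 n : ℝ) : ℂ) * g n‖ ≤
      C * (h * M) * Real.log z ∧
    ∑ n ∈ Ioc ⌊M⌋₊ ⌊M * Real.exp h⌋₊, rho z n * lam2 n ≤ C * (h * M) * L

end Pool.MP_dd84fd_nt.QZ
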