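import Pool.Agent.Lib.MP_dd84fd_nt.QZ.Defs

/-!
# QZ-FlA: fundamental lemma, mean value of `Sv - rho` (Brun-Hooley).  Prefix aux lemmas `fla_`.

With `S_j = fr (blk z j) [p ∣ n] (2(b+j))`, `S'_j = fr (blk z j) [p ∣ n] (2(b+j)+1)` and
`1_j = ∏ (1 - [p ∣ n])`: `S'_j ≤ 1_j ≤ S_j` (Bonferroni), `rho z n = ∏_j 1_j(n)`, so
`Sv - rho ≤ ∑_j (∏_i S_i - S'_j ∏_{i≠j} S_i)` (telescoping).  Both products have mean values
`(v-u) ∏ fr(1/p)` up to the number of the sets of `Ef` (`fla_mean`), at most `z^(4b+8)`, and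
`∏_{i≠j} fr_i(1/p) (fr_j(1/p) - fr'_j(1/p)) ≤ (CB/log z) e^16 (y_j + y'_j)`, `y_j = 8^(2(b+j)+1)/(2(b+j)+1)!`.
-/

set_option autoImplicit false

namespace Pool.MP_dd84fd_nt.QZ

open Finset
open Pool.MP_dd84fd_nt.En (Rough rho)

/-- telescoping -/
private theorem fla_tel (J : ℕ) (S S' P : ℕ → ℝ) (h1 : ∀ i < J, S' i ≤ P i)
    (h2 : ∀ i < J, P i ≤ S i) (h0 : ∀ i < J, 0 ≤ P i) :
    ∏ i ∈ range J, S i - ∏ i ∈ range J, P i ≤
      ∑ j ∈ range J, (∏ i ∈ range J, S i - ∏ i ∈ range J, (if i = j then S' i else S i)) := by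
  induction J with
  | zero => simp
  | succ J ih =>
    have ih' := ih (fun i hi => h1 i (by omega)) (fun i hi => h2 i (by omega))
      (fun i hi => h0 i (by omega))
    have hSJ : 0 ≤ S J := (h0 J (by omega)).trans (h2 J (by omega))
    have hPS : ∏ i ∈ range J, P i ≤ ∏ i ∈ range J, S i :=
      prod_le_prod (fun i hi => h0 i (by have := mem_range.1 hi; omega))
        (fun i hi => h2 i (by have := mem_range.1 hi; omega))
    have hP0 : 0 ≤ ∏ i ∈ range J, P i :=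
      prod_nonneg fun i hi => h0 i (by have := mem_range.1 hi; omega)
    have e1 : ∑ j ∈ range (J + 1), (∏ i ∈ range (J + 1), S i -
        ∏ i ∈ range (J + 1), (if i = j then S' i else S i)) =
        S J * ∑ j ∈ range J, (∏ i ∈ range J, S i - ∏ i ∈ range J, (if i = j then S' i else S i)) +
          (∏ i ∈ range J, S i) * (S J - S' J) := by
      rw [sum_range_succ, mul_sum]
      congr 1
      · refine sum_congr rfl fun j hj => ?_
        have hj' := mem_range.1 hj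
        rw [prod_range_succ, prod_range_succ, if_neg (by omega)]
        ring
      · rw [prod_range_succ, prod_range_succ, if_pos rfl]
        have e2 : ∏ i ∈ range J, (if i = J then S' i else S i) = ∏ i ∈ range J, S i := by
          refine prod_congr rfl fun i hi => ?_
          rw [if_neg (by have := mem_range.1 hi; omega)]
        rw [e2]
        ring
    rw [e1, prod_range_succ, prod_range_succ]
    have h3 : (∏ i ∈ range J, P i) * (S J - P J) ≤ (∏ i ∈ range J, S i) * (S J - S' J) :=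
      mul_le_mul hPS (by linarith [h1 J (by omega)]) (by linarith [h2 J (by omega)])
        (hP0.trans hPS)
    have h4 := mul_le_mul_of_nonneg_left ih' hSJ
    nlinarith

/-- the indicator of the rough numbers -/
private theorem fla_rho {z : ℝ} (hz : 2 ≤ z) (n : ℕ) :
    rho z n = ∏ j ∈ range (BX.JJ z), ∏ p ∈ BX.blk z j, (1 - (if p ∣ n then (1 : ℝ) else 0)) := by
  rw [← prod_biUnion (fun i _ j _ hij => BX.blk_disj (by linarith) hij), BX.blk_union hz]
  unfold rho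
  by_cases h : Rough z n
  · rw [if_pos h]
    symm
    refine prod_eq_one fun p hp => ?_
    rw [Pool.MP_67663b_nt.Odd.mem_pr] at hp
    rw [if_neg, sub_zero]
    intro hpn
    linarith [h p hp.1 hpn, hp.2.2]
  · rw [if_neg h]
    symm
    unfold Rough at h
    push Not at h
    obtain ⟨p, hp, hpn, hpz⟩ := h
    refine prod_eq_zero (i := p) ?_ ?_
    · rw [Pool.MP_67663b_nt.Odd.mem_pr]
      exact ⟨hp, Nat.cast_nonneg p, hpz⟩
    · rw [if_pos hpn, sub_self]

/-- elements of `Ef` are sets of primes -/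
private theorem fla_prime {J : ℕ} {z : ℝ} {r : ℕ → ℕ} {T : Finset ℕ}
    (hT : T ∈ BX.Ef J (BX.blk z) r) : ∀ p ∈ T, p.Prime := by
  intro p hp
  have h1 := (BX.mem_Ef.1 hT).1 hp
  rw [mem_biUnion] at h1
  obtain ⟨j, -, hj⟩ := h1
  exact (BX.mem_blk.1 hj).1

/-- mean value of the truncated products -/
private theorem fla_mean {z : ℝ} (hz : 1 ≤ z) (J : ℕ) (r : ℕ → ℕ) (u v : ℕ) (huv : u ≤ v) :
    |∑ n ∈ Ioc u v, ∏ j ∈ range J, BX.fr (BX.blk z j) (fun p => if p ∣ n then 1 else 0) (r j) -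
      ((v : ℝ) - u) * ∏ j ∈ range J, BX.fr (BX.blk z j) (fun p => 1 / (p : ℝ)) (r j)| ≤
      ((BX.Ef J (BX.blk z) r).card : ℝ) := by
  classical
  have hd : ∀ i < J, ∀ j < J, i ≠ j → Disjoint (BX.blk z i) (BX.blk z j) :=
    fun i _ j _ h => BX.blk_disj hz h
  rw [BX.ef_prod J _ r _ hd]
  have e1 : ∑ n ∈ Ioc u v, ∏ j ∈ range J,
      BX.fr (BX.blk z j) (fun p => if p ∣ n then 1 else 0) (r j) =
      ∑ T ∈ BX.Ef J (BX.blk z) r, (-1 : ℝ) ^ T.card *
        (((Ioc u v).filter (fun n => (∏ p ∈ T, p) ∣ n)).card : ℝ) := by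
    calc ∑ n ∈ Ioc u v, ∏ j ∈ range J,
          BX.fr (BX.blk z j) (fun p => if p ∣ n then 1 else 0) (r j)
        = ∑ n ∈ Ioc u v, ∑ T ∈ BX.Ef J (BX.blk z) r, ∏ p ∈ T, (-(if p ∣ n then (1 : ℝ) else 0)) := by
          refine sum_congr rfl fun n _ => ?_
          exact BX.ef_prod J _ r _ hd
      _ = ∑ T ∈ BX.Ef J (BX.blk z) r, ∑ n ∈ Ioc u v, ∏ p ∈ T, (-(if p ∣ n then (1 : ℝ) else 0)) :=
          sum_comm
      _ = _ := by
          refine sum_congr rfl fun T hT => ?_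
          have hp := fla_prime hT
          have e2 : ∀ n ∈ Ioc u v, ∏ p ∈ T, (-(if p ∣ n then (1 : ℝ) else 0)) =
              if (∏ p ∈ T, p) ∣ n then (-1 : ℝ) ^ T.card else 0 := by
            intro n _
            by_cases h : ∀ p ∈ T, p ∣ n
            · rw [if_pos ((BX.prod_dvd_iff T hp n).2 h), ← prod_const]
              refine prod_congr rfl fun p hp => ?_
              rw [if_pos (h p hp)]
            · rw [if_neg (fun h' => h ((BX.prod_dvd_iff T hp n).1 h'))]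
              push Not at h
              obtain ⟨p, hp, hpn⟩ := h
              refine prod_eq_zero hp ?_
              rw [if_neg hpn, neg_zero]
          rw [sum_congr rfl e2, ← sum_filter, sum_const, nsmul_eq_mul, mul_comm]
  rw [e1, mul_sum, ← sum_sub_distrib]
  refine (abs_sum_le_sum_abs _ _).trans ?_
  have h3 : ∀ T ∈ BX.Ef J (BX.blk z) r, |(-1 : ℝ) ^ T.card *
      (((Ioc u v).filter (fun n => (∏ p ∈ T, p) ∣ n)).card : ℝ) -
      ((v : ℝ) - u) * ∏ p ∈ T, (-(1 / (p : ℝ)))| ≤ 1 := by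
    intro T hT
    have hp := fla_prime hT
    have hpos : 0 < ∏ p ∈ T, p := prod_pos fun p hpT => (hp p hpT).pos
    have e3 : ∏ p ∈ T, (-(1 / (p : ℝ))) = (-1 : ℝ) ^ T.card * (1 / ((∏ p ∈ T, p : ℕ) : ℝ)) := by
      push_cast
      rw [← prod_const, one_div, ← prod_inv_distrib, ← prod_mul_distrib]
      refine prod_congr rfl fun p _ => ?_
      ring
    rw [e3]
    have e4 : (-1 : ℝ) ^ T.card *
        (((Ioc u v).filter (fun n => (∏ p ∈ T, p) ∣ n)).card : ℝ) -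
        ((v : ℝ) - u) * ((-1 : ℝ) ^ T.card * (1 / ((∏ p ∈ T, p : ℕ) : ℝ))) =
        (-1 : ℝ) ^ T.card * ((((Ioc u v).filter (fun n => (∏ p ∈ T, p) ∣ n)).card : ℝ) -
          ((v : ℝ) - u) / ((∏ p ∈ T, p : ℕ) : ℝ)) := by ring
    rw [e4, abs_mul, abs_pow, abs_neg, abs_one, one_pow, one_mul]
    exact BX.card_mult u v _ huv hpos
  refine (sum_le_sum h3).trans ?_
  rw [sum_const, nsmul_eq_mul, mul_one]

/-- number of the sets -/
private theorem fla_card {z : ℝ} (hz : 1 ≤ z) (b : ℕ) (r : ℕ → ℕ)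
    (hr : ∀ i, r i ≤ 2 * (b + 1 + i)) :
    ((BX.Ef (BX.JJ z) (BX.blk z) r).card : ℝ) ≤ z ^ (4 * b + 8) := by
  classical
  have h1 : BX.Ef (BX.JJ z) (BX.blk z) r ⊆
      BX.Ef (BX.JJ z) (BX.blk z) (fun j => 2 * (b + 1 + j)) := by
    intro T hT
    rw [BX.mem_Ef] at hT ⊢
    exact ⟨hT.1, fun j hj => (hT.2 j hj).trans (hr j)⟩
  have h2 : (BX.Ef (BX.JJ z) (BX.blk z) (fun j => 2 * (b + 1 + j))).card =
      (BX.ES (b + 1) z).card := by
    unfold BX.ES
    rw [card_image_of_injOn (BX.ES_inj (b + 1) z)]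
  have h3 := BX.card_ES (b + 1) hz
  have h4 : ((BX.Ef (BX.JJ z) (BX.blk z) r).card : ℝ) ≤ ((BX.ES (b + 1) z).card : ℝ) := by
    rw [← h2]
    exact_mod_cast card_le_card h1
  refine h4.trans (h3.trans (le_of_eq ?_))
  congr 1

/-- the number of blocks -/
private theorem fla_JJ {z : ℝ} (hz : 2 ≤ z) : ((BX.JJ z : ℕ) : ℝ) ≤ 2 * z := by
  have hl2 := Real.log_two_gt_d9
  have h1 : Real.logb 2 z ≤ 2 * z - 1 := by
    unfold Real.logb
    rw [div_le_iff₀ (by linarith)]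
    have h2 := Real.log_le_sub_one_of_pos (by linarith : 0 < z)
    nlinarith
  have h3 : 0 ≤ Real.logb 2 z := Real.logb_nonneg (by norm_num) (by linarith)
  have h4 : ((BX.JJ z : ℕ) : ℝ) < Real.logb 2 z + 1 := Nat.ceil_lt_add_one h3
  linarith

private theorem fla_fact (b J : ℕ) :
    ∑ j ∈ range J, ((8 : ℝ) ^ (2 * (b + j) + 1) / (Nat.factorial (2 * (b + j) + 1) : ℝ) +
      (8 : ℝ) ^ (2 * (b + j) + 2) / (Nat.factorial (2 * (b + j) + 2) : ℝ)) ≤
      9 * Real.exp (8 * Real.exp 1) * Real.exp (-(b : ℝ)) := by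
  have h1 := BX.sum_fact (8 * Real.exp 1) (by positivity) b J
  have h2 : ∀ j ∈ range J, (8 : ℝ) ^ (2 * (b + j) + 1) / (Nat.factorial (2 * (b + j) + 1) : ℝ) +
      (8 : ℝ) ^ (2 * (b + j) + 2) / (Nat.factorial (2 * (b + j) + 2) : ℝ) ≤
      9 * Real.exp (-(b : ℝ)) * ((8 * Real.exp 1) ^ (2 * (b + j) + 1) /
        (Nat.factorial (2 * (b + j) + 1) : ℝ)) := by
    intro j _
    obtain ⟨m, hm⟩ : ∃ m, m = 2 * (b + j) + 1 := ⟨_, rfl⟩
    have hm2 : 2 * (b + j) + 2 = m + 1 := by omega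
    rw [hm2, ← hm]
    have hf : (0 : ℝ) < Nat.factorial m := by exact_mod_cast Nat.factorial_pos m
    have e1 : (8 : ℝ) ^ (m + 1) / (Nat.factorial (m + 1) : ℝ) ≤
        8 * ((8 : ℝ) ^ m / (Nat.factorial m : ℝ)) := by
      rw [Nat.factorial_succ, pow_succ]
      push_cast
      rw [div_le_iff₀ (by positivity)]
      have : 8 * ((8 : ℝ) ^ m / (Nat.factorial m : ℝ)) * (((m : ℝ) + 1) * Nat.factorial m) =
          8 ^ m * 8 * ((m : ℝ) + 1) := by
        field_simp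
      rw [this]
      have h3 : (1 : ℝ) ≤ (m : ℝ) + 1 := by
        have : (0 : ℝ) ≤ m := Nat.cast_nonneg m
        linarith
      nlinarith [pow_pos (by norm_num : (0 : ℝ) < 8) m]
    have e2 : (8 : ℝ) ^ m / (Nat.factorial m : ℝ) ≤
        Real.exp (-(b : ℝ)) * ((8 * Real.exp 1) ^ m / (Nat.factorial m : ℝ)) := by
      rw [← mul_div_assoc]
      refine div_le_div_of_nonneg_right ?_ hf.le
      rw [mul_pow, ← Real.exp_nat_mul, mul_one]
      have e3 : Real.exp (-(b : ℝ)) * (8 ^ m * Real.exp (m : ℝ)) =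
          8 ^ m * Real.exp ((m : ℝ) - b) := by
        rw [sub_eq_add_neg, Real.exp_add]; ring
      rw [e3]
      have h5 : (0 : ℝ) ≤ (m : ℝ) - b := by
        have : (b : ℝ) ≤ m := by exact_mod_cast (by omega : b ≤ m)
        linarith
      have h6 : 1 ≤ Real.exp ((m : ℝ) - b) := Real.one_le_exp h5
      have h7 : (0 : ℝ) < 8 ^ m := by positivity
      nlinarith
    linarith
  refine (sum_le_sum h2).trans ?_
  rw [← mul_sum]
  have h3 : (0 : ℝ) ≤ 9 * Real.exp (-(b : ℝ)) := by positivity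
  calc 9 * Real.exp (-(b : ℝ)) * ∑ j ∈ range J, (8 * Real.exp 1) ^ (2 * (b + j) + 1) /
        (Nat.factorial (2 * (b + j) + 1) : ℝ)
      ≤ 9 * Real.exp (-(b : ℝ)) * Real.exp (8 * Real.exp 1) := mul_le_mul_of_nonneg_left h1 h3
    _ = _ := by ring

/-- (FL1) -/
theorem diff_Sv : ∃ C : ℝ, 0 < C ∧ ∀ (b : ℕ) (z : ℝ), 2 ≤ z → ∀ u v : ℕ, u ≤ v →
    ∑ n ∈ Ioc u v, (BX.Sv b z n - rho z n) ≤
      C * Real.exp (-(b : ℝ)) * ((v : ℝ) - u) / Real.log z + z ^ (8 * b + 16) := by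
  classical
  refine ⟨9 * Real.exp (8 * Real.exp 1) * BX.CB * Real.exp 16, by
    have := BX.CB_pos
    positivity, ?_⟩
  intro b z hz u v huv
  have hz1 : (1 : ℝ) ≤ z := by linarith
  have hlz : 0 < Real.log z := Real.log_pos (by linarith)
  have hCB := BX.CB_pos
  have huv' : (0 : ℝ) ≤ (v : ℝ) - u := by
    have : (u : ℝ) ≤ v := by exact_mod_cast huv
    linarith
  obtain ⟨J, hJ⟩ : ∃ J, J = BX.JJ z := ⟨_, rfl⟩
  obtain ⟨r, hr⟩ : ∃ r : ℕ → ℕ, r = fun i => 2 * (b + i) := ⟨_, rfl⟩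
  obtain ⟨r', hr'⟩ : ∃ r' : ℕ → ℕ → ℕ, r' = fun j i => if i = j then 2 * (b + i) + 1 else 2 * (b + i) :=
    ⟨_, rfl⟩
  -- the pointwise bound
  have hpt : ∀ n ∈ Ioc u v, BX.Sv b z n - rho z n ≤ ∑ j ∈ range J,
      (∏ i ∈ range J, BX.fr (BX.blk z i) (fun p => if p ∣ n then 1 else 0) (r i) -
        ∏ i ∈ range J, BX.fr (BX.blk z i) (fun p => if p ∣ n then 1 else 0) (r' j i)) := by
    intro n _
    have hx0 : ∀ i : ℕ, ∀ p ∈ BX.blk z i, (0 : ℝ) ≤ (if p ∣ n then (1 : ℝ) else 0) := by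
      intro i p _
      split_ifs <;> norm_num
    have hx1 : ∀ i : ℕ, ∀ p ∈ BX.blk z i, (if p ∣ n then (1 : ℝ) else 0) ≤ 1 := by
      intro i p _
      split_ifs <;> norm_num
    have h1 := fla_tel J
      (fun i => BX.fr (BX.blk z i) (fun p => if p ∣ n then 1 else 0) (2 * (b + i)))
      (fun i => BX.fr (BX.blk z i) (fun p => if p ∣ n then 1 else 0) (2 * (b + i) + 1))
      (fun i => ∏ p ∈ BX.blk z i, (1 - (if p ∣ n then (1 : ℝ) else 0)))
      (by
        intro i _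
        have h2 := (BX.bonf_aux (BX.blk z i) (fun p => if p ∣ n then 1 else 0) (hx0 i) (hx1 i)
          (2 * (b + i) + 1)).1
        rw [pow_succ, pow_mul, neg_one_sq, one_pow, one_mul] at h2
        show BX.fr (BX.blk z i) (fun p => if p ∣ n then 1 else 0) (2 * (b + i) + 1) ≤
          ∏ p ∈ BX.blk z i, (1 - (if p ∣ n then (1 : ℝ) else 0))
        linarith)
      (by
        intro i _
        exact (BX.bonf (BX.blk z i) (fun p => if p ∣ n then 1 else 0) (hx0 i) (hx1 i) (b + i)).1)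
      (by
        intro i _
        exact prod_nonneg fun p hp => by linarith [hx1 i p hp])
    have h2 : BX.Sv b z n = ∏ i ∈ range J,
        BX.fr (BX.blk z i) (fun p => if p ∣ n then 1 else 0) (2 * (b + i)) := by
      unfold BX.Sv
      rw [hJ]
    rw [h2, fla_rho hz n, ← hJ]
    refine h1.trans (le_of_eq ?_)
    refine sum_congr rfl fun j _ => ?_
    rw [hr, hr']
    congr 1
    refine prod_congr rfl fun i _ => ?_
    by_cases hij : i = j
    · rw [if_pos hij]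
      simp only [hij, if_true]
    · rw [if_neg hij]
      simp only [hij, if_false]
  -- summation
  have hQ := fla_mean hz1 J r u v huv
  have hQ' : ∀ j, _ := fun j : ℕ => fla_mean hz1 J (r' j) u v huv
  have hc : ((BX.Ef J (BX.blk z) r).card : ℝ) ≤ z ^ (4 * b + 8) := by
    rw [hJ]
    exact fla_card hz1 b r (by intro i; rw [hr]; dsimp only; omega)
  have hc' : ∀ j : ℕ, ((BX.Ef J (BX.blk z) (r' j)).card : ℝ) ≤ z ^ (4 * b + 8) := by
    intro j
    rw [hJ]
    refine fla_card hz1 b (r' j) (by intro i; rw [hr']; dsimp only; split_ifs <;> omega)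
  -- main term
  have hx0 : ∀ j, ∀ p ∈ BX.blk z j, 0 ≤ 1 / (p : ℝ) := fun j p _ => by positivity
  have hx1 : ∀ j, ∀ p ∈ BX.blk z j, 1 / (p : ℝ) ≤ 1 := by
    intro j p hp
    have h2 : (1 : ℝ) ≤ p := by exact_mod_cast (BX.mem_blk.1 hp).1.one_lt.le
    rw [div_le_one (by linarith)]
    exact h2
  obtain ⟨f, hf⟩ : ∃ f : ℕ → ℝ, f = fun i => BX.fr (BX.blk z i) (fun p => 1 / (p : ℝ)) (2 * (b + i)) :=
    ⟨_, rfl⟩
  obtain ⟨f', hf'⟩ : ∃ f' : ℕ → ℝ,
    f' = fun i => BX.fr (BX.blk z i) (fun p => 1 / (p : ℝ)) (2 * (b + i) + 1) := ⟨_, rfl⟩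
  have hfP : ∀ i, Real.exp (-16) ≤ f i := by
    intro i
    rw [hf]
    exact (BX.blk_prod hz1 i).trans (BX.bonf (BX.blk z i) _ (hx0 i) (hx1 i) (b + i)).1
  have hf0 : ∀ i, 0 < f i := fun i => (Real.exp_pos _).trans_le (hfP i)
  have hprod : ∏ i ∈ range J, f i ≤ BX.CB / Real.log z := by
    have h1 := BX.sum_ES b hz
    rw [BX.sum_ES_eq b hz1, ← hJ] at h1
    rw [hf]
    exact h1
  have hdiff : ∀ j, f j - f' j ≤ (8 : ℝ) ^ (2 * (b + j) + 1) / (Nat.factorial (2 * (b + j) + 1) : ℝ) +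
      (8 : ℝ) ^ (2 * (b + j) + 2) / (Nat.factorial (2 * (b + j) + 2) : ℝ) := by
    intro j
    have hs0 : 0 ≤ ∑ p ∈ BX.blk z j, 1 / (p : ℝ) := sum_nonneg (hx0 j)
    have hs8 := BX.blk_sum hz1 j
    have h1 := (BX.bonf_aux (BX.blk z j) _ (hx0 j) (hx1 j) (2 * (b + j))).2
    have h2 := (BX.bonf_aux (BX.blk z j) _ (hx0 j) (hx1 j) (2 * (b + j) + 1)).2
    rw [pow_mul, neg_one_sq, one_pow, one_mul] at h1
    rw [pow_succ, pow_mul, neg_one_sq, one_pow, one_mul] at h2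
    have h3 : (∑ p ∈ BX.blk z j, 1 / (p : ℝ)) ^ (2 * (b + j) + 1) /
        (Nat.factorial (2 * (b + j) + 1) : ℝ) ≤
        (8 : ℝ) ^ (2 * (b + j) + 1) / (Nat.factorial (2 * (b + j) + 1) : ℝ) :=
      div_le_div_of_nonneg_right (pow_le_pow_left₀ hs0 hs8 _) (by positivity)
    have h4 : (∑ p ∈ BX.blk z j, 1 / (p : ℝ)) ^ (2 * (b + j) + 1 + 1) /
        (Nat.factorial (2 * (b + j) + 1 + 1) : ℝ) ≤
        (8 : ℝ) ^ (2 * (b + j) + 1 + 1) / (Nat.factorial (2 * (b + j) + 1 + 1) : ℝ) :=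
      div_le_div_of_nonneg_right (pow_le_pow_left₀ hs0 hs8 _) (by positivity)
    have e1 : 2 * (b + j) + 2 = 2 * (b + j) + 1 + 1 := by omega
    rw [e1, hf, hf']
    dsimp only
    linarith
  have hmain : ∀ j ∈ range J, (∏ i ∈ range J, BX.fr (BX.blk z i) (fun p => 1 / (p : ℝ)) (r i)) -
      ∏ i ∈ range J, BX.fr (BX.blk z i) (fun p => 1 / (p : ℝ)) (r' j i) ≤
      BX.CB / Real.log z * Real.exp 16 *
        ((8 : ℝ) ^ (2 * (b + j) + 1) / (Nat.factorial (2 * (b + j) + 1) : ℝ) +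
      (8 : ℝ) ^ (2 * (b + j) + 2) / (Nat.factorial (2 * (b + j) + 2) : ℝ)) := by
    intro j hj
    have e1 : ∏ i ∈ range J, BX.fr (BX.blk z i) (fun p => 1 / (p : ℝ)) (r i) =
        f j * ∏ i ∈ (range J).erase j, f i := by
      rw [mul_prod_erase _ _ hj, hf, hr]
    have e2 : ∏ i ∈ range J, BX.fr (BX.blk z i) (fun p => 1 / (p : ℝ)) (r' j i) =
        f' j * ∏ i ∈ (range J).erase j, f i := by
      rw [← mul_prod_erase _ _ hj]
      congr 1
      · rw [hf', hr']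
        simp
      · refine prod_congr rfl fun i hi => ?_
        rw [hf, hr']
        have := (mem_erase.1 hi).1
        simp only [this, if_false]
    have e3 : ∏ i ∈ (range J).erase j, f i ≤ BX.CB / Real.log z * Real.exp 16 := by
      have h1 : f j * ∏ i ∈ (range J).erase j, f i ≤ BX.CB / Real.log z := by
        rw [mul_prod_erase _ _ hj]
        exact hprod
      have h2 : 0 ≤ ∏ i ∈ (range J).erase j, f i := prod_nonneg fun i _ => (hf0 i).le
      have h3 : Real.exp (-16) * ∏ i ∈ (range J).erase j, f i ≤ BX.CB / Real.log z :=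
        (mul_le_mul_of_nonneg_right (hfP j) h2).trans h1
      have h4 : Real.exp (-16) * Real.exp 16 = 1 := by
        rw [← Real.exp_add]; norm_num
      calc ∏ i ∈ (range J).erase j, f i =
            (Real.exp (-16) * ∏ i ∈ (range J).erase j, f i) * Real.exp 16 := by
            calc ∏ i ∈ (range J).erase j, f i = (Real.exp (-16) * Real.exp 16) *
                  ∏ i ∈ (range J).erase j, f i := by rw [h4, one_mul]
              _ = _ := by ring
        _ ≤ _ := mul_le_mul_of_nonneg_right h3 (Real.exp_pos _).le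
    have e4 : 0 ≤ ∏ i ∈ (range J).erase j, f i := prod_nonneg fun i _ => (hf0 i).le
    rw [e1, e2]
    have h5 := hdiff j
    have h6 : (0 : ℝ) ≤ (8 : ℝ) ^ (2 * (b + j) + 1) / (Nat.factorial (2 * (b + j) + 1) : ℝ) +
      (8 : ℝ) ^ (2 * (b + j) + 2) / (Nat.factorial (2 * (b + j) + 2) : ℝ) := by positivity
    calc f j * ∏ i ∈ (range J).erase j, f i - f' j * ∏ i ∈ (range J).erase j, f i
        = (∏ i ∈ (range J).erase j, f i) * (f j - f' j) := by ring
      _ ≤ (∏ i ∈ (range J).erase j, f i) *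
          ((8 : ℝ) ^ (2 * (b + j) + 1) / (Nat.factorial (2 * (b + j) + 1) : ℝ) +
            (8 : ℝ) ^ (2 * (b + j) + 2) / (Nat.factorial (2 * (b + j) + 2) : ℝ)) :=
          mul_le_mul_of_nonneg_left h5 e4
      _ ≤ _ := mul_le_mul_of_nonneg_right e3 h6
  -- one `j`
  have hj : ∀ j ∈ range J, ∑ n ∈ Ioc u v,
      (∏ i ∈ range J, BX.fr (BX.blk z i) (fun p => if p ∣ n then 1 else 0) (r i) -
        ∏ i ∈ range J, BX.fr (BX.blk z i) (fun p => if p ∣ n then 1 else 0) (r' j i)) ≤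
      ((v : ℝ) - u) * (BX.CB / Real.log z * Real.exp 16 *
        ((8 : ℝ) ^ (2 * (b + j) + 1) / (Nat.factorial (2 * (b + j) + 1) : ℝ) +
      (8 : ℝ) ^ (2 * (b + j) + 2) / (Nat.factorial (2 * (b + j) + 2) : ℝ))) +
        2 * z ^ (4 * b + 8) := by
    intro j hjJ
    rw [sum_sub_distrib]
    have h1 := (abs_le.1 hQ).2
    have h2 := (abs_le.1 (hQ' j)).1
    have h3 := mul_le_mul_of_nonneg_left (hmain j hjJ) huv'
    have h4 := hc
    have h5 := hc' j
    rw [mul_sub] at h3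
    linarith
  calc ∑ n ∈ Ioc u v, (BX.Sv b z n - rho z n)
      ≤ ∑ n ∈ Ioc u v, ∑ j ∈ range J,
        (∏ i ∈ range J, BX.fr (BX.blk z i) (fun p => if p ∣ n then 1 else 0) (r i) -
        ∏ i ∈ range J, BX.fr (BX.blk z i) (fun p => if p ∣ n then 1 else 0) (r' j i)) :=
        sum_le_sum hpt
    _ = ∑ j ∈ range J, ∑ n ∈ Ioc u v,
        (∏ i ∈ range J, BX.fr (BX.blk z i) (fun p => if p ∣ n then 1 else 0) (r i) -
        ∏ i ∈ range J, BX.fr (BX.blk z i) (fun p => if p ∣ n then 1 else 0) (r' j i)) := sum_comm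
    _ ≤ ∑ j ∈ range J, (((v : ℝ) - u) * (BX.CB / Real.log z * Real.exp 16 *
        ((8 : ℝ) ^ (2 * (b + j) + 1) / (Nat.factorial (2 * (b + j) + 1) : ℝ) +
      (8 : ℝ) ^ (2 * (b + j) + 2) / (Nat.factorial (2 * (b + j) + 2) : ℝ))) +
        2 * z ^ (4 * b + 8)) := sum_le_sum hj
    _ = ((v : ℝ) - u) * (BX.CB / Real.log z * Real.exp 16) *
        (∑ j ∈ range J, ((8 : ℝ) ^ (2 * (b + j) + 1) / (Nat.factorial (2 * (b + j) + 1) : ℝ) +
      (8 : ℝ) ^ (2 * (b + j) + 2) / (Nat.factorial (2 * (b + j) + 2) : ℝ))) +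
        J * (2 * z ^ (4 * b + 8)) := by
        rw [sum_add_distrib, sum_const, card_range, nsmul_eq_mul, mul_sum]
        congr 1
        refine sum_congr rfl fun j _ => ?_
        ring
    _ ≤ ((v : ℝ) - u) * (BX.CB / Real.log z * Real.exp 16) *
        (9 * Real.exp (8 * Real.exp 1) * Real.exp (-(b : ℝ))) + z ^ (8 * b + 16) := by
        refine add_le_add ?_ ?_
        · exact mul_le_mul_of_nonneg_left (fla_fact b J) (mul_nonneg huv' (by positivity))
        · have h1 : (J : ℝ) ≤ 2 * z := by rw [hJ]; exact fla_JJ hz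
          have h2 : (0 : ℝ) ≤ z ^ (4 * b + 8) := by positivity
          calc (J : ℝ) * (2 * z ^ (4 * b + 8)) ≤ 2 * z * (2 * z ^ (4 * b + 8)) :=
                mul_le_mul_of_nonneg_right h1 (by positivity)
            _ = 4 * (z * z ^ (4 * b + 8)) := by ring
            _ ≤ z ^ 2 * (z * z ^ (4 * b + 8)) := by
                refine mul_le_mul_of_nonneg_right ?_ (by positivity)
                nlinarith
            _ = z ^ (4 * b + 11) := by ring
            _ ≤ z ^ (8 * b + 16) := pow_le_pow_right₀ hz1 (by omega)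
    _ = _ := by ring

end Pool.MP_dd84fd_nt.QZ
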