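import Pool.Agent.Lib.MP_dd84fd_nt.QZ.FlA

/-!
# QZ-FlB: sums of `rho f` over intervals.  Prefix aux lemmas `flb_`.

PROOF. `∑ rho f = ∑ Sv_b f - ∑ (Sv_b - rho) f`; `|second| ≤ ∑ (Sv_b - rho) ≤` diff_Sv (Sv ≥ rho: BrA `Sv_nonneg`, `Sv_rough`).
First: `Sv_eq` (BrA): `Sv b z n = ∑_{e ∈ ES, e ∣ n} μ(e)`, so `∑_{u<n≤v} Sv f = ∑_e μ(e) f(e) ∑_{u/e < k ≤ v/e} f(k)`, at most
`card_ES * z ≤ z^(4b+5)`.  Total `≤ C e^(-b) H / log z + z^(4b+5) + z^(8b+16)`.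
Choice: `s = log H / log z ≥ 64`, `b = ⌊s/32⌋ ≥ 2`... check `8b + 17 ≤ s/2` for `b = ⌊(s/2-17)/8⌋` (`s ≥ 64`: `b ≥ 1`, `b ≥ s/64`),
so `z^(8b+17) ≤ H^(1/2)`, and `H^(1/2) ≤ (H/log z) e^(-s)` for `z ≥ z0` (`z^(s/2) ≥ e^s log z`).  c = 1/64.
-/

set_option autoImplicit false

namespace Pool.MP_dd84fd_nt.QZ

open Finset
open Pool.MP_dd84fd_nt.En (Rough rho)

private theorem flb_ap {e : ℕ} (he : 0 < e) {f : ℕ → ℂ} (hm : ∀ m n : ℕ, f (m * n) = f m * f n)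
    (u v : ℕ) : ∑ n ∈ (Ioc u v).filter (fun n => e ∣ n), f n =
      f e * ∑ k ∈ Ioc (u / e) (v / e), f k := by
  rw [mul_sum]
  refine sum_nbij' (fun n => n / e) (fun k => e * k) ?_ ?_ ?_ ?_ ?_
  · intro n hn
    rw [mem_filter, mem_Ioc] at hn
    obtain ⟨⟨h1, h2⟩, k, rfl⟩ := hn
    rw [mem_Ioc, Nat.mul_div_cancel_left k he]
    exact ⟨Nat.div_lt_of_lt_mul h1, (Nat.le_div_iff_mul_le he).2 (by rwa [Nat.mul_comm])⟩
  · intro k hk
    rw [mem_Ioc] at hk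
    rw [mem_filter, mem_Ioc]
    refine ⟨⟨?_, ?_⟩, Dvd.intro k rfl⟩
    · exact Nat.lt_of_not_le fun h =>
        absurd hk.1 (not_lt.2 ((Nat.le_div_iff_mul_le he).2 (by rwa [Nat.mul_comm])))
    · have := (Nat.le_div_iff_mul_le he).1 hk.2
      rwa [Nat.mul_comm] at this
  · intro n hn
    rw [mem_filter] at hn
    exact Nat.mul_div_cancel' hn.2
  · intro k _
    exact Nat.mul_div_cancel_left k he
  · intro n hn
    rw [mem_filter] at hn
    rw [← hm, Nat.mul_div_cancel' hn.2]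

private theorem flb_sum {z : ℝ} (hz : 1 ≤ z) {f : ℕ → ℂ} (hf : Ch z f) (b u v : ℕ) :
    ‖∑ n ∈ Ioc u v, ((BX.Sv b z n : ℝ) : ℂ) * f n‖ ≤ z ^ (4 * b + 5) := by
  classical
  have h1 : ∑ n ∈ Ioc u v, ((BX.Sv b z n : ℝ) : ℂ) * f n = ∑ e ∈ BX.ES b z,
      ((ArithmeticFunction.moebius e : ℝ) : ℂ) * (f e * ∑ k ∈ Ioc (u / e) (v / e), f k) := by
    have h2 : ∀ n, ((BX.Sv b z n : ℝ) : ℂ) * f n = ∑ e ∈ BX.ES b z,
        ((ArithmeticFunction.moebius e : ℝ) : ℂ) * (if e ∣ n then f n else 0) := by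
      intro n
      rw [BX.Sv_eq b hz n, sum_filter, Complex.ofReal_sum, sum_mul]
      refine sum_congr rfl fun e _ => ?_
      by_cases h : e ∣ n
      · rw [if_pos h, if_pos h]
      · rw [if_neg h, if_neg h, Complex.ofReal_zero, zero_mul, mul_zero]
    simp only [h2]
    rw [sum_comm]
    refine sum_congr rfl fun e he => ?_
    rw [← mul_sum, ← sum_filter, flb_ap (BX.ES_pos he) hf.mul]
  rw [h1]
  calc ‖∑ e ∈ BX.ES b z,
      ((ArithmeticFunction.moebius e : ℝ) : ℂ) * (f e * ∑ k ∈ Ioc (u / e) (v / e), f k)‖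
      ≤ ∑ e ∈ BX.ES b z, z := by
        refine norm_sum_le_of_le _ fun e _ => ?_
        rw [norm_mul, norm_mul, Complex.norm_real, Real.norm_eq_abs]
        have h3 : |(ArithmeticFunction.moebius e : ℝ)| ≤ 1 := by
          have := ArithmeticFunction.abs_moebius_le_one (n := e)
          exact_mod_cast this
        have h4 := hf.bd e
        have h5 := hf.pv (u / e) (v / e)
        calc |(ArithmeticFunction.moebius e : ℝ)| * (‖f e‖ * ‖∑ k ∈ Ioc (u / e) (v / e), f k‖)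
            ≤ 1 * (1 * z) := mul_le_mul h3 (mul_le_mul h4 h5 (norm_nonneg _) zero_le_one)
              (by positivity) zero_le_one
          _ = z := by ring
    _ = ((BX.ES b z).card : ℝ) * z := by rw [sum_const, nsmul_eq_mul]
    _ ≤ z ^ (4 * b + 4) * z := mul_le_mul_of_nonneg_right (BX.card_ES b hz) (by linarith)
    _ = z ^ (4 * b + 5) := by ring

private theorem flb_ge (b : ℕ) {z : ℝ} (hz : 1 ≤ z) (n : ℕ) : 0 ≤ BX.Sv b z n - rho z n := by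
  unfold rho
  by_cases h : Rough z n
  · rw [if_pos h, BX.Sv_rough b hz h, sub_self]
  · rw [if_neg h, sub_zero]
    exact BX.Sv_nonneg b z n

private theorem flb_diff {z : ℝ} (hz : 1 ≤ z) {f : ℕ → ℂ} (hf : Ch z f) (b u v : ℕ) :
    ‖∑ n ∈ Ioc u v, ((rho z n : ℝ) : ℂ) * f n‖ ≤
      z ^ (4 * b + 5) + ∑ n ∈ Ioc u v, (BX.Sv b z n - rho z n) := by
  have h1 : ∑ n ∈ Ioc u v, ((rho z n : ℝ) : ℂ) * f n =
      ∑ n ∈ Ioc u v, ((BX.Sv b z n : ℝ) : ℂ) * f n -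
        ∑ n ∈ Ioc u v, ((BX.Sv b z n - rho z n : ℝ) : ℂ) * f n := by
    rw [← sum_sub_distrib]
    refine sum_congr rfl fun n _ => ?_
    push_cast
    ring
  rw [h1]
  refine (norm_sub_le _ _).trans (add_le_add (flb_sum hz hf b u v) ?_)
  refine norm_sum_le_of_le _ fun n _ => ?_
  rw [norm_mul, Complex.norm_real, Real.norm_eq_abs, abs_of_nonneg (flb_ge b hz n)]
  calc (BX.Sv b z n - rho z n) * ‖f n‖ ≤ (BX.Sv b z n - rho z n) * 1 :=
        mul_le_mul_of_nonneg_left (hf.bd n) (flb_ge b hz n)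
    _ = _ := mul_one _

/-- (FL2) -/
theorem fl : ∃ C c z0 : ℝ, 0 < C ∧ 0 < c ∧ 2 ≤ z0 ∧ ∀ z : ℝ, z0 ≤ z → ∀ f : ℕ → ℂ, Ch z f →
    ∀ (u v : ℕ) (H : ℝ), u ≤ v → (v : ℝ) - u ≤ H → z ^ (64 : ℕ) ≤ H →
    ‖∑ n ∈ Ioc u v, ((rho z n : ℝ) : ℂ) * f n‖ ≤
      C * (H / Real.log z) * Real.exp (-(c * (Real.log H / Real.log z))) := by
  obtain ⟨C, hC, hd⟩ := diff_Sv
  refine ⟨C * Real.exp 4 + 1, 1 / 16, Real.exp 1, by positivity, by norm_num, ?_, ?_⟩
  · have := Real.add_one_le_exp (1 : ℝ)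
    linarith
  intro z hz f hf u v H huv hH hzH
  have he1 : (2 : ℝ) ≤ Real.exp 1 := by
    have := Real.add_one_le_exp (1 : ℝ)
    linarith
  have hz2 : (2 : ℝ) ≤ z := he1.trans hz
  have hz1 : (1 : ℝ) ≤ z := by linarith
  have hz0 : (0 : ℝ) < z := by linarith
  have hl1 : 1 ≤ Real.log z := (Real.le_log_iff_exp_le hz0).2 hz
  obtain ⟨l, hl⟩ : ∃ l, l = Real.log z := ⟨_, rfl⟩
  have hH0 : 0 < H := lt_of_lt_of_le (pow_pos hz0 64) hzH
  obtain ⟨s, hs⟩ : ∃ s, s = Real.log H / Real.log z := ⟨_, rfl⟩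
  rw [← hl] at hl1 hs
  have hl0 : 0 < l := by linarith
  have hsl : Real.log H = s * l := by
    rw [hs]
    field_simp
  have hs64 : 64 ≤ s := by
    rw [hs, le_div_iff₀ hl0, hl, ← Real.log_rpow hz0]
    refine Real.log_le_log (by positivity) ?_
    have h1 : z ^ (64 : ℝ) = z ^ (64 : ℕ) := by
      rw [← Real.rpow_natCast]
      norm_num
    rwa [h1]
  have hHe : H = Real.exp (s * l) := by rw [← hsl, Real.exp_log hH0]
  have hze : z = Real.exp l := by rw [hl, Real.exp_log hz0]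
  obtain ⟨b, hb⟩ : ∃ b : ℕ, b = ⌊(s / 2 - 17) / 8⌋₊ := ⟨_, rfl⟩
  have hb1 : (b : ℝ) ≤ (s / 2 - 17) / 8 := by
    rw [hb]
    exact Nat.floor_le (by linarith)
  have hb2 : (s / 2 - 17) / 8 < (b : ℝ) + 1 := by
    rw [hb]
    exact Nat.lt_floor_add_one _
  have h1 := flb_diff hz1 hf b u v
  have h2 := hd b z hz2 u v huv
  rw [← hl] at h2 ⊢
  rw [← hs]
  have h3 : z ^ (4 * b + 5) + z ^ (8 * b + 16) ≤ Real.exp (s / 2 * l) := by
    have a1 : z ^ (4 * b + 5) ≤ z ^ (8 * b + 16) := pow_le_pow_right₀ hz1 (by omega)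
    have a2 : z ^ (8 * b + 17) = z ^ (8 * b + 16) * z := pow_succ _ _
    have a3 : z ^ (8 * b + 16) * 2 ≤ z ^ (8 * b + 16) * z :=
      mul_le_mul_of_nonneg_left hz2 (by positivity)
    have a4 : z ^ (8 * b + 17) ≤ Real.exp (s / 2 * l) := by
      rw [hze, ← Real.exp_nat_mul]
      refine Real.exp_le_exp.2 (mul_le_mul_of_nonneg_right ?_ hl0.le)
      push_cast
      linarith
    linarith
  have h4 : C * Real.exp (-(b : ℝ)) * ((v : ℝ) - u) / l ≤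
      C * Real.exp 4 * (H / l) * Real.exp (-(1 / 16 * s)) := by
    have a1 : Real.exp (-(b : ℝ)) ≤ Real.exp 4 * Real.exp (-(1 / 16 * s)) := by
      rw [← Real.exp_add]
      refine Real.exp_le_exp.2 ?_
      linarith
    have a2 : C * Real.exp (-(b : ℝ)) * ((v : ℝ) - u) ≤ C * Real.exp (-(b : ℝ)) * H :=
      mul_le_mul_of_nonneg_left hH (by positivity)
    have a3 : C * Real.exp (-(b : ℝ)) * H ≤ C * (Real.exp 4 * Real.exp (-(1 / 16 * s))) * H :=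
      mul_le_mul_of_nonneg_right (mul_le_mul_of_nonneg_left a1 hC.le) hH0.le
    calc C * Real.exp (-(b : ℝ)) * ((v : ℝ) - u) / l
        ≤ C * (Real.exp 4 * Real.exp (-(1 / 16 * s))) * H / l :=
          div_le_div_of_nonneg_right (a2.trans a3) hl0.le
      _ = _ := by ring
  have h5 : Real.exp (s / 2 * l) ≤ H / l * Real.exp (-(1 / 16 * s)) := by
    have a1 : l ≤ Real.exp l := by
      have := Real.add_one_le_exp l
      linarith
    have a2 : H / l * Real.exp (-(1 / 16 * s)) = H * Real.exp (-(1 / 16 * s)) / l := by ring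
    rw [a2, le_div_iff₀ hl0]
    calc Real.exp (s / 2 * l) * l ≤ Real.exp (s / 2 * l) * Real.exp l :=
          mul_le_mul_of_nonneg_left a1 (Real.exp_pos _).le
      _ = Real.exp (s / 2 * l + l) := by rw [Real.exp_add]
      _ ≤ Real.exp (s * l + -(1 / 16 * s)) := by
          refine Real.exp_le_exp.2 ?_
          nlinarith
      _ = H * Real.exp (-(1 / 16 * s)) := by rw [Real.exp_add, hHe]
  calc ‖∑ n ∈ Ioc u v, ((rho z n : ℝ) : ℂ) * f n‖
      ≤ z ^ (4 * b + 5) + (C * Real.exp (-(b : ℝ)) * ((v : ℝ) - u) / l + z ^ (8 * b + 16)) :=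
        h1.trans (by linarith)
    _ ≤ C * Real.exp 4 * (H / l) * Real.exp (-(1 / 16 * s)) +
        H / l * Real.exp (-(1 / 16 * s)) := by linarith
    _ = (C * Real.exp 4 + 1) * (H / l) * Real.exp (-(1 / 16 * s)) := by ring

end Pool.MP_dd84fd_nt.QZ
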