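import Pool.Agent.Lib.MP_dd84fd_nt.QZ.Defs

/-!
# QZ-Grid: sums over `m` against the grid.  Prefix aux lemmas `grid_`.

PROOF. `k = kk h y`, `y = Y_k e^(s')`, `0 ≤ s' < h`.  Group `1 < m ≤ y` by windows `(Y_j, Y_{j+1}]`, `0 ≤ j ≤ k` (`La z 1 = 0`); for `m` in it
`y/m ∈ (Y_{k-j} e^(-h), Y_{k-j} e^h)` and `y/m ≥ 1`, so `|F(y/m) - F(Y_{k-j})| ≤ A'`.  `M_j := ∑_{m in window j (and ≤ y)} La/m`: `≤ 2h` (win1),
`|M_j - h| ≤ δh` if `Y_j ≥ z` and `j < k` (win).  So the left side is `≤ A' ∑ M_j + A (∑_{j: Y_j < z} 2h + ∑_j δh + 6h)`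
`≤ 2 A' (log y + h) + A (2 (log z + h) + δ log y + 6h)`, and `δ log y ≤ δL = log z`, `h ≤ δ ≤ 1 ≤ log z`.
mass: F = 1, A = 1, A' = 0, `|h kk - log y| ≤ h`.
-/

set_option autoImplicit false

namespace Pool.MP_dd84fd_nt.QZ

open Finset
open Pool.MP_dd84fd_nt.En (Rough rho)

private lemma grid_Y_zero (h : ℝ) : Y h 0 = 1 := by simp [Y]

private lemma grid_Y_succ (h : ℝ) (j : ℕ) : Y h (j + 1) = Y h j * Real.exp h := by
  unfold Y
  rw [← Real.exp_add]
  congr 1
  push_cast
  ring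

private lemma grid_Y_add (h : ℝ) (i j : ℕ) : Y h (i + j) = Y h i * Y h j := by
  unfold Y
  rw [← Real.exp_add]
  congr 1
  push_cast
  ring

private lemma grid_Y_pos (h : ℝ) (j : ℕ) : 0 < Y h j := Real.exp_pos _

private lemma grid_Y_mono {h : ℝ} (h0 : 0 < h) {i j : ℕ} (hij : i ≤ j) : Y h i ≤ Y h j := by
  unfold Y
  apply Real.exp_le_exp.mpr
  have : (i : ℝ) ≤ j := by exact_mod_cast hij
  nlinarith

private lemma grid_Y_one {h : ℝ} (h0 : 0 < h) (j : ℕ) : 1 ≤ Y h j := by
  have := grid_Y_mono h0 (Nat.zero_le j)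
  rwa [grid_Y_zero] at this

private lemma grid_split (g : ℕ → ℝ) {h : ℝ} (h0 : 0 < h) (k : ℕ) :
    ∑ m ∈ Ioc 1 ⌊Y h k⌋₊, g m =
      ∑ j ∈ range k, ∑ m ∈ Ioc ⌊Y h j⌋₊ ⌊Y h j * Real.exp h⌋₊, g m := by
  induction k with
  | zero => simp [grid_Y_zero]
  | succ k ih =>
    rw [Finset.sum_range_succ, ← ih, ← grid_Y_succ]
    symm
    apply Finset.sum_Ioc_consecutive
    · apply Nat.le_floor
      simpa using grid_Y_one h0 k
    · exact Nat.floor_le_floor (grid_Y_mono h0 (Nat.le_succ k))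

private lemma grid_La_nonneg (z : ℝ) (m : ℕ) : 0 ≤ La z m := by
  unfold La rho
  split_ifs
  · simpa using ArithmeticFunction.vonMangoldt_nonneg
  · simp

private lemma grid_La_one (z : ℝ) : La z 1 = 0 := by
  unfold La
  simp

private lemma grid_mem {M : ℝ} {N m : ℕ} (hM : 0 ≤ M) (hm : m ∈ Ioc ⌊M⌋₊ N) :
    M < m := by
  rw [Finset.mem_Ioc] at hm
  exact (Nat.floor_lt hM).mp hm.1

/-- the comparison of the values of `F` -/
private lemma grid_F {h y : ℝ} (h0 : 0 < h) {F : ℝ → ℝ} {A' : ℝ}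
    (hF : ∀ t t', 1 ≤ t → t ≤ t' → t' ≤ t * Real.exp h → t' ≤ y → |F t' - F t| ≤ A')
    {t x : ℝ} (ht : 1 ≤ t) (htx : t ≤ x) (hx : x ≤ t * Real.exp h * Real.exp h) (hxy : x ≤ y)
    (hA' : 0 ≤ A') : |F x - F t| ≤ 2 * A' := by
  have he : 1 ≤ Real.exp h := Real.one_le_exp h0.le
  by_cases hc : x ≤ t * Real.exp h
  · have := hF t x ht htx hc hxy
    linarith
  · push Not at hc
    have h1 := hF t (t * Real.exp h) ht (by nlinarith) le_rfl (by linarith)
    have h2 := hF (t * Real.exp h) x (by nlinarith) hc.le hx hxy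
    have h3 : F x - F t = (F x - F (t * Real.exp h)) + (F (t * Real.exp h) - F t) := by ring
    rw [h3]
    exact (abs_add_le _ _).trans (by linarith)

private lemma grid_main {z L δ h : ℝ} (P : Pm z L δ h) {y : ℝ} (hy : 1 ≤ y)
    (hyL : y ≤ Real.exp L) {F : ℝ → ℝ} {A A' : ℝ}
    (hFA : ∀ t, 1 ≤ t → t ≤ y → |F t| ≤ A)
    (hF : ∀ t t', 1 ≤ t → t ≤ t' → t' ≤ t * Real.exp h → t' ≤ y → |F t' - F t| ≤ A') :
    |∑ m ∈ Icc 1 ⌊y⌋₊, La z m / m * F (y / m) - h * ∑ i ∈ range (kk h y), F (Y h i)| ≤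
      5 * (A * Real.log z + A' * (1 + Real.log y)) := by
  have h0 := P.h0
  have hz1 : 1 ≤ Real.log z := by
    rw [Real.le_log_iff_exp_le (lt_of_lt_of_le (Real.exp_pos _) P.z0)]
    exact P.z0
  have hh1 : h ≤ 1 := P.h1.trans P.d1
  have he : 1 ≤ Real.exp h := Real.one_le_exp h0.le
  have hly : 0 ≤ Real.log y := Real.log_nonneg hy
  have hy0 : 0 < y := by linarith
  have hlyL : Real.log y ≤ L := (Real.log_le_iff_le_exp hy0).mpr hyL
  have hA : 0 ≤ A := (abs_nonneg _).trans (hFA 1 le_rfl hy)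
  have hA' : 0 ≤ A' := (abs_nonneg _).trans (hF 1 1 le_rfl le_rfl (by linarith) hy)
  set k := kk h y with hk
  have hk1 : h * k ≤ Real.log y := by
    have := Nat.floor_le (show 0 ≤ Real.log y / h by positivity)
    rw [le_div_iff₀ h0] at this
    rw [mul_comm]
    exact this
  have hk2 : Real.log y < h * (k + 1) := by
    have := Nat.lt_floor_add_one (Real.log y / h)
    rw [div_lt_iff₀ h0] at this
    rw [mul_comm]
    exact this
  have hYk : Y h k ≤ y := by
    unfold Y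
    rw [← Real.le_log_iff_exp_le hy0]
    exact hk1
  have hYk1 : y < Y h k * Real.exp h := by
    rw [← grid_Y_succ]
    unfold Y
    rw [← Real.log_lt_iff_lt_exp hy0]
    push_cast
    exact hk2
  -- splitting
  set g : ℕ → ℝ := fun m => La z m / m * F (y / m) with hg
  have hfl1 : 1 ≤ ⌊Y h k⌋₊ := Nat.le_floor (by simpa using grid_Y_one h0 k)
  have hfl2 : ⌊Y h k⌋₊ ≤ ⌊y⌋₊ := Nat.floor_le_floor hYk
  have hsplit : ∑ m ∈ Icc 1 ⌊y⌋₊, g m =
      (∑ j ∈ range k, ∑ m ∈ Ioc ⌊Y h j⌋₊ ⌊Y h j * Real.exp h⌋₊, g m) +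
        ∑ m ∈ Ioc ⌊Y h k⌋₊ ⌊y⌋₊, g m := by
    rw [← grid_split g h0 k, Finset.sum_Ioc_consecutive _ hfl1 hfl2]
    have hI : Icc 1 ⌊y⌋₊ = insert 1 (Ioc 1 ⌊y⌋₊) := by
      ext a
      simp only [Finset.mem_Icc, Finset.mem_insert, Finset.mem_Ioc]
      have : 1 ≤ ⌊y⌋₊ := hfl1.trans hfl2
      omega
    rw [hI, Finset.sum_insert (by simp)]
    simp [hg, grid_La_one]
  have hrefl : ∑ i ∈ range k, F (Y h i) = ∑ j ∈ range k, F (Y h (k - 1 - j)) :=
    (Finset.sum_range_reflect (fun i => F (Y h i)) k).symm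
  -- mass of the windows
  set Mj : ℕ → ℝ := fun j => ∑ m ∈ Ioc ⌊Y h j⌋₊ ⌊Y h j * Real.exp h⌋₊, La z m / m with hMj
  have hYL : ∀ j, j ≤ k → Y h j ≤ Real.exp L := fun j hj =>
    ((grid_Y_mono h0 hj).trans hYk).trans hyL
  have hM0 : ∀ j, 0 ≤ Mj j := fun j =>
    Finset.sum_nonneg fun m _ => div_nonneg (grid_La_nonneg z m) (Nat.cast_nonneg m)
  have hM1 : ∀ j, j ≤ k → Mj j ≤ 2 * h := fun j hj =>
    P.win1 (Y h j) (grid_Y_one h0 j) (hYL j hj)
  have hM2 : ∀ j, j ≤ k → z ≤ Y h j → |Mj j - h| ≤ δ * h := fun j hj hzj =>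
    P.win (Y h j) hzj (hYL j hj)
  have hM3 : ∀ j, j ≤ k → |Mj j - h| ≤ h := fun j hj => by
    have a := hM0 j
    have b := hM1 j hj
    rw [abs_le]
    constructor <;> linarith
  -- one window
  have hwin : ∀ j ∈ range k, |∑ m ∈ Ioc ⌊Y h j⌋₊ ⌊Y h j * Real.exp h⌋₊, g m -
      h * F (Y h (k - 1 - j))| ≤ 4 * A' * h + A * |Mj j - h| := by
    intro j hj
    rw [Finset.mem_range] at hj
    have hYi : Y h (k - 1 - j) * Y h (j + 1) = Y h k := by
      rw [← grid_Y_add]
      congr 1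
      omega
    have ht1 : 1 ≤ Y h (k - 1 - j) := grid_Y_one h0 _
    have hty : Y h (k - 1 - j) ≤ y := (grid_Y_mono h0 (by omega)).trans hYk
    have e1 : ∑ m ∈ Ioc ⌊Y h j⌋₊ ⌊Y h j * Real.exp h⌋₊, g m - h * F (Y h (k - 1 - j)) =
        ∑ m ∈ Ioc ⌊Y h j⌋₊ ⌊Y h j * Real.exp h⌋₊,
          La z m / m * (F (y / m) - F (Y h (k - 1 - j))) +
          (Mj j - h) * F (Y h (k - 1 - j)) := by
      simp only [hg, hMj, mul_sub, Finset.sum_sub_distrib, ← Finset.sum_mul]
      ring
    rw [e1]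
    refine (abs_add_le _ _).trans (add_le_add ?_ ?_)
    · refine (Finset.abs_sum_le_sum_abs _ _).trans ?_
      calc ∑ m ∈ Ioc ⌊Y h j⌋₊ ⌊Y h j * Real.exp h⌋₊,
            |La z m / m * (F (y / m) - F (Y h (k - 1 - j)))|
          ≤ ∑ m ∈ Ioc ⌊Y h j⌋₊ ⌊Y h j * Real.exp h⌋₊, La z m / m * (2 * A') := by
            apply Finset.sum_le_sum
            intro m hm
            have hmj : Y h j < m := grid_mem (grid_Y_pos h j).le hm
            have hm0 : (0 : ℝ) < m := lt_trans (grid_Y_pos h j) hmj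
            have hmj2 : (m : ℝ) ≤ Y h (j + 1) := by
              rw [grid_Y_succ]
              have h2 := (Finset.mem_Ioc.mp hm).2
              exact (Nat.cast_le.mpr h2).trans
                (Nat.floor_le (mul_nonneg (grid_Y_pos h j).le (Real.exp_pos h).le))
            have hLn : 0 ≤ La z m / m := div_nonneg (grid_La_nonneg z m) hm0.le
            rw [abs_mul, abs_of_nonneg hLn]
            apply mul_le_mul_of_nonneg_left _ hLn
            apply grid_F h0 hF ht1 _ _ _ hA'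
            · rw [le_div_iff₀ hm0]
              calc Y h (k - 1 - j) * m ≤ Y h (k - 1 - j) * Y h (j + 1) :=
                    mul_le_mul_of_nonneg_left hmj2 (grid_Y_pos h _).le
                _ = Y h k := hYi
                _ ≤ y := hYk
            · rw [div_le_iff₀ hm0]
              have e2 : Y h (k - 1 - j) * Real.exp h * Real.exp h * Y h j =
                  Y h k * Real.exp h := by
                rw [← hYi, grid_Y_succ]
                ring
              calc y ≤ Y h k * Real.exp h := hYk1.le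
                _ = Y h (k - 1 - j) * Real.exp h * Real.exp h * Y h j := e2.symm
                _ ≤ Y h (k - 1 - j) * Real.exp h * Real.exp h * m := by
                    apply mul_le_mul_of_nonneg_left hmj.le
                    have := grid_Y_pos h (k - 1 - j)
                    positivity
            · rw [div_le_iff₀ hm0]
              have : (1 : ℝ) ≤ m := by
                have := grid_Y_one h0 j
                linarith
              nlinarith
        _ = Mj j * (2 * A') := by rw [Finset.sum_mul]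
        _ ≤ 2 * h * (2 * A') := mul_le_mul_of_nonneg_right (hM1 j hj.le) (by linarith)
        _ = 4 * A' * h := by ring
    · rw [abs_mul, mul_comm A]
      exact mul_le_mul_of_nonneg_left (hFA _ ht1 hty) (abs_nonneg _)
  -- last window
  have hlast : |∑ m ∈ Ioc ⌊Y h k⌋₊ ⌊y⌋₊, g m| ≤ 2 * h * A := by
    refine (Finset.abs_sum_le_sum_abs _ _).trans ?_
    calc ∑ m ∈ Ioc ⌊Y h k⌋₊ ⌊y⌋₊, |g m|
        ≤ ∑ m ∈ Ioc ⌊Y h k⌋₊ ⌊y⌋₊, La z m / m * A := by
          apply Finset.sum_le_sum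
          intro m hm
          have hmk : Y h k < m := grid_mem (grid_Y_pos h k).le hm
          have hm0 : (0 : ℝ) < m := lt_trans (grid_Y_pos h k) hmk
          have hmy : (m : ℝ) ≤ y := by
            have h2 := (Finset.mem_Ioc.mp hm).2
            exact (Nat.cast_le.mpr h2).trans (Nat.floor_le hy0.le)
          have hLn : 0 ≤ La z m / m := div_nonneg (grid_La_nonneg z m) hm0.le
          simp only [hg]
          rw [abs_mul, abs_of_nonneg hLn]
          apply mul_le_mul_of_nonneg_left _ hLn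
          apply hFA
          · rw [le_div_iff₀ hm0]
            linarith
          · rw [div_le_iff₀ hm0]
            have : (1 : ℝ) ≤ m := by
              have := grid_Y_one h0 k
              linarith
            nlinarith
      _ ≤ ∑ m ∈ Ioc ⌊Y h k⌋₊ ⌊Y h k * Real.exp h⌋₊, La z m / m * A := by
          apply Finset.sum_le_sum_of_subset_of_nonneg
          · apply Finset.Ioc_subset_Ioc le_rfl
            exact Nat.floor_le_floor hYk1.le
          · intro m _ _
            exact mul_nonneg (div_nonneg (grid_La_nonneg z m) (Nat.cast_nonneg m)) hA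
      _ = Mj k * A := by rw [Finset.sum_mul]
      _ ≤ 2 * h * A := mul_le_mul_of_nonneg_right (hM1 k le_rfl) hA
  -- sum of the deviations
  have hdev : ∑ j ∈ range k, |Mj j - h| ≤ 3 * Real.log z := by
    have hone : ∀ j ∈ range k, |Mj j - h| ≤ δ * h + (if Y h j < z then h else 0) := by
      intro j hj
      rw [Finset.mem_range] at hj
      by_cases hc : Y h j < z
      · rw [if_pos hc]
        have := hM3 j hj.le
        have : 0 ≤ δ * h := mul_nonneg P.d0.le h0.le
        linarith [hM3 j hj.le]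
      · rw [if_neg hc]
        push Not at hc
        linarith [hM2 j hj.le hc]
    refine (Finset.sum_le_sum hone).trans ?_
    rw [Finset.sum_add_distrib, Finset.sum_const, Finset.card_range, nsmul_eq_mul,
      ← Finset.sum_filter, Finset.sum_const, nsmul_eq_mul]
    have hcard : (((range k).filter (fun j => Y h j < z)).card : ℝ) ≤ Real.log z / h + 1 := by
      have hsub : (range k).filter (fun j => Y h j < z) ⊆ range (⌊Real.log z / h⌋₊ + 1) := by
        intro j hj
        rw [Finset.mem_filter] at hj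
        rw [Finset.mem_range, Nat.lt_succ_iff]
        apply Nat.le_floor
        rw [le_div_iff₀ h0]
        have h3 := hj.2
        unfold Y at h3
        rw [← Real.lt_log_iff_exp_lt (lt_of_lt_of_le (Real.exp_pos _) P.z0)] at h3
        rw [mul_comm]
        exact h3.le
      have h4 := Finset.card_le_card hsub
      rw [Finset.card_range] at h4
      have h5 : (((range k).filter (fun j => Y h j < z)).card : ℝ) ≤
          ((⌊Real.log z / h⌋₊ + 1 : ℕ) : ℝ) := by exact_mod_cast h4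
      push_cast at h5
      have h6 := Nat.floor_le (show 0 ≤ Real.log z / h by positivity)
      linarith
    have e1 : (k : ℝ) * (δ * h) ≤ Real.log z := by
      rw [P.zL]
      calc (k : ℝ) * (δ * h) = δ * (h * k) := by ring
        _ ≤ δ * L := mul_le_mul_of_nonneg_left (hk1.trans hlyL) P.d0.le
    have e2 : (((range k).filter (fun j => Y h j < z)).card : ℝ) * h ≤ Real.log z + h := by
      calc (((range k).filter (fun j => Y h j < z)).card : ℝ) * h
          ≤ (Real.log z / h + 1) * h := mul_le_mul_of_nonneg_right hcard h0.le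
        _ = Real.log z + h := by
            field_simp
    linarith
  -- assembly
  have hfin : ∑ m ∈ Icc 1 ⌊y⌋₊, g m - h * ∑ i ∈ range k, F (Y h i) =
      (∑ j ∈ range k, (∑ m ∈ Ioc ⌊Y h j⌋₊ ⌊Y h j * Real.exp h⌋₊, g m -
        h * F (Y h (k - 1 - j)))) + ∑ m ∈ Ioc ⌊Y h k⌋₊ ⌊y⌋₊, g m := by
    rw [hsplit, hrefl, Finset.sum_sub_distrib, Finset.mul_sum]
    ring
  change |∑ m ∈ Icc 1 ⌊y⌋₊, g m - h * ∑ i ∈ range k, F (Y h i)| ≤ _
  rw [hfin]
  refine (abs_add_le _ _).trans ?_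
  have hs : |∑ j ∈ range k, (∑ m ∈ Ioc ⌊Y h j⌋₊ ⌊Y h j * Real.exp h⌋₊, g m -
        h * F (Y h (k - 1 - j)))| ≤ 4 * A' * (h * k) + A * (3 * Real.log z) := by
    refine (Finset.abs_sum_le_sum_abs _ _).trans ((Finset.sum_le_sum hwin).trans ?_)
    rw [Finset.sum_add_distrib, Finset.sum_const, Finset.card_range, nsmul_eq_mul,
      ← Finset.mul_sum]
    have := mul_le_mul_of_nonneg_left hdev hA
    have e : (k : ℝ) * (4 * A' * h) = 4 * A' * (h * k) := by ring
    linarith
  have h7 : 4 * A' * (h * k) ≤ 4 * A' * Real.log y :=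
    mul_le_mul_of_nonneg_left hk1 (by linarith)
  have h8 : 2 * h * A ≤ 2 * (A * Real.log z) := by
    have : h * A ≤ Real.log z * A := mul_le_mul_of_nonneg_right (hh1.trans hz1) hA
    nlinarith
  have h9 : 0 ≤ A' * Real.log y := mul_nonneg hA' hly
  nlinarith [hs, hlast, h7, h8, h9, hA']

theorem grid : ∃ C : ℝ, 0 < C ∧ ∀ z L δ h : ℝ, Pm z L δ h → ∀ y : ℝ, 1 ≤ y → y ≤ Real.exp L →
    ∀ (F : ℝ → ℝ) (A A' : ℝ),
    (∀ t, 1 ≤ t → t ≤ y → |F t| ≤ A) →
    (∀ t t', 1 ≤ t → t ≤ t' → t' ≤ t * Real.exp h → t' ≤ y → |F t' - F t| ≤ A') →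
    |∑ m ∈ Icc 1 ⌊y⌋₊, La z m / m * F (y / m) - h * ∑ i ∈ range (kk h y), F (Y h i)| ≤
      C * (A * Real.log z + A' * (1 + Real.log y)) := by
  refine ⟨5, by norm_num, ?_⟩
  intro z L δ h P y hy hyL F A A' hFA hF
  exact grid_main P hy hyL hFA hF

/-- the total mass (`F = 1`) -/
theorem mass : ∃ C : ℝ, 0 < C ∧ ∀ z L δ h : ℝ, Pm z L δ h → ∀ y, 1 ≤ y → y ≤ Real.exp L →
    |∑ m ∈ Icc 1 ⌊y⌋₊, La z m / m - Real.log y| ≤ C * Real.log z := by
  refine ⟨6, by norm_num, ?_⟩
  intro z L δ h P y hy hyL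
  have h0 := P.h0
  have hz1 : 1 ≤ Real.log z := by
    rw [Real.le_log_iff_exp_le (lt_of_lt_of_le (Real.exp_pos _) P.z0)]
    exact P.z0
  have hh1 : h ≤ 1 := P.h1.trans P.d1
  have hly : 0 ≤ Real.log y := Real.log_nonneg hy
  have h1 := grid_main P hy hyL (F := fun _ => 1) (A := 1) (A' := 0)
    (fun t _ _ => by simp) (fun t t' _ _ _ _ => by simp)
  simp only [mul_one, Finset.sum_const, Finset.card_range, nsmul_eq_mul, one_mul, zero_mul,
    add_zero] at h1
  have hk1 : h * (kk h y : ℝ) ≤ Real.log y := by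
    have := Nat.floor_le (show 0 ≤ Real.log y / h by positivity)
    rw [le_div_iff₀ h0] at this
    rw [mul_comm]
    exact this
  have hk2 : Real.log y < h * ((kk h y : ℝ) + 1) := by
    have := Nat.lt_floor_add_one (Real.log y / h)
    rw [div_lt_iff₀ h0] at this
    rw [mul_comm]
    exact this
  rw [abs_le] at h1 ⊢
  constructor <;> nlinarith [h1.1, h1.2]

end Pool.MP_dd84fd_nt.QZ
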