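import Pool.Agent.Lib.MP_dd84fd_nt.QZ.Za
import Pool.Agent.Lib.MP_dd84fd_nt.BY.Defs
import Pool.Agent.Lib.MP_dd84fd_nt.BX.Gal
import Pool.Agent.Lib.MP_dd84fd_nt.BX.DgA
import Pool.Agent.Lib.MP_dd84fd_nt.En.BT
import Pool.Agent.Lib.MP_dd84fd_nt.HX.DcRg

/-!
# QZ-HvY: a large norm of an exact form gives a heavy interval.  Prefix aux lemmas `hvy_`.

PROOF of hvY_win (log-free version of BY/ExA, which proves `ExY`).  `T' = L^(B+2)`, `H = X/(2T')`, Gallagher,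
the mean square of the windows of `AE` on short intervals is `≤ C (H/L)²` since `|AE| ≤ 2^22 rg`: some `u ∈ [κ₁ X + H, X]` has
`|∑_{u-H<n≤u} AE(n) ψ(n)| ≥ c κ H/L`.  Suppose no interval is `Hvy lam (1/11) B'`.
`AE(n) = rg y n ∑_{l ∣ n} c l`: the sum is `∑_l c(l) ψ(l) ∑_{m rough, lm ∈ (x,x+H]} ψ(m)`.  Inner sum: multiply by `log m = log (x/l) + O(H/x)` and
`log m = ∑_(n ∣ m) Λ(n)`: `∑_k ψ(k) ∑_(n rough, lkn ∈ (x, x+H]) Λ(n) ψ(n)`; if `x/(lk) ≥ y` this is `≤ 2 lam H/(lk)`, and if `x/(lk) < y` then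
`y l k ∈ (x, x+H]`: few `k`, trivial bound.  `∑ 1/(lk)` over rough `l, k ≤ X` is `≤ C`.
-/

set_option autoImplicit false

namespace Pool.MP_dd84fd_nt.QZ

open Finset
open Pool.MP_dd84fd_nt.BX (PC pv IsPC sN pv_mul pv_norm_le)
open Pool.MP_dd84fd_nt.BY (sNf SXf AE ExF AdmY)
open Pool.MP_dd84fd_nt.HX (rg Rgh rg_mul rg_nonneg rgh_mul_iff)
open ArithmeticFunction (vonMangoldt)

private theorem hvy_swap (G : ℕ → ℕ → ℂ) (a b : ℕ) :
    ∑ n ∈ Ioc a b, ∑ l ∈ n.divisors, G l (n / l) =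
      ∑ l ∈ Icc 1 b, ∑ k ∈ Ioc (a / l) (b / l), G l k := by
  rw [sum_sigma', sum_sigma']
  refine sum_nbij' (fun x => ⟨x.2, x.1 / x.2⟩) (fun x => ⟨x.1 * x.2, x.1⟩) ?_ ?_ ?_ ?_ ?_
  · rintro ⟨n, l⟩ hx
    rw [mem_sigma, mem_Ioc, Nat.mem_divisors] at hx
    obtain ⟨⟨hn1, hnt⟩, hln, -⟩ := hx
    simp only at hn1 hnt hln ⊢
    have hl1 : 1 ≤ l := Nat.pos_of_dvd_of_pos hln (by omega)
    have hll : l ≤ n := Nat.le_of_dvd (by omega) hln
    rw [mem_sigma, mem_Icc, mem_Ioc]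
    refine ⟨⟨hl1, hll.trans hnt⟩, ?_, Nat.div_le_div_right hnt⟩
    rw [Nat.div_lt_iff_lt_mul hl1, Nat.div_mul_cancel hln]
    exact hn1
  · rintro ⟨l, k⟩ hx
    rw [mem_sigma, mem_Icc, mem_Ioc] at hx
    obtain ⟨⟨hl1, hlt⟩, hk1, hkt⟩ := hx
    simp only at hl1 hlt hk1 hkt ⊢
    rw [mem_sigma, mem_Ioc, Nat.mem_divisors]
    have h1 := (Nat.le_div_iff_mul_le hl1).1 hkt
    have h2 := (Nat.div_lt_iff_lt_mul hl1).1 hk1
    rw [mul_comm] at h1 h2
    exact ⟨⟨h2, h1⟩, Dvd.intro _ rfl, (lt_of_le_of_lt (Nat.zero_le _) h2).ne'⟩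
  · rintro ⟨n, l⟩ hx
    rw [mem_sigma, mem_Ioc, Nat.mem_divisors] at hx
    simp only
    rw [Nat.mul_div_cancel' hx.2.1]
  · rintro ⟨l, k⟩ hx
    rw [mem_sigma, mem_Icc, mem_Ioc] at hx
    obtain ⟨⟨hl1, hlt⟩, hk1, hkt⟩ := hx
    simp only at hl1 ⊢
    rw [Nat.mul_div_cancel_left _ hl1]
  · rintro ⟨n, l⟩ hx
    rfl

/-- the exact form on an interval -/
private theorem hvy_dec {th e τ : ℝ} {X y : ℕ} {c : ℕ → ℝ} (h : ExF th e τ X y c) (ψ : PC)
    (a b : ℕ) (ha : IY.X5 X ≤ a) (hb : b ≤ X) :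
    ∑ n ∈ Ioc a b, ((AE X y c n : ℝ) : ℂ) * pv ψ n =
      ∑ l ∈ Icc 1 b, ((c l : ℝ) : ℂ) * pv ψ l *
        ∑ m ∈ Ioc (a / l) (b / l), ((rg y m : ℝ) : ℂ) * pv ψ m := by
  have h1 : ∀ n ∈ Ioc a b, ((AE X y c n : ℝ) : ℂ) * pv ψ n =
      ∑ l ∈ n.divisors, (fun l m : ℕ => ((c l : ℝ) : ℂ) * pv ψ l *
        (((rg y m : ℝ) : ℂ) * pv ψ m)) l (n / l) := by
    intro n hn
    rw [mem_Ioc] at hn
    have hX5 : IY.X5 X < (n : ℝ) := by
      refine lt_of_le_of_lt ha ?_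
      exact_mod_cast hn.1
    unfold AE
    rw [if_pos ⟨hX5, hn.2.trans hb⟩]
    push_cast
    rw [mul_sum, sum_mul]
    refine sum_congr rfl fun l hl => ?_
    have hln := Nat.dvd_of_mem_divisors hl
    by_cases hc : c l = 0
    · rw [hc]
      simp
    · have hr := h.crg l hc
      have e3 : n = l * (n / l) := (Nat.mul_div_cancel' hln).symm
      have e4 : rg y n = rg y (n / l) := by
        have e5 : rg y l = 1 := by
          unfold rg
          rw [if_pos hr]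
        conv_lhs => rw [e3]
        rw [rg_mul, e5, one_mul]
      have e5 : pv ψ n = pv ψ l * pv ψ (n / l) := by
        rw [← pv_mul, Nat.mul_div_cancel' hln]
      rw [e4, e5]
      ring
  rw [sum_congr rfl h1, hvy_swap (fun l m : ℕ => ((c l : ℝ) : ℂ) * pv ψ l *
        (((rg y m : ℝ) : ℂ) * pv ψ m)) a b]
  refine sum_congr rfl fun l _ => ?_
  rw [mul_sum]

/-- the logarithm -/
private theorem hvy_log (ψ : PC) (y a b : ℕ) :
    ∑ m ∈ Ioc a b, ((rg y m : ℝ) : ℂ) * pv ψ m * ((Real.log m : ℝ) : ℂ) =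
      ∑ k ∈ Icc 1 b, ((rg y k : ℝ) : ℂ) * pv ψ k *
        ∑ n ∈ Ioc (a / k) (b / k), ((rg y n * vonMangoldt n : ℝ) : ℂ) * pv ψ n := by
  have h1 : ∀ m ∈ Ioc a b, ((rg y m : ℝ) : ℂ) * pv ψ m * ((Real.log m : ℝ) : ℂ) =
      ∑ k ∈ m.divisors, (fun k n : ℕ => ((rg y k : ℝ) : ℂ) * pv ψ k *
        (((rg y n * vonMangoldt n : ℝ) : ℂ) * pv ψ n)) k (m / k) := by
    intro m hm
    rw [mem_Ioc] at hm
    have hm0 : m ≠ 0 := by omega
    have e1 : ∑ k ∈ m.divisors, (fun k n : ℕ => ((rg y k : ℝ) : ℂ) * pv ψ k *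
        (((rg y n * vonMangoldt n : ℝ) : ℂ) * pv ψ n)) k (m / k) =
        ∑ k ∈ m.divisors, ((rg y m : ℝ) : ℂ) * pv ψ m * ((vonMangoldt (m / k) : ℝ) : ℂ) := by
      refine sum_congr rfl fun k hk => ?_
      have hkm := Nat.dvd_of_mem_divisors hk
      have e3 : m = k * (m / k) := (Nat.mul_div_cancel' hkm).symm
      have e4 : rg y m = rg y k * rg y (m / k) := by
        conv_lhs => rw [e3]
        rw [rg_mul]
      have e5 : pv ψ m = pv ψ k * pv ψ (m / k) := by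
        rw [← pv_mul, Nat.mul_div_cancel' hkm]
      simp only
      rw [e4, e5]
      push_cast
      ring
    rw [e1, ← mul_sum]
    congr 1
    rw [← ArithmeticFunction.vonMangoldt_sum]
    push_cast
    exact (Nat.sum_div_divisors m (fun k => ((vonMangoldt k : ℝ) : ℂ))).symm
  rw [sum_congr rfl h1, hvy_swap (fun k n : ℕ => ((rg y k : ℝ) : ℂ) * pv ψ k *
        (((rg y n * vonMangoldt n : ℝ) : ℂ) * pv ψ n)) a b]
  refine sum_congr rfl fun l _ => ?_
  rw [mul_sum]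

/-- prime powers -/
private theorem hvy_pp (ψ : PC) (y a b : ℕ) (hya : y ≤ a) (hb : 1 ≤ b) :
    ‖∑ n ∈ Ioc a b, ((vonMangoldt n : ℝ) : ℂ) * pv ψ n -
      ∑ n ∈ Ioc a b, ((rg y n * vonMangoldt n : ℝ) : ℂ) * pv ψ n‖ ≤
      2 * Real.sqrt b * Real.log b := by
  rw [← sum_sub_distrib]
  have hb1 : (1 : ℝ) ≤ (b : ℝ) := by exact_mod_cast hb
  refine le_trans ?_ (Chebyshev.psi_sub_theta_le hb1)
  rw [Chebyshev.psi_sub_theta_eq_sum_not_prime, Nat.floor_natCast, sum_filter]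
  refine (norm_sum_le _ _).trans ?_
  have hsub : Ioc a b ⊆ Ioc 0 b := by
    intro n hn
    rw [mem_Ioc] at hn ⊢
    omega
  refine le_trans ?_ (sum_le_sum_of_subset_of_nonneg hsub fun n _ _ => by
    split_ifs
    · exact le_rfl
    · exact ArithmeticFunction.vonMangoldt_nonneg)
  refine sum_le_sum fun n hn => ?_
  rw [mem_Ioc] at hn
  have e1 : ((vonMangoldt n : ℝ) : ℂ) * pv ψ n - ((rg y n * vonMangoldt n : ℝ) : ℂ) * pv ψ n =
      (((1 - rg y n) * vonMangoldt n : ℝ) : ℂ) * pv ψ n := by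
    push_cast
    ring
  rw [e1, norm_mul, Complex.norm_real, Real.norm_eq_abs]
  have hv : 0 ≤ vonMangoldt n := ArithmeticFunction.vonMangoldt_nonneg
  obtain ⟨hr0, hr1⟩ := rg_nonneg y n
  have h2 := pv_norm_le ψ n
  split_ifs with hp
  · have e3 : rg y n = 1 := by
      unfold rg
      rw [if_pos]
      refine ⟨hp.ne_zero, fun q hq => ?_⟩
      rw [hp.primeFactors, mem_singleton] at hq
      omega
    rw [e3]
    simp
  · have e2 : |(1 - rg y n) * vonMangoldt n| ≤ vonMangoldt n := by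
      rw [abs_of_nonneg (mul_nonneg (by linarith) hv)]
      nlinarith
    calc |(1 - rg y n) * vonMangoldt n| * ‖pv ψ n‖ ≤ vonMangoldt n * 1 :=
          mul_le_mul e2 h2 (norm_nonneg _) hv
      _ = vonMangoldt n := mul_one _

/-- a full window -/
private theorem hvy_A {lam : ℝ} {B' X : ℕ} {ψ : PC} (hnot : ¬ Hvy lam (1 / 11) B' X ψ)
    {N H y d : ℕ} (hX : 1 ≤ X) (hd : 1 ≤ d) (hH : 1 ≤ H) (hHN : H ≤ N) (hNX : N + H ≤ X)
    (hB : (N : ℝ) ≤ H * (Real.log X) ^ B') (hy : (X : ℝ) ^ (1 / 11 : ℝ) ≤ y) (hyd : y ≤ N / d) :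
    ‖∑ n ∈ Ioc (N / d) ((N + H) / d), ((rg y n * vonMangoldt n : ℝ) : ℂ) * pv ψ n‖ ≤
      lam * (H / d) + 2 * Real.sqrt (2 * N / d) * Real.log X := by
  have hd0 : (0 : ℝ) < d := by exact_mod_cast hd
  have hH0 : (0 : ℝ) < H := by exact_mod_cast hH
  have hX1 : (1 : ℝ) ≤ X := by exact_mod_cast hX
  have hd1 : (1 : ℝ) ≤ d := by exact_mod_cast hd
  have hNXr : (N : ℝ) + H ≤ X := by exact_mod_cast hNX
  have hHNr : (H : ℝ) ≤ N := by exact_mod_cast hHN
  have hy1 : 1 ≤ y := by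
    have : (0 : ℝ) < y := lt_of_lt_of_le (by positivity) hy
    exact_mod_cast this
  have h1 : ‖∑ n ∈ Ioc (N / d) ((N + H) / d), ((vonMangoldt n : ℝ) : ℂ) * pv ψ n‖ <
      lam * (H / d) := by
    by_contra hcon
    rw [not_lt] at hcon
    apply hnot
    refine ⟨(N : ℝ) / d, (H : ℝ) / d, by positivity, ?_, ?_, ?_, ?_, ?_⟩
    · refine hy.trans (le_trans (b := ((N / d : ℕ) : ℝ)) (by exact_mod_cast hyd) Nat.cast_div_le)
    · rw [← add_div, div_le_iff₀ hd0]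
      calc (N : ℝ) + H ≤ X := hNXr
        _ = X * 1 := (mul_one _).symm
        _ ≤ X * d := mul_le_mul_of_nonneg_left hd1 (by linarith)
    · exact div_le_div_of_nonneg_right hHNr hd0.le
    · rw [div_mul_eq_mul_div]
      exact div_le_div_of_nonneg_right hB hd0.le
    · have e1 : ⌊(N : ℝ) / d⌋₊ = N / d := Nat.floor_div_eq_div N d
      have e2 : ⌊(N : ℝ) / d + (H : ℝ) / d⌋₊ = (N + H) / d := by
        rw [← add_div, ← Nat.cast_add]
        exact Nat.floor_div_eq_div (N + H) d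
      rw [e1, e2]
      exact hcon
  have hb1 : 1 ≤ (N + H) / d := by
    refine le_trans (hy1.trans hyd) (Nat.div_le_div_right (by omega))
  have h2 := hvy_pp ψ y (N / d) ((N + H) / d) hyd hb1
  have hbr : (((N + H) / d : ℕ) : ℝ) ≤ 2 * N / d := by
    refine Nat.cast_div_le.trans ?_
    push_cast
    exact div_le_div_of_nonneg_right (by linarith) hd0.le
  have hbX : (((N + H) / d : ℕ) : ℝ) ≤ X := by
    exact_mod_cast (Nat.div_le_self _ _).trans hNX
  have hb0 : (1 : ℝ) ≤ (((N + H) / d : ℕ) : ℝ) := by exact_mod_cast hb1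
  have h3 : 2 * Real.sqrt (((N + H) / d : ℕ) : ℝ) * Real.log (((N + H) / d : ℕ) : ℝ) ≤
      2 * Real.sqrt (2 * N / d) * Real.log X := by
    have := Real.log_nonneg hb0
    gcongr
  have h4 := norm_sub_norm_le (∑ n ∈ Ioc (N / d) ((N + H) / d),
    ((rg y n * vonMangoldt n : ℝ) : ℂ) * pv ψ n)
    (∑ n ∈ Ioc (N / d) ((N + H) / d), ((vonMangoldt n : ℝ) : ℂ) * pv ψ n)
  rw [norm_sub_rev] at h4
  linarith

/-- the number of integers -/
private theorem hvy_cnt (N H d : ℕ) (hd : 1 ≤ d) :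
    (((Ioc (N / d) ((N + H) / d)).card : ℕ) : ℝ) ≤ H / d + 1 := by
  have hd0 : (0 : ℝ) < d := by exact_mod_cast hd
  rw [Nat.card_Ioc, Nat.cast_sub (Nat.div_le_div_right (by omega))]
  have h1 : (((N + H) / d : ℕ) : ℝ) ≤ (N + H) / d := by
    refine Nat.cast_div_le.trans ?_
    push_cast
    exact le_rfl
  have h2 : (N : ℝ) / d < ((N / d : ℕ) : ℝ) + 1 := by
    rw [← Nat.floor_div_eq_div (K := ℝ) N d]
    exact Nat.lt_floor_add_one _
  rw [add_div] at h1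
  linarith

/-- a window which contains `y` -/
private theorem hvy_B {X : ℕ} (ψ : PC) {N H y d : ℕ} (hd : 1 ≤ d) (hNX : N + H ≤ X) :
    ‖∑ n ∈ Ioc (N / d) ((N + H) / d), ((rg y n * vonMangoldt n : ℝ) : ℂ) * pv ψ n‖ ≤
      if y * d ≤ N + H then Real.log X * (H / d + 1) else 0 := by
  split_ifs with h
  · refine (norm_sum_le _ _).trans ?_
    have h1 : ∀ n ∈ Ioc (N / d) ((N + H) / d),
        ‖((rg y n * vonMangoldt n : ℝ) : ℂ) * pv ψ n‖ ≤ Real.log X := by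
      intro n hn
      rw [mem_Ioc] at hn
      have hv : 0 ≤ vonMangoldt n := ArithmeticFunction.vonMangoldt_nonneg
      obtain ⟨hr0, hr1⟩ := rg_nonneg y n
      have h2 := pv_norm_le ψ n
      have hn1 : (1 : ℝ) ≤ n := by
        exact_mod_cast (lt_of_le_of_lt (Nat.zero_le _) hn.1 : 0 < n)
      have hnX : (n : ℝ) ≤ X := by
        exact_mod_cast hn.2.trans ((Nat.div_le_self _ _).trans hNX)
      rw [norm_mul, Complex.norm_real, Real.norm_eq_abs, abs_of_nonneg (mul_nonneg hr0 hv)]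
      calc rg y n * vonMangoldt n * ‖pv ψ n‖ ≤ 1 * Real.log n * 1 := by
            refine mul_le_mul (mul_le_mul hr1 ArithmeticFunction.vonMangoldt_le_log hv zero_le_one)
              h2 (norm_nonneg _) (by simpa using Real.log_nonneg hn1)
        _ = Real.log n := by ring
        _ ≤ Real.log X := Real.log_le_log (by linarith) hnX
    refine (sum_le_sum h1).trans ?_
    rw [sum_const, nsmul_eq_mul, mul_comm]
    exact mul_le_mul_of_nonneg_left (hvy_cnt N H d hd) (Real.log_natCast_nonneg X)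
  · have h1 : (N + H) / d < y := by
      rw [Nat.div_lt_iff_lt_mul hd]
      omega
    rw [sum_eq_zero fun n hn => ?_, norm_zero]
    rw [mem_Ioc] at hn
    have hn0 : 0 < n := lt_of_le_of_lt (Nat.zero_le _) hn.1
    have h2 : rg y n * vonMangoldt n = 0 := by
      rcases eq_or_ne n 1 with rfl | hn1
      · simp
      · have h3 : ¬ Rgh y n := by
          intro h4
          have h5 := h4.2 n.minFac (Nat.mem_primeFactors.2
            ⟨Nat.minFac_prime hn1, Nat.minFac_dvd n, hn0.ne'⟩)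
          have h6 := Nat.minFac_le hn0
          omega
        unfold rg
        rw [if_neg h3, zero_mul]
    rw [h2]
    simp

/-- the sum over the rough cofactors -/
private theorem hvy_T {lam S1 : ℝ} (hlam : 0 < lam) {B' X : ℕ} {ψ : PC}
    (hnot : ¬ Hvy lam (1 / 11) B' X ψ)
    {N H y l : ℕ} (hX : 1 ≤ X) (hl : 1 ≤ l) (hH : 1 ≤ H) (hHN : H ≤ N) (hNX : N + H ≤ X)
    (hB : (N : ℝ) ≤ H * (Real.log X) ^ B') (hy : (X : ℝ) ^ (1 / 11 : ℝ) ≤ y)
    (hS1 : ∑ k ∈ Icc 1 X, rg y k * (1 / (k : ℝ)) ≤ S1)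
    (hpp : ∀ d : ℕ, 1 ≤ d → y ≤ N / d → 2 * Real.sqrt (2 * N / d) * Real.log X ≤ lam * (H / d)) :
    ‖∑ m ∈ Ioc (N / l) ((N + H) / l), ((rg y m : ℝ) : ℂ) * pv ψ m * ((Real.log m : ℝ) : ℂ)‖ ≤
      2 * lam * (H / l) * S1 + Real.log X * (H * y / N + 1) * (H / (y * l) + 1) := by
  have hl0 : (0 : ℝ) < l := by exact_mod_cast hl
  have hH0 : (0 : ℝ) < H := by exact_mod_cast hH
  have hN0 : (0 : ℝ) < N := by exact_mod_cast (by omega : 0 < N)
  have hy1 : 1 ≤ y := by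
    have : (0 : ℝ) < y := lt_of_lt_of_le (by
      have : (1 : ℝ) ≤ X := by exact_mod_cast hX
      positivity) hy
    exact_mod_cast this
  have hy0 : (0 : ℝ) < y := by exact_mod_cast hy1
  have hL0 : 0 ≤ Real.log (X : ℝ) := Real.log_natCast_nonneg X
  obtain ⟨K, hK⟩ : ∃ K : ℝ, K = Real.log X * (H * y / N + 1) := ⟨_, rfl⟩
  have hK0 : 0 ≤ K := by rw [hK]; positivity
  rw [hvy_log, ← hK]
  refine (norm_sum_le _ _).trans ?_
  have h1 : ∀ k ∈ Icc 1 ((N + H) / l), ‖((rg y k : ℝ) : ℂ) * pv ψ k *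
      ∑ n ∈ Ioc (N / l / k) ((N + H) / l / k), ((rg y n * vonMangoldt n : ℝ) : ℂ) * pv ψ n‖ ≤
      2 * lam * (H / l) * (rg y k * (1 / (k : ℝ))) +
        (if k ∈ Ioc (N / (y * l)) ((N + H) / (y * l)) then K else 0) := by
    intro k hk
    rw [mem_Icc] at hk
    have hk0 : (0 : ℝ) < k := by exact_mod_cast hk.1
    obtain ⟨hr0, hr1⟩ := rg_nonneg y k
    have hlk : 1 ≤ l * k := Nat.mul_pos hl hk.1
    have hp1 := pv_norm_le ψ k
    rw [Nat.div_div_eq_div_mul, Nat.div_div_eq_div_mul, norm_mul, norm_mul, Complex.norm_real,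
      Real.norm_eq_abs, abs_of_nonneg hr0]
    by_cases hc : y ≤ N / (l * k)
    · have h2 := hvy_A hnot hX hlk hH hHN hNX hB hy hc
      have h3 := hpp (l * k) hlk hc
      have h4 : ‖∑ n ∈ Ioc (N / (l * k)) ((N + H) / (l * k)),
          ((rg y n * vonMangoldt n : ℝ) : ℂ) * pv ψ n‖ ≤ 2 * lam * (H / l) * (1 / (k : ℝ)) := by
        refine h2.trans ?_
        refine (add_le_add le_rfl h3).trans (le_of_eq ?_)
        push_cast
        field_simp
        ring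
      have h5 : 0 ≤ (if k ∈ Ioc (N / (y * l)) ((N + H) / (y * l)) then K else 0) := by
        split_ifs
        · exact hK0
        · exact le_rfl
      calc rg y k * ‖pv ψ k‖ * ‖∑ n ∈ Ioc (N / (l * k)) ((N + H) / (l * k)),
          ((rg y n * vonMangoldt n : ℝ) : ℂ) * pv ψ n‖
          ≤ rg y k * 1 * (2 * lam * (H / l) * (1 / (k : ℝ))) := by
            refine mul_le_mul (mul_le_mul_of_nonneg_left hp1 hr0) h4 (norm_nonneg _) ?_
            rw [mul_one]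
            exact hr0
        _ = 2 * lam * (H / l) * (rg y k * (1 / (k : ℝ))) := by ring
        _ ≤ _ := by linarith
    · rw [not_le] at hc
      have h2 := hvy_B (X := X) ψ (N := N) (H := H) (y := y) hlk hNX
      have h3 : ‖∑ n ∈ Ioc (N / (l * k)) ((N + H) / (l * k)),
          ((rg y n * vonMangoldt n : ℝ) : ℂ) * pv ψ n‖ ≤
          (if k ∈ Ioc (N / (y * l)) ((N + H) / (y * l)) then K else 0) := by
        refine h2.trans ?_
        by_cases h4 : y * (l * k) ≤ N + H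
        · have h5 : N < y * (l * k) := (Nat.div_lt_iff_lt_mul hlk).1 hc
          have h6 : k ∈ Ioc (N / (y * l)) ((N + H) / (y * l)) := by
            have hyl : 0 < y * l := Nat.mul_pos hy1 hl
            rw [mem_Ioc, Nat.div_lt_iff_lt_mul hyl, Nat.le_div_iff_mul_le hyl]
            have h7 : k * (y * l) = y * (l * k) := by ring
            rw [h7]
            exact ⟨h5, h4⟩
          rw [if_pos h4, if_pos h6, hK]
          refine mul_le_mul_of_nonneg_left ?_ hL0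
          have h8 : (N : ℝ) ≤ y * (l * k) := by exact_mod_cast h5.le
          have h9 : (H : ℝ) / ((l * k : ℕ) : ℝ) ≤ H * y / N := by
            push_cast
            rw [div_le_div_iff₀ (by positivity) hN0]
            nlinarith
          linarith
        · rw [if_neg h4]
          split_ifs
          · exact hK0
          · exact le_rfl
      have h4 : 0 ≤ 2 * lam * (H / l) * (rg y k * (1 / (k : ℝ))) := by positivity
      have h5 : rg y k * ‖pv ψ k‖ ≤ 1 := by nlinarith [norm_nonneg (pv ψ k)]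
      have h6 : rg y k * ‖pv ψ k‖ * ‖∑ n ∈ Ioc (N / (l * k)) ((N + H) / (l * k)),
          ((rg y n * vonMangoldt n : ℝ) : ℂ) * pv ψ n‖ ≤
          ‖∑ n ∈ Ioc (N / (l * k)) ((N + H) / (l * k)),
          ((rg y n * vonMangoldt n : ℝ) : ℂ) * pv ψ n‖ :=
        mul_le_of_le_one_left (norm_nonneg _) h5
      linarith
  refine (sum_le_sum h1).trans ?_
  rw [sum_add_distrib, ← mul_sum]
  refine add_le_add ?_ ?_
  · refine mul_le_mul_of_nonneg_left (le_trans ?_ hS1) (by positivity)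
    refine sum_le_sum_of_subset_of_nonneg ?_ fun k _ _ =>
      mul_nonneg (rg_nonneg y k).1 (by positivity)
    exact Icc_subset_Icc_right ((Nat.div_le_self _ _).trans hNX)
  · rw [← sum_filter]
    rw [sum_const, nsmul_eq_mul, mul_comm]
    refine mul_le_mul_of_nonneg_left ?_ hK0
    refine le_trans ?_ ((hvy_cnt N H (y * l) (Nat.mul_pos hy1 hl)).trans (le_of_eq ?_))
    · have : (Icc 1 ((N + H) / l)).filter (fun k => k ∈ Ioc (N / (y * l)) ((N + H) / (y * l))) ⊆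
          Ioc (N / (y * l)) ((N + H) / (y * l)) := by
        intro k hk
        exact (mem_filter.1 hk).2
      exact_mod_cast card_le_card this
    · push_cast
      rfl

/-- the sum over rough numbers -/
private theorem hvy_R {ψ : PC} {N H y l : ℕ} (hl : 1 ≤ l) (hN : 1 ≤ N) (T : ℝ)
    (hT : ‖∑ m ∈ Ioc (N / l) ((N + H) / l), ((rg y m : ℝ) : ℂ) * pv ψ m *
      ((Real.log m : ℝ) : ℂ)‖ ≤ T) (hlog : 0 ≤ Real.log ((N : ℝ) / l)) :
    Real.log ((N : ℝ) / l) * ‖∑ m ∈ Ioc (N / l) ((N + H) / l), ((rg y m : ℝ) : ℂ) * pv ψ m‖ ≤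
      T + H / N * (H / l + 1) := by
  have hl0 : (0 : ℝ) < l := by exact_mod_cast hl
  have hN0 : (0 : ℝ) < N := by exact_mod_cast hN
  have h1 : ((Real.log ((N : ℝ) / l) : ℝ) : ℂ) *
      ∑ m ∈ Ioc (N / l) ((N + H) / l), ((rg y m : ℝ) : ℂ) * pv ψ m =
      ∑ m ∈ Ioc (N / l) ((N + H) / l), ((rg y m : ℝ) : ℂ) * pv ψ m * ((Real.log m : ℝ) : ℂ) -
      ∑ m ∈ Ioc (N / l) ((N + H) / l), ((rg y m : ℝ) : ℂ) * pv ψ m *
        ((Real.log m - Real.log ((N : ℝ) / l) : ℝ) : ℂ) := by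
    rw [← sum_sub_distrib, mul_sum]
    refine sum_congr rfl fun m _ => ?_
    push_cast
    ring
  have h2 : Real.log ((N : ℝ) / l) * ‖∑ m ∈ Ioc (N / l) ((N + H) / l),
      ((rg y m : ℝ) : ℂ) * pv ψ m‖ = ‖((Real.log ((N : ℝ) / l) : ℝ) : ℂ) *
      ∑ m ∈ Ioc (N / l) ((N + H) / l), ((rg y m : ℝ) : ℂ) * pv ψ m‖ := by
    rw [norm_mul, Complex.norm_real, Real.norm_eq_abs, abs_of_nonneg hlog]
  rw [h2, h1]
  refine (norm_sub_le _ _).trans (add_le_add hT ?_)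
  refine (norm_sum_le _ _).trans ?_
  have h3 : ∀ m ∈ Ioc (N / l) ((N + H) / l), ‖((rg y m : ℝ) : ℂ) * pv ψ m *
        ((Real.log m - Real.log ((N : ℝ) / l) : ℝ) : ℂ)‖ ≤ H / N := by
    intro m hm
    rw [mem_Ioc] at hm
    have hm1 : 0 < m := lt_of_le_of_lt (Nat.zero_le _) hm.1
    have hm0 : (0 : ℝ) < m := by exact_mod_cast hm1
    obtain ⟨hr0, hr1⟩ := rg_nonneg y m
    have e1 : (N : ℝ) < m * l := by exact_mod_cast (Nat.div_lt_iff_lt_mul hl).1 hm.1
    have e2 : (m : ℝ) * l ≤ N + H := by exact_mod_cast (Nat.le_div_iff_mul_le hl).1 hm.2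
    have e3 : Real.log m - Real.log ((N : ℝ) / l) = Real.log (m * l / N) := by
      rw [← Real.log_div hm0.ne' (by positivity)]
      congr 1
      field_simp
    have e4 : 1 ≤ (m : ℝ) * l / N := by
      rw [le_div_iff₀ hN0]
      linarith
    have e5 : Real.log (m * l / N) ≤ H / N := by
      refine (Real.log_le_sub_one_of_pos (by linarith)).trans ?_
      rw [sub_le_iff_le_add, div_add_one hN0.ne']
      exact div_le_div_of_nonneg_right (by linarith) hN0.le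
    have e6 : 0 ≤ Real.log (m * l / N) := Real.log_nonneg e4
    rw [norm_mul, norm_mul, Complex.norm_real, Complex.norm_real, e3, Real.norm_eq_abs,
      Real.norm_eq_abs, abs_of_nonneg hr0, abs_of_nonneg e6]
    have h5 : rg y m * ‖pv ψ m‖ ≤ 1 := by nlinarith [norm_nonneg (pv ψ m), pv_norm_le ψ m]
    exact (mul_le_of_le_one_left e6 h5).trans e5
  refine (sum_le_sum h3).trans ?_
  rw [sum_const, nsmul_eq_mul, mul_comm]
  exact mul_le_mul_of_nonneg_left (hvy_cnt N H l hl) (by positivity)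

/-- the window of the exact form, if there is no heavy interval -/
private theorem hvy_W {lam S1 th e τ : ℝ} (hlam : 0 < lam) {B' X : ℕ} {ψ : PC}
    (hnot : ¬ Hvy lam (1 / 11) B' X ψ) {N H y : ℕ} {c : ℕ → ℝ} (hE : ExF th e τ X y c)
    (hX : 1 ≤ X) (hL : 1 ≤ Real.log X) (hH : 1 ≤ H) (hHN : H ≤ N) (hNX : N + H ≤ X)
    (hX5 : IY.X5 X ≤ N)
    (hB : (N : ℝ) ≤ H * (Real.log X) ^ B') (hy : (X : ℝ) ^ (1 / 11 : ℝ) ≤ y)
    (hS1 : ∑ k ∈ Icc 1 X, rg y k * (1 / (k : ℝ)) ≤ S1)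
    (hpp : ∀ d : ℕ, 1 ≤ d → y ≤ N / d → 2 * Real.sqrt (2 * N / d) * Real.log X ≤ lam * (H / d))
    (hsup : ∀ l, c l ≠ 0 → (y : ℝ) * l ≤ H ∧ Real.log X / 4 ≤ Real.log ((N : ℝ) / l))
    (hNy : (N : ℝ) ≤ H * y) :
    ‖∑ n ∈ Ioc N (N + H), ((AE X y c n : ℝ) : ℂ) * pv ψ n‖ ≤
      2 ^ 15 * (H / Real.log X) * (2 * lam * S1 + 6 * Real.log X * (H / N)) * S1 := by
  have hH0 : (0 : ℝ) < H := by exact_mod_cast hH
  have hN0 : (0 : ℝ) < N := by exact_mod_cast (by omega : 0 < N)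
  have hX1 : (1 : ℝ) ≤ X := by exact_mod_cast hX
  have hy1 : 1 ≤ y := by
    have : (0 : ℝ) < y := lt_of_lt_of_le (by positivity) hy
    exact_mod_cast this
  have hy0 : (0 : ℝ) < y := by exact_mod_cast hy1
  have hS0 : 0 ≤ S1 := le_trans (sum_nonneg fun k _ =>
    mul_nonneg (rg_nonneg y k).1 (by positivity)) hS1
  obtain ⟨L, hLd⟩ : ∃ L, L = Real.log X := ⟨_, rfl⟩
  rw [← hLd] at hL hsup hpp ⊢
  have hL0 : 0 < L := by linarith
  obtain ⟨Q, hQ⟩ : ∃ Q, Q = 2 * lam * S1 + 6 * L * (H / N) := ⟨_, rfl⟩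
  have hQ0 : 0 ≤ Q := by rw [hQ]; positivity
  rw [← hQ, hvy_dec hE ψ N (N + H) hX5 hNX]
  refine (norm_sum_le _ _).trans ?_
  have h1 : ∀ l ∈ Icc 1 (N + H), ‖((c l : ℝ) : ℂ) * pv ψ l *
      ∑ m ∈ Ioc (N / l) ((N + H) / l), ((rg y m : ℝ) : ℂ) * pv ψ m‖ ≤
      2 ^ 15 * (H / L) * Q * (rg y l * (1 / (l : ℝ))) := by
    intro l hl
    rw [mem_Icc] at hl
    have hl0 : (0 : ℝ) < l := by exact_mod_cast hl.1
    by_cases hc : c l = 0
    · rw [hc]
      have := (rg_nonneg y l).1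
      rw [Complex.ofReal_zero, zero_mul, zero_mul, norm_zero]
      positivity
    · obtain ⟨hyl, hlog⟩ := hsup l hc
      have hr1 : rg y l = 1 := by
        unfold rg
        rw [if_pos (hE.crg l hc)]
      have hT := hvy_T hlam hnot hX hl.1 hH hHN hNX hB hy hS1 (by rw [← hLd]; exact hpp)
      rw [← hLd] at hT
      have hlog0 : 0 ≤ Real.log ((N : ℝ) / l) := le_trans (by positivity) hlog
      have hR := hvy_R (ψ := ψ) (H := H) hl.1 (by omega : 1 ≤ N) _ hT hlog0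
      obtain ⟨R, hRd⟩ : ∃ R, R = ‖∑ m ∈ Ioc (N / l) ((N + H) / l),
        ((rg y m : ℝ) : ℂ) * pv ψ m‖ := ⟨_, rfl⟩
      rw [← hRd] at hR
      have hR0 : 0 ≤ R := by rw [hRd]; exact norm_nonneg _
      have e1 : (1 : ℝ) ≤ H * y / N := by
        rw [le_div_iff₀ hN0, one_mul]
        exact hNy
      have e2 : (1 : ℝ) ≤ H / (y * l) := by
        rw [le_div_iff₀ (by positivity), one_mul]
        exact hyl
      have e3 : (1 : ℝ) ≤ H / l := by
        rw [le_div_iff₀ hl0, one_mul]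
        refine le_trans ?_ hyl
        have : (1 : ℝ) ≤ y := by exact_mod_cast hy1
        nlinarith
      have e4 : L * (H * y / N + 1) * (H / (y * l) + 1) ≤ (H / l) * (4 * L * (H / N)) := by
        calc L * (H * y / N + 1) * (H / (y * l) + 1)
            ≤ L * (2 * (H * y / N)) * (2 * (H / (y * l))) := by
              refine mul_le_mul (mul_le_mul_of_nonneg_left (by linarith) hL0.le) (by linarith)
                (by positivity) (by positivity)
          _ = (H / l) * (4 * L * (H / N)) := by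
              field_simp
              norm_num
      have e5 : (H : ℝ) / N * (H / l + 1) ≤ (H / l) * (2 * L * (H / N)) := by
        have e6 : 0 ≤ (H : ℝ) / N := by positivity
        have e7 : 0 ≤ (H : ℝ) / l := by positivity
        calc (H : ℝ) / N * (H / l + 1) ≤ H / N * (2 * (H / l)) :=
              mul_le_mul_of_nonneg_left (by linarith) e6
          _ = (H / l) * (2 * 1 * (H / N)) := by ring
          _ ≤ (H / l) * (2 * L * (H / N)) := by gcongr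
      have e6 : L / 4 * R ≤ (H / l) * Q := by
        refine (mul_le_mul_of_nonneg_right hlog hR0).trans (hR.trans ?_)
        calc 2 * lam * (H / l) * S1 + L * (H * y / N + 1) * (H / (y * l) + 1) +
              H / N * (H / l + 1) ≤ 2 * lam * (H / l) * S1 + (H / l) * (4 * L * (H / N)) +
              (H / l) * (2 * L * (H / N)) := by linarith
          _ = (H / l) * Q := by rw [hQ]; ring
      have e7 : R ≤ 4 * (H / L) * Q * (1 / (l : ℝ)) := by
        have e8 : R = (L / 4 * R) * (4 / L) := by field_simp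
        rw [e8]
        calc L / 4 * R * (4 / L) ≤ (H / l) * Q * (4 / L) :=
              mul_le_mul_of_nonneg_right e6 (by positivity)
          _ = 4 * (H / L) * Q * (1 / (l : ℝ)) := by ring
      rw [norm_mul, norm_mul, Complex.norm_real, Real.norm_eq_abs, ← hRd, hr1]
      have e8 := hE.cbd l
      have e9 := pv_norm_le ψ l
      calc |c l| * ‖pv ψ l‖ * R ≤ 2 ^ 13 * 1 * (4 * (H / L) * Q * (1 / (l : ℝ))) :=
            mul_le_mul (mul_le_mul e8 e9 (norm_nonneg _) (by positivity)) e7 hR0 (by positivity)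
        _ = 2 ^ 15 * (H / L) * Q * (1 * (1 / (l : ℝ))) := by ring
  refine (sum_le_sum h1).trans ?_
  rw [← mul_sum]
  refine mul_le_mul_of_nonneg_left (le_trans ?_ hS1) (by positivity)
  exact sum_le_sum_of_subset_of_nonneg (Icc_subset_Icc_right hNX) fun k _ _ =>
      mul_nonneg (rg_nonneg y k).1 (by positivity)

/-- Gallagher -/
private theorem hvy_gal (X H : ℕ) (T : ℝ) (w : ℕ → ℝ) (ψ : PC) (hX : 1 ≤ X) (hH : 1 ≤ H)
    (hT : 0 ≤ T) (hHT : 2 * H * T ≤ X) :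
    sNf X T w ψ ^ 2 ≤ Real.log X ^ 2 / X * ((Real.pi ^ 2 / 4) / (H : ℝ) ^ 2 *
        ∑ u ∈ range (X + H), ‖∑ n ∈ Ioc (u - H) (min u X), ((w n : ℝ) : ℂ) * pv ψ n‖ ^ 2) := by
  have hX0 : (0 : ℝ) < X := by exact_mod_cast hX
  have hH0 : (0 : ℝ) < H := by exact_mod_cast hH
  have hg := Pool.MP_dd84fd_nt.BX.gal X H hH (fun n => ((w n : ℝ) : ℂ) * pv ψ n)
  have hcont : Continuous (fun x : ℝ => ‖SXf X w ψ x‖ ^ 2) := by
    have h : Continuous Pool.MP_67663b_nt.Odd.ee := by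
      unfold Pool.MP_67663b_nt.Odd.ee
      fun_prop
    have h2 : Continuous (SXf X w ψ) := by
      unfold SXf
      refine continuous_finsetSum _ fun n _ => ?_
      exact continuous_const.mul (h.comp (continuous_const.mul continuous_id))
    exact h2.norm.pow 2
  have h1 : ∫ x in (-(T / X))..(T / X), ‖SXf X w ψ x‖ ^ 2 ≤
      ∫ x in (-(1 / (2 * H) : ℝ))..(1 / (2 * H)), ‖SXf X w ψ x‖ ^ 2 := by
    have h2 : T / X ≤ 1 / (2 * H) := by
      rw [div_le_div_iff₀ hX0 (by positivity)]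
      linarith
    have h3 : 0 ≤ T / X := by positivity
    apply intervalIntegral.integral_mono_interval (by linarith) (by linarith) h2
    · filter_upwards with x
      positivity
    · exact hcont.intervalIntegrable _ _
  have h0 : 0 ≤ ∫ x in (-(T / X))..(T / X), ‖SXf X w ψ x‖ ^ 2 := by
    apply intervalIntegral.integral_nonneg
    · have h3 : 0 ≤ T / X := by positivity
      linarith
    · intro x _
      positivity
  have h4 : sNf X T w ψ ^ 2 = Real.log X ^ 2 / X *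
      ∫ x in (-(T / X))..(T / X), ‖SXf X w ψ x‖ ^ 2 := by
    unfold sNf
    rw [mul_pow, div_pow, Real.sq_sqrt h0, Real.sq_sqrt hX0.le]
  rw [h4]
  refine mul_le_mul_of_nonneg_left (h1.trans ?_) (by positivity)
  exact hg

/-- the exact form is bounded -/
private theorem hvy_ae {th e τ : ℝ} {X y : ℕ} {c : ℕ → ℝ} (hE : ExF th e τ X y c) (hX : 2 ≤ X)
    (hy : (X : ℝ) ^ (1 / 9 : ℝ) ≤ y) (n : ℕ) : |AE X y c n| ≤ 2 ^ 22 * rg y n := by
  obtain ⟨hr0, hr1⟩ := rg_nonneg y n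
  unfold AE
  split_ifs with h
  · by_cases hr : Rgh y n
    · have hn0 : n ≠ 0 := hr.1
      have hX1 : (1 : ℝ) < (X : ℝ) := by exact_mod_cast hX
      have hX0 : (0 : ℝ) ≤ (X : ℝ) := by linarith
      have hroot : (1 : ℝ) < (X : ℝ) ^ (1 / 9 : ℝ) := Real.one_lt_rpow hX1 (by norm_num)
      have hz2 : 2 ≤ y := by
        have : (1 : ℝ) < y := hroot.trans_le hy
        have : 1 < y := by exact_mod_cast this
        omega
      have hzX : X ≤ y ^ 9 := by
        have h1 : (X : ℝ) ≤ ((y : ℕ) : ℝ) ^ 9 := by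
          calc (X : ℝ) = ((X : ℝ) ^ (1 / 9 : ℝ)) ^ (9 : ℕ) := by
                rw [← Real.rpow_natCast, ← Real.rpow_mul hX0]
                norm_num
            _ ≤ ((y : ℕ) : ℝ) ^ 9 := pow_le_pow_left₀ (by linarith) hy 9
        exact_mod_cast h1
      have h3 : y ^ ArithmeticFunction.cardFactors n ≤ n := by
        rw [ArithmeticFunction.cardFactors_apply]
        calc y ^ n.primeFactorsList.length ≤ n.primeFactorsList.prod := by
              refine List.pow_card_le_prod _ _ fun p hp => ?_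
              exact hr.2 p (by rwa [Nat.mem_primeFactors_iff_mem_primeFactorsList])
          _ = n := Nat.prod_primeFactorsList hn0
      have h4 : ArithmeticFunction.cardFactors n ≤ 9 := by
        have : y ^ ArithmeticFunction.cardFactors n ≤ y ^ 9 := h3.trans (h.2.trans hzX)
        exact (Nat.pow_le_pow_iff_right (by omega)).1 this
      have h5 : n.divisors.card ≤ 2 ^ 9 :=
        (Pool.MP_dd84fd_nt.HX.card_divisors_le_two_pow n hn0).trans
          (Nat.pow_le_pow_right (by norm_num) h4)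
      have h6 : |∑ l ∈ n.divisors, c l| ≤ 2 ^ 22 := by
        refine (abs_sum_le_sum_abs _ _).trans ((sum_le_sum fun l _ => hE.cbd l).trans ?_)
        rw [sum_const, nsmul_eq_mul]
        have h7 : (n.divisors.card : ℝ) ≤ 2 ^ 9 := by exact_mod_cast h5
        calc (n.divisors.card : ℝ) * 2 ^ 13 ≤ 2 ^ 9 * 2 ^ 13 := by gcongr
          _ = 2 ^ 22 := by norm_num
      rw [abs_mul, abs_of_nonneg hr0, mul_comm]
      exact mul_le_mul_of_nonneg_right h6 hr0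
    · have : rg y n = 0 := by
        unfold rg
        rw [if_neg hr]
      rw [this]
      simp
  · rw [abs_zero]
    positivity

open Classical in
/-- trivial bound of the windows -/
private theorem hvy_triv {C : ℝ} (hrs : ∀ z : ℝ, 2 ≤ z → ∀ x l : ℝ, 0 ≤ x → Real.sqrt z ≤ l →
    ((Pool.MP_dd84fd_nt.En.RN z x (x + l)).card : ℝ) ≤ C * l / Real.log z)
    {th e τ : ℝ} {X y H : ℕ} {c : ℕ → ℝ} (hE : ExF th e τ X y c) (hX : 2 ≤ X)
    (hy : (X : ℝ) ^ (1 / 9 : ℝ) ≤ y) (hy2 : 2 ≤ y) (hyH : Real.sqrt (y : ℝ) ≤ H) (ψ : PC) (u : ℕ) :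
    ‖∑ n ∈ Ioc (u - H) (min u X), ((AE X y c n : ℝ) : ℂ) * pv ψ n‖ ≤
      2 ^ 22 * (C * H / Real.log y) := by
  refine (norm_sum_le _ _).trans ?_
  have h1 : ∀ n ∈ Ioc (u - H) (min u X), ‖((AE X y c n : ℝ) : ℂ) * pv ψ n‖ ≤ 2 ^ 22 * rg y n := by
    intro n _
    rw [norm_mul, Complex.norm_real, Real.norm_eq_abs]
    calc |AE X y c n| * ‖pv ψ n‖ ≤ 2 ^ 22 * rg y n * 1 :=
          mul_le_mul (hvy_ae hE hX hy n) (pv_norm_le ψ n) (norm_nonneg _) (by
            have := (rg_nonneg y n).1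
            positivity)
      _ = 2 ^ 22 * rg y n := mul_one _
  refine (sum_le_sum h1).trans ?_
  rw [← mul_sum]
  refine mul_le_mul_of_nonneg_left ?_ (by norm_num)
  have hy2r : (2 : ℝ) ≤ y := by exact_mod_cast hy2
  have h2 := hrs y hy2r ((u - H : ℕ) : ℝ) (H : ℝ) (Nat.cast_nonneg _) hyH
  refine le_trans ?_ h2
  have h3 : Pool.MP_dd84fd_nt.En.RN (y : ℝ) ((u - H : ℕ) : ℝ) (((u - H : ℕ) : ℝ) + (H : ℝ)) =
      (Ioc (u - H) (u - H + H)).filter (Pool.MP_dd84fd_nt.En.Rough (y : ℝ)) := by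
    unfold Pool.MP_dd84fd_nt.En.RN
    rw [← Nat.cast_add, Nat.floor_natCast, Nat.floor_natCast]
  rw [h3, card_filter]
  push_cast
  have hsub : Ioc (u - H) (min u X) ⊆ Ioc (u - H) (u - H + H) := by
    intro n hn
    rw [mem_Ioc] at hn ⊢
    omega
  refine (sum_le_sum_of_subset_of_nonneg hsub fun n _ _ => (rg_nonneg y n).1).trans ?_
  refine sum_le_sum fun n hn => ?_
  rw [mem_Ioc] at hn
  by_cases hr : Rgh y n
  · have h4 : Pool.MP_dd84fd_nt.En.Rough (y : ℝ) n := by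
      intro p hp hpn
      exact_mod_cast hr.2 p (Nat.mem_primeFactors.2 ⟨hp, hpn, by omega⟩)
    rw [if_pos h4]
    exact (rg_nonneg y n).2
  · have : rg y n = 0 := by
      unfold rg
      rw [if_neg hr]
    rw [this]
    split_ifs
    · exact zero_le_one
    · exact le_rfl

open Classical in
/-- reciprocals -/
private theorem hvy_inv {C : ℝ} (hri : ∀ z : ℝ, 2 ≤ z → ∀ N : ℕ, z ≤ N →
    ∑ n ∈ (Icc 1 N).filter (Pool.MP_dd84fd_nt.En.Rough z), 1 / (n : ℝ) ≤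
      C * Real.log N / Real.log z) {X y : ℕ} (hy2 : 2 ≤ y) (hyX : y ≤ X) :
    ∑ k ∈ Icc 1 X, rg y k * (1 / (k : ℝ)) ≤ C * Real.log X / Real.log y := by
  refine le_trans ?_ (hri y (by exact_mod_cast hy2) X (by exact_mod_cast hyX))
  rw [sum_filter]
  refine sum_le_sum fun k hk => ?_
  rw [mem_Icc] at hk
  by_cases hr : Rgh y k
  · have h4 : Pool.MP_dd84fd_nt.En.Rough (y : ℝ) k := by
      intro p hp hpn
      exact_mod_cast hr.2 p (Nat.mem_primeFactors.2 ⟨hp, hpn, by omega⟩)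
    rw [if_pos h4]
    have := (rg_nonneg y k).2
    exact mul_le_of_le_one_left (by positivity) this
  · have : rg y k = 0 := by
      unfold rg
      rw [if_neg hr]
    rw [this, zero_mul]
    split_ifs
    · positivity
    · exact le_rfl

/-- the mean square -/
private theorem hvy_ms (X H : ℕ) (hX : 1 ≤ X) (hH : 1 ≤ H) (W : ℕ → ℝ) (hW0 : ∀ u, 0 ≤ W u)
    (κ₁ a b : ℝ) (hκ₁ : 0 < κ₁) (hHκ : 3 * (H : ℝ) ≤ κ₁ * X) (hHX : H ≤ X)
    (ha : ∀ u, W u ≤ a)
    (hb : ∀ u : ℕ, H ≤ u → κ₁ * X ≤ ((u - H : ℕ) : ℝ) → u ≤ X → W u ≤ b) :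
    ∑ u ∈ range (X + H), W u ^ 2 ≤ 2 * κ₁ * X * a ^ 2 + 2 * X * b ^ 2 := by
  classical
  have hX0 : (0 : ℝ) < X := by exact_mod_cast hX
  have hH1 : (1 : ℝ) ≤ H := by exact_mod_cast hH
  have ha0 : 0 ≤ a := (hW0 0).trans (ha 0)
  obtain ⟨P, hP⟩ : ∃ P : Finset ℕ, P = (range (X + H)).filter
    (fun u : ℕ => (u : ℝ) < κ₁ * X + H ∨ X < u) := ⟨_, rfl⟩
  have h1 : ∀ u ∈ range (X + H), W u ^ 2 ≤ (if u ∈ P then a ^ 2 else 0) + b ^ 2 := by
    intro u hu
    by_cases hc : u ∈ P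
    · rw [if_pos hc]
      have := pow_le_pow_left₀ (hW0 u) (ha u) 2
      nlinarith [sq_nonneg b]
    · rw [if_neg hc, zero_add]
      rw [hP, mem_filter] at hc
      have hc2 : ¬ ((u : ℝ) < κ₁ * X + H ∨ X < u) := fun h => hc ⟨hu, h⟩
      rw [not_or, not_lt, not_lt] at hc2
      have h2 : H ≤ u := by
        have : (H : ℝ) ≤ u := by
          have : 0 ≤ κ₁ * X := by positivity
          linarith [hc2.1]
        exact_mod_cast this
      refine pow_le_pow_left₀ (hW0 u) (hb u h2 ?_ hc2.2) 2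
      rw [Nat.cast_sub h2]
      linarith [hc2.1]
  refine (sum_le_sum h1).trans ?_
  rw [sum_add_distrib, sum_const, card_range, nsmul_eq_mul]
  have h2 : ∑ u ∈ range (X + H), (if u ∈ P then a ^ 2 else 0) ≤ (P.card : ℝ) * a ^ 2 := by
    rw [← sum_filter, sum_const, nsmul_eq_mul]
    refine mul_le_mul_of_nonneg_right ?_ (by positivity)
    have : (range (X + H)).filter (fun u => u ∈ P) ⊆ P := fun u hu => (mem_filter.1 hu).2
    exact_mod_cast card_le_card this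
  have h3 : (P.card : ℝ) ≤ 2 * κ₁ * X := by
    have h4 : P ⊆ range (⌊κ₁ * X + H⌋₊ + 1) ∪ Ioc X (X + H) := by
      intro u hu
      rw [hP, mem_filter, mem_range] at hu
      rw [mem_union, mem_range, mem_Ioc]
      rcases hu.2 with h5 | h5
      · left
        have : u ≤ ⌊κ₁ * X + H⌋₊ := Nat.le_floor h5.le
        omega
      · right
        omega
    have h5 := (card_le_card h4).trans (card_union_le _ _)
    rw [card_range, Nat.card_Ioc] at h5
    have h6 : (P.card : ℝ) ≤ (⌊κ₁ * X + H⌋₊ : ℝ) + 1 + H := by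
      have : P.card ≤ ⌊κ₁ * X + H⌋₊ + 1 + H := by omega
      exact_mod_cast this
    have h7 : (⌊κ₁ * X + H⌋₊ : ℝ) ≤ κ₁ * X + H := Nat.floor_le (by positivity)
    linarith
  have h4 : ((X + H : ℕ) : ℝ) ≤ 2 * X := by
    have : (H : ℝ) ≤ X := by exact_mod_cast hHX
    push_cast
    linarith
  have h5 : (P.card : ℝ) * a ^ 2 ≤ 2 * κ₁ * X * a ^ 2 := mul_le_mul_of_nonneg_right h3 (by positivity)
  have h6 : ((X + H : ℕ) : ℝ) * b ^ 2 ≤ 2 * X * b ^ 2 := mul_le_mul_of_nonneg_right h4 (by positivity)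
  linarith

theorem hvY_win (κ : ℝ) (hκ : 0 < κ) : ∃ lam : ℝ, 0 < lam ∧ ∀ (th e τ : ℝ), AdmY th e τ →
    ∀ B : ℕ, ∃ B' X0 : ℕ, ∀ X : ℕ, X0 ≤ X → ∀ T : ℝ, 1 ≤ T → T ≤ (Real.log X) ^ B →
    ∀ (y : ℕ) (cc : ℕ → ℝ), ExF th e τ X y cc → ∀ ψ : PC, κ ≤ sNf X T (AE X y cc) ψ →
    Hvy lam (1 / 11) B' X ψ := by
  classical
  obtain ⟨C, hC, hrs⟩ := Pool.MP_dd84fd_nt.En.rough_short
  obtain ⟨C2, hC2, hri⟩ := Pool.MP_dd84fd_nt.BX.rough_inv
  obtain ⟨S1, hS1d⟩ : ∃ S1 : ℝ, S1 = 8 * C2 := ⟨_, rfl⟩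
  obtain ⟨D, hD⟩ : ∃ D : ℝ, D = 2 ^ 25 * C := ⟨_, rfl⟩
  have hS1p : 0 < S1 := by rw [hS1d]; positivity
  have hD0 : 0 < D := by rw [hD]; positivity
  obtain ⟨κ₁, hκ₁⟩ : ∃ κ₁ : ℝ, κ₁ = κ ^ 2 / (20 * D ^ 2) := ⟨_, rfl⟩
  have hκ₁0 : 0 < κ₁ := by rw [hκ₁]; positivity
  obtain ⟨w, hw⟩ : ∃ w : ℝ, w = κ / 5 := ⟨_, rfl⟩
  have hw0 : 0 < w := by rw [hw]; positivity
  obtain ⟨lam, hlamd⟩ : ∃ lam : ℝ, lam = w / (2 ^ 17 * S1 ^ 2) := ⟨_, rfl⟩
  have hlam : 0 < lam := by rw [hlamd]; positivity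
  refine ⟨lam, hlam, fun th e τ hadm B => ?_⟩
  obtain ⟨a1, a2, a3, a4, a5, a6, a7⟩ := hadm
  have hτ : 0 < τ := by linarith
  obtain ⟨X1, hX1⟩ := Pool.MP_dd84fd_nt.E2.MP_log_large
    (6 * 2 ^ 15 * S1 / (κ₁ * w) + 2 / κ₁ + 4)
  obtain ⟨X2, hX2⟩ := Pool.MP_dd84fd_nt.E2.MP_log_pow 4 (B + 2) (ε := 1 / 8) (by norm_num)
  obtain ⟨X3, hX3⟩ := Pool.MP_dd84fd_nt.E2.MP_log_pow 4 (B + 2) (ε := 25 * τ) (by linarith)
  obtain ⟨X4, hX4⟩ := Pool.MP_dd84fd_nt.E2.MP_log_pow (1 / κ₁) 0 (ε := 1 / 12) (by norm_num)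
  obtain ⟨X5, hX5⟩ := Pool.MP_dd84fd_nt.E2.MP_log_pow (12 / lam) (B + 3) (ε := 1 / 16)
    (by norm_num)
  refine ⟨B + 3, max (max (max X1 X2) (max X3 X4)) (max X5 2), fun X hX T hT1 hTB y cc hE ψ hψ => ?_⟩
  simp only [max_le_iff] at hX
  obtain ⟨⟨⟨g1, g2⟩, g3, g4⟩, g5, g6⟩ := hX
  have q1 := hX1 X g1
  have q2 := hX2 X g2
  have q3 := hX3 X g3
  have q4 := hX4 X g4
  have q5 := hX5 X g5
  rw [pow_zero, mul_one] at q4
  have hX1n : 1 ≤ X := by omega
  have hXr : (0 : ℝ) < X := by exact_mod_cast hX1n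
  have hX1r : (1 : ℝ) ≤ X := by exact_mod_cast hX1n
  obtain ⟨L, hL⟩ : ∃ L, L = Real.log X := ⟨_, rfl⟩
  rw [← hL] at q1 q2 q3 q5 hTB
  have hk1 : 0 < 6 * 2 ^ 15 * S1 / (κ₁ * w) := by positivity
  have hk2 : 0 < 2 / κ₁ := by positivity
  have hL4 : 4 ≤ L := by linarith
  have hL0 : 0 < L := by linarith
  have hL1 : 1 ≤ L := by linarith
  have hLk : 2 / κ₁ ≤ L := by linarith
  have hLs : 6 * 2 ^ 15 * S1 / (κ₁ * w) ≤ L := by linarith
  -- bounds of y
  have hy8 : (X : ℝ) ^ (1 / 8 : ℝ) ≤ y :=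
    le_trans (Real.rpow_le_rpow_of_exponent_le hX1r (by linarith)) hE.ylo
  have hy9 : (X : ℝ) ^ (1 / 9 : ℝ) ≤ y :=
    le_trans (Real.rpow_le_rpow_of_exponent_le hX1r (by norm_num)) hy8
  have hy11 : (X : ℝ) ^ (1 / 11 : ℝ) ≤ y :=
    le_trans (Real.rpow_le_rpow_of_exponent_le hX1r (by norm_num)) hy8
  have hy3 : (y : ℝ) ≤ (X : ℝ) ^ (1 / 3 : ℝ) :=
    hE.yhi.trans (Real.rpow_le_rpow_of_exponent_le hX1r (by linarith))
  have hyX : (y : ℝ) ≤ X := by
    refine hy3.trans ?_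
    calc (X : ℝ) ^ (1 / 3 : ℝ) ≤ (X : ℝ) ^ (1 : ℝ) :=
          Real.rpow_le_rpow_of_exponent_le hX1r (by norm_num)
      _ = X := Real.rpow_one _
  have hyXn : y ≤ X := by exact_mod_cast hyX
  have hLp : (1 : ℝ) ≤ L ^ (B + 2) := one_le_pow₀ hL1
  have hy2r : (2 : ℝ) ≤ y := by
    have : 4 * L ^ (B + 2) ≤ y := q2.trans hy8
    linarith
  have hy2 : 2 ≤ y := by exact_mod_cast hy2r
  have hly : L / 8 ≤ Real.log y := by
    have h1 := Real.log_le_log (by positivity) hy8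
    rw [Real.log_rpow hXr, ← hL] at h1
    linarith
  -- reciprocals
  have hS1 : ∑ k ∈ Icc 1 X, rg y k * (1 / (k : ℝ)) ≤ S1 := by
    refine (hvy_inv hri hy2 hyXn).trans ?_
    rw [← hL, hS1d, div_le_iff₀ (by linarith)]
    have h1 := mul_le_mul_of_nonneg_left (show L ≤ 8 * Real.log y by linarith) hC2.le
    linarith
  -- the length
  obtain ⟨H, hH⟩ : ∃ H : ℕ, H = ⌊(X : ℝ) / (2 * L ^ (B + 2))⌋₊ := ⟨_, rfl⟩
  have hHup : (H : ℝ) ≤ X / (2 * L ^ (B + 2)) := by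
    rw [hH]
    exact Nat.floor_le (by positivity)
  have hX18 : 4 * L ^ (B + 2) ≤ X := q2.trans (hy8.trans hyX)
  have hHlo : (X : ℝ) ≤ 4 * L ^ (B + 2) * H := by
    have h1 : (X : ℝ) / (2 * L ^ (B + 2)) < H + 1 := by
      rw [hH]
      exact Nat.lt_floor_add_one _
    rw [div_lt_iff₀ (by positivity)] at h1
    linarith
  have hH1 : 1 ≤ H := by
    by_contra hcon
    have h0 : H = 0 := by omega
    rw [h0] at hHlo
    simp only [Nat.cast_zero, mul_zero] at hHlo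
    linarith
  have hH0 : (0 : ℝ) < H := by exact_mod_cast hH1
  have hHup2 : 2 * L ^ (B + 2) * H ≤ X := by
    have h1 := mul_le_mul_of_nonneg_left hHup (show 0 ≤ 2 * L ^ (B + 2) by positivity)
    refine h1.trans (le_of_eq ?_)
    field_simp
  have hLL : L ^ (B + 2) = L ^ B * L ^ 2 := pow_add L B 2
  have hLB : 1 ≤ L ^ B := one_le_pow₀ hL1
  have hHX2 : 2 * L ^ 2 * (H : ℝ) ≤ X := by
    refine le_trans ?_ hHup2
    rw [hLL]
    have : L ^ 2 ≤ L ^ B * L ^ 2 := le_mul_of_one_le_left (by positivity) hLB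
    gcongr
  have hHT : 2 * (H : ℝ) * T ≤ X := by
    calc 2 * (H : ℝ) * T ≤ 2 * H * L ^ B := by gcongr
      _ ≤ 2 * H * (L ^ B * L ^ 2) := by
          have : L ^ B ≤ L ^ B * L ^ 2 :=
            le_mul_of_one_le_right (by positivity) (one_le_pow₀ hL1)
          gcongr
      _ = 2 * L ^ (B + 2) * H := by rw [hLL]; ring
      _ ≤ X := hHup2
  have hκL : 2 ≤ κ₁ * L := by
    rw [div_le_iff₀ hκ₁0] at hLk
    linarith
  have hHκ : 3 * (H : ℝ) ≤ κ₁ * X := by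
    have h8 : 2 * (4 : ℝ) ≤ 2 * L := by linarith
    calc 3 * (H : ℝ) ≤ 2 * (2 * 4 * H) := by linarith
      _ ≤ (κ₁ * L) * (2 * L * H) :=
          mul_le_mul hκL (mul_le_mul_of_nonneg_right h8 hH0.le) (by positivity) (by positivity)
      _ = κ₁ * (2 * L ^ 2 * H) := by ring
      _ ≤ κ₁ * X := mul_le_mul_of_nonneg_left hHX2 hκ₁0.le
  have hHX : H ≤ X := by
    have h8 : (H : ℝ) ≤ X := by
      refine le_trans ?_ hHX2
      have h9 : (1 : ℝ) ≤ 2 * L ^ 2 := by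
        have := one_le_pow₀ hL1 (n := 2)
        linarith
      exact le_mul_of_one_le_left hH0.le h9
    exact_mod_cast h8
  by_contra hnot
  obtain ⟨W, hW⟩ : ∃ W : ℕ → ℝ, W = fun u => ‖∑ n ∈ Ioc (u - H) (min u X),
    ((AE X y cc n : ℝ) : ℂ) * pv ψ n‖ := ⟨_, rfl⟩
  have hWu : ∀ u, W u = ‖∑ n ∈ Ioc (u - H) (min u X),
    ((AE X y cc n : ℝ) : ℂ) * pv ψ n‖ := fun u => by rw [hW]
  have hW0 : ∀ u, 0 ≤ W u := fun u => by rw [hWu]; exact norm_nonneg _
  have hX34 : (X : ℝ) ^ (1 / 3 : ℝ) ≤ H := by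
    have h1 : (X : ℝ) ^ (1 / 8 : ℝ) * (X : ℝ) ^ (1 / 3 : ℝ) ≤ X := by
      rw [← Real.rpow_add hXr]
      calc (X : ℝ) ^ (1 / 8 + 1 / 3 : ℝ) ≤ (X : ℝ) ^ (1 : ℝ) :=
            Real.rpow_le_rpow_of_exponent_le hX1r (by norm_num)
        _ = X := Real.rpow_one _
    have h2 : 4 * L ^ (B + 2) * (X : ℝ) ^ (1 / 3 : ℝ) ≤ 4 * L ^ (B + 2) * H :=
      (mul_le_mul_of_nonneg_right q2 (by positivity)).trans (h1.trans hHlo)
    exact le_of_mul_le_mul_left h2 (by positivity)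
  have hyH : Real.sqrt (y : ℝ) ≤ H := by
    refine le_trans ?_ (hy3.trans hX34)
    rw [Real.sqrt_le_left (by linarith), sq]
    exact le_mul_of_one_le_left (by linarith) (by linarith)
  have ha : ∀ u, W u ≤ D * H / L := by
    intro u
    rw [hWu]
    refine (hvy_triv hrs hE g6 hy9 hy2 hyH ψ u).trans ?_
    have h1 : C * H / Real.log y ≤ C * H / (L / 8) := by
      have : 0 < L / 8 := by positivity
      gcongr
    calc 2 ^ 22 * (C * H / Real.log y) ≤ 2 ^ 22 * (C * H / (L / 8)) := by gcongr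
      _ = D * H / L := by
          rw [hD]
          field_simp
          norm_num
  have hb : ∀ u : ℕ, H ≤ u → κ₁ * X ≤ ((u - H : ℕ) : ℝ) → u ≤ X → W u ≤ w * H / L := by
    intro u hu1 hu2 hu3
    obtain ⟨N, hN⟩ : ∃ N, N = u - H := ⟨_, rfl⟩
    have huN : u = N + H := by omega
    rw [← hN] at hu2
    have hNX : N + H ≤ X := by omega
    have hHN : H ≤ N := by
      have : (H : ℝ) ≤ N := by linarith
      exact_mod_cast this
    have hN0 : (0 : ℝ) < N := lt_of_lt_of_le (by positivity) hu2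
    have hNXr : (N : ℝ) ≤ X := by
      have : N ≤ X := by omega
      exact_mod_cast this
    rw [hWu, huN]
    have e1 : N + H - H = N := by omega
    have e2 : min (N + H) X = N + H := by omega
    rw [e1, e2]
    have hx5 : IY.X5 X ≤ N := by
      refine le_trans ?_ hu2
      unfold IY.X5
      rw [← hL, div_le_iff₀ (by positivity)]
      have h1 : 1 ≤ κ₁ * L ^ 5 := by
        have h2 : L ≤ L ^ 5 := by
          calc L = L ^ 1 := (pow_one L).symm
            _ ≤ L ^ 5 := pow_le_pow_right₀ hL1 (by norm_num)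
        have h3 := mul_le_mul_of_nonneg_left h2 hκ₁0.le
        linarith
      calc (X : ℝ) = X * 1 := (mul_one _).symm
        _ ≤ X * (κ₁ * L ^ 5) := mul_le_mul_of_nonneg_left h1 hXr.le
        _ = κ₁ * X * L ^ 5 := by ring
    have hBn : (N : ℝ) ≤ H * (Real.log X) ^ (B + 3) := by
      rw [← hL]
      calc (N : ℝ) ≤ X := hNXr
        _ ≤ 4 * L ^ (B + 2) * H := hHlo
        _ ≤ L * L ^ (B + 2) * H := by gcongr
        _ = H * L ^ (B + 3) := by ring
    have hNy : (N : ℝ) ≤ H * y := by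
      calc (N : ℝ) ≤ X := hNXr
        _ ≤ 4 * L ^ (B + 2) * H := hHlo
        _ ≤ y * H := mul_le_mul_of_nonneg_right (q2.trans hy8) hH0.le
        _ = H * y := mul_comm _ _
    have hpp : ∀ d : ℕ, 1 ≤ d → y ≤ N / d →
        2 * Real.sqrt (2 * N / d) * Real.log X ≤ lam * (H / d) := by
      intro d hd hyd
      rw [← hL]
      have hd0 : (0 : ℝ) < d := by exact_mod_cast hd
      obtain ⟨q, hq⟩ : ∃ q : ℝ, q = N / d := ⟨_, rfl⟩
      have hq1 : (X : ℝ) ^ (1 / 8 : ℝ) ≤ q := by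
        rw [hq]
        refine hy8.trans (le_trans (b := ((N / d : ℕ) : ℝ)) (by exact_mod_cast hyd)
          Nat.cast_div_le)
      have hq0 : 0 < q := lt_of_lt_of_le (by positivity) hq1
      have e3 : 2 * (N : ℝ) / d = 2 * q := by rw [hq]; ring
      rw [e3, Real.sqrt_mul (by norm_num)]
      have h2 : Real.sqrt 2 ≤ 3 / 2 := by
        rw [Real.sqrt_le_left (by norm_num)]
        norm_num
      have h3 : (X : ℝ) ^ (1 / 16 : ℝ) ≤ Real.sqrt q := by
        rw [Real.le_sqrt (by positivity) hq0.le]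
        rw [← Real.rpow_natCast, ← Real.rpow_mul hXr.le]
        norm_num
        norm_num at hq1
        exact hq1
      have h4 : q ≤ 4 * L ^ (B + 2) * (H / d) := by
        rw [hq]
        calc (N : ℝ) / d ≤ (4 * L ^ (B + 2) * H) / d :=
              div_le_div_of_nonneg_right (hNXr.trans hHlo) hd0.le
          _ = 4 * L ^ (B + 2) * (H / d) := by ring
      have hs0 : 0 < Real.sqrt q := Real.sqrt_pos.2 hq0
      have h5 : 12 * L ^ (B + 3) ≤ lam * Real.sqrt q := by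
        have h6 : 12 / lam * L ^ (B + 3) ≤ Real.sqrt q := q5.trans h3
        have h7 := mul_le_mul_of_nonneg_left h6 hlam.le
        refine le_trans (le_of_eq ?_) h7
        field_simp
      -- 2 √2 √q L ≤ 3 √q L; lam H/d ≥ lam q/(4 L^(B+2))
      have h6 : 3 * Real.sqrt q * L * (4 * L ^ (B + 2)) ≤ lam * q := by
        have h7 : lam * q = lam * Real.sqrt q * Real.sqrt q := by
          rw [mul_assoc, Real.mul_self_sqrt hq0.le]
        rw [h7]
        calc 3 * Real.sqrt q * L * (4 * L ^ (B + 2)) = (12 * L ^ (B + 3)) * Real.sqrt q := by ring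
          _ ≤ lam * Real.sqrt q * Real.sqrt q := mul_le_mul_of_nonneg_right h5 hs0.le
      have h7 : lam * q ≤ lam * (H / d) * (4 * L ^ (B + 2)) := by
        calc lam * q ≤ lam * (4 * L ^ (B + 2) * (H / d)) := mul_le_mul_of_nonneg_left h4 hlam.le
          _ = lam * (H / d) * (4 * L ^ (B + 2)) := by ring
      have h8 := le_of_mul_le_mul_right (h6.trans h7) (by positivity)
      refine le_trans ?_ h8
      have h9 : 0 ≤ Real.sqrt q * L := by positivity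
      have h10 := mul_le_mul_of_nonneg_right h2 h9
      linarith
    have hsup : ∀ l, cc l ≠ 0 → (y : ℝ) * l ≤ H ∧
        Real.log X / 4 ≤ Real.log ((N : ℝ) / l) := by
      intro l hc
      have hl := hE.csu l hc
      have hl0n : 0 < l := Nat.pos_of_ne_zero (hE.crg l hc).1
      have hl0 : (0 : ℝ) < l := by exact_mod_cast hl0n
      constructor
      · have h1 : (y : ℝ) * l ≤ (X : ℝ) ^ (1 - 25 * τ) := by
          calc (y : ℝ) * l ≤ (X : ℝ) ^ (th - 299 / 100 * e) * (X : ℝ) ^ ((1 + th) / 2 - τ) :=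
                mul_le_mul hE.yhi hl hl0.le (by positivity)
            _ = (X : ℝ) ^ (th - 299 / 100 * e + ((1 + th) / 2 - τ)) := by
                rw [← Real.rpow_add hXr]
            _ ≤ (X : ℝ) ^ (1 - 25 * τ) :=
                Real.rpow_le_rpow_of_exponent_le hX1r (by linarith)
        have h2 : (X : ℝ) ^ (25 * τ) * (X : ℝ) ^ (1 - 25 * τ) = X := by
          rw [← Real.rpow_add hXr]
          have : 25 * τ + (1 - 25 * τ) = 1 := by ring
          rw [this, Real.rpow_one]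
        have h3 : 4 * L ^ (B + 2) * (X : ℝ) ^ (1 - 25 * τ) ≤ 4 * L ^ (B + 2) * H := by
          refine (mul_le_mul_of_nonneg_right q3 (by positivity)).trans ?_
          rw [h2]
          exact hHlo
        exact h1.trans (le_of_mul_le_mul_left h3 (by positivity))
      · have h1 : (l : ℝ) ≤ (X : ℝ) ^ (2 / 3 : ℝ) :=
          hl.trans (Real.rpow_le_rpow_of_exponent_le hX1r (by linarith))
        have h2 : (X : ℝ) ^ (1 / 4 : ℝ) ≤ N / l := by
          rw [le_div_iff₀ hl0]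
          have h3 : (X : ℝ) ^ (11 / 12 : ℝ) ≤ κ₁ * X := by
            have h4 : 1 ≤ κ₁ * (X : ℝ) ^ (1 / 12 : ℝ) := by
              rw [div_le_iff₀ hκ₁0] at q4
              linarith
            calc (X : ℝ) ^ (11 / 12 : ℝ) = 1 * (X : ℝ) ^ (11 / 12 : ℝ) := (one_mul _).symm
              _ ≤ κ₁ * (X : ℝ) ^ (1 / 12 : ℝ) * (X : ℝ) ^ (11 / 12 : ℝ) :=
                  mul_le_mul_of_nonneg_right h4 (by positivity)
              _ = κ₁ * X := by
                  rw [mul_assoc, ← Real.rpow_add hXr]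
                  norm_num
          calc (X : ℝ) ^ (1 / 4 : ℝ) * l ≤ (X : ℝ) ^ (1 / 4 : ℝ) * (X : ℝ) ^ (2 / 3 : ℝ) := by
                gcongr
            _ = (X : ℝ) ^ (11 / 12 : ℝ) := by
                rw [← Real.rpow_add hXr]
                norm_num
            _ ≤ N := h3.trans hu2
        have h3 := Real.log_le_log (by positivity) h2
        rw [Real.log_rpow hXr] at h3
        linarith
    have hfin := hvy_W hlam hnot hE hX1n (by rw [← hL]; exact hL1) hH1 hHN hNX hx5 hBn hy11 hS1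
      hpp hsup hNy
    rw [← hL] at hfin
    refine hfin.trans ?_
    have h1 : 2 ^ 15 * (2 * lam * S1) * S1 = w / 2 := by
      rw [hlamd]
      field_simp
    have h2 : (H : ℝ) / N ≤ 1 / (2 * κ₁ * L ^ 2) := by
      rw [div_le_div_iff₀ hN0 (by positivity)]
      calc (H : ℝ) * (2 * κ₁ * L ^ 2) = κ₁ * (2 * L ^ 2 * H) := by ring
        _ ≤ κ₁ * X := mul_le_mul_of_nonneg_left hHX2 hκ₁0.le
        _ ≤ 1 * N := by linarith
    have h3 : 2 ^ 15 * (6 * L * (H / N)) * S1 ≤ w / 2 := by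
      have h4 : 2 ^ 15 * (6 * L * (H / N)) * S1 ≤
          2 ^ 15 * (6 * L * (1 / (2 * κ₁ * L ^ 2))) * S1 := by gcongr
      refine h4.trans ?_
      have h5 : 2 ^ 15 * (6 * L * (1 / (2 * κ₁ * L ^ 2))) * S1 = 6 * 2 ^ 15 * S1 / (2 * κ₁ * L) := by
        field_simp
      rw [h5, div_le_iff₀ (by positivity)]
      rw [div_le_iff₀ (by positivity)] at hLs
      linarith
    calc 2 ^ 15 * (H / L) * (2 * lam * S1 + 6 * L * (H / N)) * S1
        = (2 ^ 15 * (2 * lam * S1) * S1 + 2 ^ 15 * (6 * L * (H / N)) * S1) * (H / L) := by ring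
      _ ≤ (w / 2 + w / 2) * (H / L) := by
          refine mul_le_mul_of_nonneg_right ?_ (by positivity)
          linarith
      _ = w * H / L := by ring
  have hms := hvy_ms X H hX1n hH1 W hW0 κ₁ (D * H / L) (w * H / L) hκ₁0 hHκ hHX ha hb
  have hg := hvy_gal X H T (AE X y cc) ψ hX1n hH1 (by linarith) hHT
  have hg2 : κ ^ 2 ≤ Real.log X ^ 2 / X * ((Real.pi ^ 2 / 4) / (H : ℝ) ^ 2 *
      (2 * κ₁ * X * (D * H / L) ^ 2 + 2 * X * (w * H / L) ^ 2)) := by
    refine (pow_le_pow_left₀ hκ.le hψ 2).trans (hg.trans ?_)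
    refine mul_le_mul_of_nonneg_left ?_ (by positivity)
    refine mul_le_mul_of_nonneg_left ?_ (by positivity)
    refine le_trans (le_of_eq ?_) hms
    refine sum_congr rfl fun u _ => ?_
    rw [hWu]
  rw [← hL] at hg2
  have hg3 : L ^ 2 / X * ((Real.pi ^ 2 / 4) / (H : ℝ) ^ 2 *
      (2 * κ₁ * X * (D * H / L) ^ 2 + 2 * X * (w * H / L) ^ 2)) =
      Real.pi ^ 2 / 2 * (κ₁ * D ^ 2 + w ^ 2) := by
    field_simp
    ring
  rw [hg3] at hg2
  have h1 : κ₁ * D ^ 2 = κ ^ 2 / 20 := by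
    rw [hκ₁]
    field_simp
  have h2 : w ^ 2 = κ ^ 2 / 25 := by
    rw [hw]
    ring
  rw [h1, h2] at hg2
  have hpi : Real.pi ^ 2 ≤ 10 := by
    have h3 := pow_le_pow_left₀ Real.pi_pos.le Real.pi_lt_d2.le 2
    norm_num at h3 ⊢
    linarith
  have hk0 : 0 < κ ^ 2 := by positivity
  have h3 : Real.pi ^ 2 / 2 * (κ ^ 2 / 20 + κ ^ 2 / 25) ≤ 5 * (κ ^ 2 / 20 + κ ^ 2 / 25) :=
    mul_le_mul_of_nonneg_right (by linarith) (by positivity)
  linarith

/-- (SM) for the exact forms -/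
def SmY : Prop := ∀ κ : ℝ, 0 < κ → ∃ δ : ℝ, 0 < δ ∧ ∀ (th e τ : ℝ), AdmY th e τ →
  ∀ B : ℕ, ∃ X0 : ℕ, ∀ X : ℕ, X0 ≤ X → ∀ T : ℝ, 1 ≤ T → T ≤ (Real.log X) ^ B →
  ∀ (y : ℕ) (cc : ℕ → ℝ), ExF th e τ X y cc →
  ∀ ψ₁ ψ₂ : PC, IsPC ψ₁ → IsPC ψ₂ → 2 ≤ ψ₁.1 → 2 ≤ ψ₂.1 →
  (ψ₁.1 : ℝ) ≤ (X : ℝ) ^ δ → (ψ₂.1 : ℝ) ≤ (X : ℝ) ^ δ →
  κ ≤ sNf X T (AE X y cc) ψ₁ → κ ≤ sNf X T (AE X y cc) ψ₂ → ψ₁ = ψ₂

theorem smY : SmY := by
  intro κ hκ
  obtain ⟨lam, hlam, h1⟩ := hvY_win κ hκ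
  obtain ⟨δ, hδ, h2⟩ := za lam (1 / 11) hlam (by norm_num)
  refine ⟨δ, hδ, fun th e τ hadm B => ?_⟩
  obtain ⟨B', X1, h3⟩ := h1 th e τ hadm B
  obtain ⟨X2, h4⟩ := h2 B'
  refine ⟨max X1 X2, fun X hX T hT1 hTB y cc hE ψ₁ ψ₂ p1 p2 p3 p4 p5 p6 p7 p8 => ?_⟩
  have hXa : X1 ≤ X := (le_max_left _ _).trans hX
  have hXb : X2 ≤ X := (le_max_right _ _).trans hX
  exact h4 X hXb ψ₁ ψ₂ p1 p2 p3 p4 p5 p6 (h3 X hXa T hT1 hTB y cc hE ψ₁ p7)
    (h3 X hXa T hT1 hTB y cc hE ψ₂ p8)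

end Pool.MP_dd84fd_nt.QZ
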