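import Pool.Agent.Lib.MP_dd84fd_nt.QZ.Defs

/-!
# QZ-PmA: the parameters exist (prime number theorem).  Prefix aux lemmas `pma_`.

PROOF. Library: SW/PNT `pnt (A) : ∃ X0, ∀ X ≥ X0, |∑_{n ≤ X} Λ(n) - X| ≤ X/(log X)^A`.  `z = X^δ`, `L = log X`, `h ≥ L^(-B)`, `h ≤ δ ≤ 1`.
Window `(M, M e^h]`, `z ≤ M ≤ X`: `log M ≥ δL`; `∑ Λ(m) = M(e^h - 1) + O(M L^(-A'))`; to get `∑ Λ(m)/m = h + O(..)` split the window in
pieces of ratio `e^(h')`, `h' = h δ/10`-ish (or Abel summation with `1/m`), total error `≤ (δ/2) h` for `A'` large, `X ≥ X0`.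
`La z` against `Λ` on `m > z`: differs only at proper powers of primes `< z`: `∑_{m>z, proper powers} Λ(m)/m ≤ C log z/√z`.
win1: `1 ≤ M ≤ X`: if `M e^h < z`: 0; if `M < z`: contained in the `m ∈ [z, z e^h]` part: `≤ h(1+δ) + small ≤ 2h`; `M ≥ z`: win (`δ ≤ 1`:
take care that `h + δh ≤ 2h`).
-/

set_option autoImplicit false

namespace Pool.MP_dd84fd_nt.QZ

open Finset
open Pool.MP_dd84fd_nt.En (Rough rho)

private theorem pma_harm (a : ℕ) (ha : 1 ≤ a) : ∀ b : ℕ, a ≤ b →
    ∑ n ∈ Ico a b, 1 / ((n : ℝ) + 1) ≤ Real.log (b / a) ∧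
    Real.log (b / a) ≤ ∑ n ∈ Ico a b, 1 / ((n : ℝ) + 1) + (1 / a - 1 / b) := by
  intro b hb
  induction b, hb using Nat.le_induction with
  | base =>
    have : (a : ℝ) ≠ 0 := by positivity
    simp [this]
  | succ b hb ih =>
    have ha0 : (0 : ℝ) < a := by exact_mod_cast ha
    have hb0 : (0 : ℝ) < b := by exact_mod_cast (lt_of_lt_of_le ha hb)
    rw [sum_Ico_succ_top hb]
    have h1 : Real.log (((b + 1 : ℕ) : ℝ) / a) = Real.log (b / a) + Real.log ((b + 1) / b) := by
      rw [← Real.log_mul (by positivity) (by positivity)]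
      congr 1
      push_cast
      field_simp
    have h2 : 1 / ((b : ℝ) + 1) ≤ Real.log ((b + 1) / b) := by
      have h3 := Real.one_sub_inv_le_log_of_pos (show (0 : ℝ) < (b + 1) / b by positivity)
      have h4 : 1 - ((b + 1 : ℝ) / b)⁻¹ = 1 / ((b : ℝ) + 1) := by
        field_simp
        ring
      rwa [h4] at h3
    have h5 : Real.log ((b + 1) / b) ≤ 1 / (b : ℝ) := by
      have h6 := Real.log_le_sub_one_of_pos (show (0 : ℝ) < (b + 1) / b by positivity)
      have h7 : ((b + 1 : ℝ) / b) - 1 = 1 / b := by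
        field_simp
        ring
      rwa [h7] at h6
    obtain ⟨i1, i2⟩ := ih
    rw [h1]
    push_cast
    constructor
    · linarith
    · linarith

private theorem pma_abel (E : ℕ → ℝ)
    (hE : ∀ n : ℕ, E n = ∑ m ∈ Icc 1 n, ArithmeticFunction.vonMangoldt m - n)
    (a : ℕ) (ha : 1 ≤ a) : ∀ b : ℕ, a ≤ b →
    ∑ m ∈ Ioc a b, ArithmeticFunction.vonMangoldt m / (m : ℝ) =
      E b / b - E a / a + ∑ n ∈ Ico a b, 1 / ((n : ℝ) + 1)
        + ∑ n ∈ Ico a b, E n / ((n : ℝ) * (n + 1)) := by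
  intro b hb
  induction b, hb using Nat.le_induction with
  | base => simp
  | succ b hb ih =>
    have hb0 : (0 : ℝ) < b := by exact_mod_cast (lt_of_lt_of_le ha hb)
    rw [sum_Ico_succ_top hb, sum_Ico_succ_top hb, ← Finset.insert_Ioc_right_eq_Ioc_add_one hb,
      sum_insert (by simp), ih]
    have h1 : ArithmeticFunction.vonMangoldt (b + 1) = 1 + E (b + 1) - E b := by
      rw [hE, hE, sum_Icc_succ_top (by omega)]
      push_cast
      ring
    rw [h1]
    push_cast
    field_simp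
    ring

private theorem pma_main (η : ℝ) (hη : 0 ≤ η) (a b : ℕ) (ha : 1 ≤ a) (hab : a ≤ b)
    (hE : ∀ n : ℕ, a ≤ n →
      |∑ m ∈ Icc 1 n, ArithmeticFunction.vonMangoldt m - n| ≤ η * n) :
    |∑ m ∈ Ioc a b, ArithmeticFunction.vonMangoldt m / (m : ℝ) - Real.log (b / a)| ≤
      2 * η + η * Real.log (b / a) + 1 / a := by
  set E : ℕ → ℝ := fun n => ∑ m ∈ Icc 1 n, ArithmeticFunction.vonMangoldt m - n with hEd
  have ha0 : (0 : ℝ) < a := by exact_mod_cast ha
  have hb0 : (0 : ℝ) < b := by exact_mod_cast (lt_of_lt_of_le ha hab)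
  rw [pma_abel E (fun n => rfl) a ha b hab]
  obtain ⟨h1, h2⟩ := pma_harm a ha b hab
  have h3 : |E b / b| ≤ η := by
    rw [abs_div, abs_of_pos hb0, div_le_iff₀ hb0]
    exact hE b hab
  have h4 : |E a / a| ≤ η := by
    rw [abs_div, abs_of_pos ha0, div_le_iff₀ ha0]
    exact hE a le_rfl
  have h5 : |∑ n ∈ Ico a b, E n / ((n : ℝ) * (n + 1))| ≤ η * Real.log (b / a) := by
    refine (abs_sum_le_sum_abs _ _).trans ?_
    refine le_trans ?_ (mul_le_mul_of_nonneg_left h1 hη)
    rw [mul_sum]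
    refine sum_le_sum fun n hn => ?_
    have hn1 : a ≤ n := (mem_Ico.1 hn).1
    have hn0 : (0 : ℝ) < n := by exact_mod_cast (lt_of_lt_of_le ha hn1)
    rw [abs_div, abs_of_pos (show (0 : ℝ) < n * (n + 1) by positivity),
      div_le_iff₀ (by positivity)]
    calc |E n| ≤ η * n := hE n hn1
      _ = η * (1 / ((n : ℝ) + 1)) * (n * (n + 1)) := by field_simp
  have h6 : 0 ≤ 1 / (b : ℝ) := by positivity
  rw [abs_le] at h3 h4 h5 ⊢
  constructor
  · linarith [h3.1, h4.2, h5.1]
  · linarith [h3.2, h4.1, h5.2, show 0 < 1 / (a : ℝ) by positivity]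

private theorem pma_win (η M h : ℝ) (hη : 0 ≤ η) (hM : 3 ≤ M) (h0 : 0 < h) (h1 : h ≤ 1)
    (hE : ∀ n : ℕ, ⌊M⌋₊ ≤ n →
      |∑ m ∈ Icc 1 n, ArithmeticFunction.vonMangoldt m - n| ≤ η * n) :
    |∑ m ∈ Ioc ⌊M⌋₊ ⌊M * Real.exp h⌋₊, ArithmeticFunction.vonMangoldt m / (m : ℝ) - h| ≤
      4 * η + 4 / M := by
  have hexp : 1 ≤ Real.exp h := Real.one_le_exp h0.le
  have hMM : M ≤ M * Real.exp h := by nlinarith
  set a := ⌊M⌋₊ with hA
  set b := ⌊M * Real.exp h⌋₊ with hB
  have ha1 : 1 ≤ a := by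
    rw [hA, Nat.one_le_floor_iff]
    linarith
  have hab : a ≤ b := Nat.floor_le_floor hMM
  have ha2 : M < a + 1 := Nat.lt_floor_add_one M
  have ha3 : (a : ℝ) ≤ M := Nat.floor_le (by linarith)
  have hb2 : M * Real.exp h < b + 1 := Nat.lt_floor_add_one _
  have hb3 : (b : ℝ) ≤ M * Real.exp h := Nat.floor_le (by positivity)
  have hab' : (a : ℝ) ≤ b := by exact_mod_cast hab
  have ha0 : (0 : ℝ) < a := by exact_mod_cast ha1
  have hb0 : (0 : ℝ) < b := by linarith
  have haM : 1 / (a : ℝ) ≤ 2 / M := by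
    rw [div_le_div_iff₀ ha0 (by linarith)]
    linarith
  have hbM : 1 / (b : ℝ) ≤ 2 / M := by
    rw [div_le_div_iff₀ hb0 (by linarith)]
    linarith
  have h2 : Real.log (b / a) ≤ h + 2 / M := by
    have e1 : Real.log ((b : ℝ) / a) ≤ Real.log (M * Real.exp h / a) :=
      Real.log_le_log (by positivity) (div_le_div_of_nonneg_right hb3 ha0.le)
    have e2 : Real.log (M * Real.exp h / a) = Real.log (M / a) + h := by
      rw [mul_div_right_comm, Real.log_mul (by positivity) (by positivity), Real.log_exp]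
    have e3 : Real.log (M / a) ≤ 1 / a := by
      refine (Real.log_le_sub_one_of_pos (by positivity)).trans ?_
      rw [div_sub_one (ne_of_gt ha0)]
      exact div_le_div_of_nonneg_right (by linarith) ha0.le
    linarith
  have h3 : h - 2 / M ≤ Real.log (b / a) := by
    have e1 : Real.log ((b : ℝ) / M) ≤ Real.log (b / a) :=
      Real.log_le_log (by positivity) (div_le_div_of_nonneg_left hb0.le ha0 ha3)
    have e2 : Real.log ((b : ℝ) / M) = Real.log (b / (M * Real.exp h)) + h := by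
      have : (b : ℝ) / M = b / (M * Real.exp h) * Real.exp h := by
        field_simp
      rw [this, Real.log_mul (by positivity) (by positivity), Real.log_exp]
    have e3 : -(1 / (b : ℝ)) ≤ Real.log (b / (M * Real.exp h)) := by
      have e4 := Real.one_sub_inv_le_log_of_pos (show (0 : ℝ) < b / (M * Real.exp h) by positivity)
      refine le_trans ?_ e4
      rw [inv_div, le_sub_iff_add_le]
      have e5 : M * Real.exp h / b ≤ (b + 1) / b := div_le_div_of_nonneg_right hb2.le hb0.le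
      have e6 : ((b : ℝ) + 1) / b = 1 + 1 / b := by field_simp
      linarith
    linarith
  have hmain := pma_main η hη a b ha1 hab hE
  have hM2 : 2 / M ≤ 1 := by
    rw [div_le_one (by linarith)]
    linarith
  have h4 : η * Real.log (b / a) ≤ η * 2 := mul_le_mul_of_nonneg_left (by linarith) hη
  have e7 : 4 / M = 2 / M + 2 / M := by ring
  rw [abs_le] at hmain ⊢
  constructor
  · linarith [hmain.1]
  · linarith [hmain.2]

private theorem pma_La_le (z : ℝ) (n : ℕ) : La z n ≤ ArithmeticFunction.vonMangoldt n := by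
  unfold La rho
  split_ifs
  · rw [one_mul]
  · rw [zero_mul]
    exact ArithmeticFunction.vonMangoldt_nonneg

private theorem pma_La_nonneg (z : ℝ) (n : ℕ) : 0 ≤ La z n := by
  unfold La rho
  split_ifs
  · rw [one_mul]
    exact ArithmeticFunction.vonMangoldt_nonneg
  · rw [zero_mul]

private theorem pma_diff (z M h : ℝ) (hz : z ≤ M) (hM : 3 ≤ M) (h0 : 0 < h) (h1 : h ≤ 1) :
    ∑ m ∈ Ioc ⌊M⌋₊ ⌊M * Real.exp h⌋₊, ArithmeticFunction.vonMangoldt m / (m : ℝ) -
      ∑ m ∈ Ioc ⌊M⌋₊ ⌊M * Real.exp h⌋₊, La z m / (m : ℝ) ≤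
      4 * (Real.log M + 1) / Real.sqrt M := by
  have hM0 : 0 < M := by linarith
  have hexp : 1 ≤ Real.exp h := Real.one_le_exp h0.le
  have hMM : M ≤ M * Real.exp h := by nlinarith
  rw [← sum_sub_distrib]
  have step1 : ∑ m ∈ Ioc ⌊M⌋₊ ⌊M * Real.exp h⌋₊,
      (ArithmeticFunction.vonMangoldt m / (m : ℝ) - La z m / (m : ℝ)) ≤
      ∑ m ∈ Ioc 0 ⌊M * Real.exp h⌋₊ with ¬ m.Prime, ArithmeticFunction.vonMangoldt m / M := by
    rw [sum_filter]
    refine (sum_le_sum (g := fun m => if ¬ m.Prime then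
      ArithmeticFunction.vonMangoldt m / M else 0) fun m hm => ?_).trans
      (sum_le_sum_of_subset_of_nonneg (fun m hm => ?_) fun m _ _ => ?_)
    · have hm1 : M < m := (Nat.floor_lt hM0.le).1 (mem_Ioc.1 hm).1
      have hm0 : (0 : ℝ) < m := by linarith
      by_cases hp : m.Prime
      · rw [if_neg (not_not.2 hp)]
        have hr : Rough z m := by
          intro p hp1 hp2
          rw [(Nat.prime_dvd_prime_iff_eq hp1 hp).1 hp2]
          linarith
        unfold La rho
        rw [if_pos hr, one_mul, sub_self]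
      · rw [if_pos hp, ← sub_div]
        refine (div_le_div_of_nonneg_right (sub_le_self _ (pma_La_nonneg z m)) hm0.le).trans ?_
        exact div_le_div_of_nonneg_left ArithmeticFunction.vonMangoldt_nonneg hM0 hm1.le
    · rw [mem_Ioc] at hm ⊢
      exact ⟨by omega, hm.2⟩
    · show 0 ≤ (if ¬ m.Prime then ArithmeticFunction.vonMangoldt m / M else 0)
      by_cases hp : m.Prime
      · rw [if_neg (not_not.2 hp)]
      · rw [if_pos hp]
        exact div_nonneg ArithmeticFunction.vonMangoldt_nonneg hM0.le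
  refine step1.trans ?_
  rw [← sum_div, ← Chebyshev.psi_sub_theta_eq_sum_not_prime]
  have hc := Chebyshev.psi_sub_theta_le (x := M * Real.exp h) (by linarith)
  have hs : Real.sqrt (M * Real.exp h) ≤ 2 * Real.sqrt M := by
    have e1 : Real.exp h ≤ 4 := by
      have := Real.exp_le_exp.2 h1
      linarith [Real.exp_one_lt_d9]
    calc Real.sqrt (M * Real.exp h) ≤ Real.sqrt (M * 4) :=
          Real.sqrt_le_sqrt (mul_le_mul_of_nonneg_left e1 hM0.le)
      _ = Real.sqrt M * Real.sqrt 4 := Real.sqrt_mul hM0.le _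
      _ = 2 * Real.sqrt M := by
          rw [show (4 : ℝ) = 2 ^ 2 by norm_num, Real.sqrt_sq (by norm_num)]
          ring
  have hl : Real.log (M * Real.exp h) ≤ Real.log M + 1 := by
    rw [Real.log_mul (by positivity) (by positivity), Real.log_exp]
    linarith
  have hlM : 0 ≤ Real.log M := Real.log_nonneg (by linarith)
  have hl0 : 0 ≤ Real.log (M * Real.exp h) := Real.log_nonneg (by linarith)
  have hsM : 0 < Real.sqrt M := Real.sqrt_pos.2 hM0
  rw [div_le_div_iff₀ hM0 hsM]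
  calc (Chebyshev.psi (M * Real.exp h) - Chebyshev.theta (M * Real.exp h)) * Real.sqrt M
      ≤ (2 * Real.sqrt (M * Real.exp h) * Real.log (M * Real.exp h)) * Real.sqrt M :=
        mul_le_mul_of_nonneg_right hc hsM.le
    _ ≤ (2 * (2 * Real.sqrt M) * (Real.log M + 1)) * Real.sqrt M := by
        refine mul_le_mul_of_nonneg_right ?_ hsM.le
        exact mul_le_mul (by linarith) hl hl0 (by positivity)
    _ = 4 * (Real.log M + 1) * (Real.sqrt M * Real.sqrt M) := by ring
    _ = 4 * (Real.log M + 1) * M := by rw [Real.mul_self_sqrt hM0.le]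

theorem pm (δ : ℝ) (B : ℕ) (hδ : 0 < δ) (hδ1 : δ ≤ 1) : ∃ X0 : ℕ, ∀ X : ℕ, X0 ≤ X →
    ∀ h : ℝ, 1 ≤ h * (Real.log X) ^ B → h ≤ δ → Pm ((X : ℝ) ^ δ) (Real.log X) δ h := by
  obtain ⟨N0, hN0⟩ := SW.pnt (B + 1)
  have hev1 : ∀ᶠ L : ℝ in Filter.atTop, ‖L ^ (B + 1)‖ ≤ δ / 128 * ‖Real.exp (δ / 2 * L)‖ :=
    (isLittleO_pow_exp_pos_mul_atTop (k := B + 1) (b := δ / 2) (by positivity)).bound
      (by positivity)
  have hev2 : ∀ᶠ L : ℝ in Filter.atTop, 64 * (2 / δ) ^ (B + 1) / δ ≤ L := Filter.eventually_ge_atTop _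
  have hev3 : ∀ᶠ L : ℝ in Filter.atTop, (1 : ℝ) ≤ L := Filter.eventually_ge_atTop _
  have hev4 : ∀ᶠ L : ℝ in Filter.atTop, Real.log (N0 + 4) / δ ≤ L := Filter.eventually_ge_atTop _
  have hev := (hev1.and (hev2.and (hev3.and hev4)))
  have hlim : Filter.Tendsto (fun X : ℕ => Real.log X) Filter.atTop Filter.atTop :=
    Real.tendsto_log_atTop.comp tendsto_natCast_atTop_atTop
  obtain ⟨X1, hX1⟩ := Filter.eventually_atTop.1 (hlim.eventually hev)
  refine ⟨max X1 1, fun X hX h hh hhδ => ?_⟩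
  obtain ⟨c1, c2, c3, c4⟩ := hX1 X (le_trans (le_max_left _ _) hX)
  have hX0 : (0 : ℝ) < X := by exact_mod_cast (lt_of_lt_of_le one_pos (le_trans (le_max_right _ _) hX))
  set L := Real.log (X : ℝ) with hL
  set z := (X : ℝ) ^ δ with hz
  have hL0 : 0 < L := by linarith
  have hzexp : z = Real.exp (δ * L) := by
    rw [hz, Real.rpow_def_of_pos hX0, mul_comm]
  have hz0 : 0 < z := by rw [hzexp]; exact Real.exp_pos _
  have hlogz : Real.log z = δ * L := by rw [hzexp, Real.log_exp]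
  have hsq : Real.sqrt z = Real.exp (δ / 2 * L) := by
    rw [hzexp, ← Real.exp_half]
    congr 1
    ring
  have hzN : (N0 : ℝ) + 4 ≤ z := by
    rw [hzexp]
    have e1 : Real.log (N0 + 4) ≤ δ * L := by
      rw [div_le_iff₀ hδ] at c4
      linarith
    calc (N0 : ℝ) + 4 = Real.exp (Real.log (N0 + 4)) := (Real.exp_log (by positivity)).symm
      _ ≤ Real.exp (δ * L) := Real.exp_le_exp.2 e1
  have hN0' : (0 : ℝ) ≤ N0 := Nat.cast_nonneg _
  have hz4 : 4 ≤ z := by linarith
  have hLB : 0 < L ^ B := by positivity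
  have hh0 : 0 < h := by
    by_contra hcon
    have : h * L ^ B ≤ 0 := mul_nonpos_of_nonpos_of_nonneg (not_lt.1 hcon) hLB.le
    linarith
  have hh1 : h ≤ 1 := hhδ.trans hδ1
  -- the basic small quantity
  have hhL : 1 / L ^ B ≤ h := by
    rw [div_le_iff₀ hLB]
    exact hh
  have c1' : L ^ (B + 1) ≤ δ / 128 * Real.sqrt z := by
    rw [hsq]
    rwa [Real.norm_of_nonneg (by positivity), Real.norm_of_nonneg (Real.exp_pos _).le] at c1
  set η : ℝ := 1 / (δ / 2 * L) ^ (B + 1) with hη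
  have hη0 : 0 ≤ η := by positivity
  have hη4 : 4 * η ≤ δ / 16 * h := by
    have e1 : η = (2 / δ) ^ (B + 1) / L ^ (B + 1) := by
      rw [hη, mul_pow, div_pow, div_pow]
      field_simp
    have e2 : 64 * (2 / δ) ^ (B + 1) ≤ δ * L := by
      rw [div_le_iff₀ hδ] at c2
      linarith
    have e3 : 4 * η ≤ δ / 16 * (1 / L ^ B) := by
      rw [e1, pow_succ L B, mul_one_div, div_div, ← mul_div_assoc, div_le_div_iff₀ (by positivity)
        (by positivity)]
      nlinarith [mul_le_mul_of_nonneg_right e2 hLB.le]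
    exact e3.trans (mul_le_mul_of_nonneg_left hhL (by positivity))
  -- the bound on `Λ`-sums
  have hsum : ∀ M : ℝ, z ≤ M → ∀ n : ℕ, ⌊M⌋₊ ≤ n →
      |∑ m ∈ Icc 1 n, ArithmeticFunction.vonMangoldt m - n| ≤ η * n := by
    intro M hM n hn
    have hn1 : M < n + 1 := by
      have := Nat.lt_floor_add_one M
      have h2 : (⌊M⌋₊ : ℝ) ≤ n := by exact_mod_cast hn
      linarith
    have hnN : N0 ≤ n := by
      have : (N0 : ℝ) ≤ n := by linarith
      exact_mod_cast this
    refine (hN0 n hnN).trans ?_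
    have hnz : Real.sqrt z ≤ n := by
      have e1 : Real.sqrt z ≤ z / 2 := by
        rw [Real.sqrt_le_left (by linarith)]
        nlinarith
      linarith
    have hlog : δ / 2 * L ≤ Real.log n := by
      have e1 : Real.log (Real.sqrt z) = δ / 2 * L := by rw [hsq, Real.log_exp]
      rw [← e1]
      exact Real.log_le_log (Real.sqrt_pos.2 hz0) hnz
    rw [hη, div_mul_eq_mul_div, one_mul]
    exact div_le_div_of_nonneg_left (Nat.cast_nonneg _) (by positivity)
      (pow_le_pow_left₀ (by positivity) hlog _)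
  -- small terms
  have hsqz : 0 < Real.sqrt z := Real.sqrt_pos.2 hz0
  have hLBs : L * L ^ B ≤ δ / 128 * Real.sqrt z := by
    rw [← pow_succ']
    exact c1'
  have hsmall : L / Real.sqrt z ≤ δ / 128 * h := by
    have e1 : L / Real.sqrt z ≤ δ / 128 * (1 / L ^ B) := by
      rw [mul_one_div, div_le_div_iff₀ hsqz hLB]
      linarith
    exact e1.trans (mul_le_mul_of_nonneg_left hhL (by positivity))
  have hsz : Real.sqrt z ≤ z := by
    rw [Real.sqrt_le_left (by linarith)]
    nlinarith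
  have hsmall2 : L / z ≤ δ / 128 * h :=
    (div_le_div_of_nonneg_left hL0.le hsqz hsz).trans hsmall
  have hδh : 0 < δ * h := by positivity
  have hexpL : Real.exp L = X := by rw [hL, Real.exp_log hX0]
  -- the strong form
  have hwin : ∀ M : ℝ, z ≤ M → M ≤ Real.exp L →
      |∑ m ∈ Ioc ⌊M⌋₊ ⌊M * Real.exp h⌋₊, La z m / m - h| ≤ δ / 4 * h := by
    intro M hM1 hM2
    have hM0 : 0 < M := by linarith
    have w1 := pma_win η M h hη0 (by linarith) hh0 hh1 (hsum M hM1)
    have w2 := pma_diff z M h hM1 (by linarith) hh0 hh1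
    have w3 : ∑ m ∈ Ioc ⌊M⌋₊ ⌊M * Real.exp h⌋₊, La z m / (m : ℝ) ≤
        ∑ m ∈ Ioc ⌊M⌋₊ ⌊M * Real.exp h⌋₊, ArithmeticFunction.vonMangoldt m / (m : ℝ) :=
      sum_le_sum fun m _ => div_le_div_of_nonneg_right (pma_La_le z m) (Nat.cast_nonneg _)
    have w4 : 4 / M ≤ 4 * (δ / 128 * h) := by
      have e1 : 1 / M ≤ L / z := by
        rw [div_le_div_iff₀ hM0 hz0]
        nlinarith
      have e2 : 4 / M = 4 * (1 / M) := by ring
      rw [e2]
      linarith
    have w5 : 4 * (Real.log M + 1) / Real.sqrt M ≤ 8 * (δ / 128 * h) := by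
      have e1 : Real.log M ≤ L := by
        have := Real.log_le_log hM0 hM2
        rwa [Real.log_exp] at this
      have e2 : Real.sqrt z ≤ Real.sqrt M := Real.sqrt_le_sqrt hM1
      calc 4 * (Real.log M + 1) / Real.sqrt M ≤ 4 * (L + L) / Real.sqrt M :=
            div_le_div_of_nonneg_right (by linarith) (Real.sqrt_nonneg _)
        _ ≤ 4 * (L + L) / Real.sqrt z := div_le_div_of_nonneg_left (by linarith) hsqz e2
        _ = 8 * (L / Real.sqrt z) := by ring
        _ ≤ 8 * (δ / 128 * h) := by linarith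
    rw [abs_le] at w1 ⊢
    constructor
    · linarith [w1.1]
    · linarith [w1.2]
  refine ⟨?_, hδ, hδ1, hlogz, hh0, hhδ, fun M h1 h2 => (hwin M h1 h2).trans ?_, fun M h1 h2 => ?_⟩
  · linarith [Real.exp_one_lt_d9]
  · linarith
  · by_cases hMz : z ≤ M
    · have := (abs_le.1 (hwin M hMz h2)).2
      nlinarith
    · have hMz' : M < z := not_le.1 hMz
      have hzL : z ≤ Real.exp L := by
        rw [hzexp]
        exact Real.exp_le_exp.2 (by nlinarith)
      have w1 := (abs_le.1 (hwin z le_rfl hzL)).2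
      have hf0 : (0 : ℝ) < ⌊z⌋₊ := by
        have := Nat.lt_floor_add_one z
        linarith
      have w2 : ∑ m ∈ Ioc ⌊M⌋₊ ⌊M * Real.exp h⌋₊, La z m / (m : ℝ) ≤
          ∑ m ∈ insert ⌊z⌋₊ (Ioc ⌊z⌋₊ ⌊z * Real.exp h⌋₊), La z m / (m : ℝ) := by
        classical
        rw [← sum_filter_ne_zero (Ioc ⌊M⌋₊ ⌊M * Real.exp h⌋₊)]
        refine sum_le_sum_of_subset_of_nonneg (fun m hm => ?_) fun m _ _ =>
          div_nonneg (pma_La_nonneg z m) (Nat.cast_nonneg _)
        rw [mem_filter, mem_Ioc] at hm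
        obtain ⟨⟨hm1, hm2⟩, hm3⟩ := hm
        have hLa : La z m ≠ 0 := fun h0 => hm3 (by rw [h0, zero_div])
        have hr : Rough z m := by
          by_contra hr
          exact hLa (by unfold La rho; rw [if_neg hr, zero_mul])
        have hv : ArithmeticFunction.vonMangoldt m ≠ 0 := fun h0 =>
          hLa (by unfold La; rw [h0, mul_zero])
        have hpp : IsPrimePow m := ArithmeticFunction.vonMangoldt_ne_zero_iff.1 hv
        have hmp : 0 < m := hpp.pos
        have hzm : z ≤ m := by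
          have hne : m ≠ 1 := hpp.ne_one
          have e1 := hr m.minFac (Nat.minFac_prime hne) (Nat.minFac_dvd m)
          have e2 : (m.minFac : ℝ) ≤ m := by exact_mod_cast Nat.minFac_le hmp
          linarith
        have hfl : ⌊z⌋₊ ≤ m := Nat.floor_le_of_le hzm
        have hup : m ≤ ⌊z * Real.exp h⌋₊ := by
          refine hm2.trans (Nat.floor_le_floor ?_)
          exact mul_le_mul_of_nonneg_right hMz'.le (Real.exp_pos _).le
        rw [mem_insert, mem_Ioc]
        rcases hfl.eq_or_lt with h5 | h5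
        · exact Or.inl h5.symm
        · exact Or.inr ⟨h5, hup⟩
      rw [sum_insert (by simp)] at w2
      have w3 : La z ⌊z⌋₊ / (⌊z⌋₊ : ℝ) ≤ 2 * (δ / 128 * h) := by
        have e1 : La z ⌊z⌋₊ ≤ L := by
          refine (pma_La_le z _).trans (ArithmeticFunction.vonMangoldt_le_log.trans ?_)
          have e2 : (⌊z⌋₊ : ℝ) ≤ z := Nat.floor_le hz0.le
          have e3 := Real.log_le_log hf0 e2
          rw [hlogz] at e3
          nlinarith
        have e4 : z / 2 ≤ (⌊z⌋₊ : ℝ) := by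
          have := Nat.lt_floor_add_one z
          linarith
        calc La z ⌊z⌋₊ / (⌊z⌋₊ : ℝ) ≤ L / (⌊z⌋₊ : ℝ) := div_le_div_of_nonneg_right e1 hf0.le
          _ ≤ L / (z / 2) := div_le_div_of_nonneg_left hL0.le (by linarith) e4
          _ = 2 * (L / z) := by field_simp
          _ ≤ 2 * (δ / 128 * h) := by linarith
      nlinarith

end Pool.MP_dd84fd_nt.QZ
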