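import Pool.Agent.Lib.MP_dd84fd_nt.QZ.Za
import Pool.Agent.Lib.MP_dd84fd_nt.BX.PgDefs
import Pool.Agent.Lib.MP_dd84fd_nt.BY.VDefs

/-!
# QZ-QDefs: the statements of BX and BY with heavy intervals in place of large sums

`QE M M' X d`: `d = r/h`, `h ≤ M`, `r` the conductor of a primitive character with a heavy interval
(`Hvy`, with `lam = 1/M` and `log` exponent `M'`).  The other definitions are those of `BX/PgDefs`,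
`BY/Defs`, `BY/VDefs` with `QE` for `Expl` and `ExplY`.
-/

set_option autoImplicit false

namespace Pool.MP_dd84fd_nt.QZ

open Finset Pool.MP_67663b_nt.Odd Pool.MP_dd84fd_nt.En Pool.MP_dd84fd_nt.E2 Pool.MP_dd84fd_nt.LS
open Pool.MP_dd84fd_nt.L2G (nrm)
open Pool.MP_dd84fd_nt.GX Pool.MP_dd84fd_nt.HX Pool.MP_dd84fd_nt.IX
open Pool.MP_dd84fd_nt.PL (rr)
open Pool.MP_dd84fd_nt.JX (wP gP DecJ Adm)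
open Pool.MP_dd84fd_nt.BX (PC pv IsPC GoodB)
open Pool.MP_dd84fd_nt.BY (GoodY AdmY FmY wF gF)

/-- `d = r/h`, `h ≤ M`, `r` the conductor of a primitive character with a heavy interval -/
def QE (M M' X d : ℕ) : Prop :=
  ∃ (r h : ℕ) (χ : DirichletCharacter ℂ r), χ.IsPrimitive ∧ 1 ≤ h ∧ h ≤ M ∧ d * h = r ∧
    Hvy (1 / (M : ℝ)) (1 / 11) M' X ⟨r, χ⟩

theorem Hvy.mono {lam lam' c c' : ℝ} {B B' X : ℕ} {ψ : PC} (h : Hvy lam c B X ψ)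
    (h1 : lam' ≤ lam) (h2 : c' ≤ c) (h3 : B ≤ B') (hL : 1 ≤ Real.log X) :
    Hvy lam' c' B' X ψ := by
  obtain ⟨x, H, a1, a2, a3, a4, a5, a6⟩ := h
  have hX1 : (1 : ℝ) ≤ X := by
    by_contra hcon
    push Not at hcon
    have : (X : ℝ) = 0 := by
      have : X < 1 := by exact_mod_cast hcon
      have : X = 0 := by omega
      rw [this]; simp
    rw [this, Real.log_zero] at hL
    linarith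
  refine ⟨x, H, a1, (Real.rpow_le_rpow_of_exponent_le hX1 h2).trans a2, a3, a4, a5.trans ?_,
    le_trans ?_ a6⟩
  · exact mul_le_mul_of_nonneg_left (pow_le_pow_right₀ hL h3) a1.le
  · exact mul_le_mul_of_nonneg_right h1 a1.le

/-- `QE` is monotone -/
theorem QE.mono {M M' N N' X d : ℕ} (h : QE M M' X d) (h1 : M ≤ N) (h2 : M' ≤ N')
    (hL : 1 ≤ Real.log X) : QE N N' X d := by
  obtain ⟨r, k, χ, g1, g2, g3, g4, g5⟩ := h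
  have hM : 0 < M := lt_of_lt_of_le g2 g3
  refine ⟨r, k, χ, g1, g2, g3.trans h1, g4, g5.mono ?_ le_rfl h2 hL⟩
  exact one_div_le_one_div_of_le (by exact_mod_cast hM) (by exact_mod_cast h1)

/-- boundedly many moduli -/
def GreedyQ : Prop := ∀ e η : ℝ, 0 < e → 20000 * e ≤ 1 → 0 < η → ∃ M : ℕ, ∀ K1 K2 : ℕ,
  ∃ M' : ℕ, ∀ th : ℝ, 1 / 3 + 1000 * e ≤ th → th ≤ 1 / 2 → ∀ K : ℕ,
  ∃ D0 : ℕ, ∀ D' : ℕ, D0 ≤ D' → ∃ X0 : ℕ, ∀ X : ℕ, X0 ≤ X → ∃ D : Finset ℕ, D.card ≤ M ∧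
    (∀ d ∈ D, (Real.log X) ^ K ≤ (d : ℝ) ∧ (d : ℝ) ≤ (X : ℝ) ^ (1 - th + 3 * e) ∧
      QE M M' X d) ∧
    ∀ n : ℕ, X < 2 * n → n ≤ X → (∀ d ∈ D, ¬ d ∣ n) →
      GoodB th e wP gP (wX D' X) X n K1 K2
        (η * ((n : ℝ) / (Nat.totient n : ℝ)) * (X / (Real.log X) ^ 2))

/-- GEN with boundedly many moduli, for the primes -/
def GenQ : Prop := ∀ (A : ℕ) (e η : ℝ), 0 < e → 20000 * e ≤ 1 → 0 < η → ∃ M : ℕ,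
  ∀ th : ℝ, 1 / 3 + 1000 * e ≤ th → th ≤ 1 / 2 → ∀ K : ℕ,
  ∃ D0 : ℕ, ∀ D' : ℕ, D0 ≤ D' → ∃ X0 : ℕ, ∀ X : ℕ, X0 ≤ X → ∃ D Ex : Finset ℕ, D.card ≤ M ∧
    (∀ d ∈ D, (Real.log X) ^ K ≤ (d : ℝ) ∧ (d : ℝ) ≤ (X : ℝ) ^ (1 - th + 3 * e) ∧
      QE M M X d) ∧
    (Ex.card : ℝ) ≤ (X : ℝ) ^ (th - e / 4) ∧
    ∀ n : ℕ, X < 2 * n → n ≤ X → Even n → n ∉ Ex → (∀ d ∈ D, ¬ d ∣ n) →
      |cvv (wP X) (wP X) n - cvv (fI gP X (wX D' X)) (fI gP X (wX D' X)) n| ≤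
        X / (Real.log X) ^ A + η * ((n : ℝ) / (Nat.totient n : ℝ)) * (X / (Real.log X) ^ 2)

/-- the asymptotic formula up to `η` with boundedly many moduli -/
def FinQ : Prop := ∀ η ε : ℝ, 0 < η → 0 < ε → ∃ M : ℕ, ∀ θ : ℝ, 1 / 3 ≤ θ → θ ≤ 1 →
  ∀ K : ℕ, ∃ X0 : ℕ, ∀ X : ℕ, X0 ≤ X → ∃ D : Finset ℕ, D.card ≤ M ∧
    (∀ d ∈ D, (Real.log X) ^ K ≤ (d : ℝ) ∧ (d : ℝ) ≤ (X : ℝ) ^ (1 - θ) ∧ QE M M X d) ∧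
    ∀ P : ℕ → Prop, ∀ _ : DecidablePred P,
      (∀ n, P n → X < 2 * n ∧ Even n ∧ (∀ d ∈ D, ¬ d ∣ n) ∧
        η * (SS n * JJ n) < |(g n : ℝ) - SS n * JJ n|) →
      (((Icc 1 X).filter P).card : ℝ) ≤ (X : ℝ) ^ (θ + ε)

/-- boundedly many moduli for two families at one exponent -/
def GreedyQY (th e : ℝ) (ww1 gg1 ww2 gg2 : ℕ → ℕ → ℝ) : Prop := ∀ η : ℝ, 0 < η → ∀ K1 K2 : ℕ,
  ∃ M : ℕ, ∀ K : ℕ, ∃ D0 : ℕ, ∀ D' : ℕ, D0 ≤ D' → ∃ X0 : ℕ, ∀ X : ℕ, X0 ≤ X →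
    ∃ D : Finset ℕ, D.card ≤ M ∧
      (∀ d ∈ D, (Real.log X) ^ K ≤ (d : ℝ) ∧ (d : ℝ) ≤ (X : ℝ) ^ (1 - th + 3 * e) ∧
        QE M M X d) ∧
      ∀ n : ℕ, X < 2 * n → n ≤ X → (∀ d ∈ D, ¬ d ∣ n) →
        GoodY th e ww1 gg1 ww2 gg2 (wX D' X) X n K1 K2
          (η * ((n : ℝ) / (Nat.totient n : ℝ)) * (X / (Real.log X) ^ 2))

/-- (GREEDY) for all families -/
def GrQ : Prop := ∃ B : ℕ, ∀ (B' K0 C1 C2 : ℕ) (th e τ : ℝ), B ≤ B' → AdmY th e τ →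
  Adm th e τ → W1 K0 C1 wP gP → ∀ Wa Wb : ℕ → Finset ℕ → ℝ,
  FmY B K0 C1 C2 B' th e τ Wa → FmY B K0 C1 C2 B' th e τ Wb →
    GreedyQY th e wP gP (wF B' Wb) (gF B' Wb) ∧
    GreedyQY th e (wF B' Wa) (gF B' Wa) (wF B' Wb) (gF B' Wb)

/-- the conclusion for one pair -/
def ConQ (A : ℕ) (th e : ℝ) (ww1 gg1 ww2 gg2 : ℕ → ℕ → ℝ) : Prop := ∀ η : ℝ, 0 < η →
  ∃ M : ℕ, ∀ K : ℕ, ∃ D0 : ℕ, ∀ D' : ℕ, D0 ≤ D' → ∃ X0 : ℕ, ∀ X : ℕ, X0 ≤ X →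
  ∃ D Ex : Finset ℕ, D.card ≤ M ∧
    (∀ d ∈ D, (Real.log X) ^ K ≤ (d : ℝ) ∧ (d : ℝ) ≤ (X : ℝ) ^ (1 - th + 3 * e) ∧
      QE M M X d) ∧
    (Ex.card : ℝ) ≤ (X : ℝ) ^ (th - e / 4) ∧
    ∀ n : ℕ, X < 2 * n → n ≤ X → n ∉ Ex → (∀ d ∈ D, ¬ d ∣ n) →
      |cvv (ww1 X) (ww2 X) n - cvv (fI gg1 X (wX D' X)) (fI gg2 X (wX D' X)) n| ≤
        X / (Real.log X) ^ A + η * ((n : ℝ) / (Nat.totient n : ℝ)) * (X / (Real.log X) ^ 2)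

open Classical in
/-- one scale -/
def ScQ (Bad : ℕ → Prop) (M : ℕ) (θ : ℝ) : Prop := ∀ K : ℕ, ∃ X0 : ℕ, ∀ X : ℕ, X0 ≤ X →
  ∃ D : Finset ℕ, D.card ≤ M ∧ (∀ d ∈ D, (Real.log X) ^ K ≤ (d : ℝ) ∧ QE M M X d) ∧
    (((Icc 1 X).filter (fun n => X < 2 * n ∧ Even n ∧ (∀ d ∈ D, ¬ d ∣ n) ∧
      Bad n)).card : ℝ) ≤ (X : ℝ) ^ θ

end Pool.MP_dd84fd_nt.QZ
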