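import Pool.Agent.Lib.MP_dd84fd_nt.BY.VGen
import Pool.Agent.Lib.MP_dd84fd_nt.BY.VFin
import Pool.Agent.Lib.MP_dd84fd_nt.BY.VPfA
import Pool.Agent.Lib.MP_dd84fd_nt.XP.TwoP
import Pool.Agent.Lib.MP_dd84fd_nt.QZ.QDefs
import Pool.Agent.Lib.MP_dd84fd_nt.BY.VSec
import Pool.Agent.Lib.MP_dd84fd_nt.BY.VAdm
import Pool.Agent.Lib.MP_dd84fd_nt.BY.VNum
import Pool.Agent.Lib.MP_dd84fd_nt.DX.PfE
import Pool.Agent.Lib.MP_dd84fd_nt.LX.LAll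
import Pool.Agent.Lib.MP_dd84fd_nt.MX.Main

/-!
# QZ-QFinY: one scale and all exponents, with heavy intervals (as BY-VGen, BY-VFin, BY-VRes)
-/

set_option autoImplicit false

namespace Pool.MP_dd84fd_nt.QZ

open Finset Pool.MP_67663b_nt.Odd Pool.MP_dd84fd_nt.En Pool.MP_dd84fd_nt.E2 Pool.MP_dd84fd_nt.LS
open Pool.MP_dd84fd_nt.GX Pool.MP_dd84fd_nt.HX Pool.MP_dd84fd_nt.IX
open Pool.MP_dd84fd_nt.JX (wP gP DecJ Adm)
open Pool.MP_dd84fd_nt.KX (lK)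
open Pool.MP_dd84fd_nt.LX Pool.MP_dd84fd_nt.MX
open Pool.MP_dd84fd_nt.DX (plugE id_p GoodE Dsk)
open Pool.MP_dd84fd_nt.BY

private theorem qdecJ_monoB {B B' C : ℕ} (hB : B' ≤ B) {th e τ : ℝ} {ww : ℕ → ℕ → ℝ}
    (h : DecJ B C th e τ ww) : DecJ B' C th e τ ww := by
  obtain ⟨X1, hX1⟩ := h
  obtain ⟨X2, hX2⟩ := MP_log_large 1
  refine ⟨max X1 X2, fun X hX => ?_⟩
  simp only [max_le_iff] at hX
  obtain ⟨I, γ, al, M, K, a, c, err, p1, p2, p3, p4, p5, p6, p7, p8, p9⟩ := hX1 X hX.1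
  have hL := hX2 X hX.2
  have hL2 : (Real.log X) ^ B' ≤ (Real.log X) ^ B := pow_le_pow_right₀ hL hB
  exact ⟨I, γ, al, M, K, a, c, err, p1, p2, p3, p4, p5, p6, p7, p8,
    p9.trans (div_le_div_of_nonneg_left (Nat.cast_nonneg _) (by positivity) hL2)⟩

private theorem qdecW_monoB {B B' C : ℕ} (hB : B' ≤ B) {th e τ : ℝ} {ww : ℕ → ℕ → ℝ}
    (h : DecW B C th e τ ww) : DecW B' C th e τ ww := by
  obtain ⟨X1, hX1⟩ := h
  obtain ⟨X2, hX2⟩ := MP_log_large 1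
  refine ⟨max X1 X2, fun X hX => ?_⟩
  simp only [max_le_iff] at hX
  obtain ⟨I, γ, al, M, K, a, c, err, p1, p2, p3, p4, p5, p6, p7, p8, p9⟩ := hX1 X hX.1
  have hL := hX2 X hX.2
  have hL2 : (Real.log X) ^ B' ≤ (Real.log X) ^ B := pow_le_pow_right₀ hL hB
  exact ⟨I, γ, al, M, K, a, c, err, p1, p2, p3, p4, p5, p6, p7, p8,
    p9.trans (div_le_div_of_nonneg_left (Nat.cast_nonneg _) (by positivity) hL2)⟩

/-- (V1) -/
theorem con_q (A : ℕ) : ∃ B : ℕ, ∀ (K0 C1 C2 : ℕ) (th e τ : ℝ), Adm th e τ →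
    ∀ ww1 gg1 ww2 gg2 : ℕ → ℕ → ℝ, W1 K0 C1 ww1 gg1 → DecW B C2 th e τ ww1 →
    W1 K0 C1 ww2 gg2 → DecJ B C2 th e τ ww2 → GreedyQY th e ww1 gg1 ww2 gg2 →
    SecY (A + 1) ww1 gg1 gg2 → ConQ A th e ww1 gg1 ww2 gg2 := by
  obtain ⟨B, hB⟩ := plugE (A + 1)
  refine ⟨B, fun K0 C1 C2 th e τ hA ww1 gg1 ww2 gg2 hw1 hd1 hw2 hd2 hG hS η hη => ?_⟩
  obtain ⟨K1, K2, h1⟩ := hB K0 C1 C2
  have h2 := h1 th e τ hA ww1 gg1 ww2 gg2 hw1 hd1 hw2 hd2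
  obtain ⟨M, hM⟩ := hG η hη K1 K2
  refine ⟨M, fun K => ?_⟩
  obtain ⟨D1, h3⟩ := hM K
  obtain ⟨D2, h4⟩ := hS
  refine ⟨max D1 (max D2 1), fun D' hD' => ?_⟩
  simp only [max_le_iff] at hD'
  obtain ⟨X1, h5⟩ := h3 D' hD'.1
  obtain ⟨X2, h6⟩ := h4 D' hD'.2.1
  obtain ⟨X3, h7⟩ := h2 D' hD'.2.2
  obtain ⟨X4, h8⟩ := MP_log_large 2
  refine ⟨max (max X1 X2) (max X3 (max X4 1)), fun X hX => ?_⟩
  simp only [max_le_iff] at hX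
  obtain ⟨⟨x1, x2⟩, x3, x4, x5⟩ := hX
  obtain ⟨D, d1, d2, d3⟩ := h5 X x1
  obtain ⟨Ex, e1, e2⟩ := h7 X x3 0 (-1) (by norm_num) (by norm_num)
    (fun n => η * ((n : ℝ) / (Nat.totient n : ℝ)) * (X / (Real.log X) ^ 2))
  have hL := h8 X x4
  have hX0 : (0 : ℝ) < X := by exact_mod_cast (by omega : 0 < X)
  refine ⟨D, Ex, d1, d2, e1, fun n n1 n2 n3 n4 => ?_⟩
  have q1 := e2 n n1 n2 n3 (by
    intro QQ N ρ hD hρ
    obtain ⟨-, -, k1, k2, k3, -, k4⟩ := hD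
    exact d3 n n1 n2 n4 QQ N ρ k1 hρ k2 k3 k4)
  have q2 := h6 X x2 n n2
  have e3 : (fun m => ww2 X m + (-1) * fI gg2 X (wX D' X) m) =
      fun m => ww2 X m - fI gg2 X (wX D' X) m := by
    funext m
    ring
  rw [e3] at q1
  rw [id_p]
  unfold uI at q2
  have q3 : (X : ℝ) / (Real.log X) ^ (A + 1) + X / (Real.log X) ^ (A + 1) ≤
      X / (Real.log X) ^ A := by
    have hp : 0 < (Real.log X) ^ A := by positivity
    have hl : 0 < Real.log X := by linarith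
    rw [pow_succ, ← add_div, div_le_div_iff₀ (by positivity) hp]
    nlinarith [mul_pos hX0 hp]
  refine (abs_add_le _ _).trans ?_
  linarith

/-- the data of the families in a convenient form -/
private theorem qw1_gg {K0 C1 : ℕ} {ww gg : ℕ → ℕ → ℝ} (h : W1 K0 C1 ww gg) :
    ∃ X1 : ℕ, ∀ X : ℕ, X1 ≤ X → (∀ n, |gg X n| ≤ K0) ∧
      ∑ n ∈ Ico 1 X, |gg X (n + 1) - gg X n| ≤ (Real.log X) ^ C1 := by
  obtain ⟨X1, hX1⟩ := h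
  exact ⟨X1, fun X hX => ⟨fun n => ((hX1 X hX).1 n).2, (hX1 X hX).2⟩⟩

/-- the conclusions for the pairs of two families -/
theorem con_allq (hG : GrQ) (hT : PfT) (hP : DecPW) : ∃ B : ℕ, ∀ (B' K0 C1 C2 : ℕ) (th e τ : ℝ),
    B ≤ B' → AdmY th e τ → Adm th e τ → W1 K0 C1 wP gP → ∀ Wa Wb : ℕ → Finset ℕ → ℝ,
    (∃ X1 : ℕ, ∀ X : ℕ, X1 ≤ X → ∀ T, |Wa X T| ≤ K0) →
    FmY B K0 C1 C2 B' th e τ Wa → FmY B K0 C1 C2 B' th e τ Wb →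
    ConQ 5 th e wP gP (wF B' Wb) (gF B' Wb) ∧
    ConQ 5 th e (wF B' Wa) (gF B' Wa) (wF B' Wb) (gF B' Wb) := by
  obtain ⟨B1, h1⟩ := hG
  obtain ⟨B2, h2⟩ := con_q 5
  obtain ⟨C3, h3⟩ := hP (max B1 B2)
  refine ⟨max B1 B2, fun B' K0 C1 C2 th e τ hB' hY hA hw Wa Wb hWa fa fb => ?_⟩
  have hB1 : B1 ≤ B' := (le_max_left _ _).trans hB'
  obtain ⟨g1, g2⟩ := h1 B' K0 C1 C2 th e τ hB1 hY hA hw Wa Wb
    (fa.mono (le_max_left _ _) le_rfl) (fb.mono (le_max_left _ _) le_rfl)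
  have d0 : DecW B2 (max C2 C3) th e τ wP :=
    qdecW_monoB (le_max_right _ _) (decW_monoC (le_max_right _ _) (h3 th e τ hA))
  have fa2 : FmY B2 K0 C1 (max C2 C3) B' th e τ Wa := fa.mono (le_max_right _ _) (le_max_left _ _)
  have fb2 : FmY B2 K0 C1 (max C2 C3) B' th e τ Wb := fb.mono (le_max_right _ _) (le_max_left _ _)
  constructor
  · refine h2 K0 C1 (max C2 C3) th e τ hA _ _ _ _ hw d0 fb2.w1 fb2.dec g1 ?_
    obtain ⟨D0, h4⟩ := Pool.MP_dd84fd_nt.DX.pfE 6 K0 C1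
    exact ⟨D0, fun D' hD' => h4 D' hD' _ (qw1_gg fb2.w1)⟩
  · refine h2 K0 C1 (max C2 C3) th e τ hA _ _ _ _ fa2.w1 (decJ_W hA fa2.dec) fb2.w1 fb2.dec g2 ?_
    exact secG 6 K0 C1 _ _ _ fa2.w1 (fun A1 => hT A1 B' K0 Wa hWa) (qw1_gg fb2.w1)

private theorem qls_JJ (n : ℕ) : 0 ≤ JJ n := by
  unfold JJ
  refine Finset.sum_nonneg fun m _ => ?_
  exact div_nonneg zero_le_one (mul_nonneg (Real.log_natCast_nonneg _) (Real.log_natCast_nonneg _))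

private theorem qls_SJ (n : ℕ) : 0 ≤ SS n * JJ n := by
  have s1 : 2 * Pool.MP_dd84fd_nt.En.C2 ≤ SS n := SS_ge n
  have s2 : 0 < Pool.MP_dd84fd_nt.En.C2 := C2_pos
  exact mul_nonneg (by linarith) (qls_JJ n)

/-- one scale, Theorem M -/
theorem sc_mq (hG : GrQ) (hT : PfT) (hP : DecPW) (hi c C' : ℝ)
    (hM : MajSet (1 / 7) hi (fun _ => c) (fun _ => C') AdmM bmT) :
    ∀ th : ℝ, 1 / 7 < th → th < hi → ∃ M : ℕ, ScQ (BadM c C') M th := by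
  classical
  obtain ⟨B, hB⟩ := con_allq hG hT hP
  obtain ⟨B0, hB0⟩ := fm_m B
  obtain ⟨B', hB'0, hB'1, hB'2⟩ : ∃ B' : ℕ, B0 ≤ B' ∧ 1 ≤ B' ∧ B ≤ B' :=
    ⟨max B0 (max B 1), le_max_left _ _, (le_max_right _ _).trans (le_max_right _ _),
      (le_max_left _ _).trans (le_max_right _ _)⟩
  obtain ⟨C2', hC2⟩ := hB0 B' hB'0
  intro th hth hth2
  obtain ⟨τ0, b, hτ0, hb1, hu, hu2, hnum⟩ := hM.num th hth hth2
  obtain ⟨e, τ, hAK, t1⟩ := hM.ex th hth hth2 (min τ0 (1 / 1000)) (lt_min hτ0 (by norm_num))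
  have t2 : τ ≤ τ0 := t1.trans (min_le_left _ _)
  have t3 : τ ≤ 1 / 1000 := t1.trans (min_le_right _ _)
  have hA : Adm th e τ := hM.adm th e τ hAK
  have hY : AdmY th e τ := admM_Y hAK (by linarith)
  have he0 : 0 < e := hA.2.2.1
  have hfm := hC2 th e τ hAK
  have hw0 : W1 (2 ^ 24) (B' + 3) wP gP := w1_monoL (by norm_num) (by omega) JX.w1P
  obtain ⟨Xb, hXb⟩ := hM.bd th e τ hAK B'
  obtain ⟨c1, c2⟩ := hB B' (2 ^ 24) (B' + 3) C2' th e τ hB'2 hY hA hw0 _ _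
    ⟨Xb, fun X hX T => (hXb X hX T).trans (by norm_num)⟩ hfm hfm
  obtain ⟨δ, hδ, hab, hab2⟩ : ∃ δ : ℝ, 0 < δ ∧ (b - 1) ^ 2 + δ ≤ 1 - c ∧ b + δ ≤ C' := by
    refine ⟨min (1 - c - (b - 1) ^ 2) (C' - b), lt_min (by linarith) (by linarith), ?_, ?_⟩
    · have := min_le_left (1 - c - (b - 1) ^ 2) (C' - b)
      linarith
    · have := min_le_right (1 - c - (b - 1) ^ 2) (C' - b)
      linarith
  have hC2p : 0 < Pool.MP_dd84fd_nt.En.C2 := C2_pos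
  obtain ⟨η, hη⟩ : ∃ η : ℝ, η = (δ / 16) * Pool.MP_dd84fd_nt.En.C2 / 16 := ⟨_, rfl⟩
  have hη0 : 0 < η := by rw [hη]; positivity
  obtain ⟨M1, hM1⟩ := c1 η hη0
  obtain ⟨M2, hM2⟩ := c2 η hη0
  refine ⟨M1 + M2, fun K => ?_⟩
  obtain ⟨D2, hD2⟩ := hM1 K
  obtain ⟨D4, hD4⟩ := hM2 K
  obtain ⟨D5, hD5⟩ := final_mbY B' hB'1 b δ hδ hb1
  obtain ⟨D', hD'⟩ : ∃ D' : ℕ, D' = max D2 (max D4 D5) := ⟨_, rfl⟩
  obtain ⟨X2, h2⟩ := hD2 D' (by rw [hD']; omega)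
  obtain ⟨X4, h4⟩ := hD4 D' (by rw [hD']; omega)
  obtain ⟨X5', h5⟩ := hD5 D' (by rw [hD']; omega)
  obtain ⟨X6, h6⟩ := hnum e τ hAK t2 B' hB'1
  obtain ⟨X7, h7⟩ := hM.ty th e τ hAK B' hB'1
  obtain ⟨X8, h8⟩ := MP_log_large 4
  obtain ⟨X9, h9⟩ : ∃ X9 : ℕ, ∀ X : ℕ, X9 ≤ X → (8 : ℝ) ≤ (X : ℝ) ^ (e / 4) := by
    have h := ((tendsto_rpow_atTop (by positivity : (0 : ℝ) < e / 4)).comp
      (tendsto_natCast_atTop_atTop (R := ℝ))).eventually_ge_atTop 8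
    obtain ⟨X0, h1⟩ := Filter.eventually_atTop.1 h
    exact ⟨X0, fun X hX => h1 X hX⟩
  obtain ⟨X10, h10⟩ := err_y
  refine ⟨max (max X2 X4) (max (max X5' X6) (max (max X7 X8) (max (max X9 Xb) (max X10 1)))),
    fun X hX => ?_⟩
  simp only [max_le_iff] at hX
  obtain ⟨⟨x2, x4⟩, ⟨x5, x6⟩, ⟨x7, x8⟩, ⟨x9, xb⟩, x10, x11⟩ := hX
  obtain ⟨Db, Eb, b1, b2, b3, b4⟩ := h2 X x2
  obtain ⟨Dd, Ed, e1, e2, e3, e4⟩ := h4 X x4
  have hL : 4 ≤ Real.log (X : ℝ) := h8 X x8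
  have hX0 : (0 : ℝ) < X := by exact_mod_cast (by omega : 0 < X)
  refine ⟨Db ∪ Dd, (card_union_le Db Dd).trans (Nat.add_le_add b1 e1), ?_, ?_⟩
  · intro d hd
    rcases mem_union.1 hd with hd | hd
    · exact ⟨(b2 d hd).1, (b2 d hd).2.2.mono (by omega) (by omega) (by linarith)⟩
    · exact ⟨(e2 d hd).1, (e2 d hd).2.2.mono (by omega) (by omega) (by linarith)⟩
  · have hsub : (Icc 1 X).filter (fun n => X < 2 * n ∧ Even n ∧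
        (∀ d ∈ Db ∪ Dd, ¬ d ∣ n) ∧ BadM c C' n) ⊆ Eb ∪ Ed := by
      intro n hn
      rw [mem_filter, mem_Icc] at hn
      obtain ⟨⟨n1, n2⟩, n3, n4, n5, n6⟩ := hn
      by_contra hcon
      rw [mem_union, not_or] at hcon
      obtain ⟨k2, k4⟩ := hcon
      have q2 := b4 n n3 n2 k2 fun d hd => n5 d (mem_union_left _ hd)
      have q4 := e4 n n3 n2 k4 fun d hd => n5 d (mem_union_right _ hd)
      have qe := h10 X x10 (δ / 16) (by positivity) n n3 n2 n4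
      rw [← hη] at qe
      have q2' : ClPY (δ / 16) B' D' X (bmT th e τ B' X) n :=
        q2.trans (add_le_add le_rfl qe)
      have q4' : Cl2Y (δ / 16) B' D' X (bmT th e τ B' X) (bmT th e τ B' X) n :=
        q4.trans (add_le_add le_rfl qe)
      obtain ⟨r1, r2⟩ := h5 X x5 (bmT th e τ B' X) (h7 X x7) (fun T => hXb X xb T)
        (fun m hm hmX => h6 X x6 m hm hmX) n n3 n2 n4 q2' q4'
      have hSJ := qls_SJ n
      have r3 : c * (SS n * JJ n) ≤ g n :=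
        (mul_le_mul_of_nonneg_right (by linarith) hSJ).trans r1
      have r4 : (g n : ℝ) ≤ C' * (SS n * JJ n) :=
        r2.trans (mul_le_mul_of_nonneg_right (by linarith) hSJ)
      rcases n6 with n6 | n6
      · exact absurd n6 (not_lt.2 r3)
      · exact absurd n6 (not_lt.2 r4)
    have i1 : (((Icc 1 X).filter (fun n => X < 2 * n ∧ Even n ∧
        (∀ d ∈ Db ∪ Dd, ¬ d ∣ n) ∧ BadM c C' n)).card : ℝ) ≤ Eb.card + Ed.card := by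
      have := (card_le_card hsub).trans (card_union_le Eb Ed)
      exact_mod_cast this
    have i2 : (X : ℝ) ^ th = (X : ℝ) ^ (e / 4) * (X : ℝ) ^ (th - e / 4) := by
      rw [← Real.rpow_add hX0]
      congr 1
      ring
    rw [i2]
    have i3 : 0 ≤ (X : ℝ) ^ (th - e / 4) := by positivity
    calc _ ≤ 8 * (X : ℝ) ^ (th - e / 4) := by linarith
      _ ≤ _ := mul_le_mul_of_nonneg_right (h9 X x9) i3

/-- one scale, Theorem L -/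
theorem sc_lq (k : ℝ) (hG : GrQ) (hT : PfT) (hP : DecPW) (hN : NumL k) :
    ∀ th : ℝ, 1 / 5 < th → th < 1 / 3 → ∃ M : ℕ, ScQ (BadL k th) M th := by
  classical
  obtain ⟨B, hB⟩ := con_allq hG hT hP
  obtain ⟨B0, hB0⟩ := fm_l B
  obtain ⟨B', hB'0, hB'1, hB'2⟩ : ∃ B' : ℕ, B0 ≤ B' ∧ 1 ≤ B' ∧ B ≤ B' :=
    ⟨max B0 (max B 1), le_max_left _ _, (le_max_right _ _).trans (le_max_right _ _),
      (le_max_left _ _).trans (le_max_right _ _)⟩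
  obtain ⟨C2', hC2⟩ := hB0 B' hB'0
  intro th hth hth2
  obtain ⟨τ0, a, b, hτ0, ha, ha1, hb1, hl, hu, hnum⟩ := hN th hth hth2
  obtain ⟨τ, hτ⟩ : ∃ τ : ℝ, τ = min (min τ0 (1 / 1000)) (min ((th - 1 / 5) / 16) ((1 / 3 - th) / 16)) :=
    ⟨_, rfl⟩
  have t0 : 0 < τ := by
    rw [hτ]
    exact lt_min (lt_min hτ0 (by norm_num)) (lt_min (by linarith) (by linarith))
  have t1 : τ ≤ τ0 := by rw [hτ]; exact (min_le_left _ _).trans (min_le_left _ _)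
  have t4 : τ ≤ 1 / 1000 := by rw [hτ]; exact (min_le_left _ _).trans (min_le_right _ _)
  have t2 : τ ≤ (th - 1 / 5) / 16 := by
    rw [hτ]; exact (min_le_right _ _).trans (min_le_left _ _)
  have t3 : τ ≤ (1 / 3 - th) / 16 := by
    rw [hτ]; exact (min_le_right _ _).trans (min_le_right _ _)
  obtain ⟨e, he⟩ : ∃ e : ℝ, e = τ / 1000 := ⟨_, rfl⟩
  have he0 : 0 < e := by rw [he]; positivity
  have hAK : AdmX th e τ := ⟨hth, hth2, he0, by rw [he]; linarith, by linarith, by linarith⟩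
  have hA : Adm th e τ := hAK.adm
  have hY : AdmY th e τ := admX_Y hAK (by linarith)
  obtain ⟨fa, fb⟩ := hC2 th e τ hAK
  have hw0 : W1 (2 ^ 24) (B' + 3) wP gP := w1_monoL (by norm_num) (by omega) JX.w1P
  obtain ⟨Xb, hXb⟩ := bdL hAK B'
  have hWa : ∃ X1 : ℕ, ∀ X : ℕ, X1 ≤ X → ∀ T, |aL th e τ B' X T| ≤ ((2 ^ 24 : ℕ) : ℝ) :=
    ⟨Xb, fun X hX T => (hXb X hX T).1.trans (by norm_num)⟩
  obtain ⟨c1, c3⟩ := hB B' (2 ^ 24) (B' + 3) C2' th e τ hB'2 hY hA hw0 _ _ hWa fa fa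
  obtain ⟨c2, c4⟩ := hB B' (2 ^ 24) (B' + 3) C2' th e τ hB'2 hY hA hw0 _ _ hWa fa fb
  obtain ⟨δ, hδ, hab, hc⟩ : ∃ δ : ℝ, 0 < δ ∧
      (1 - a) ^ 2 + δ ≤ k * (1 - 3 * th) ^ 3 ∧ (b - 1) * (1 - a) + δ ≤ k * (1 - 3 * th) ^ 3 := by
    refine ⟨min (k * (1 - 3 * th) ^ 3 - (1 - a) * (1 - a)) (k * (1 - 3 * th) ^ 3 - (1 - a) * (b - 1)),
      lt_min (by linarith) (by linarith), ?_, ?_⟩
    · have := min_le_left (k * (1 - 3 * th) ^ 3 - (1 - a) * (1 - a))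
        (k * (1 - 3 * th) ^ 3 - (1 - a) * (b - 1))
      rw [sq]
      linarith
    · have := min_le_right (k * (1 - 3 * th) ^ 3 - (1 - a) * (1 - a))
        (k * (1 - 3 * th) ^ 3 - (1 - a) * (b - 1))
      rw [mul_comm (b - 1)]
      linarith
  have hC2p : 0 < Pool.MP_dd84fd_nt.En.C2 := C2_pos
  obtain ⟨η, hη⟩ : ∃ η : ℝ, η = (δ / 16) * Pool.MP_dd84fd_nt.En.C2 / 16 := ⟨_, rfl⟩
  have hη0 : 0 < η := by rw [hη]; positivity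
  obtain ⟨M1, hM1⟩ := c1 η hη0
  obtain ⟨M2, hM2⟩ := c2 η hη0
  obtain ⟨M3, hM3⟩ := c3 η hη0
  obtain ⟨M4, hM4⟩ := c4 η hη0
  refine ⟨(M1 + M2) + (M3 + M4), fun K => ?_⟩
  obtain ⟨D1, hD1⟩ := hM1 K
  obtain ⟨D2, hD2⟩ := hM2 K
  obtain ⟨D3, hD3⟩ := hM3 K
  obtain ⟨D4, hD4⟩ := hM4 K
  obtain ⟨D5, hD5⟩ := final_lY B' hB'1 a b δ hδ ha ha1 hb1
  obtain ⟨D', hD'⟩ : ∃ D' : ℕ, D' = max (max D1 D2) (max (max D3 D4) D5) := ⟨_, rfl⟩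
  obtain ⟨X1, h1⟩ := hD1 D' (by rw [hD']; omega)
  obtain ⟨X2, h2⟩ := hD2 D' (by rw [hD']; omega)
  obtain ⟨X3, h3⟩ := hD3 D' (by rw [hD']; omega)
  obtain ⟨X4, h4⟩ := hD4 D' (by rw [hD']; omega)
  obtain ⟨X5', h5⟩ := hD5 D' (by rw [hD']; omega)
  obtain ⟨X6, h6⟩ := hnum e τ hAK t1 B' hB'1
  obtain ⟨X7, h7⟩ := tyL hAK B' hB'1
  obtain ⟨X8, h8⟩ := MP_log_large 4
  obtain ⟨X9, h9⟩ : ∃ X9 : ℕ, ∀ X : ℕ, X9 ≤ X → (8 : ℝ) ≤ (X : ℝ) ^ (e / 4) := by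
    have h := ((tendsto_rpow_atTop (by positivity : (0 : ℝ) < e / 4)).comp
      (tendsto_natCast_atTop_atTop (R := ℝ))).eventually_ge_atTop 8
    obtain ⟨X0, h1⟩ := Filter.eventually_atTop.1 h
    exact ⟨X0, fun X hX => h1 X hX⟩
  obtain ⟨X10, h10⟩ := err_y
  refine ⟨max (max (max X1 X2) (max X3 X4))
    (max (max X5' X6) (max (max X7 X8) (max (max X9 Xb) (max X10 1)))), fun X hX => ?_⟩
  simp only [max_le_iff] at hX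
  obtain ⟨⟨⟨x1, x2⟩, x3, x4⟩, ⟨x5, x6⟩, ⟨x7, x8⟩, ⟨x9, xb⟩, x10, x11⟩ := hX
  obtain ⟨Da, Ea, a1, a2, a3, a4⟩ := h1 X x1
  obtain ⟨Db, Eb, b1, b2, b3, b4⟩ := h2 X x2
  obtain ⟨Dc, Ec, c1, c2, c3, c4⟩ := h3 X x3
  obtain ⟨Dd, Ed, e1, e2, e3, e4⟩ := h4 X x4
  have hL : 4 ≤ Real.log (X : ℝ) := h8 X x8
  have hX0 : (0 : ℝ) < X := by exact_mod_cast (by omega : 0 < X)
  refine ⟨(Da ∪ Db) ∪ (Dc ∪ Dd), ?_, ?_, ?_⟩
  · exact (card_union_le (Da ∪ Db) (Dc ∪ Dd)).trans (Nat.add_le_add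
      ((card_union_le Da Db).trans (Nat.add_le_add a1 b1))
      ((card_union_le Dc Dd).trans (Nat.add_le_add c1 e1)))
  · intro d hd
    rcases mem_union.1 hd with hd | hd
    · rcases mem_union.1 hd with hd | hd
      · exact ⟨(a2 d hd).1, (a2 d hd).2.2.mono (by omega) (by omega) (by linarith)⟩
      · exact ⟨(b2 d hd).1, (b2 d hd).2.2.mono (by omega) (by omega) (by linarith)⟩
    · rcases mem_union.1 hd with hd | hd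
      · exact ⟨(c2 d hd).1, (c2 d hd).2.2.mono (by omega) (by omega) (by linarith)⟩
      · exact ⟨(e2 d hd).1, (e2 d hd).2.2.mono (by omega) (by omega) (by linarith)⟩
  · have hsub : (Icc 1 X).filter (fun n => X < 2 * n ∧ Even n ∧
        (∀ d ∈ (Da ∪ Db) ∪ (Dc ∪ Dd), ¬ d ∣ n) ∧ BadL k th n) ⊆ (Ea ∪ Eb) ∪ (Ec ∪ Ed) := by
      intro n hn
      rw [mem_filter, mem_Icc] at hn
      obtain ⟨⟨n1, n2⟩, n3, n4, n5, n6⟩ := hn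
      by_contra hcon
      rw [mem_union, mem_union, mem_union, not_or, not_or, not_or] at hcon
      obtain ⟨⟨k1, k2⟩, k3, k4⟩ := hcon
      have q1 := a4 n n3 n2 k1 fun d hd => n5 d (mem_union_left _ (mem_union_left _ hd))
      have q2 := b4 n n3 n2 k2 fun d hd => n5 d (mem_union_left _ (mem_union_right _ hd))
      have q3 := c4 n n3 n2 k3 fun d hd => n5 d (mem_union_right _ (mem_union_left _ hd))
      have q4 := e4 n n3 n2 k4 fun d hd => n5 d (mem_union_right _ (mem_union_right _ hd))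
      have qe := h10 X x10 (δ / 16) (by positivity) n n3 n2 n4
      rw [← hη] at qe
      have q1' : ClPY (δ / 16) B' D' X (aL th e τ B' X) n := q1.trans (add_le_add le_rfl qe)
      have q2' : ClPY (δ / 16) B' D' X (bL th e τ B' X) n := q2.trans (add_le_add le_rfl qe)
      have q3' : Cl2Y (δ / 16) B' D' X (aL th e τ B' X) (aL th e τ B' X) n :=
        q3.trans (add_le_add le_rfl qe)
      have q4' : Cl2Y (δ / 16) B' D' X (aL th e τ B' X) (bL th e τ B' X) n :=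
        q4.trans (add_le_add le_rfl qe)
      obtain ⟨r1, r2⟩ := h5 X x5 (aL th e τ B' X) (bL th e τ B' X) (h7 X x7)
        (fun T => ⟨(hXb X xb T).1.trans (by norm_num), (hXb X xb T).2.trans (by norm_num)⟩)
        (fun m hm hmX => h6 X x6 m hm hmX) n n3 n2 n4 q1' q2' q3' q4'
      have hSJ := qls_SJ n
      have r3 : (1 - k * (1 - 3 * th) ^ 3) * (SS n * JJ n) ≤ g n :=
        (mul_le_mul_of_nonneg_right (by linarith) hSJ).trans r1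
      have r4 : (g n : ℝ) ≤ (1 + k * (1 - 3 * th) ^ 3) * (SS n * JJ n) :=
        r2.trans (mul_le_mul_of_nonneg_right (by linarith) hSJ)
      unfold BadL at n6
      have r5 : |(g n : ℝ) - SS n * JJ n| ≤ k * (1 - 3 * th) ^ 3 * (SS n * JJ n) := by
        rw [abs_le]
        constructor
        · linarith
        · linarith
      exact absurd n6 (not_lt.2 r5)
    have i1 : (((Icc 1 X).filter (fun n => X < 2 * n ∧ Even n ∧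
        (∀ d ∈ (Da ∪ Db) ∪ (Dc ∪ Dd), ¬ d ∣ n) ∧ BadL k th n)).card : ℝ) ≤
        (Ea.card + Eb.card) + (Ec.card + Ed.card) := by
      have := (card_le_card hsub).trans ((card_union_le (Ea ∪ Eb) (Ec ∪ Ed)).trans
        (Nat.add_le_add (card_union_le Ea Eb) (card_union_le Ec Ed)))
      exact_mod_cast this
    have i2 : (X : ℝ) ^ th = (X : ℝ) ^ (e / 4) * (X : ℝ) ^ (th - e / 4) := by
      rw [← Real.rpow_add hX0]
      congr 1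
      ring
    rw [i2]
    have i3 : 0 ≤ (X : ℝ) ^ (th - e / 4) := by positivity
    calc _ ≤ 8 * (X : ℝ) ^ (th - e / 4) := by linarith
      _ ≤ _ := mul_le_mul_of_nonneg_right (h9 X x9) i3

open Classical in
/-- from one scale with the exponent `t` to the exponent `θ`, moduli `≤ X^(1-θ)` -/
theorem fin_q (Bad : ℕ → Prop) (M : ℕ) (t θ ε : ℝ) (hε : 0 < ε) (ht : t ≤ θ + ε / 2)
    (H : ScQ Bad M t) : ∀ K : ℕ, ∃ X0 : ℕ, ∀ X : ℕ, X0 ≤ X → ∃ D : Finset ℕ, D.card ≤ M ∧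
    (∀ d ∈ D, (Real.log X) ^ K ≤ (d : ℝ) ∧ (d : ℝ) ≤ (X : ℝ) ^ (1 - θ) ∧ QE M M X d) ∧
    ∀ P : ℕ → Prop, ∀ _ : DecidablePred P,
      (∀ n, P n → X < 2 * n ∧ Even n ∧ (∀ d ∈ D, ¬ d ∣ n) ∧ Bad n) →
      (((Icc 1 X).filter P).card : ℝ) ≤ (X : ℝ) ^ (θ + ε) := by
  intro K
  obtain ⟨X1, hX1⟩ := H K
  obtain ⟨X2, hX2⟩ := MP_log_pow (M + 1) 0 (ε := ε / 2) (by positivity)
  refine ⟨max X1 (max X2 1), fun X hX => ?_⟩
  simp only [max_le_iff] at hX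
  obtain ⟨hXa, hXb, hXc⟩ := hX
  obtain ⟨D, g1, g2, g3⟩ := hX1 X hXa
  have hM2 := hX2 X hXb
  rw [pow_zero, mul_one] at hM2
  have hXR : (1 : ℝ) ≤ X := by exact_mod_cast hXc
  have hX0 : (0 : ℝ) < X := by linarith
  obtain ⟨D1, hD1⟩ : ∃ D1 : Finset ℕ, D1 = D.filter
    (fun d : ℕ => (d : ℝ) ≤ (X : ℝ) ^ (1 - θ)) := ⟨_, rfl⟩
  obtain ⟨D2, hD2⟩ : ∃ D2 : Finset ℕ, D2 = D.filter
    (fun d : ℕ => ¬ (d : ℝ) ≤ (X : ℝ) ^ (1 - θ)) := ⟨_, rfl⟩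
  have hc1 : D1.card ≤ D.card := by
    rw [hD1]
    exact card_filter_le _ _
  have hc2 : D2.card ≤ D.card := by
    rw [hD2]
    exact card_filter_le _ _
  obtain ⟨Ex, hEx⟩ : ∃ Ex : Finset ℕ, Ex = (Icc 1 X).filter
    (fun n => X < 2 * n ∧ Even n ∧ (∀ d ∈ D, ¬ d ∣ n) ∧ Bad n) := ⟨_, rfl⟩
  rw [← hEx] at g3
  refine ⟨D1, hc1.trans g1, fun d hd => ?_, fun P _ hP => ?_⟩
  · rw [hD1, mem_filter] at hd
    exact ⟨(g2 d hd.1).1, hd.2, (g2 d hd.1).2⟩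
  · have hsub : (Icc 1 X).filter P ⊆ Ex ∪
        D2.biUnion (fun d => (Ioc 0 X).filter (fun n => d ∣ n)) := by
      intro n hn
      rw [mem_filter, mem_Icc] at hn
      obtain ⟨⟨n1, n2⟩, hPn⟩ := hn
      obtain ⟨n3, n4, n5, n6⟩ := hP n hPn
      rw [mem_union]
      by_cases hdiv : ∀ d ∈ D, ¬ d ∣ n
      · left
        rw [hEx, mem_filter, mem_Icc]
        exact ⟨⟨n1, n2⟩, n3, n4, hdiv, n6⟩
      · right
        push Not at hdiv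
        obtain ⟨d, hd, hdn⟩ := hdiv
        rw [mem_biUnion]
        refine ⟨d, ?_, ?_⟩
        · rw [hD2, mem_filter]
          refine ⟨hd, fun hle => ?_⟩
          exact n5 d (by rw [hD1, mem_filter]; exact ⟨hd, hle⟩) hdn
        · rw [mem_filter, mem_Ioc]
          exact ⟨⟨by omega, n2⟩, hdn⟩
    have h4 : (((Icc 1 X).filter P).card : ℝ) ≤ Ex.card +
        ∑ d ∈ D2, (((Ioc 0 X).filter (fun n => d ∣ n)).card : ℝ) := by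
      have h5 := (card_le_card hsub).trans ((card_union_le _ _).trans
        (Nat.add_le_add_left card_biUnion_le _))
      exact_mod_cast h5
    have h5 : ∀ d ∈ D2, (((Ioc 0 X).filter (fun n => d ∣ n)).card : ℝ) ≤ (X : ℝ) ^ θ := by
      intro d hd
      rw [hD2, mem_filter, not_le] at hd
      rw [Nat.Ioc_filter_dvd_card_eq_div]
      have h6 : (0 : ℝ) < (X : ℝ) ^ (1 - θ) := by positivity
      have h7 : (0 : ℝ) < d := h6.trans hd.2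
      calc ((X / d : ℕ) : ℝ) ≤ (X : ℝ) / d := Nat.cast_div_le
        _ ≤ (X : ℝ) ^ θ := by
            rw [div_le_iff₀ h7]
            have e1 : (X : ℝ) = (X : ℝ) ^ θ * (X : ℝ) ^ (1 - θ) := by
              rw [← Real.rpow_add hX0]
              rw [show θ + (1 - θ) = 1 by ring, Real.rpow_one]
            have e3 : (0 : ℝ) < (X : ℝ) ^ θ := by positivity
            calc (X : ℝ) = (X : ℝ) ^ θ * (X : ℝ) ^ (1 - θ) := e1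
              _ ≤ (X : ℝ) ^ θ * d := mul_le_mul_of_nonneg_left hd.2.le e3.le
    have h6 := sum_le_card_nsmul D2 _ _ h5
    rw [nsmul_eq_mul] at h6
    have h7 : (X : ℝ) ^ t ≤ (X : ℝ) ^ (θ + ε / 2) :=
      Real.rpow_le_rpow_of_exponent_le hXR ht
    have h8 : (X : ℝ) ^ θ ≤ (X : ℝ) ^ (θ + ε / 2) :=
      Real.rpow_le_rpow_of_exponent_le hXR (by linarith)
    have h9 : (0 : ℝ) < (X : ℝ) ^ (θ + ε / 2) := by positivity
    have h10 : (D2.card : ℝ) ≤ M := by exact_mod_cast hc2.trans g1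
    have h11 : (D2.card : ℝ) * (X : ℝ) ^ θ ≤ M * (X : ℝ) ^ (θ + ε / 2) :=
      mul_le_mul h10 h8 (by positivity) (Nat.cast_nonneg _)
    have h12 : (X : ℝ) ^ (θ + ε) = (X : ℝ) ^ (ε / 2) * (X : ℝ) ^ (θ + ε / 2) := by
      rw [← Real.rpow_add hX0]
      congr 1
      ring
    rw [h12]
    have h13 := mul_le_mul_of_nonneg_right hM2 h9.le
    linarith

/-- Theorem M with boundedly many explicit moduli -/
theorem fin_mq (hG : GrQ) (hT : PfT) : ∀ ε : ℝ, 0 < ε → ∃ M : ℕ, ∀ θ : ℝ,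
    1 / 7 ≤ θ → ∀ K : ℕ, ∃ X0 : ℕ, ∀ X : ℕ, X0 ≤ X → ∃ D : Finset ℕ, D.card ≤ M ∧
      (∀ d ∈ D, (Real.log X) ^ K ≤ (d : ℝ) ∧ (d : ℝ) ≤ (X : ℝ) ^ (1 - θ) ∧ QE M M X d) ∧
      ∀ P : ℕ → Prop, ∀ _ : DecidablePred P,
        (∀ n, P n → X < 2 * n ∧ Even n ∧ (∀ d ∈ D, ¬ d ∣ n) ∧ BadM (1 / 40) 2 n) →
        (((Icc 1 X).filter P).card : ℝ) ≤ (X : ℝ) ^ (θ + ε) := by
  intro ε hε
  obtain ⟨hi, h1, h2, hM⟩ := majSet (fun _ _ _ h => h.adm) (1 / 40) 2 (1 + 9869 / 10000)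
    (by norm_num) (by norm_num) (by norm_num) num1
  obtain ⟨t, ht⟩ : ∃ t : ℝ, t = min (1 / 7 + ε / 2) ((1 / 7 + hi) / 2) := ⟨_, rfl⟩
  have t1 : t ≤ 1 / 7 + ε / 2 := by rw [ht]; exact min_le_left _ _
  have t2 : t < hi := by rw [ht]; exact (min_le_right _ _).trans_lt (by linarith)
  have t3 : 1 / 7 < t := by rw [ht]; exact lt_min (by linarith) (by linarith)
  obtain ⟨M, hS⟩ := sc_mq hG hT decPW hi (1 / 40) 2 hM t t3 t2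
  exact ⟨M, fun θ h3 => fin_q (BadM (1 / 40) 2) M t θ ε hε (by linarith) hS⟩

/-- Theorem L with boundedly many explicit moduli -/
theorem fin_lq (hG : GrQ) (hT : PfT) : ∀ θ ε : ℝ, 1 / 5 ≤ θ → θ < 1 / 3 → 0 < ε → ∃ M : ℕ,
    ∀ K : ℕ, ∃ X0 : ℕ, ∀ X : ℕ, X0 ≤ X → ∃ D : Finset ℕ, D.card ≤ M ∧
      (∀ d ∈ D, (Real.log X) ^ K ≤ (d : ℝ) ∧ (d : ℝ) ≤ (X : ℝ) ^ (1 - θ) ∧ QE M M X d) ∧
      ∀ P : ℕ → Prop, ∀ _ : DecidablePred P,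
        (∀ n, P n → X < 2 * n ∧ Even n ∧ (∀ d ∈ D, ¬ d ∣ n) ∧ BadL 4 θ n) →
        (((Icc 1 X).filter P).card : ℝ) ≤ (X : ℝ) ^ (θ + ε) := by
  classical
  intro θ ε h1 h2 hε
  obtain ⟨t, ht⟩ : ∃ t : ℝ, t = min (θ + ε / 2) ((θ + 1 / 3) / 2) := ⟨_, rfl⟩
  have t1 : t ≤ θ + ε / 2 := by rw [ht]; exact min_le_left _ _
  have t2 : t < 1 / 3 := by rw [ht]; exact (min_le_right _ _).trans_lt (by linarith)
  have t3 : θ < t := by rw [ht]; exact lt_min (by linarith) (by linarith)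
  obtain ⟨M, hS⟩ := sc_lq 4 hG hT decPW numL t (by linarith) t2
  refine ⟨M, fin_q (BadL 4 θ) M t θ ε hε t1 ?_⟩
  intro K
  obtain ⟨X0, hX0⟩ := hS K
  refine ⟨X0, fun X hX => ?_⟩
  obtain ⟨D, d1, d2, d3⟩ := hX0 X hX
  refine ⟨D, d1, d2, le_trans ?_ d3⟩
  refine Nat.cast_le.2 (card_le_card ?_)
  intro n hn
  rw [mem_filter] at hn ⊢
  obtain ⟨n1, n2, n3, n4, n5⟩ := hn
  refine ⟨n1, n2, n3, n4, ?_⟩
  have hSJ := qls_SJ n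
  have e1 : (1 - 3 * t) ^ 3 ≤ (1 - 3 * θ) ^ 3 := by
    apply pow_le_pow_left₀ (by linarith) (by linarith)
  have e2 : 4 * (1 - 3 * t) ^ 3 * (SS n * JJ n) ≤ 4 * (1 - 3 * θ) ^ 3 * (SS n * JJ n) :=
    mul_le_mul_of_nonneg_right (mul_le_mul_of_nonneg_left e1 (by norm_num)) hSJ
  unfold BadL at n5 ⊢
  linarith

open Classical in
/-- exponent 1/7 -/
theorem res_mq (hG : GrQ) : ∀ ε : ℝ, 0 < ε → ∃ M : ℕ, ∀ θ : ℝ, 1 / 7 ≤ θ → θ ≤ 1 → ∀ K : ℕ,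
    ∃ X₀ : ℕ, ∀ X : ℕ, X₀ ≤ X →
      (((Icc 1 X).filter (fun p : ℕ => p.Prime ∧ BadM (1 / 40) 2 (2 * p))).card : ℝ) ≤
        (X : ℝ) ^ (θ + ε) ∧
      ∃ D : Finset ℕ, D.card ≤ M ∧
        (∀ d ∈ D, Real.log X ^ K ≤ (d : ℝ) ∧ (d : ℝ) ≤ (X : ℝ) ^ (1 - θ) ∧ QE M M X d) ∧
        (((Icc 1 X).filter (fun n : ℕ => X < 2 * n ∧ Even n ∧ (∀ d ∈ D, ¬ d ∣ n) ∧
          BadM (1 / 40) 2 n)).card : ℝ) ≤ (X : ℝ) ^ (θ + ε) := by
  intro ε hε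
  obtain ⟨M, hM⟩ := fin_mq hG pfT ε hε
  obtain ⟨C, hC⟩ := Pool.MP_dd84fd_nt.MX.fin_m
  refine ⟨M, fun θ h1 h2 K => ?_⟩
  obtain ⟨X1, hX1⟩ := Pool.MP_dd84fd_nt.XP.two_p (P := BadM (1 / 40) 2) (θ := θ) (ε := ε)
    h1 hε (by
      obtain ⟨Y, hY⟩ := hC θ (ε / 2) h1 h2 (by linarith) 1
      refine ⟨Y, fun X hX => ?_⟩
      obtain ⟨D, d1, d2, d3⟩ := hY X hX
      exact ⟨D, fun d hd => (d2 d hd).1, d3 _ _ fun n hn => hn⟩)
  obtain ⟨X0, hX0⟩ := hM θ h1 K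
  refine ⟨max X0 X1, fun X hX => ⟨hX1 X (le_trans (le_max_right _ _) hX), ?_⟩⟩
  obtain ⟨D, d1, d2, d3⟩ := hX0 X (le_trans (le_max_left _ _) hX)
  exact ⟨D, d1, d2, d3 _ _ fun n hn => hn⟩

open Classical in
/-- exponent 1/5 -/
theorem res_lq (hG : GrQ) : ∀ θ ε : ℝ, 1 / 5 ≤ θ → θ < 1 / 3 → 0 < ε → ∃ M : ℕ, ∀ K : ℕ,
    ∃ X₀ : ℕ, ∀ X : ℕ, X₀ ≤ X →
      (((Icc 1 X).filter (fun p : ℕ => p.Prime ∧ BadL 4 θ (2 * p))).card : ℝ) ≤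
        (X : ℝ) ^ (θ + ε) ∧
      ∃ D : Finset ℕ, D.card ≤ M ∧
        (∀ d ∈ D, Real.log X ^ K ≤ (d : ℝ) ∧ (d : ℝ) ≤ (X : ℝ) ^ (1 - θ) ∧ QE M M X d) ∧
        (((Icc 1 X).filter (fun n : ℕ => X < 2 * n ∧ Even n ∧ (∀ d ∈ D, ¬ d ∣ n) ∧
          BadL 4 θ n)).card : ℝ) ≤ (X : ℝ) ^ (θ + ε) := by
  intro θ ε h1 h2 hε
  obtain ⟨M, hM⟩ := fin_lq hG pfT θ ε h1 h2 hε
  obtain ⟨C, hC⟩ := Pool.MP_dd84fd_nt.LX.fin_l
  refine ⟨M, fun K => ?_⟩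
  obtain ⟨X1, hX1⟩ := Pool.MP_dd84fd_nt.XP.two_p (P := BadL 4 θ) (θ := θ) (ε := ε)
    (by linarith) hε (by
      obtain ⟨Y, hY⟩ := hC θ (ε / 2) h1 h2 (by linarith) 1
      refine ⟨Y, fun X hX => ?_⟩
      obtain ⟨D, d1, d2, d3⟩ := hY X hX
      exact ⟨D, fun d hd => (d2 d hd).1, d3 _ _ fun n hn => hn⟩)
  obtain ⟨X0, hX0⟩ := hM K
  refine ⟨max X0 X1, fun X hX => ⟨hX1 X (le_trans (le_max_right _ _) hX), ?_⟩⟩
  obtain ⟨D, d1, d2, d3⟩ := hX0 X (le_trans (le_max_left _ _) hX)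
  exact ⟨D, d1, d2, d3 _ _ fun n hn => hn⟩

end Pool.MP_dd84fd_nt.QZ
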