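import Pool.Agent.Lib.MP_dd84fd_nt.BX.Main
import Pool.Agent.Lib.MP_dd84fd_nt.BY.Main
import Pool.Agent.Lib.MP_dd84fd_nt.QZ.QGrB
import Pool.Agent.Lib.MP_dd84fd_nt.QZ.QGenB
import Pool.Agent.Lib.MP_dd84fd_nt.QZ.QFinB
import Pool.Agent.Lib.MP_dd84fd_nt.QZ.QGrY
import Pool.Agent.Lib.MP_dd84fd_nt.QZ.QRes

/-!
# QZ-QMain: the assembled statements
-/

set_option autoImplicit false

namespace Pool.MP_dd84fd_nt.QZ

open Pool.MP_dd84fd_nt.BX (arcBD_of_light lightBD gauBD parBD slBD_all hvBD)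
open Pool.MP_dd84fd_nt.BY (arcBY arcNar meanY modY smlY famY slA slR sqY hvY prY)

theorem greedyQ_all : GreedyQ :=
  greedyQ (arcBD_of_light lightBD) gauBD parBD slBD_all hvBD

theorem finQ_all : FinQ :=
  fin_bq (gen_q Pool.MP_dd84fd_nt.JX.strWJ Pool.MP_dd84fd_nt.JX.tree_all
    Pool.MP_dd84fd_nt.JXP.pl_j Pool.MP_dd84fd_nt.JX.decP greedyQ_all
    Pool.MP_dd84fd_nt.IX.centre_i)

theorem grQ : GrQ :=
  grQ_of (arcBY (arcNar meanY modY (smlY modY) DX.lightE)) famY slA (slR BX.l1P) sqY hvY prY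
    gauBD parBD

end Pool.MP_dd84fd_nt.QZ
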