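import Pool.Agent.Lib.MP_dd84fd_nt.QZ.Defs

/-!
# QZ-Rho: number of rough integers in intervals.  Prefix aux lemmas `rho_`.

PROOF. rho_le: `rho z ≤ rho z' ≤ Sv 1 z'` for `z' = min z (H^(1/16))` (Sv 1: level `z'^8`), `sum_Sv`: `≤ CB H/log z' + z'^8`,
`log z' ≥ log z / 128`, `z'^8 ≤ H^(1/2) ≤ C H / log z` (H ≥ z^(1/8)); also monotonicity `rho z ≤ rho z'` for `z' ≤ z`.
rho_inv: rough `n ≥ 2` are `≥ z`; dyadic blocks `(D, 2D]`, `D ≥ z/2`: `∑ rho/n ≤ (1/D) C D/log z`; number of blocks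
`≤ 2 + log(B/A)/log 2`; and `log z ≥ 1`.  (n > A ≥ 1, so n = 1 does not occur.)
rho_exp: split `x/n ∈ [z^k, z^(k+1))`: each block `≤ C (1+1) e^(-ck)`; n = 1 contributes `≤ 1`.
-/

set_option autoImplicit false

namespace Pool.MP_dd84fd_nt.QZ

open Finset
open Pool.MP_dd84fd_nt.En (Rough rho)

private theorem rho_nn (z : ℝ) (n : ℕ) : 0 ≤ rho z n := by
  unfold rho
  split_ifs <;> norm_num

private theorem rho_le_one (z : ℝ) (n : ℕ) : rho z n ≤ 1 := by
  unfold rho
  split_ifs <;> norm_num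

private theorem rho_small {z : ℝ} {n : ℕ} (hn : 2 ≤ n) (h : (n : ℝ) < z) : rho z n = 0 := by
  unfold rho
  rw [if_neg]
  intro hr
  have h1 := hr n.minFac (Nat.minFac_prime (by omega)) (Nat.minFac_dvd n)
  have h2 : n.minFac ≤ n := Nat.minFac_le (by omega)
  have h3 : (n.minFac : ℝ) ≤ (n : ℝ) := by exact_mod_cast h2
  linarith

private theorem rho_Sv {z z' : ℝ} (h1 : 1 ≤ z') (hz : z' ≤ z) (n : ℕ) : rho z n ≤ BX.Sv 1 z' n := by
  by_cases h : Rough z n
  · have h2 : Rough z' n := fun p hp hpn => hz.trans (h p hp hpn)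
    rw [BX.Sv_rough 1 h1 h2]
    exact rho_le_one z n
  · unfold rho
    rw [if_neg h]
    exact BX.Sv_nonneg 1 z' n

/-- rough numbers in an interval of length at most `H`, `H ≥ z^(1/8)` -/
theorem rho_le : ∃ C z0 : ℝ, 0 < C ∧ 2 ≤ z0 ∧ ∀ z : ℝ, z0 ≤ z → ∀ (u v : ℕ) (H : ℝ), u ≤ v →
    (v : ℝ) - u ≤ H → z ^ (1 / 8 : ℝ) ≤ H → ∑ n ∈ Ioc u v, rho z n ≤ C * (H / Real.log z) := by
  refine ⟨128 * BX.CB + 16, 2 ^ 128, by have := BX.CB_pos; positivity, by norm_num, ?_⟩
  intro z hz u v H huv hH hzH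
  have hz1 : (1 : ℝ) < z := lt_of_lt_of_le (by norm_num) hz
  have hz0 : 0 < z := by linarith
  have hL : 0 < Real.log z := Real.log_pos hz1
  set w : ℝ := z ^ (1 / 128 : ℝ) with hw
  have hw2 : 2 ≤ w := by
    have h1 : ((2 : ℝ) ^ (128 : ℕ)) ^ (1 / 128 : ℝ) = 2 := by
      rw [← Real.rpow_natCast, ← Real.rpow_mul (by norm_num)]
      norm_num
    rw [← h1]
    exact Real.rpow_le_rpow (by positivity) hz (by norm_num)
  have hwz : w ≤ z := by
    calc w ≤ z ^ (1 : ℝ) := Real.rpow_le_rpow_of_exponent_le hz1.le (by norm_num)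
      _ = z := Real.rpow_one z
  have hlw : Real.log w = Real.log z / 128 := by
    rw [hw, Real.log_rpow hz0]
    ring
  have hw8 : w ^ (4 * 1 + 4) = z ^ (1 / 16 : ℝ) := by
    rw [hw, ← Real.rpow_natCast, ← Real.rpow_mul hz0.le]
    norm_num
  have h1 : ∑ n ∈ Ioc u v, rho z n ≤ ∑ n ∈ Ioc u v, BX.Sv 1 w n :=
    sum_le_sum fun n _ => rho_Sv (by linarith) hwz n
  refine h1.trans ((BX.sum_Sv 1 hw2 u v huv).trans ?_)
  rw [hw8, hlw]
  have h2 : Real.log z ≤ 16 * z ^ (1 / 16 : ℝ) := by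
    have := Real.log_le_rpow_div hz0.le (by norm_num : (0 : ℝ) < 1 / 16)
    linarith
  have h3 : z ^ (1 / 16 : ℝ) ≤ 16 * (H / Real.log z) := by
    rw [mul_div_assoc', le_div_iff₀ hL]
    calc z ^ (1 / 16 : ℝ) * Real.log z ≤ z ^ (1 / 16 : ℝ) * (16 * z ^ (1 / 16 : ℝ)) :=
          mul_le_mul_of_nonneg_left h2 (by positivity)
      _ = 16 * z ^ (1 / 8 : ℝ) := by
          rw [show (1 / 8 : ℝ) = 1 / 16 + 1 / 16 by norm_num, Real.rpow_add hz0]
          ring
      _ ≤ 16 * H := by linarith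
  have h4 : BX.CB * ((v : ℝ) - u) / (Real.log z / 128) ≤ 128 * BX.CB * (H / Real.log z) := by
    rw [div_div_eq_mul_div, mul_div_assoc', div_le_div_iff_of_pos_right hL]
    nlinarith [BX.CB_pos]
  calc _ ≤ 128 * BX.CB * (H / Real.log z) + 16 * (H / Real.log z) := add_le_add h4 h3
    _ = _ := by ring

private theorem rho_blk {C z : ℝ} (hC : 0 < C) (hz : Real.exp 1 ≤ z)
    (h : ∀ (u v : ℕ) (H : ℝ), u ≤ v → (v : ℝ) - u ≤ H → z ^ (1 / 8 : ℝ) ≤ H →
      ∑ n ∈ Ioc u v, rho z n ≤ C * (H / Real.log z)) {A : ℝ} (hA : 1 ≤ A) :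
    ∑ n ∈ Ioc ⌊A⌋₊ ⌊2 * A⌋₊, rho z n / n ≤ 2 * C / Real.log z := by
  have hz2 : 2 < z := by
    have := Real.add_one_lt_exp (by norm_num : (1 : ℝ) ≠ 0)
    linarith
  have hL : 0 < Real.log z := Real.log_pos (by linarith)
  have hA0 : 0 < A := by linarith
  rcases lt_or_ge (2 * A) z with hs | hb
  · rw [sum_eq_zero]
    · positivity
    · intro n hn
      rw [mem_Ioc] at hn
      have h1 : 1 ≤ ⌊A⌋₊ := Nat.le_floor (by exact_mod_cast hA)
      have h2 : (n : ℝ) ≤ 2 * A := (Nat.le_floor_iff (by positivity)).1 hn.2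
      rw [rho_small (by omega) (by linarith), zero_div]
  · have hfl : ⌊A⌋₊ ≤ ⌊2 * A⌋₊ := Nat.floor_le_floor (by linarith)
    have h1 : (⌊2 * A⌋₊ : ℝ) ≤ 2 * A := Nat.floor_le (by positivity)
    have h2 : A < (⌊A⌋₊ : ℝ) + 1 := Nat.lt_floor_add_one A
    have h3 : (⌊2 * A⌋₊ : ℝ) - ⌊A⌋₊ ≤ 2 * A := by
      have : (0 : ℝ) ≤ ⌊A⌋₊ := Nat.cast_nonneg _
      linarith
    have h4 : z ^ (1 / 8 : ℝ) ≤ 2 * A := by
      calc z ^ (1 / 8 : ℝ) ≤ z ^ (1 : ℝ) :=
            Real.rpow_le_rpow_of_exponent_le (by linarith) (by norm_num)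
        _ = z := Real.rpow_one z
        _ ≤ 2 * A := hb
    have h5 := h _ _ _ hfl h3 h4
    calc ∑ n ∈ Ioc ⌊A⌋₊ ⌊2 * A⌋₊, rho z n / n
        ≤ ∑ n ∈ Ioc ⌊A⌋₊ ⌊2 * A⌋₊, rho z n * (1 / A) := by
          refine sum_le_sum fun n hn => ?_
          rw [mem_Ioc] at hn
          have h6 : A < n := by
            have : ((⌊A⌋₊ + 1 : ℕ) : ℝ) ≤ n := by exact_mod_cast hn.1
            push_cast at this
            linarith
          rw [div_eq_mul_one_div]
          exact mul_le_mul_of_nonneg_left (one_div_le_one_div_of_le hA0 h6.le) (rho_nn z n)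
      _ = (∑ n ∈ Ioc ⌊A⌋₊ ⌊2 * A⌋₊, rho z n) * (1 / A) := by rw [sum_mul]
      _ ≤ (C * (2 * A / Real.log z)) * (1 / A) := mul_le_mul_of_nonneg_right h5 (by positivity)
      _ = 2 * C / Real.log z := by
          field_simp

private theorem rho_dy {C z : ℝ} (hC : 0 < C) (hz : Real.exp 1 ≤ z)
    (h : ∀ (u v : ℕ) (H : ℝ), u ≤ v → (v : ℝ) - u ≤ H → z ^ (1 / 8 : ℝ) ≤ H →
      ∑ n ∈ Ioc u v, rho z n ≤ C * (H / Real.log z)) (J : ℕ) : ∀ A : ℝ, 1 ≤ A →
    ∑ n ∈ Ioc ⌊A⌋₊ ⌊2 ^ J * A⌋₊, rho z n / n ≤ J * (2 * C / Real.log z) := by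
  induction J with
  | zero =>
    intro A hA
    rw [pow_zero, one_mul, Ioc_self, sum_empty, Nat.cast_zero, zero_mul]
  | succ J ih =>
    intro A hA
    have h1 := rho_blk hC hz h hA
    have h2 := ih (2 * A) (by linarith)
    have h3 : (2 : ℝ) ^ J * (2 * A) = 2 ^ (J + 1) * A := by ring
    rw [h3] at h2
    have hp : (1 : ℝ) ≤ 2 ^ J := one_le_pow₀ (by norm_num)
    have h4 : ⌊A⌋₊ ≤ ⌊2 * A⌋₊ := Nat.floor_le_floor (by linarith)
    have h5 : ⌊2 * A⌋₊ ≤ ⌊2 ^ (J + 1) * A⌋₊ := by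
      refine Nat.floor_le_floor ?_
      rw [← h3]
      nlinarith
    have h6 : ∑ n ∈ Ioc ⌊A⌋₊ ⌊2 ^ (J + 1) * A⌋₊, rho z n / n =
        ∑ n ∈ Ioc ⌊A⌋₊ ⌊2 * A⌋₊, rho z n / n +
        ∑ n ∈ Ioc ⌊2 * A⌋₊ ⌊2 ^ (J + 1) * A⌋₊, rho z n / n := by
      rw [← sum_union]
      · rw [Ioc_union_Ioc_eq_Ioc h4 h5]
      · rw [disjoint_left]
        intro n hn hn'
        rw [mem_Ioc] at hn hn'
        omega
    rw [h6]
    push_cast
    linarith

/-- reciprocals of rough numbers -/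
theorem rho_inv : ∃ C z0 : ℝ, 0 < C ∧ 2 ≤ z0 ∧ ∀ z : ℝ, z0 ≤ z → ∀ A B : ℝ, 1 ≤ A → A ≤ B →
    ∑ n ∈ Ioc ⌊A⌋₊ ⌊B⌋₊, rho z n / n ≤ C * (1 + Real.log (B / A) / Real.log z) := by
  obtain ⟨C, z0, hC, hz0, h⟩ := rho_le
  refine ⟨4 * C, max z0 (Real.exp 1), by positivity, hz0.trans (le_max_left _ _), ?_⟩
  intro z hz A B hA hAB
  have hze : Real.exp 1 ≤ z := (le_max_right _ _).trans hz
  have hL : 1 ≤ Real.log z := by
    rw [← Real.log_exp 1]
    exact Real.log_le_log (Real.exp_pos 1) hze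
  have hA0 : 0 < A := by linarith
  have hBA : 1 ≤ B / A := (one_le_div hA0).2 hAB
  have hlBA : 0 ≤ Real.log (B / A) := Real.log_nonneg hBA
  have hl2 : 0 < Real.log 2 := Real.log_pos (by norm_num)
  set J : ℕ := ⌈Real.log (B / A) / Real.log 2⌉₊ with hJ
  have hJ1 : Real.log (B / A) / Real.log 2 ≤ J := Nat.le_ceil _
  have hJ2 : (J : ℝ) < Real.log (B / A) / Real.log 2 + 1 := Nat.ceil_lt_add_one (by positivity)
  have h1 : B ≤ 2 ^ J * A := by
    rw [← div_le_iff₀ hA0]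
    have h2 : Real.log (B / A) ≤ Real.log ((2 : ℝ) ^ J) := by
      rw [Real.log_pow]
      rwa [div_le_iff₀ hl2] at hJ1
    exact (Real.log_le_log_iff (by linarith) (by positivity)).1 h2
  have h2 := rho_dy hC hze (h z ((le_max_left _ _).trans hz)) J A hA
  have h3 : ∑ n ∈ Ioc ⌊A⌋₊ ⌊B⌋₊, rho z n / n ≤ ∑ n ∈ Ioc ⌊A⌋₊ ⌊2 ^ J * A⌋₊, rho z n / n := by
    refine sum_le_sum_of_subset_of_nonneg
      (Ioc_subset_Ioc_right (Nat.floor_le_floor h1)) fun n _ _ => ?_
    exact div_nonneg (rho_nn z n) (Nat.cast_nonneg n)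
  refine h3.trans (h2.trans ?_)
  have hl2' : (1 / 2 : ℝ) < Real.log 2 := by linarith [Real.log_two_gt_d9]
  have h4 : Real.log (B / A) / Real.log 2 ≤ 2 * Real.log (B / A) := by
    rw [div_le_iff₀ hl2]
    nlinarith
  have h5 : (J : ℝ) ≤ 2 * Real.log (B / A) + 1 := by linarith
  have hL0 : 0 < Real.log z := by linarith
  calc (J : ℝ) * (2 * C / Real.log z) ≤ (2 * Real.log (B / A) + 1) * (2 * C / Real.log z) :=
        mul_le_mul_of_nonneg_right h5 (by positivity)
    _ = 4 * C * (Real.log (B / A) / Real.log z) + 2 * C * (1 / Real.log z) := by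
        field_simp
        ring
    _ ≤ 4 * C * (Real.log (B / A) / Real.log z) + 2 * C * 1 := by
        have : 1 / Real.log z ≤ 1 := (div_le_one hL0).2 hL
        have h7 := mul_le_mul_of_nonneg_left this (by positivity : (0 : ℝ) ≤ 2 * C)
        linarith
    _ ≤ 4 * C * (1 + Real.log (B / A) / Real.log z) := by
        nlinarith

/-- weighted reciprocals: the factor `e^(-c log(x/n)/log z)` makes the sum bounded -/
theorem rho_exp (c : ℝ) (hc : 0 < c) : ∃ C z0 : ℝ, 0 < C ∧ 2 ≤ z0 ∧ ∀ z : ℝ, z0 ≤ z →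
    ∀ x : ℝ, 1 ≤ x →
    ∑ n ∈ Icc 1 ⌊x⌋₊, rho z n / n * Real.exp (-(c * (Real.log (x / n) / Real.log z))) ≤ C := by
  obtain ⟨C, z0, hC, hz0, h⟩ := rho_inv
  have he : Real.exp (-c) < 1 := by
    rw [Real.exp_lt_one_iff]
    linarith
  have he1 : 0 < 1 - Real.exp (-c) := by linarith
  set K : ℝ := (1 + 2 * C) / (1 - Real.exp (-c)) with hK
  have hK0 : 0 < K := by positivity
  have hKe : Real.exp (-c) * K + (1 + 2 * C) = K := by
    rw [hK]
    field_simp
    ring
  refine ⟨K, z0, hK0, hz0, ?_⟩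
  intro z hz
  have hz1 : 1 < z := by linarith
  have hzp : 0 < z := by linarith
  have hL : 0 < Real.log z := Real.log_pos hz1
  have hw : ∀ (x : ℝ) (n : ℕ), 1 ≤ n → n ≤ ⌊x⌋₊ → 0 ≤ x →
      Real.exp (-(c * (Real.log (x / n) / Real.log z))) ≤ 1 := by
    intro x n hn hnx hx
    rw [Real.exp_le_one_iff, neg_nonpos]
    have h1 : (n : ℝ) ≤ x := (Nat.le_floor_iff hx).1 hnx
    have h2 : (0 : ℝ) < n := by exact_mod_cast hn
    have h3 : 0 ≤ Real.log (x / n) := Real.log_nonneg ((one_le_div h2).2 h1)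
    positivity
  have key : ∀ m : ℕ, ∀ x : ℝ, 1 ≤ x → x < z ^ m →
      ∑ n ∈ Icc 1 ⌊x⌋₊, rho z n / n * Real.exp (-(c * (Real.log (x / n) / Real.log z))) ≤ K := by
    intro m
    induction m with
    | zero =>
      intro x hx hxz
      rw [pow_zero] at hxz
      linarith
    | succ m ih =>
      intro x hx hxz
      rcases lt_or_ge x z with hs | hb
      · -- only n = 1
        have h1 : ∑ n ∈ Icc 1 ⌊x⌋₊,
            rho z n / n * Real.exp (-(c * (Real.log (x / n) / Real.log z))) ≤ 1 := by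
          have h1x : 1 ∈ Icc 1 ⌊x⌋₊ := by
            rw [mem_Icc]
            exact ⟨le_refl 1, Nat.le_floor (by exact_mod_cast hx)⟩
          rw [sum_eq_single_of_mem 1 h1x]
          · have h2 := hw x 1 (le_refl 1) (mem_Icc.1 h1x).2 (by linarith)
            have h3 := rho_le_one z 1
            have h4 := rho_nn z 1
            rw [Nat.cast_one, div_one]
            rw [Nat.cast_one] at h2
            calc _ ≤ 1 * (1 : ℝ) := mul_le_mul h3 h2 (Real.exp_pos _).le zero_le_one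
              _ = 1 := one_mul 1
          · intro n hn hn1
            rw [mem_Icc] at hn
            have h5 : (n : ℝ) ≤ x := (Nat.le_floor_iff (by linarith)).1 hn.2
            rw [rho_small (by omega) (by linarith), zero_div, zero_mul]
        refine h1.trans ?_
        have h6 : 0 ≤ Real.exp (-c) * K := by positivity
        linarith
      · have hxz0 : 1 ≤ x / z := (one_le_div hzp).2 hb
        have hxzm : x / z < z ^ m := by
          rw [div_lt_iff₀ hzp]
          calc x < z ^ (m + 1) := hxz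
            _ = z ^ m * z := pow_succ z m
        have h1 := ih (x / z) hxz0 hxzm
        have hfl : ⌊x / z⌋₊ ≤ ⌊x⌋₊ := Nat.floor_le_floor (div_le_self (by linarith) hz1.le)
        have hsplit : ∑ n ∈ Icc 1 ⌊x⌋₊,
            rho z n / n * Real.exp (-(c * (Real.log (x / n) / Real.log z))) =
            ∑ n ∈ Icc 1 ⌊x / z⌋₊,
              rho z n / n * Real.exp (-(c * (Real.log (x / n) / Real.log z))) +
            ∑ n ∈ Ioc ⌊x / z⌋₊ ⌊x⌋₊,
              rho z n / n * Real.exp (-(c * (Real.log (x / n) / Real.log z))) := by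
          rw [← sum_union]
          · congr 1
            ext n
            rw [mem_union, mem_Icc, mem_Icc, mem_Ioc]
            constructor
            · intro hn
              by_cases h2 : n ≤ ⌊x / z⌋₊
              · exact Or.inl ⟨hn.1, h2⟩
              · exact Or.inr ⟨by omega, hn.2⟩
            · rintro (hn | hn)
              · exact ⟨hn.1, hn.2.trans hfl⟩
              · exact ⟨by omega, hn.2⟩
          · rw [disjoint_left]
            intro n hn hn'
            rw [mem_Icc] at hn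
            rw [mem_Ioc] at hn'
            omega
        have h2 : ∑ n ∈ Icc 1 ⌊x / z⌋₊,
              rho z n / n * Real.exp (-(c * (Real.log (x / n) / Real.log z))) =
            Real.exp (-c) * ∑ n ∈ Icc 1 ⌊x / z⌋₊,
              rho z n / n * Real.exp (-(c * (Real.log (x / z / n) / Real.log z))) := by
          rw [mul_sum]
          refine sum_congr rfl fun n hn => ?_
          rw [mem_Icc] at hn
          have hn0 : (0 : ℝ) < n := by exact_mod_cast hn.1
          have h3 : Real.log (x / n) = Real.log (x / z / n) + Real.log z := by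
            rw [← Real.log_mul (by positivity) (by positivity)]
            congr 1
            field_simp
          rw [h3, add_div, div_self hL.ne', mul_add, mul_one, neg_add, Real.exp_add]
          ring
        have h3 : ∑ n ∈ Ioc ⌊x / z⌋₊ ⌊x⌋₊,
              rho z n / n * Real.exp (-(c * (Real.log (x / n) / Real.log z))) ≤ 2 * C := by
          calc _ ≤ ∑ n ∈ Ioc ⌊x / z⌋₊ ⌊x⌋₊, rho z n / n := by
                refine sum_le_sum fun n hn => ?_
                rw [mem_Ioc] at hn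
                exact mul_le_of_le_one_right (div_nonneg (rho_nn z n) (Nat.cast_nonneg n))
                  (hw x n (by omega) hn.2 (by linarith))
            _ ≤ C * (1 + Real.log (x / (x / z)) / Real.log z) :=
                h z hz (x / z) x hxz0 (div_le_self (by linarith) hz1.le)
            _ = 2 * C := by
                have h4 : x / (x / z) = z := by
                  field_simp
                rw [h4, div_self hL.ne']
                ring
        rw [hsplit, h2]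
        have h4 := mul_le_mul_of_nonneg_left h1 (Real.exp_pos (-c)).le
        linarith
  intro x hx
  obtain ⟨m, hm⟩ := pow_unbounded_of_one_lt x hz1
  exact key m x hx hm

end Pool.MP_dd84fd_nt.QZ
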