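import Pool.Agent.Lib.MP_dd84fd_nt.QZ.FlB
import Pool.Agent.Lib.MP_dd84fd_nt.QZ.Rho

/-!
# QZ-SelA: Selberg weights twisted by `f` in intervals.  Prefix aux lemmas `sela_`.

lam2_eq: `Λ * ζ = log` (Mathlib `vonMangoldt_mul_zeta`), `log` is a derivation: `log² = log·(Λ*ζ) = (log·Λ)*ζ + Λ*(log) = (log·Λ + Λ*Λ)*ζ`,
multiply by `μ`.
m2. Put `l = log z`, `g = rho z f` (completely multiplicative: `Rough z (ab) ↔ Rough z a ∧ Rough z b` for a,b ≥ 1).
`S = ∑_{u<n≤v} g(n) lam2(n) = ∑_{ab = n} μ(a) g(a) g(b) log² b`.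
(i) `a ≤ v/z^66`: `b ∈ (u/a, v/a]` (Nat division), length `≤ H/a + 1 ≤ 2H/a =: H'`, `H' ≥ 2 v z^(-1/8)/a ≥ z^64`.  Abel summation with
the increasing `log²`: `|∑_b g(b) log² b| ≤ 2 log²(v/a) max_{sub} |∑ g| ≤ 2 log²(v/a) C (H'/l) e^(-c log H'/l)` (FL holds for every
subinterval with the same H').  `log(v/a) ≤ log H' + l/8 ≤ 2 log H'`; `s = log H'/l ≥ 64`, `s² e^(-cs) ≤ C e^(-cs/2)`, and
`H' ≥ (v/a) z^(-1/8)`: total `≤ C H l ∑_a rho(a)/a e^(-(c/2) log(v/a)/l) ≤ C H l` (rho_exp).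
(ii) `a > v/z^66`: then `b < z^66`; swap: `∑_{1<b<z^66} rho(b) log² b ∑_{a ∈ (u/b, v/b]} rho(a) ≤ (66 l)² ∑_b rho(b) C (2H/b)/l` (rho_le with
`2H/b ≥ z^(1/8)`), and `∑_{1<b≤z^66} rho(b)/b ≤ C` (rho_inv).
-/

set_option autoImplicit false

namespace Pool.MP_dd84fd_nt.QZ

open Finset
open Pool.MP_dd84fd_nt.En (Rough rho)

private theorem sela_der (f g : ArithmeticFunction ℝ) :
    ArithmeticFunction.log.pmul (f * g) = ArithmeticFunction.log.pmul f * g +
      f * ArithmeticFunction.log.pmul g := by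
  ext n
  simp only [ArithmeticFunction.pmul_apply, ArithmeticFunction.mul_apply,
    ArithmeticFunction.add_apply, ArithmeticFunction.log_apply]
  rw [mul_sum, ← sum_add_distrib]
  refine sum_congr rfl fun a ha => ?_
  obtain ⟨h1, h2⟩ := Nat.mem_divisorsAntidiagonal.1 ha
  have ha1 : a.1 ≠ 0 := fun h => h2 (by rw [← h1, h, zero_mul])
  have ha2 : a.2 ≠ 0 := fun h => h2 (by rw [← h1, h, mul_zero])
  rw [← h1, Nat.cast_mul, Real.log_mul (Nat.cast_ne_zero.2 ha1) (Nat.cast_ne_zero.2 ha2)]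
  ring

private theorem sela_id : (ArithmeticFunction.moebius : ArithmeticFunction ℝ) *
    ArithmeticFunction.log.pmul ArithmeticFunction.log =
    ArithmeticFunction.log.pmul ArithmeticFunction.vonMangoldt +
      ArithmeticFunction.vonMangoldt * ArithmeticFunction.vonMangoldt := by
  have h1 : ArithmeticFunction.log.pmul ArithmeticFunction.log =
      (ArithmeticFunction.log.pmul ArithmeticFunction.vonMangoldt +
      ArithmeticFunction.vonMangoldt * ArithmeticFunction.vonMangoldt) *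
        (ArithmeticFunction.zeta : ArithmeticFunction ℝ) := by
    have h2 := sela_der ArithmeticFunction.vonMangoldt (ArithmeticFunction.zeta :
      ArithmeticFunction ℝ)
    rw [ArithmeticFunction.vonMangoldt_mul_zeta] at h2
    have h3 : ArithmeticFunction.log.pmul (ArithmeticFunction.zeta : ArithmeticFunction ℝ) =
        ArithmeticFunction.vonMangoldt * (ArithmeticFunction.zeta : ArithmeticFunction ℝ) := by
      rw [ArithmeticFunction.vonMangoldt_mul_zeta]
      exact ArithmeticFunction.pmul_zeta _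
    rw [h2, h3, add_mul, mul_assoc]
  rw [h1, mul_comm _ (ArithmeticFunction.zeta : ArithmeticFunction ℝ), ← mul_assoc,
    ArithmeticFunction.coe_moebius_mul_coe_zeta, one_mul]

/-- `Λ log + Λ * Λ = μ * log²` -/
theorem lam2_eq (n : ℕ) : lam2 n = ∑ a ∈ n.divisorsAntidiagonal,
    (ArithmeticFunction.moebius a.1 : ℝ) * (Real.log a.2) ^ 2 := by
  have h := congrArg (fun F : ArithmeticFunction ℝ => F n) sela_id
  simp only [ArithmeticFunction.pmul_apply, ArithmeticFunction.mul_apply,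
    ArithmeticFunction.add_apply, ArithmeticFunction.log_apply] at h
  unfold lam2
  rw [mul_comm (ArithmeticFunction.vonMangoldt n) (Real.log n), ← h]
  refine sum_congr rfl fun a _ => ?_
  rw [sq]
  rfl

private theorem sela_swap (F : ℕ → ℕ → ℂ) (u v : ℕ) :
    ∑ n ∈ Ioc u v, ∑ a ∈ n.divisorsAntidiagonal, F a.1 a.2 =
      ∑ a ∈ Icc 1 v, ∑ b ∈ Ioc (u / a) (v / a), F a b := by
  rw [sum_sigma', sum_sigma']
  refine sum_nbij' (fun x => ⟨x.2.1, x.2.2⟩) (fun y => ⟨y.1 * y.2, (y.1, y.2)⟩) ?_ ?_ ?_ ?_ ?_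
  · rintro ⟨n, a, b⟩ h
    simp only [mem_sigma, mem_Ioc, Nat.mem_divisorsAntidiagonal, mem_Icc] at h ⊢
    obtain ⟨⟨h1, h2⟩, h3, h4⟩ := h
    have ha : 0 < a := Nat.pos_of_ne_zero fun h => h4 (by rw [← h3, h, zero_mul])
    have hb : 0 < b := Nat.pos_of_ne_zero fun h => h4 (by rw [← h3, h, mul_zero])
    refine ⟨⟨ha, ?_⟩, ?_, ?_⟩
    · calc a ≤ a * b := Nat.le_mul_of_pos_right a hb
        _ = n := h3
        _ ≤ v := h2
    · rw [Nat.div_lt_iff_lt_mul ha, mul_comm, h3]; exact h1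
    · rw [Nat.le_div_iff_mul_le ha, mul_comm, h3]; exact h2
  · rintro ⟨a, b⟩ h
    simp only [mem_sigma, mem_Ioc, Nat.mem_divisorsAntidiagonal, mem_Icc] at h ⊢
    obtain ⟨⟨ha, h2⟩, h3, h4⟩ := h
    rw [Nat.div_lt_iff_lt_mul ha, mul_comm] at h3
    rw [Nat.le_div_iff_mul_le ha, mul_comm] at h4
    refine ⟨⟨h3, h4⟩, trivial, by omega⟩
  · rintro ⟨n, a, b⟩ h
    simp only [mem_sigma, mem_Ioc, Nat.mem_divisorsAntidiagonal] at h
    obtain ⟨_, h3, _⟩ := h
    subst h3
    rfl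
  · rintro ⟨a, b⟩ h
    rfl
  · rintro ⟨n, a, b⟩ h
    rfl

private theorem sela_rho_mul (z : ℝ) (a b : ℕ) : rho z (a * b) = rho z a * rho z b := by
  have h : Rough z (a * b) ↔ Rough z a ∧ Rough z b := by
    unfold Rough
    constructor
    · intro h
      exact ⟨fun p hp hd => h p hp (hd.mul_right b), fun p hp hd => h p hp (hd.mul_left a)⟩
    · rintro ⟨h1, h2⟩ p hp hd
      rcases (Nat.Prime.dvd_mul hp).1 hd with h | h
      · exact h1 p hp h
      · exact h2 p hp h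
  unfold rho
  by_cases h1 : Rough z a <;> by_cases h2 : Rough z b <;> simp [h, h1, h2]

private theorem sela_rho_nonneg (z : ℝ) (n : ℕ) : 0 ≤ rho z n := by
  unfold rho; split_ifs <;> norm_num

private theorem sela_rho_le (z : ℝ) (n : ℕ) : rho z n ≤ 1 := by
  unfold rho; split_ifs <;> norm_num

private theorem sela_abel (g : ℕ → ℂ) (w : ℕ → ℝ) (hw : Monotone w) (h0 : ∀ n, 0 ≤ w n) (M : ℝ)
    (m k : ℕ) (hM : ∀ j : ℕ, j ≤ k → ‖∑ b ∈ Ioc m (m + j), g b‖ ≤ M) :
    ‖∑ b ∈ Ioc m (m + k), ((w b : ℝ) : ℂ) * g b‖ ≤ 2 * w (m + k) * M := by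
  have key : ∀ k : ℕ, ∑ b ∈ Ioc m (m + k), ((w b : ℝ) : ℂ) * g b =
      ((w (m + k) : ℝ) : ℂ) * ∑ b ∈ Ioc m (m + k), g b -
      ∑ j ∈ range k, ((w (m + j + 1) - w (m + j) : ℝ) : ℂ) * ∑ b ∈ Ioc m (m + j), g b := by
    intro k
    induction k with
    | zero => simp
    | succ k ih =>
      rw [sum_range_succ, ← add_assoc, Finset.sum_Ioc_succ_top (by omega),
        Finset.sum_Ioc_succ_top (by omega), ih]
      push_cast
      ring
  rw [key]
  have h1 : ‖((w (m + k) : ℝ) : ℂ) * ∑ b ∈ Ioc m (m + k), g b‖ ≤ w (m + k) * M := by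
    rw [norm_mul, Complex.norm_real, Real.norm_of_nonneg (h0 _)]
    exact mul_le_mul_of_nonneg_left (hM k le_rfl) (h0 _)
  have h2 : ‖∑ j ∈ range k, ((w (m + j + 1) - w (m + j) : ℝ) : ℂ) * ∑ b ∈ Ioc m (m + j), g b‖
      ≤ (w (m + k) - w m) * M := by
    refine (norm_sum_le _ _).trans ?_
    have h3 : (w (m + k) - w m) * M = ∑ j ∈ range k, (w (m + j + 1) - w (m + j)) * M := by
      rw [← sum_mul]
      congr 1
      have := Finset.sum_range_sub (fun j => w (m + j)) k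
      simp only [add_zero] at this
      rw [← this]
      rfl
    rw [h3]
    refine sum_le_sum fun j hj => ?_
    have h4 : 0 ≤ w (m + j + 1) - w (m + j) := sub_nonneg.2 (hw (Nat.le_succ _))
    rw [norm_mul, Complex.norm_real, Real.norm_of_nonneg h4]
    exact mul_le_mul_of_nonneg_left (hM j (mem_range.1 hj).le) h4
  have hM0 : 0 ≤ M := (norm_nonneg _).trans (hM 0 (Nat.zero_le _))
  refine (norm_sub_le _ _).trans ((add_le_add h1 h2).trans ?_)
  nlinarith [mul_nonneg (h0 m) hM0]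

private theorem sela_len {u v : ℕ} {H : ℝ} (hH : (v : ℝ) - u ≤ H) {a : ℕ} (ha : 1 ≤ a)
    (haH : (a : ℝ) ≤ H) {k : ℕ} (hk : k ≤ v / a) :
    (k : ℝ) - ((u / a : ℕ) : ℝ) ≤ 2 * H / a := by
  have ha0 : (0 : ℝ) < a := by exact_mod_cast ha
  have h1 : (k : ℝ) ≤ (v : ℝ) / a := (Nat.cast_le.2 hk).trans Nat.cast_div_le
  have h2 : (u : ℝ) / a - 1 ≤ ((u / a : ℕ) : ℝ) := by
    have h3 : u < a * (u / a + 1) := Nat.lt_mul_div_succ u ha
    have h4 : (u : ℝ) < a * ((u / a : ℕ) + 1) := by exact_mod_cast h3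
    have h5 : (u : ℝ) / a < (u / a : ℕ) + 1 := by
      rw [div_lt_iff₀ ha0, mul_comm]; exact h4
    linarith
  have h3 : (1 : ℝ) ≤ H / a := (one_le_div ha0).2 haH
  have h4 : ((v : ℝ) - u) / a ≤ H / a := div_le_div_of_nonneg_right hH ha0.le
  have h5 : 2 * H / a = H / a + H / a := by ring
  rw [sub_div] at h4
  linarith

private theorem sela_exp {c s : ℝ} (hc : 0 < c) (hs : 0 ≤ s) :
    s ^ 2 * Real.exp (-(c * s)) ≤ 8 / c ^ 2 * Real.exp (-(c / 2 * s)) := by
  have h1 : (c / 2 * s) ^ 2 / 2 ≤ Real.exp (c / 2 * s) := by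
    have := Real.quadratic_le_exp_of_nonneg (x := c / 2 * s) (by positivity)
    nlinarith [mul_nonneg hc.le hs]
  have h2 : Real.exp (-(c * s)) = Real.exp (-(c / 2 * s)) * Real.exp (-(c / 2 * s)) := by
    rw [← Real.exp_add]; congr 1; ring
  have h3 : s ^ 2 * Real.exp (-(c / 2 * s)) ≤ 8 / c ^ 2 := by
    rw [Real.exp_neg, ← div_eq_mul_inv, div_le_iff₀ (Real.exp_pos _)]
    calc s ^ 2 = 8 / c ^ 2 * ((c / 2 * s) ^ 2 / 2) := by field_simp; ring
      _ ≤ _ := mul_le_mul_of_nonneg_left h1 (by positivity)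
  rw [h2, ← mul_assoc]
  exact mul_le_mul_of_nonneg_right h3 (Real.exp_pos _).le

private theorem sela_w : Monotone (fun n : ℕ => (Real.log n) ^ 2) := by
  intro a b hab
  have h1 : 0 ≤ Real.log a := Real.log_natCast_nonneg a
  have h2 : Real.log a ≤ Real.log b := by
    rcases Nat.eq_zero_or_pos a with h | h
    · subst h
      simpa using Real.log_natCast_nonneg b
    · exact Real.log_le_log (by exact_mod_cast h) (by exact_mod_cast hab)
  exact pow_le_pow_left₀ h1 h2 2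

/-- (M2) -/
theorem m2 : ∃ C z0 : ℝ, 0 < C ∧ 2 ≤ z0 ∧ ∀ z : ℝ, z0 ≤ z → ∀ f : ℕ → ℂ, Ch z f →
    ∀ (u v : ℕ) (H : ℝ), u ≤ v → (v : ℝ) - u ≤ H → H ≤ v → (v : ℝ) ≤ H * z ^ (1 / 8 : ℝ) →
    z ^ (100 : ℕ) ≤ (v : ℝ) →
    ‖∑ n ∈ Ioc u v, ((rho z n * lam2 n : ℝ) : ℂ) * f n‖ ≤ C * H * Real.log z := by
  obtain ⟨Cf, c, z1, hCf, hc, hz1, FL⟩ := fl
  obtain ⟨Cr, z2, hCr, hz2, RL⟩ := rho_le
  obtain ⟨Ci, z3, hCi, hz3, RI⟩ := rho_inv
  obtain ⟨Ce, z4, hCe, hz4, RE⟩ := rho_exp (c / 2) (by positivity)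
  refine ⟨2 * (8 / c ^ 2) * 8 * Cf * Real.exp (c / 16) * Ce + 66 ^ 2 * (2 * Cr) * (67 * Ci),
    max (max z1 z2) (max (max z3 z4) (Real.exp 1)), by positivity,
    hz1.trans ((le_max_left _ _).trans (le_max_left _ _)), ?_⟩
  intro z hz f hf u v H huv hlen hHv hvH hzv
  have hz1' : z1 ≤ z := ((le_max_left _ _).trans (le_max_left _ _)).trans hz
  have hz2' : z2 ≤ z := ((le_max_right _ _).trans (le_max_left _ _)).trans hz
  have hz3' : z3 ≤ z :=
    ((le_max_left _ _).trans ((le_max_left _ _).trans (le_max_right _ _))).trans hz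
  have hz4' : z4 ≤ z :=
    ((le_max_right _ _).trans ((le_max_left _ _).trans (le_max_right _ _))).trans hz
  have hze : Real.exp 1 ≤ z := ((le_max_right _ _).trans (le_max_right _ _)).trans hz
  have hz0 : 0 < z := (Real.exp_pos 1).trans_le hze
  have hzone : 1 ≤ z := (Real.one_le_exp zero_le_one).trans hze
  have hl : 1 ≤ Real.log z := (Real.le_log_iff_exp_le hz0).2 hze
  have hl0 : 0 < Real.log z := zero_lt_one.trans_le hl
  have hz8 : z ^ (1 / 8 : ℝ) ≤ z := by
    conv_rhs => rw [← Real.rpow_one z]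
    exact Real.rpow_le_rpow_of_exponent_le hzone (by norm_num)
  have hz80 : 0 < z ^ (1 / 8 : ℝ) := Real.rpow_pos_of_pos hz0 _
  have hv0 : (0 : ℝ) < v := (by positivity : (0 : ℝ) < z ^ 100).trans_le hzv
  have hH0 : 0 < H := by
    by_contra h
    have : H * z ^ (1 / 8 : ℝ) ≤ 0 := mul_nonpos_of_nonpos_of_nonneg (not_lt.1 h) hz80.le
    linarith
  have hvHz : (v : ℝ) ≤ H * z := hvH.trans (mul_le_mul_of_nonneg_left hz8 hH0.le)
  -- rewrite
  have hS : ∑ n ∈ Ioc u v, ((rho z n * lam2 n : ℝ) : ℂ) * f n =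
      ∑ a ∈ Icc 1 v, (((ArithmeticFunction.moebius a : ℝ) * rho z a : ℝ) : ℂ) * f a *
        ∑ b ∈ Ioc (u / a) (v / a), (((Real.log b) ^ 2 : ℝ) : ℂ) * (((rho z b : ℝ) : ℂ) * f b) := by
    have h1 : ∀ a ∈ Icc 1 v, (((ArithmeticFunction.moebius a : ℝ) * rho z a : ℝ) : ℂ) * f a *
        ∑ b ∈ Ioc (u / a) (v / a), (((Real.log b) ^ 2 : ℝ) : ℂ) * (((rho z b : ℝ) : ℂ) * f b) =
        ∑ b ∈ Ioc (u / a) (v / a), (((ArithmeticFunction.moebius a : ℝ) * rho z a : ℝ) : ℂ) * f a *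
        ((((Real.log b) ^ 2 : ℝ) : ℂ) * (((rho z b : ℝ) : ℂ) * f b)) := fun a _ => by
      rw [mul_sum]
    rw [sum_congr rfl h1, ← sela_swap (fun a b =>
      (((ArithmeticFunction.moebius a : ℝ) * rho z a : ℝ) : ℂ) * f a *
        ((((Real.log b) ^ 2 : ℝ) : ℂ) * (((rho z b : ℝ) : ℂ) * f b))) u v]
    refine sum_congr rfl fun n _ => ?_
    rw [lam2_eq, mul_sum, Complex.ofReal_sum, sum_mul]
    refine sum_congr rfl fun a ha => ?_
    obtain ⟨h1, h2⟩ := Nat.mem_divisorsAntidiagonal.1 ha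
    rw [← h1, sela_rho_mul, hf.mul]
    push_cast
    ring
  rw [hS]
  set G : ℕ → ℕ → ℝ := fun a b => rho z a * (rho z b * (Real.log b) ^ 2) with hG
  have hG0 : ∀ a b, 0 ≤ G a b := fun a b =>
    mul_nonneg (sela_rho_nonneg _ _) (mul_nonneg (sela_rho_nonneg _ _) (sq_nonneg _))
  have hmu : ∀ a : ℕ, ‖(((ArithmeticFunction.moebius a : ℝ) * rho z a : ℝ) : ℂ) * f a‖ ≤
      rho z a := by
    intro a
    rw [norm_mul, Complex.norm_real, norm_mul, Real.norm_of_nonneg (sela_rho_nonneg z a)]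
    have h1 : ‖(ArithmeticFunction.moebius a : ℝ)‖ ≤ 1 := by
      rw [Real.norm_eq_abs]
      have := ArithmeticFunction.abs_moebius_le_one (n := a)
      exact_mod_cast this
    calc ‖(ArithmeticFunction.moebius a : ℝ)‖ * rho z a * ‖f a‖ ≤ 1 * rho z a * 1 := by
          refine mul_le_mul (mul_le_mul_of_nonneg_right h1 (sela_rho_nonneg z a)) (hf.bd a)
            (norm_nonneg _) (by simpa using sela_rho_nonneg z a)
      _ = rho z a := by ring
  -- part (i)
  have hI : ∀ a ∈ (Icc 1 v).filter (fun a : ℕ => (a : ℝ) * z ^ 66 ≤ v),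
      ‖(((ArithmeticFunction.moebius a : ℝ) * rho z a : ℝ) : ℂ) * f a *
        ∑ b ∈ Ioc (u / a) (v / a), (((Real.log b) ^ 2 : ℝ) : ℂ) * (((rho z b : ℝ) : ℂ) * f b)‖ ≤
      2 * (8 / c ^ 2) * 8 * Cf * Real.exp (c / 16) * H * Real.log z *
        (rho z a / a * Real.exp (-(c / 2 * (Real.log (v / a) / Real.log z)))) := by
    intro a ha
    rw [mem_filter, mem_Icc] at ha
    obtain ⟨⟨ha1, hav⟩, ha2⟩ := ha
    have ha0 : (0 : ℝ) < a := by exact_mod_cast ha1
    have hz66 : z ^ 66 = z * z * z ^ 64 := by ring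
    have h65 : (a : ℝ) * (z * z ^ 64) ≤ H := by
      have : (a : ℝ) * (z * z ^ 64) * z ≤ H * z := by
        calc (a : ℝ) * (z * z ^ 64) * z = a * z ^ 66 := by ring
          _ ≤ (v : ℝ) := ha2
          _ ≤ H * z := hvHz
      exact le_of_mul_le_mul_right this hz0
    have h64 : (a : ℝ) * z ^ 64 ≤ H := by
      refine le_trans (mul_le_mul_of_nonneg_left ?_ ha0.le) h65
      nlinarith [pow_pos hz0 64]
    have haH : (a : ℝ) ≤ H := by
      refine le_trans ?_ h64
      have := one_le_pow₀ hzone (n := 64)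
      nlinarith
    set H' : ℝ := 2 * H / a with hH'
    have hH'64 : z ^ 64 ≤ H' := by
      rw [hH', le_div_iff₀ ha0]
      nlinarith
    have hH'0 : 0 < H' := by positivity
    set s : ℝ := Real.log H' / Real.log z with hs
    have hlogH' : 64 * Real.log z ≤ Real.log H' := by
      have := Real.log_le_log (by positivity) hH'64
      rw [Real.log_pow] at this
      exact_mod_cast this
    have hlsH : Real.log H' = Real.log z * s := by rw [hs]; field_simp
    have hs64 : 64 ≤ s := by rw [hs, le_div_iff₀ hl0]; exact hlogH'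
    have hvaH : Real.log (v / a) ≤ Real.log H' + Real.log z / 8 := by
      have h1 : (v : ℝ) / a ≤ H' * z ^ (1 / 8 : ℝ) := by
        rw [hH', div_le_iff₀ ha0]
        calc (v : ℝ) ≤ H * z ^ (1 / 8 : ℝ) := hvH
          _ ≤ 2 * (H * z ^ (1 / 8 : ℝ)) := by nlinarith [mul_pos hH0 hz80]
          _ = 2 * H / a * z ^ (1 / 8 : ℝ) * a := by field_simp
      have h2 := Real.log_le_log (by positivity) h1
      rw [Real.log_mul hH'0.ne' hz80.ne', Real.log_rpow hz0] at h2
      linarith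
    have hM : ∀ j : ℕ, j ≤ v / a - u / a →
        ‖∑ b ∈ Ioc (u / a) (u / a + j), ((rho z b : ℝ) : ℂ) * f b‖ ≤
        Cf * (H' / Real.log z) * Real.exp (-(c * s)) := by
      intro j hj
      have hdiv : u / a ≤ v / a := Nat.div_le_div_right huv
      refine FL z hz1' f hf (u / a) (u / a + j) H' (Nat.le_add_right _ _) ?_ hH'64
      exact sela_len hlen ha1 haH (by omega)
    have hdiv : u / a ≤ v / a := Nat.div_le_div_right huv
    have hab := sela_abel (fun b => ((rho z b : ℝ) : ℂ) * f b) (fun n : ℕ => (Real.log n) ^ 2)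
      sela_w (fun n => sq_nonneg _) _ (u / a) (v / a - u / a) hM
    rw [Nat.add_sub_cancel' hdiv] at hab
    have hlv : (Real.log ((v / a : ℕ) : ℝ)) ^ 2 ≤ 4 * (Real.log z * s) ^ 2 := by
      have h0 : 0 ≤ Real.log ((v / a : ℕ) : ℝ) := Real.log_natCast_nonneg _
      have h1 : Real.log ((v / a : ℕ) : ℝ) ≤ Real.log (v / a) := by
        rcases Nat.eq_zero_or_pos (v / a) with h | h
        · rw [h]
          simp only [Nat.cast_zero, Real.log_zero]
          refine Real.log_nonneg ((one_le_div ha0).2 (by exact_mod_cast hav))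
        · exact Real.log_le_log (by exact_mod_cast h) Nat.cast_div_le
      have h2 : Real.log ((v / a : ℕ) : ℝ) ≤ 2 * (Real.log z * s) := by
        rw [← hlsH]; linarith
      calc (Real.log ((v / a : ℕ) : ℝ)) ^ 2 ≤ (2 * (Real.log z * s)) ^ 2 :=
            pow_le_pow_left₀ h0 h2 2
        _ = 4 * (Real.log z * s) ^ 2 := by ring
    have he : Real.exp (-(c / 2 * s)) ≤
        Real.exp (c / 16) * Real.exp (-(c / 2 * (Real.log (v / a) / Real.log z))) := by
      rw [← Real.exp_add]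
      refine Real.exp_le_exp.2 ?_
      have h1 : Real.log (v / a) / Real.log z ≤ s + 1 / 8 := by
        rw [div_le_iff₀ hl0]
        rw [hlsH] at hvaH
        linarith
      nlinarith
    rw [norm_mul]
    have hT : ‖∑ b ∈ Ioc (u / a) (v / a), (((Real.log b) ^ 2 : ℝ) : ℂ) *
        (((rho z b : ℝ) : ℂ) * f b)‖ ≤ 8 * Cf * Real.log z * H' * (8 / c ^ 2 *
          (Real.exp (c / 16) * Real.exp (-(c / 2 * (Real.log (v / a) / Real.log z))))) := by
      refine hab.trans ?_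
      calc 2 * (Real.log ((v / a : ℕ) : ℝ)) ^ 2 *
            (Cf * (H' / Real.log z) * Real.exp (-(c * s))) ≤
            2 * (4 * (Real.log z * s) ^ 2) * (Cf * (H' / Real.log z) * Real.exp (-(c * s))) := by
            refine mul_le_mul_of_nonneg_right (by linarith) (by positivity)
        _ = 8 * Cf * Real.log z * H' * (s ^ 2 * Real.exp (-(c * s))) := by
            field_simp; ring
        _ ≤ 8 * Cf * Real.log z * H' * (8 / c ^ 2 * Real.exp (-(c / 2 * s))) :=
            mul_le_mul_of_nonneg_left (sela_exp hc (by linarith)) (by positivity)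
        _ ≤ _ := mul_le_mul_of_nonneg_left (mul_le_mul_of_nonneg_left he (by positivity))
            (by positivity)
    refine (mul_le_mul (hmu a) hT (norm_nonneg _) (sela_rho_nonneg z a)).trans (le_of_eq ?_)
    rw [hH']
    ring
  -- part (ii)
  have hII : ∑ a ∈ (Icc 1 v).filter (fun a : ℕ => ¬ (a : ℝ) * z ^ 66 ≤ v),
      ‖(((ArithmeticFunction.moebius a : ℝ) * rho z a : ℝ) : ℂ) * f a *
        ∑ b ∈ Ioc (u / a) (v / a), (((Real.log b) ^ 2 : ℝ) : ℂ) * (((rho z b : ℝ) : ℂ) * f b)‖ ≤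
      66 ^ 2 * (2 * Cr) * (67 * Ci) * H * Real.log z := by
    have h1 : ∀ a : ℕ, ‖(((ArithmeticFunction.moebius a : ℝ) * rho z a : ℝ) : ℂ) * f a *
        ∑ b ∈ Ioc (u / a) (v / a), (((Real.log b) ^ 2 : ℝ) : ℂ) * (((rho z b : ℝ) : ℂ) * f b)‖ ≤
        ∑ b ∈ Ioc (u / a) (v / a), G a b := by
      intro a
      rw [norm_mul]
      have h2 : ‖∑ b ∈ Ioc (u / a) (v / a), (((Real.log b) ^ 2 : ℝ) : ℂ) *
          (((rho z b : ℝ) : ℂ) * f b)‖ ≤ ∑ b ∈ Ioc (u / a) (v / a), rho z b * (Real.log b) ^ 2 := by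
        refine (norm_sum_le _ _).trans (sum_le_sum fun b _ => ?_)
        rw [norm_mul, norm_mul, Complex.norm_real, Complex.norm_real,
          Real.norm_of_nonneg (sq_nonneg _), Real.norm_of_nonneg (sela_rho_nonneg z b)]
        calc Real.log b ^ 2 * (rho z b * ‖f b‖) ≤ Real.log b ^ 2 * (rho z b * 1) :=
              mul_le_mul_of_nonneg_left (mul_le_mul_of_nonneg_left (hf.bd b)
                (sela_rho_nonneg z b)) (sq_nonneg _)
          _ = rho z b * Real.log b ^ 2 := by ring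
      refine (mul_le_mul (hmu a) h2 (norm_nonneg _) (sela_rho_nonneg z a)).trans (le_of_eq ?_)
      rw [mul_sum]
    refine (sum_le_sum fun a _ => h1 a).trans ?_
    have h3 : ∑ a ∈ (Icc 1 v).filter (fun a : ℕ => ¬ (a : ℝ) * z ^ 66 ≤ v),
        ∑ b ∈ Ioc (u / a) (v / a), G a b =
        ∑ b ∈ Icc 1 ⌊z ^ 66⌋₊, ∑ a ∈ (Ioc (u / b) (v / b)).filter
          (fun a : ℕ => ¬ (a : ℝ) * z ^ 66 ≤ v), G a b := by
      refine Finset.sum_comm' fun a b => ?_
      simp only [mem_filter, mem_Icc, mem_Ioc]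
      constructor
      · rintro ⟨⟨⟨ha1, hav⟩, ha2⟩, hb1, hb2⟩
        have ha0 : (0 : ℝ) < a := by exact_mod_cast ha1
        have hb1' : u < b * a := (Nat.div_lt_iff_lt_mul ha1).1 hb1
        have hb2' : b * a ≤ v := (Nat.le_div_iff_mul_le ha1).1 hb2
        have hb0 : 1 ≤ b := Nat.pos_of_ne_zero fun h => by subst h; simp at hb1'
        refine ⟨⟨⟨?_, ?_⟩, ha2⟩, hb0, ?_⟩
        · rw [Nat.div_lt_iff_lt_mul hb0, mul_comm]; exact hb1'
        · rw [Nat.le_div_iff_mul_le hb0, mul_comm]; exact hb2'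
        · refine Nat.le_floor ?_
          have h4 : (b : ℝ) * a ≤ v := by exact_mod_cast hb2'
          have h5 : (b : ℝ) * a < z ^ 66 * a := by
            rw [mul_comm (z ^ 66)]
            exact h4.trans_lt (not_le.1 ha2)
          exact (lt_of_mul_lt_mul_right h5 ha0.le).le
      · rintro ⟨⟨⟨ha1, hav⟩, ha2⟩, hb0, hb2⟩
        have h4 : u < a * b := (Nat.div_lt_iff_lt_mul hb0).1 ha1
        have h5 : a * b ≤ v := (Nat.le_div_iff_mul_le hb0).1 hav
        have ha0 : 1 ≤ a := Nat.pos_of_ne_zero fun h => by subst h; simp at h4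
        refine ⟨⟨⟨ha0, (Nat.le_mul_of_pos_right a hb0).trans h5⟩, ha2⟩, ?_, ?_⟩
        · rw [Nat.div_lt_iff_lt_mul ha0, mul_comm]; exact h4
        · rw [Nat.le_div_iff_mul_le ha0, mul_comm]; exact h5
    rw [h3]
    have hH99 : z ^ 99 ≤ H := by
      have : z ^ 99 * z ≤ H * z := by
        calc z ^ 99 * z = z ^ 100 := by ring
          _ ≤ (v : ℝ) := hzv
          _ ≤ H * z := hvHz
      exact le_of_mul_le_mul_right this hz0
    have h4 : ∀ b ∈ Icc 1 ⌊z ^ 66⌋₊, ∑ a ∈ (Ioc (u / b) (v / b)).filter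
          (fun a : ℕ => ¬ (a : ℝ) * z ^ 66 ≤ v), G a b ≤
        66 ^ 2 * (2 * Cr) * H * Real.log z * (if b = 1 then 0 else rho z b / b) := by
      intro b hb
      rw [mem_Icc] at hb
      obtain ⟨hb1, hb2⟩ := hb
      have hb0 : (0 : ℝ) < b := by exact_mod_cast hb1
      have hb3 : (b : ℝ) ≤ z ^ 66 := (Nat.cast_le.2 hb2).trans (Nat.floor_le (by positivity))
      by_cases h : b = 1
      · subst h
        simp [hG]
      rw [if_neg h]
      have h5 : ∑ a ∈ (Ioc (u / b) (v / b)).filter (fun a : ℕ => ¬ (a : ℝ) * z ^ 66 ≤ v), G a b ≤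
          ∑ a ∈ Ioc (u / b) (v / b), G a b :=
        sum_le_sum_of_subset_of_nonneg (filter_subset _ _) fun a _ _ => hG0 a b
      have h6 : ∑ a ∈ Ioc (u / b) (v / b), G a b = (∑ a ∈ Ioc (u / b) (v / b), rho z a) *
          (rho z b * (Real.log b) ^ 2) := by
        rw [sum_mul]
      have hbz : (b : ℝ) * z ^ 33 ≤ H := by
        calc (b : ℝ) * z ^ 33 ≤ z ^ 66 * z ^ 33 :=
              mul_le_mul_of_nonneg_right hb3 (by positivity)
          _ = z ^ 99 := by ring
          _ ≤ H := hH99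
      have hbH : (b : ℝ) ≤ H := by
        refine le_trans ?_ hbz
        have := one_le_pow₀ hzone (n := 33)
        nlinarith
      have h7 : ∑ a ∈ Ioc (u / b) (v / b), rho z a ≤ Cr * (2 * H / b / Real.log z) := by
        refine RL z hz2' (u / b) (v / b) (2 * H / b) (Nat.div_le_div_right huv)
          (sela_len hlen hb1 hbH le_rfl) ?_
        refine hz8.trans ?_
        rw [le_div_iff₀ hb0]
        have h8 : z ≤ z ^ 33 := by
          conv_lhs => rw [← pow_one z]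
          exact pow_le_pow_right₀ hzone (by norm_num)
        nlinarith
      have h8 : (Real.log b) ^ 2 ≤ (66 * Real.log z) ^ 2 := by
        refine pow_le_pow_left₀ (Real.log_natCast_nonneg _) ?_ 2
        have := Real.log_le_log hb0 hb3
        rw [Real.log_pow] at this
        exact_mod_cast this
      calc _ ≤ ∑ a ∈ Ioc (u / b) (v / b), G a b := h5
        _ = (∑ a ∈ Ioc (u / b) (v / b), rho z a) * (rho z b * (Real.log b) ^ 2) := h6
        _ ≤ (Cr * (2 * H / b / Real.log z)) * (rho z b * (66 * Real.log z) ^ 2) := by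
            refine mul_le_mul h7 (mul_le_mul_of_nonneg_left h8 (sela_rho_nonneg z b))
              (mul_nonneg (sela_rho_nonneg z b) (sq_nonneg _)) (by positivity)
        _ = 66 ^ 2 * (2 * Cr) * H * Real.log z * (rho z b / b) := by
            field_simp
    refine (sum_le_sum h4).trans ?_
    rw [← mul_sum]
    have h9 : ∑ b ∈ Icc 1 ⌊z ^ 66⌋₊, (if b = 1 then 0 else rho z b / b) ≤ 67 * Ci := by
      have h10 := RI z hz3' 1 (z ^ 66) le_rfl (one_le_pow₀ hzone)
      rw [div_one, Real.log_pow, Nat.floor_one] at h10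
      have h11 : (66 : ℕ) * Real.log z / Real.log z = 66 := by
        field_simp
        norm_num
      rw [h11] at h10
      have h12 : ∑ b ∈ Icc 1 ⌊z ^ 66⌋₊, (if b = 1 then 0 else rho z b / b) =
          ∑ b ∈ Ioc 1 ⌊z ^ 66⌋₊, rho z b / b := by
        have h13 := sum_subset (s₁ := Ioc 1 ⌊z ^ 66⌋₊) (s₂ := Icc 1 ⌊z ^ 66⌋₊)
          (f := fun b : ℕ => if b = 1 then 0 else rho z b / b) (fun x hx => by
            rw [mem_Ioc] at hx; rw [mem_Icc]; omega) (fun x hx hx' => by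
            rw [mem_Icc] at hx
            rw [mem_Ioc] at hx'
            rw [if_pos (by omega)])
        rw [← h13]
        refine sum_congr rfl fun b hb => ?_
        rw [mem_Ioc] at hb
        rw [if_neg (by omega)]
      rw [h12]
      linarith
    calc _ ≤ 66 ^ 2 * (2 * Cr) * H * Real.log z * (67 * Ci) :=
          mul_le_mul_of_nonneg_left h9 (by positivity)
      _ = _ := by ring
  refine (norm_sum_le _ _).trans ?_
  rw [← sum_filter_add_sum_filter_not (Icc 1 v) (fun a : ℕ => (a : ℝ) * z ^ 66 ≤ v)]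
  have hI' : ∑ a ∈ (Icc 1 v).filter (fun a : ℕ => (a : ℝ) * z ^ 66 ≤ v),
      ‖(((ArithmeticFunction.moebius a : ℝ) * rho z a : ℝ) : ℂ) * f a *
        ∑ b ∈ Ioc (u / a) (v / a), (((Real.log b) ^ 2 : ℝ) : ℂ) * (((rho z b : ℝ) : ℂ) * f b)‖ ≤
      2 * (8 / c ^ 2) * 8 * Cf * Real.exp (c / 16) * H * Real.log z * Ce := by
    refine (sum_le_sum hI).trans ?_
    rw [← mul_sum]
    refine mul_le_mul_of_nonneg_left ?_ (by positivity)
    have h1 := RE z hz4' v (by
      have := one_le_pow₀ hzone (n := 100)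
      linarith)
    rw [Nat.floor_natCast] at h1
    refine le_trans (sum_le_sum_of_subset_of_nonneg (filter_subset _ _) fun a _ _ => ?_) h1
    exact mul_nonneg (div_nonneg (sela_rho_nonneg z a) (Nat.cast_nonneg _)) (Real.exp_pos _).le
  calc _ ≤ 2 * (8 / c ^ 2) * 8 * Cf * Real.exp (c / 16) * H * Real.log z * Ce +
        66 ^ 2 * (2 * Cr) * (67 * Ci) * H * Real.log z := add_le_add hI' hII
    _ = _ := by ring

end Pool.MP_dd84fd_nt.QZ
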