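import Pool.Agent.Lib.MP_dd84fd_nt.QZ.SelA
import Pool.Agent.Lib.MP_dd84fd_nt.QZ.BtA

/-!
# QZ-SelB: the windows `(M, M e^h]`.  Prefix aux lemmas `selb_`.

Put `u = ⌊M⌋₊, v = ⌊M e^h⌋₊`, `v ≤ 3M`, `v - u ≤ 2hM + 1`.  If `3M < z` both sums vanish (`n ≤ v < z` not rough or n = 1, lam2 1 = 0).
Else `M ≥ z/3`, `hM ≥ z^(1/2)`.
w2_abs: `∑ La(n) log n ≤ log(3M) C hM` (bt with `H = 3hM`: `v ≤ 3M ≤ 3hM z^(1/8)` since `h z^(1/16) ≥ 1`).
`∑_{mk ∈ win} La(m) La(k) ≤ 2 ∑_{m ≤ √(3M)} La(m) ∑_{k ∈ (u/m, v/m]} La(k)` and bt with `H = 3hM/m + 1 ≤ 4hM/m` (`hM/m ≥ h √M/2 ≥ 1`;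
`v/m ≤ 3M/m ≤ 4 (hM/m) z^(1/8)`) gives `C hM/m`; `∑_{m ≤ x} La(m)/m ≤ C (1 + log x)` (bt_inv).
(rho z n lam2 n = La(n) log n + ∑_{mk=n} La(m) La(k).)
win2: second part: `1 + log M ≤ 1 + L ≤ 2L`.  First part: `M ≥ z^101`: m2 with `H = 3hM` (`H ≤ v` if `h ≤ 1/4`; if `h > 1/4` use `H = v`
or split the window in 16 windows); `M < z^101`: `‖∑‖ ≤ ∑ rho lam2 ≤ C hM (1 + 101 log z)` by w2_abs (`|g| ≤ 1`, `lam2 ≥ 0`).
-/

set_option autoImplicit false

namespace Pool.MP_dd84fd_nt.QZ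

open Finset
open Pool.MP_dd84fd_nt.En (Rough rho)

private theorem selb_rho_nonneg (z : ℝ) (n : ℕ) : 0 ≤ rho z n := by
  unfold rho
  split_ifs <;> norm_num

private theorem selb_La_nonneg (z : ℝ) (n : ℕ) : 0 ≤ La z n :=
  mul_nonneg (selb_rho_nonneg z n) ArithmeticFunction.vonMangoldt_nonneg

private theorem selb_lam2_nonneg (n : ℕ) : 0 ≤ lam2 n := by
  unfold lam2
  refine add_nonneg (mul_nonneg ArithmeticFunction.vonMangoldt_nonneg (Real.log_natCast_nonneg n))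
    (Finset.sum_nonneg fun a _ => mul_nonneg ArithmeticFunction.vonMangoldt_nonneg
      ArithmeticFunction.vonMangoldt_nonneg)

private theorem selb_rough_mul (z : ℝ) (a b : ℕ) : Rough z (a * b) ↔ Rough z a ∧ Rough z b := by
  constructor
  · intro h
    exact ⟨fun p hp hpa => h p hp (hpa.mul_right b), fun p hp hpb => h p hp (hpb.mul_left a)⟩
  · rintro ⟨h1, h2⟩ p hp hpab
    rcases (hp.dvd_mul).1 hpab with h | h
    · exact h1 p hp h
    · exact h2 p hp h

private theorem selb_rho_mul (z : ℝ) (a b : ℕ) : rho z (a * b) = rho z a * rho z b := by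
  unfold rho
  by_cases h1 : Rough z a <;> by_cases h2 : Rough z b <;>
    simp [selb_rough_mul, h1, h2]

private theorem selb_rho_lam2 (z : ℝ) (n : ℕ) : rho z n * lam2 n = La z n * Real.log n +
    ∑ a ∈ n.divisorsAntidiagonal, La z a.1 * La z a.2 := by
  unfold lam2
  rw [mul_add, Finset.mul_sum]
  congr 1
  · unfold La
    ring
  · refine Finset.sum_congr rfl fun a ha => ?_
    have h := (Nat.mem_divisorsAntidiagonal.1 ha).1
    rw [← h, selb_rho_mul]
    unfold La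
    ring

private theorem selb_hyp (F : ℕ → ℕ → ℝ) (u v A : ℕ) :
    ∑ n ∈ Ioc u v, ∑ p ∈ n.divisorsAntidiagonal with p.1 ≤ A, F p.1 p.2 =
      ∑ a ∈ Icc 1 A, ∑ b ∈ Ioc (u / a) (v / a), F a b := by
  rw [Finset.sum_sigma', Finset.sum_sigma']
  refine Finset.sum_nbij' (fun x => ⟨x.2.1, x.2.2⟩) (fun y => ⟨y.1 * y.2, (y.1, y.2)⟩) ?_ ?_ ?_ ?_ ?_
  · rintro ⟨n, a, b⟩ h
    simp only [Finset.mem_sigma, Finset.mem_Ioc, Finset.mem_filter, Nat.mem_divisorsAntidiagonal,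
      Finset.mem_Icc] at h ⊢
    obtain ⟨⟨h1, h2⟩, ⟨h3, h4⟩, h5⟩ := h
    have ha : 0 < a := by
      rcases Nat.eq_zero_or_pos a with h | h
      · subst h
        simp at h3
        omega
      · exact h
    refine ⟨⟨ha, h5⟩, ?_, ?_⟩
    · rw [Nat.div_lt_iff_lt_mul ha, mul_comm b a, h3]
      exact h1
    · rw [Nat.le_div_iff_mul_le ha, mul_comm b a, h3]
      exact h2
  · rintro ⟨a, b⟩ h
    simp only [Finset.mem_sigma, Finset.mem_Ioc, Finset.mem_filter, Nat.mem_divisorsAntidiagonal,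
      Finset.mem_Icc] at h ⊢
    obtain ⟨⟨h1, h2⟩, h3, h4⟩ := h
    rw [Nat.div_lt_iff_lt_mul h1, mul_comm b a] at h3
    rw [Nat.le_div_iff_mul_le h1, mul_comm b a] at h4
    exact ⟨⟨h3, h4⟩, ⟨trivial, by omega⟩, h2⟩
  · rintro ⟨n, a, b⟩ h
    simp only [Finset.mem_sigma, Finset.mem_Ioc, Finset.mem_filter, Nat.mem_divisorsAntidiagonal] at h
    obtain ⟨_, ⟨h3, _⟩, _⟩ := h
    subst h3
    rfl
  · rintro ⟨a, b⟩ _
    rfl
  · rintro ⟨n, a, b⟩ _
    rfl

private theorem selb_half (F : ℕ → ℝ) (hF : ∀ n, 0 ≤ F n) (u v A : ℕ) (hA : ∀ a b : ℕ, a ≤ b →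
    a * b ≤ v → a ≤ A) :
    ∑ n ∈ Ioc u v, ∑ p ∈ n.divisorsAntidiagonal, F p.1 * F p.2 ≤
      2 * ∑ a ∈ Icc 1 A, ∑ b ∈ Ioc (u / a) (v / a), F a * F b := by
  rw [← selb_hyp (fun a b => F a * F b), Finset.mul_sum]
  refine Finset.sum_le_sum fun n hn => ?_
  rw [Finset.mem_Ioc] at hn
  have h1 : ∑ p ∈ n.divisorsAntidiagonal, F p.1 * F p.2 ≤
      ∑ p ∈ n.divisorsAntidiagonal, ((if p.1 ≤ A then F p.1 * F p.2 else 0) +
        (if p.2 ≤ A then F p.1 * F p.2 else 0)) := by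
    refine Finset.sum_le_sum fun p hp => ?_
    have hp1 := (Nat.mem_divisorsAntidiagonal.1 hp).1
    have h0 : 0 ≤ F p.1 * F p.2 := mul_nonneg (hF _) (hF _)
    rcases le_total p.1 p.2 with h | h
    · have := hA p.1 p.2 h (by omega)
      rw [if_pos this]
      split_ifs <;> linarith
    · have := hA p.2 p.1 h (by rw [mul_comm]; omega)
      rw [if_pos this]
      split_ifs <;> linarith
  refine h1.trans (le_of_eq ?_)
  rw [Finset.sum_add_distrib, two_mul, Finset.sum_filter]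
  congr 1
  refine Finset.sum_nbij' Prod.swap Prod.swap ?_ ?_ ?_ ?_ ?_
  · intro p hp
    rw [Nat.mem_divisorsAntidiagonal] at hp ⊢
    exact ⟨by rw [mul_comm]; exact hp.1, hp.2⟩
  · intro p hp
    rw [Nat.mem_divisorsAntidiagonal] at hp ⊢
    exact ⟨by rw [mul_comm]; exact hp.1, hp.2⟩
  · intro p _
    rfl
  · intro p _
    rfl
  · intro p _
    simp only [Prod.fst_swap, Prod.snd_swap]
    rw [mul_comm (F p.2)]

/-- sizes of the window -/
private theorem selb_win {M h : ℝ} (hM : 1 ≤ M) (hh : 0 < h) (hh1 : h ≤ 1) :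
    ⌊M⌋₊ ≤ ⌊M * Real.exp h⌋₊ ∧ (⌊M * Real.exp h⌋₊ : ℝ) ≤ 3 * M ∧
      (⌊M * Real.exp h⌋₊ : ℝ) - ⌊M⌋₊ ≤ 2 * (h * M) + 1 := by
  have h1 := Real.abs_exp_sub_one_le (x := h) (by rw [abs_of_pos hh]; exact hh1)
  rw [abs_of_pos hh] at h1
  have h2 := (abs_le.1 h1).2
  have h3 : 1 ≤ Real.exp h := Real.one_le_exp hh.le
  have h4 : M ≤ M * Real.exp h := le_mul_of_one_le_right (by linarith) h3
  have h5 : M * Real.exp h ≤ 3 * M := by nlinarith
  have h6 := Nat.floor_le (show 0 ≤ M * Real.exp h by positivity)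
  have h7 := Nat.lt_floor_add_one M
  refine ⟨Nat.floor_mono h4, h6.trans h5, ?_⟩
  nlinarith

/-- small `M` -/
private theorem selb_small {z M : ℝ} {v : ℕ} (hM : 1 ≤ M) (hz : 3 * M < z) (hv : (v : ℝ) ≤ 3 * M)
    {n : ℕ} (hn : n ∈ Ioc ⌊M⌋₊ v) : rho z n = 0 := by
  rw [Finset.mem_Ioc] at hn
  have h1 : 1 ≤ ⌊M⌋₊ := Nat.le_floor (by exact_mod_cast hM)
  have hn2 : 2 ≤ n := by omega
  unfold rho
  rw [if_neg]
  intro hR
  have h2 := hR n.minFac (Nat.minFac_prime (by omega)) (Nat.minFac_dvd n)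
  have h3 : n.minFac ≤ n := Nat.minFac_le (by omega)
  have h4 : (n.minFac : ℝ) ≤ n := by exact_mod_cast h3
  have h5 : (n : ℝ) ≤ v := by exact_mod_cast hn.2
  linarith

/-- trivial bound for the Selberg weights -/
theorem w2_abs : ∃ C z0 : ℝ, 0 < C ∧ 2 ≤ z0 ∧ ∀ z : ℝ, z0 ≤ z → ∀ M h : ℝ, 1 ≤ M → 0 < h → h ≤ 1 →
    1 ≤ h * z ^ (1 / 16 : ℝ) →
    ∑ n ∈ Ioc ⌊M⌋₊ ⌊M * Real.exp h⌋₊, rho z n * lam2 n ≤ C * (h * M) * (1 + Real.log M) := by
  obtain ⟨Cb, zb, hCb, hzb, hbt⟩ := bt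
  obtain ⟨Ci, zi, hCi, hzi, hbi⟩ := bt_inv
  refine ⟨6 * Cb + 8 * Cb * (3 * Ci), max (max zb zi) (3 ^ 16), by positivity,
    le_trans hzb ((le_max_left _ _).trans (le_max_left _ _)), ?_⟩
  intro z hz M h hM hh hh1 hhz
  have hzb' : zb ≤ z := ((le_max_left _ _).trans (le_max_left _ _)).trans hz
  have hzi' : zi ≤ z := ((le_max_right _ _).trans (le_max_left _ _)).trans hz
  have hz3 : (3 : ℝ) ^ 16 ≤ z := (le_max_right _ _).trans hz
  have hz1 : (1 : ℝ) ≤ z := le_trans (by norm_num) hz3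
  have hz0 : 0 < z := by linarith
  obtain ⟨huv, hv3, hvu⟩ := selb_win hM hh hh1
  obtain ⟨u, hu⟩ : ∃ u : ℕ, u = ⌊M⌋₊ := ⟨_, rfl⟩
  obtain ⟨v, hv⟩ : ∃ v : ℕ, v = ⌊M * Real.exp h⌋₊ := ⟨_, rfl⟩
  rw [← hu, ← hv] at huv hvu ⊢
  rw [← hv] at hv3
  have hlM : 0 ≤ Real.log M := Real.log_nonneg hM
  have hhM : 0 < h * M := by positivity
  rcases lt_or_ge (3 * M) z with hMz | hMz
  · rw [Finset.sum_eq_zero]
    · positivity
    · intro n hn
      rw [hu] at hn
      rw [selb_small hM hMz hv3 hn, zero_mul]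
  -- the main case
  have hz16 : 0 < z ^ (1 / 16 : ℝ) := Real.rpow_pos_of_pos hz0 _
  have hz16' : (3 : ℝ) ≤ z ^ (1 / 16 : ℝ) := by
    have h1 : ((3 : ℝ) ^ (16 : ℕ)) ^ (1 / 16 : ℝ) ≤ z ^ (1 / 16 : ℝ) :=
      Real.rpow_le_rpow (by positivity) hz3 (by norm_num)
    rw [← Real.rpow_natCast, ← Real.rpow_mul (by norm_num)] at h1
    norm_num at h1 ⊢
    exact h1
  have hz8 : z ^ (1 / 16 : ℝ) ≤ z ^ (1 / 8 : ℝ) :=
    Real.rpow_le_rpow_of_exponent_le hz1 (by norm_num)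
  have hz2 : z ^ (1 / 2 : ℝ) = (z ^ (1 / 16 : ℝ)) ^ (8 : ℕ) := by
    rw [← Real.rpow_natCast, ← Real.rpow_mul hz0.le]
    norm_num
  have hhz8 : 1 ≤ h * z ^ (1 / 8 : ℝ) := hhz.trans (mul_le_mul_of_nonneg_left hz8 hh.le)
  -- h √(3M) ≥ 3
  have hsq : Real.sqrt z ≤ Real.sqrt (3 * M) := Real.sqrt_le_sqrt hMz
  have hsz : Real.sqrt z = z ^ (1 / 2 : ℝ) := Real.sqrt_eq_rpow z
  have hhs : 3 ≤ h * Real.sqrt (3 * M) := by
    have h1 : 3 ≤ h * Real.sqrt z := by
      rw [hsz, hz2]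
      have h2 : 3 * z ^ (1 / 16 : ℝ) ≤ (z ^ (1 / 16 : ℝ)) ^ (8 : ℕ) := by
        have h3 : (3 : ℝ) ^ 7 ≤ (z ^ (1 / 16 : ℝ)) ^ 7 := pow_le_pow_left₀ (by norm_num) hz16' 7
        have h4 : (z ^ (1 / 16 : ℝ)) ^ (8 : ℕ) = (z ^ (1 / 16 : ℝ)) ^ 7 * z ^ (1 / 16 : ℝ) := by ring
        rw [h4]
        exact mul_le_mul_of_nonneg_right (by linarith) hz16.le
      have h3 := mul_le_mul_of_nonneg_left h2 hh.le
      linarith
    exact h1.trans (mul_le_mul_of_nonneg_left hsq hh.le)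
  have hs0 : 0 < Real.sqrt (3 * M) := Real.sqrt_pos.2 (by linarith)
  have hss : Real.sqrt (3 * M) * Real.sqrt (3 * M) = 3 * M := Real.mul_self_sqrt (by linarith)
  have hsM : Real.sqrt (3 * M) ≤ h * M := by
    have h1 : 3 * Real.sqrt (3 * M) ≤ h * Real.sqrt (3 * M) * Real.sqrt (3 * M) :=
      mul_le_mul_of_nonneg_right hhs hs0.le
    have h2 : h * Real.sqrt (3 * M) * Real.sqrt (3 * M) = 3 * (h * M) := by
      rw [mul_assoc, hss]; ring
    linarith
  have hs1 : 1 ≤ Real.sqrt (3 * M) := by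
    rw [Real.one_le_sqrt]
    linarith
  have hhM1 : 1 ≤ h * M := hs1.trans hsM
  have hl3 : Real.log (3 * M) ≤ 2 * (1 + Real.log M) := by
    rw [Real.log_mul (by norm_num) (by linarith)]
    have : Real.log 3 ≤ 2 := by
      have := Real.log_le_sub_one_of_pos (show (0 : ℝ) < 3 by norm_num)
      linarith
    linarith
  -- splitting
  have hsplit : ∑ n ∈ Ioc u v, rho z n * lam2 n = ∑ n ∈ Ioc u v, La z n * Real.log n +
      ∑ n ∈ Ioc u v, ∑ a ∈ n.divisorsAntidiagonal, La z a.1 * La z a.2 := by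
    rw [← Finset.sum_add_distrib]
    exact Finset.sum_congr rfl fun n _ => selb_rho_lam2 z n
  rw [hsplit]
  have hmono : (v : ℝ) ≤ 3 * (h * M) * z ^ (1 / 8 : ℝ) := by
    have h1 : 3 * M * 1 ≤ 3 * M * (h * z ^ (1 / 8 : ℝ)) :=
      mul_le_mul_of_nonneg_left hhz8 (by linarith)
    calc (v : ℝ) ≤ 3 * M * 1 := by linarith
      _ ≤ _ := h1
      _ = _ := by ring
  have hfirst : ∑ n ∈ Ioc u v, La z n * Real.log n ≤ 6 * Cb * (h * M) * (1 + Real.log M) := by
    have h1 : ∑ n ∈ Ioc u v, La z n * Real.log n ≤ ∑ n ∈ Ioc u v, La z n * Real.log (3 * M) := by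
      refine Finset.sum_le_sum fun n hn => mul_le_mul_of_nonneg_left ?_ (selb_La_nonneg z n)
      rw [Finset.mem_Ioc] at hn
      have hn0 : 0 < n := by omega
      apply Real.log_le_log (by exact_mod_cast hn0)
      have : (n : ℝ) ≤ v := by exact_mod_cast hn.2
      linarith
    rw [← Finset.sum_mul] at h1
    have h2 := hbt z hzb' u v (3 * (h * M)) huv (by linarith) hmono
    have h3 : (∑ n ∈ Ioc u v, La z n) * Real.log (3 * M) ≤
        Cb * (3 * (h * M)) * (2 * (1 + Real.log M)) :=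
      mul_le_mul h2 hl3 (Real.log_nonneg (by linarith)) (by positivity)
    calc _ ≤ _ := h1
      _ ≤ _ := h3
      _ = _ := by ring
  obtain ⟨A, hA⟩ : ∃ A : ℕ, A = ⌊Real.sqrt (3 * M)⌋₊ := ⟨_, rfl⟩
  have hsecond : ∑ n ∈ Ioc u v, ∑ a ∈ n.divisorsAntidiagonal, La z a.1 * La z a.2 ≤
      8 * Cb * (3 * Ci) * (h * M) * (1 + Real.log M) := by
    have h1 := selb_half (La z) (selb_La_nonneg z) u v A (by
      intro a b hab hab2
      rw [hA]
      apply Nat.le_floor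
      apply Real.le_sqrt_of_sq_le
      have h2 : a * a ≤ v := (Nat.mul_le_mul_left a hab).trans hab2
      have h3 : (a : ℝ) * a ≤ v := by exact_mod_cast h2
      nlinarith)
    refine h1.trans ?_
    have h2 : ∀ a ∈ Icc 1 A, ∑ b ∈ Ioc (u / a) (v / a), La z a * La z b ≤
        4 * Cb * (h * M) * (La z a / a) := by
      intro a ha
      rw [Finset.mem_Icc] at ha
      have ha0 : (0 : ℝ) < a := by exact_mod_cast ha.1
      have haA : (a : ℝ) ≤ Real.sqrt (3 * M) := by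
        have : (a : ℝ) ≤ A := by exact_mod_cast ha.2
        refine this.trans ?_
        rw [hA]
        exact Nat.floor_le hs0.le
      have hq : 1 ≤ h * M / a := by
        rw [le_div_iff₀ ha0, one_mul]
        exact haA.trans hsM
      rw [← Finset.mul_sum]
      have hle1 : ((v / a : ℕ) : ℝ) ≤ v / a := Nat.cast_div_le
      have hge1 : (u : ℝ) / a - 1 ≤ ((u / a : ℕ) : ℝ) := by
        have h3 : (u : ℝ) / a < ((u / a : ℕ) : ℝ) + 1 := by
          rw [div_lt_iff₀ ha0]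
          have h4 : u < (u / a + 1) * a := by
            have := Nat.lt_div_mul_add (a := u) (b := a) ha.1
            rw [Nat.add_mul, one_mul]
            exact this
          exact_mod_cast h4
        linarith
      have h3 := hbt z hzb' (u / a) (v / a) (4 * (h * M / a)) (Nat.div_le_div_right huv) (by
        have h4 : ((v : ℝ) - u) / a ≤ (2 * (h * M) + 1) / a := div_le_div_of_nonneg_right hvu ha0.le
        rw [sub_div, add_div] at h4
        have h5 : 1 / (a : ℝ) ≤ h * M / a := div_le_div_of_nonneg_right hhM1 ha0.le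
        have h6 : 2 * (h * M) / a = 2 * (h * M / a) := by ring
        rw [h6] at h4
        linarith) (by
        refine hle1.trans ?_
        have h4 : (v : ℝ) / a ≤ 3 * (h * M) * z ^ (1 / 8 : ℝ) / a :=
          div_le_div_of_nonneg_right hmono ha0.le
        refine h4.trans ?_
        have h5 : 3 * (h * M) * z ^ (1 / 8 : ℝ) / a = 3 * (h * M / a) * z ^ (1 / 8 : ℝ) := by ring
        rw [h5]
        have h6 : 0 ≤ (h * M / a) * z ^ (1 / 8 : ℝ) := by positivity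
        linarith)
      calc La z a * ∑ b ∈ Ioc (u / a) (v / a), La z b ≤ La z a * (Cb * (4 * (h * M / a))) :=
            mul_le_mul_of_nonneg_left h3 (selb_La_nonneg z a)
        _ = 4 * Cb * (h * M) * (La z a / a) := by ring
    have h3 := Finset.sum_le_sum h2
    rw [← Finset.mul_sum] at h3
    have h4 := hbi z hzi' (Real.sqrt (3 * M)) hs1
    rw [← hA] at h4
    have h5 : Ci * (1 + Real.log (Real.sqrt (3 * M))) ≤ Ci * (3 * (1 + Real.log M)) := by
      apply mul_le_mul_of_nonneg_left _ hCi.le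
      rw [Real.log_sqrt (by linarith)]
      have : 0 ≤ Real.log (3 * M) := Real.log_nonneg (by linarith)
      linarith
    have h6 : 4 * Cb * (h * M) * ∑ a ∈ Icc 1 A, La z a / a ≤
        4 * Cb * (h * M) * (Ci * (3 * (1 + Real.log M))) :=
      mul_le_mul_of_nonneg_left (h4.trans h5) (by positivity)
    calc 2 * ∑ a ∈ Icc 1 A, ∑ b ∈ Ioc (u / a) (v / a), La z a * La z b
        ≤ 2 * (4 * Cb * (h * M) * (Ci * (3 * (1 + Real.log M)))) := by linarith
      _ = _ := by ring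
  calc _ ≤ 6 * Cb * (h * M) * (1 + Real.log M) + 8 * Cb * (3 * Ci) * (h * M) * (1 + Real.log M) :=
        add_le_add hfirst hsecond
    _ = _ := by ring

/-- `Win2` -/
theorem win2 : ∃ C z0 : ℝ, 0 < C ∧ 2 ≤ z0 ∧ ∀ z : ℝ, z0 ≤ z → ∀ g : ℕ → ℂ, Ch z g →
    ∀ h L : ℝ, 0 < h → h ≤ 1 → 1 ≤ h * z ^ (1 / 16 : ℝ) → 1 ≤ L → Win2 C z L h g := by
  obtain ⟨Cw, zw, hCw, hzw, hw⟩ := w2_abs
  obtain ⟨Cm, zm, hCm, hzm, hm⟩ := m2
  refine ⟨102 * Cw + 12 * Cm, max (max zw zm) 4, by positivity,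
    le_trans hzw ((le_max_left _ _).trans (le_max_left _ _)), ?_⟩
  intro z hz g hg h L hh hh1 hhz hL M hM hML
  have hzw' : zw ≤ z := ((le_max_left _ _).trans (le_max_left _ _)).trans hz
  have hzm' : zm ≤ z := ((le_max_right _ _).trans (le_max_left _ _)).trans hz
  have hz4 : (4 : ℝ) ≤ z := (le_max_right _ _).trans hz
  have hz0 : 0 < z := by linarith
  have hz1 : 1 ≤ z := by linarith
  have hM0 : 0 < M := by linarith
  have hlM : 0 ≤ Real.log M := Real.log_nonneg hM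
  have hlz : 1 ≤ Real.log z := by
    rw [Real.le_log_iff_exp_le hz0]
    have := Real.exp_one_lt_d9
    linarith
  have hhM : 0 < h * M := by positivity
  have habs := hw z hzw' M h hM hh hh1 hhz
  constructor
  · rcases lt_or_ge M (z ^ (101 : ℕ)) with hMz | hMz
    · have h1 : ‖∑ n ∈ Ioc ⌊M⌋₊ ⌊M * Real.exp h⌋₊, ((rho z n * lam2 n : ℝ) : ℂ) * g n‖ ≤
          ∑ n ∈ Ioc ⌊M⌋₊ ⌊M * Real.exp h⌋₊, rho z n * lam2 n := by
        refine (norm_sum_le _ _).trans (Finset.sum_le_sum fun n _ => ?_)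
        have h0 : 0 ≤ rho z n * lam2 n := mul_nonneg (selb_rho_nonneg z n) (selb_lam2_nonneg n)
        rw [norm_mul, Complex.norm_real, Real.norm_of_nonneg h0]
        exact mul_le_of_le_one_right h0 (hg.bd n)
      have h2 : Real.log M ≤ 101 * Real.log z := by
        have := Real.log_le_log hM0 hMz.le
        rw [Real.log_pow] at this
        exact_mod_cast this
      have h3 : Cw * (h * M) * (1 + Real.log M) ≤ Cw * (h * M) * (102 * Real.log z) :=
        mul_le_mul_of_nonneg_left (by linarith) (by positivity)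
      have h4 : 0 ≤ 12 * Cm * (h * M) * Real.log z := by positivity
      calc _ ≤ _ := h1
        _ ≤ _ := habs
        _ ≤ _ := h3
        _ ≤ 102 * Cw * (h * M) * Real.log z + 12 * Cm * (h * M) * Real.log z := by linarith
        _ = _ := by ring
    · obtain ⟨huv, hv3, hvu⟩ := selb_win hM hh hh1
      obtain ⟨u, hu⟩ : ∃ u : ℕ, u = ⌊M⌋₊ := ⟨_, rfl⟩
      obtain ⟨v, hv⟩ : ∃ v : ℕ, v = ⌊M * Real.exp h⌋₊ := ⟨_, rfl⟩
      rw [← hu, ← hv] at huv hvu ⊢
      rw [← hv] at hv3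
      have hu1 : M - 1 ≤ u := by
        have := Nat.lt_floor_add_one M
        rw [← hu] at this
        linarith
      have huv' : (u : ℝ) ≤ v := by exact_mod_cast huv
      have hz16 : 0 < z ^ (1 / 16 : ℝ) := Real.rpow_pos_of_pos hz0 _
      have hz8 : z ^ (1 / 16 : ℝ) ≤ z ^ (1 / 8 : ℝ) :=
        Real.rpow_le_rpow_of_exponent_le hz1 (by norm_num)
      have hz18 : (1 : ℝ) ≤ z ^ (1 / 8 : ℝ) := Real.one_le_rpow hz1 (by norm_num)
      have hhz8 : 1 ≤ h * z ^ (1 / 8 : ℝ) := hhz.trans (mul_le_mul_of_nonneg_left hz8 hh.le)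
      have hz101 : z ≤ z ^ (101 : ℕ) := by
        calc z = z ^ 1 := (pow_one z).symm
          _ ≤ z ^ 101 := pow_le_pow_right₀ hz1 (by norm_num)
      have hz100 : z ^ (100 : ℕ) ≤ v := by
        have h1 : 2 * z ^ (100 : ℕ) ≤ z ^ (101 : ℕ) := by
          rw [pow_succ z 100, mul_comm]
          exact mul_le_mul_of_nonneg_left (by linarith) (by positivity)
        have h2 : (1 : ℝ) ≤ z ^ (100 : ℕ) := one_le_pow₀ hz1
        linarith
      have hM4 : 4 ≤ M := by linarith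
      have hhM1 : 1 ≤ h * M := by
        have h1 : z ^ (1 / 16 : ℝ) ≤ z := by
          calc z ^ (1 / 16 : ℝ) ≤ z ^ (1 : ℝ) := Real.rpow_le_rpow_of_exponent_le hz1 (by norm_num)
            _ = z := Real.rpow_one z
        have h2 : h * z ^ (1 / 16 : ℝ) ≤ h * M :=
          mul_le_mul_of_nonneg_left (h1.trans (hz101.trans hMz)) hh.le
        linarith
      have hmono : (v : ℝ) ≤ 3 * (h * M) * z ^ (1 / 8 : ℝ) := by
        have h1 : 3 * M * 1 ≤ 3 * M * (h * z ^ (1 / 8 : ℝ)) :=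
          mul_le_mul_of_nonneg_left hhz8 (by linarith)
        calc (v : ℝ) ≤ 3 * M * 1 := by linarith
          _ ≤ _ := h1
          _ = _ := by ring
      have key : ‖∑ n ∈ Ioc u v, ((rho z n * lam2 n : ℝ) : ℂ) * g n‖ ≤
          12 * Cm * (h * M) * Real.log z := by
        rcases le_or_gt h (1 / 4) with h4 | h4
        · have h1 := hm z hzm' g hg u v (3 * (h * M)) huv (by linarith) (by nlinarith) hmono hz100
          refine h1.trans ?_
          have h2 : 0 ≤ 9 * Cm * (h * M) * Real.log z := by positivity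
          linarith
        · have hv0 : (0 : ℝ) ≤ v := by positivity
          have h1 := hm z hzm' g hg u v v huv (by
            have : (0 : ℝ) ≤ u := by positivity
            linarith) le_rfl (le_mul_of_one_le_right hv0 hz18) hz100
          refine h1.trans ?_
          have h2 : (v : ℝ) ≤ 12 * (h * M) := by nlinarith
          have h3 : Cm * v * Real.log z ≤ Cm * (12 * (h * M)) * Real.log z :=
            mul_le_mul_of_nonneg_right (mul_le_mul_of_nonneg_left h2 hCm.le) (by linarith)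
          linarith
      have h4 : 0 ≤ 102 * Cw * (h * M) * Real.log z := by positivity
      calc _ ≤ _ := key
        _ ≤ 102 * Cw * (h * M) * Real.log z + 12 * Cm * (h * M) * Real.log z := by linarith
        _ = _ := by ring
  · have h2 : Real.log M ≤ L := by
      have := Real.log_le_log hM0 hML
      rwa [Real.log_exp] at this
    have h3 : Cw * (h * M) * (1 + Real.log M) ≤ Cw * (h * M) * (2 * L) :=
      mul_le_mul_of_nonneg_left (by linarith) (by positivity)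
    have h4 : 0 ≤ (100 * Cw + 12 * Cm) * (h * M) * L := by positivity
    calc _ ≤ _ := habs
      _ ≤ _ := h3
      _ ≤ Cw * (h * M) * (2 * L) + (100 * Cw + 12 * Cm) * (h * M) * L := by linarith
      _ = _ := by ring

end Pool.MP_dd84fd_nt.QZ
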