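import Pool.Agent.Lib.MP_dd84fd_nt.QZ.Defs

/-!
# QZ-Seq: pigeonhole for two sequences (pure real analysis).  Prefix aux lemmas `seq_`.

PROOF. `b_k = (1/k)∑_{i<k} G_i`; `Dq h G k = h k (b_k - G_k)`; `b_{k+1} - b_k = (G_k - b_k)/(k+1)`.  `β_k := b_k + 2Al/(hk)`: for `k ≤ K`
`β_{k+1} - β_k = -(Dq_k + 2Al)/(h k (k+1)) ≤ 0`, and `Dq_k + 2Al ≥ Al > 0`.  (1)
`G_K ≥ lam` and `Dq_K ≥ -Al` give `b_K ≥ lam - Al/(hK)`, so `b_k ≥ (3/4) lam` for `hk ≥ C l`, `k ≤ K` (β decreasing).  (2)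
Fix an integer `κ ≥ 2` and `J` large (depending on A, lam, ε).  With `k_0 = ⌈C₀ l/h⌉` (C₀ large; note `h ≤ l`), blocks `[κ^j k_0, κ^(j+1) k_0)`,
`j < J`, lie in `[k_0, min(K1,K2)]` if `δ0` is small (`κ^J (C₀+1) δ0 ≤ c`).  Summing (1) over all blocks for both sequences: some block
`[a, κa)` has `∑_{k} (Dq1_k + Dq2_k + 4Al)/(h k (k+1)) ≤ (2A + 2 + small)/J =: ε1` (total decrease of β1 + β2 ≤ 2A + 4Al/(h k_0)).
So with `N = κa`: `∑_{a ≤ k < N} (Dq1 + Dq2 + 4Al) ≤ ε1 h N²`; for `k < a`: `Dq_k ≤ h k A`, `h ∑_{k<a} ≤ A (ha)² = A (hN)²/κ²`.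
Pick `k ∈ [N/2, N)` (κ ≥ 2, so `N/2 ≥ a`) with `Dq1_k + Dq2_k + 4Al ≤ 4 ε1 h N ≤ 8 ε1 h k`.  Then all claims hold for ε1, 1/κ² small:
`h ∑_{i<k} Dq_i ≤ h ∑_{i<N} (Dq_i + 2Al)` (terms `≥ 0`) `≤ (ε1 + A/κ² + 2Al/(hN)) (hN)²`, `hN ≤ 2hk`; `G_k = b_k - Dq_k/(hk) ≥ lam/2`;
`l ≤ ε h k` by C₀ large.
-/

set_option autoImplicit false

namespace Pool.MP_dd84fd_nt.QZ

open Finset
open Pool.MP_dd84fd_nt.En (Rough rho)

/-- the decreasing quantity -/
private noncomputable def seq_be (h l A : ℝ) (G : ℕ → ℝ) (k : ℕ) : ℝ :=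
  (∑ i ∈ range k, G i) / k + 2 * (A * l) / (h * k)

private theorem seq_step {h l A : ℝ} {G : ℕ → ℝ} (hh : 0 < h) {k : ℕ} (hk : 1 ≤ k) :
    seq_be h l A G (k + 1) =
      seq_be h l A G k - (Dq h G k + 2 * (A * l)) / (h * k * (k + 1)) := by
  have hk0 : (0 : ℝ) < k := by exact_mod_cast hk
  have hk1 : (k : ℝ) + 1 ≠ 0 := by positivity
  unfold seq_be Dq
  rw [sum_range_succ]
  push_cast
  field_simp
  ring

private theorem seq_tel {h l A : ℝ} {G : ℕ → ℝ} (hh : 0 < h) {m n : ℕ} (hm : 1 ≤ m)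
    (hmn : m ≤ n) :
    ∑ k ∈ Ico m n, (Dq h G k + 2 * (A * l)) / (h * k * (k + 1)) =
      seq_be h l A G m - seq_be h l A G n := by
  induction n, hmn using Nat.le_induction with
  | base => simp
  | succ n hmn ih =>
    rw [sum_Ico_succ_top hmn, ih, seq_step hh (hm.trans hmn)]
    ring

private theorem seq_anti {h l A : ℝ} {G : ℕ → ℝ} {K : ℕ} (hh : 0 < h) (hl : 0 < l) (hA : 1 ≤ A)
    (hD : ∀ k ≤ K, -(A * l) ≤ Dq h G k) {m n : ℕ} (hm : 1 ≤ m) (hmn : m ≤ n) (hn : n ≤ K) :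
    seq_be h l A G n ≤ seq_be h l A G m := by
  have hAl : 0 < A * l := by positivity
  have h1 := seq_tel (l := l) (A := A) (G := G) hh hm hmn
  have h2 : 0 ≤ ∑ k ∈ Ico m n, (Dq h G k + 2 * (A * l)) / (h * k * (k + 1)) := by
    apply sum_nonneg
    intro k hk
    have hk' := mem_Ico.1 hk
    have := hD k (by omega)
    apply div_nonneg (by linarith)
    positivity
  linarith

/-- lower bound for the means -/
private theorem seq_low {h l A lam : ℝ} {G : ℕ → ℝ} {K : ℕ} (hh : 0 < h) (hl : 0 < l) (hA : 1 ≤ A)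
    (hD : ∀ k ≤ K, -(A * l) ≤ Dq h G k) (hG : lam ≤ G K) {k : ℕ} (hk : 1 ≤ k) (hkK : k ≤ K) :
    lam - 2 * (A * l) / (h * k) ≤ (∑ i ∈ range k, G i) / k := by
  have hAl : 0 < A * l := by positivity
  have h1 := seq_anti hh hl hA hD hk hkK le_rfl
  have hK0 : (0 : ℝ) < K := by exact_mod_cast (hk.trans hkK)
  have h2 := hD K le_rfl
  have h3 : lam ≤ seq_be h l A G K := by
    unfold seq_be
    unfold Dq at h2
    have h4 : G K - (A * l) / (h * K) ≤ (∑ i ∈ range K, G i) / K := by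
      rw [le_div_iff₀ hK0, sub_mul]
      have h5 : (A * l) / (h * K) * K = (A * l) / h := by field_simp
      rw [h5]
      have h6 : h * (K * G K) - A * l ≤ h * ∑ i ∈ range K, G i := by nlinarith
      have h7 : A * l / h * h = A * l := by field_simp
      nlinarith
    have h8 : (A * l) / (h * K) ≤ 2 * (A * l) / (h * K) := by
      apply div_le_div_of_nonneg_right _ (by positivity)
      linarith
    linarith
  unfold seq_be at h1 h3
  linarith

theorem seq (A lam ε c : ℝ) (hA : 1 ≤ A) (hlam : 0 < lam) (hε : 0 < ε) (hc : 0 < c) :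
    ∃ δ0 : ℝ, 0 < δ0 ∧ ∀ (h l L : ℝ) (G1 G2 : ℕ → ℝ) (K1 K2 : ℕ), 0 < h → h ≤ l → 0 < L →
    l ≤ δ0 * L → c * L ≤ h * K1 → c * L ≤ h * K2 →
    (∀ k, 0 ≤ G1 k ∧ G1 k ≤ A) → (∀ k, 0 ≤ G2 k ∧ G2 k ≤ A) →
    (∀ k ≤ K1, -(A * l) ≤ Dq h G1 k) → (∀ k ≤ K2, -(A * l) ≤ Dq h G2 k) →
    lam ≤ G1 K1 → lam ≤ G2 K2 →
    ∃ k : ℕ, k ≤ K1 ∧ k ≤ K2 ∧ l ≤ ε * (h * k) ∧ lam / 2 ≤ G1 k ∧ lam / 2 ≤ G2 k ∧
      Dq h G1 k ≤ ε * (h * k) ∧ Dq h G2 k ≤ ε * (h * k) ∧
      h * ∑ i ∈ range k, Dq h G1 i ≤ ε * (h * k) ^ 2 ∧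
      h * ∑ i ∈ range k, Dq h G2 i ≤ ε * (h * k) ^ 2 := by
  obtain ⟨κ0, hκ0⟩ := exists_nat_gt (12 * A / ε)
  obtain ⟨J0, hJ0⟩ := exists_nat_gt ((2 * A + 1) * (12 / ε + 16 / lam))
  obtain ⟨C0, hC0⟩ := exists_nat_gt (6 * A / ε + 8 * A / lam + 1 / ε + 4 * A + 1)
  obtain ⟨κ, hκ⟩ : ∃ κ : ℕ, κ = 2 * (κ0 + 1) := ⟨_, rfl⟩
  obtain ⟨J, hJ⟩ : ∃ J : ℕ, J = J0 + 1 := ⟨_, rfl⟩
  have hA0 : 0 < A := by linarith
  have hκ2 : 2 ≤ κ := by omega
  have hκr : (2 : ℝ) ≤ κ := by exact_mod_cast hκ2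
  have hκA : 12 * A / ε ≤ (κ : ℝ) := by
    have : (κ : ℝ) = 2 * (κ0 + 1) := by rw [hκ]; push_cast; ring
    have h0 : (0 : ℝ) ≤ κ0 := by positivity
    linarith
  have hJpos : (0 : ℝ) < J := by rw [hJ]; positivity
  have hJA : (2 * A + 1) * (12 / ε + 16 / lam) ≤ (J : ℝ) := by
    have : (J : ℝ) = J0 + 1 := by rw [hJ]; push_cast; ring
    linarith
  have e1 : 0 < 6 * A / ε := by positivity
  have e2 : 0 < 8 * A / lam := by positivity
  have e3 : 0 < 1 / ε := by positivity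
  have hC1 : (1 : ℝ) ≤ C0 := by linarith
  have hCa : 6 * A / ε ≤ (C0 : ℝ) := by linarith
  have hCb : 8 * A / lam ≤ (C0 : ℝ) := by linarith
  have hCc : 1 / ε ≤ (C0 : ℝ) := by linarith
  have hCd : 4 * A ≤ (C0 : ℝ) := by linarith
  have hκJ : (0 : ℝ) < (κ : ℝ) ^ J := by positivity
  refine ⟨c / ((κ : ℝ) ^ J * (C0 + 1)), by positivity, ?_⟩
  intro h l L G1 G2 K1 K2 hh hhl hL hlL hcK1 hcK2 hG1 hG2 hD1 hD2 hlam1 hlam2
  have hl : 0 < l := lt_of_lt_of_le hh hhl
  have hAl : 0 < A * l := by positivity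
  obtain ⟨k0, hk0def⟩ : ∃ k0 : ℕ, k0 = ⌈(C0 : ℝ) * l / h⌉₊ := ⟨_, rfl⟩
  have hlh : 1 ≤ l / h := by rw [le_div_iff₀ hh]; linarith
  have hk0a : (C0 : ℝ) * l ≤ h * k0 := by
    have := Nat.le_ceil ((C0 : ℝ) * l / h)
    rw [← hk0def, div_le_iff₀ hh] at this
    linarith
  have hk0b : h * k0 ≤ (C0 + 1) * l := by
    have := (Nat.ceil_lt_add_one (a := (C0 : ℝ) * l / h) (by positivity)).le
    rw [← hk0def] at this
    have h1 : (k0 : ℝ) * h ≤ ((C0 : ℝ) * l / h + 1) * h := mul_le_mul_of_nonneg_right this hh.le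
    have h2 : ((C0 : ℝ) * l / h + 1) * h = C0 * l + h := by field_simp
    rw [h2] at h1
    nlinarith
  have hk0pos : 1 ≤ k0 := by
    rcases Nat.eq_zero_or_pos k0 with h0 | h0
    · exfalso
      rw [h0] at hk0a
      have : 0 < (C0 : ℝ) * l := by positivity
      simp at hk0a
      linarith
    · exact h0
  -- the end of the range
  have hend : h * ((κ ^ J * k0 : ℕ) : ℝ) ≤ c * L := by
    have h1 : h * ((κ ^ J * k0 : ℕ) : ℝ) = (κ : ℝ) ^ J * (h * k0) := by push_cast; ring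
    rw [h1]
    have h2 : (κ : ℝ) ^ J * (h * k0) ≤ (κ : ℝ) ^ J * ((C0 + 1) * l) :=
      mul_le_mul_of_nonneg_left hk0b hκJ.le
    have h3 : (κ : ℝ) ^ J * ((C0 + 1) * l) ≤
        (κ : ℝ) ^ J * ((C0 + 1) * (c / ((κ : ℝ) ^ J * (C0 + 1)) * L)) := by
      apply mul_le_mul_of_nonneg_left _ hκJ.le
      apply mul_le_mul_of_nonneg_left hlL (by positivity)
    have h4 : (κ : ℝ) ^ J * ((C0 + 1) * (c / ((κ : ℝ) ^ J * (C0 + 1)) * L)) = c * L := by
      field_simp
    linarith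
  have hE1 : κ ^ J * k0 ≤ K1 := by
    have : h * ((κ ^ J * k0 : ℕ) : ℝ) ≤ h * K1 := hend.trans hcK1
    exact_mod_cast le_of_mul_le_mul_left this hh
  have hE2 : κ ^ J * k0 ≤ K2 := by
    have : h * ((κ ^ J * k0 : ℕ) : ℝ) ≤ h * K2 := hend.trans hcK2
    exact_mod_cast le_of_mul_le_mul_left this hh
  -- the weights
  let w : ℕ → ℝ := fun k => (Dq h G1 k + Dq h G2 k + 4 * (A * l)) / (h * k * (k + 1))
  have hw : ∀ m n : ℕ, 1 ≤ m → m ≤ n → ∑ k ∈ Ico m n, w k =
      (seq_be h l A G1 m + seq_be h l A G2 m) - (seq_be h l A G1 n + seq_be h l A G2 n) := by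
    intro m n hm hmn
    have h1 := seq_tel (l := l) (A := A) (G := G1) hh hm hmn
    have h2 := seq_tel (l := l) (A := A) (G := G2) hh hm hmn
    have h3 : ∑ k ∈ Ico m n, w k =
        ∑ k ∈ Ico m n, (Dq h G1 k + 2 * (A * l)) / (h * k * (k + 1)) +
        ∑ k ∈ Ico m n, (Dq h G2 k + 2 * (A * l)) / (h * k * (k + 1)) := by
      rw [← sum_add_distrib]
      apply sum_congr rfl
      intro k _
      simp only [w]
      rw [← add_div]
      congr 1
      ring
    rw [h3, h1, h2]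
    ring
  have hbnn : ∀ (G : ℕ → ℝ), (∀ k, 0 ≤ G k ∧ G k ≤ A) → ∀ k : ℕ, 0 ≤ seq_be h l A G k := by
    intro G hG k
    unfold seq_be
    apply add_nonneg
    · exact div_nonneg (sum_nonneg fun i _ => (hG i).1) (by positivity)
    · positivity
  have hbup : ∀ (G : ℕ → ℝ), (∀ k, 0 ≤ G k ∧ G k ≤ A) → seq_be h l A G k0 ≤ A + 1 / 2 := by
    intro G hG
    unfold seq_be
    have hk0r : (0 : ℝ) < k0 := by exact_mod_cast hk0pos
    have h1 : (∑ i ∈ range k0, G i) / k0 ≤ A := by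
      rw [div_le_iff₀ hk0r]
      calc ∑ i ∈ range k0, G i ≤ ∑ i ∈ range k0, A := sum_le_sum fun i _ => (hG i).2
        _ = A * k0 := by simp [mul_comm]
    have h2 : 2 * (A * l) / (h * k0) ≤ 1 / 2 := by
      rw [div_le_iff₀ (by positivity)]
      have : 4 * A * l ≤ C0 * l := mul_le_mul_of_nonneg_right hCd hl.le
      linarith
    linarith
  -- total
  have htot : ∑ k ∈ Ico k0 (κ ^ J * k0), w k ≤ 2 * A + 1 := by
    have hle : k0 ≤ κ ^ J * k0 := Nat.le_mul_of_pos_left _ (by positivity)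
    rw [hw k0 _ hk0pos hle]
    have := hbnn G1 hG1 (κ ^ J * k0)
    have := hbnn G2 hG2 (κ ^ J * k0)
    have := hbup G1 hG1
    have := hbup G2 hG2
    linarith
  -- blocks
  have hblocks : ∀ n : ℕ, ∑ j ∈ range n, ∑ k ∈ Ico (κ ^ j * k0) (κ ^ (j + 1) * k0), w k =
      ∑ k ∈ Ico k0 (κ ^ n * k0), w k := by
    intro n
    induction n with
    | zero => simp
    | succ n ih =>
      rw [sum_range_succ, ih, sum_Ico_consecutive]
      · exact Nat.le_mul_of_pos_left _ (by positivity)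
      · apply Nat.mul_le_mul_right
        exact Nat.pow_le_pow_right (by omega) (by omega)
  obtain ⟨j, hj, hjs⟩ : ∃ j ∈ range J,
      ∑ k ∈ Ico (κ ^ j * k0) (κ ^ (j + 1) * k0), w k ≤ (2 * A + 1) / J := by
    apply exists_le_of_sum_le (by rw [nonempty_range_iff]; omega)
    rw [hblocks J]
    simp only [sum_const, card_range, nsmul_eq_mul]
    rw [mul_div_cancel₀ _ hJpos.ne']
    exact htot
  have hjJ : j < J := mem_range.1 hj
  obtain ⟨a, ha⟩ : ∃ a : ℕ, a = κ ^ j * k0 := ⟨_, rfl⟩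
  obtain ⟨N, hN⟩ : ∃ N : ℕ, N = κ ^ (j + 1) * k0 := ⟨_, rfl⟩
  obtain ⟨ε1, hε1⟩ : ∃ ε1 : ℝ, ε1 = (2 * A + 1) / J := ⟨_, rfl⟩
  rw [← ha, ← hN, ← hε1] at hjs
  have hNa : N = κ * a := by rw [hN, ha]; ring
  have hapos : k0 ≤ a := by rw [ha]; exact Nat.le_mul_of_pos_left _ (by positivity)
  have hNK : N ≤ κ ^ J * k0 := by
    rw [hN]
    apply Nat.mul_le_mul_right
    exact Nat.pow_le_pow_right (by omega) (by omega)
  have hNK1 : N ≤ K1 := hNK.trans hE1
  have hNK2 : N ≤ K2 := hNK.trans hE2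
  obtain ⟨M, hM⟩ : ∃ M : ℕ, M = (κ0 + 1) * a := ⟨_, rfl⟩
  have hNM : N = 2 * M := by rw [hNa, hM, hκ]; ring
  have haM : a ≤ M := by rw [hM]; exact Nat.le_mul_of_pos_left _ (by omega)
  have hapos1 : 1 ≤ a := hk0pos.trans hapos
  have hMpos : 1 ≤ M := hapos1.trans haM
  have hε1pos : 0 < ε1 := by rw [hε1]; positivity
  have hε1a : 4 * ε1 ≤ ε / 3 := by
    have : (2 * A + 1) * (12 / ε) ≤ J := by
      refine le_trans ?_ hJA
      apply mul_le_mul_of_nonneg_left _ (by positivity)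
      have : 0 < 16 / lam := by positivity
      linarith
    rw [hε1, ← mul_div_assoc, div_le_iff₀ hJpos]
    have h2 : ε / 3 * ((2 * A + 1) * (12 / ε)) = 4 * (2 * A + 1) := by field_simp; norm_num
    calc 4 * (2 * A + 1) = ε / 3 * ((2 * A + 1) * (12 / ε)) := h2.symm
      _ ≤ ε / 3 * J := mul_le_mul_of_nonneg_left this (by positivity)
  have hε1b : 4 * ε1 ≤ lam / 4 := by
    have : (2 * A + 1) * (16 / lam) ≤ J := by
      refine le_trans ?_ hJA
      apply mul_le_mul_of_nonneg_left _ (by positivity)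
      have : 0 < 12 / ε := by positivity
      linarith
    rw [hε1, ← mul_div_assoc, div_le_iff₀ hJpos]
    have h2 : lam / 4 * ((2 * A + 1) * (16 / lam)) = 4 * (2 * A + 1) := by field_simp; norm_num
    calc 4 * (2 * A + 1) = lam / 4 * ((2 * A + 1) * (16 / lam)) := h2.symm
      _ ≤ lam / 4 * J := mul_le_mul_of_nonneg_left this (by positivity)
  -- the sum over the block, without weights
  have hNr : (0 : ℝ) < N := by
    have : 1 ≤ N := by omega
    exact_mod_cast this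
  have hblock : ∑ k ∈ Ico a N, (Dq h G1 k + Dq h G2 k + 4 * (A * l)) ≤ ε1 * (h * N ^ 2) := by
    have h1 : ∑ k ∈ Ico a N, (Dq h G1 k + Dq h G2 k + 4 * (A * l)) / (h * N ^ 2) ≤
        ∑ k ∈ Ico a N, w k := by
      apply sum_le_sum
      intro k hk
      have hk' := mem_Ico.1 hk
      have hkr : (0 : ℝ) < k := by
        have : 1 ≤ k := by omega
        exact_mod_cast this
      have q1 := hD1 k (by omega)
      have q2 := hD2 k (by omega)
      simp only [w]
      apply div_le_div_of_nonneg_left (by linarith) (by positivity)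
      have q3 : (k : ℝ) + 1 ≤ N := by exact_mod_cast hk'.2
      have q4 : (k : ℝ) ≤ N := by linarith
      calc h * k * (k + 1) = h * (k * (k + 1)) := by ring
        _ ≤ h * (N * N) := by
          apply mul_le_mul_of_nonneg_left _ hh.le
          exact mul_le_mul q4 q3 (by positivity) hNr.le
        _ = h * N ^ 2 := by ring
    rw [← sum_div] at h1
    have h2 := h1.trans hjs
    rw [div_le_iff₀ (by positivity)] at h2
    exact h2
  -- choice of `k`
  have hD1n : ∀ k ≤ N, 0 < Dq h G1 k + 2 * (A * l) := by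
    intro k hk
    have := hD1 k (by omega)
    linarith
  have hD2n : ∀ k ≤ N, 0 < Dq h G2 k + 2 * (A * l) := by
    intro k hk
    have := hD2 k (by omega)
    linarith
  obtain ⟨k, hk, hks⟩ : ∃ k ∈ Ico M N,
      Dq h G1 k + Dq h G2 k + 4 * (A * l) ≤ 2 * ε1 * (h * N) := by
    apply exists_le_of_sum_le (by rw [nonempty_Ico]; omega)
    have h1 : ∑ k ∈ Ico M N, (Dq h G1 k + Dq h G2 k + 4 * (A * l)) ≤
        ∑ k ∈ Ico a N, (Dq h G1 k + Dq h G2 k + 4 * (A * l)) := by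
      apply sum_le_sum_of_subset_of_nonneg
      · exact Ico_subset_Ico_left haM
      · intro i hi _
        have hi' := mem_Ico.1 hi
        have := hD1n i (by omega)
        have := hD2n i (by omega)
        linarith
    refine h1.trans (hblock.trans (le_of_eq ?_))
    rw [sum_const, Nat.card_Ico, nsmul_eq_mul, hNM]
    have : 2 * M - M = M := by omega
    rw [this]
    push_cast
    ring
  have hk' := mem_Ico.1 hk
  have hkpos : 1 ≤ k := by omega
  have hkr : (0 : ℝ) < k := by exact_mod_cast hkpos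
  have hNk : (N : ℝ) ≤ 2 * k := by
    have : N ≤ 2 * k := by omega
    exact_mod_cast this
  have hNk' : h * N ≤ 2 * (h * k) := by
    have := mul_le_mul_of_nonneg_left hNk hh.le
    linarith
  have hks' : Dq h G1 k + Dq h G2 k + 4 * (A * l) ≤ 4 * ε1 * (h * k) := by
    have : 2 * ε1 * (h * N) ≤ 2 * ε1 * (2 * (h * k)) :=
      mul_le_mul_of_nonneg_left hNk' (by positivity)
    linarith
  have hk1 := hD1n k (by omega)
  have hk2 := hD2n k (by omega)
  have hd1 : Dq h G1 k ≤ 4 * ε1 * (h * k) := by linarith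
  have hd2 : Dq h G2 k ≤ 4 * ε1 * (h * k) := by linarith
  have hhk : 0 < h * k := by positivity
  have hkk0 : (C0 : ℝ) * l ≤ h * k := by
    refine hk0a.trans (mul_le_mul_of_nonneg_left ?_ hh.le)
    have : k0 ≤ k := by omega
    exact_mod_cast this
  -- lower bound for G
  have hGlow : ∀ (G : ℕ → ℝ) (K : ℕ), (∀ k ≤ K, -(A * l) ≤ Dq h G k) → lam ≤ G K → k ≤ K →
      Dq h G k ≤ 4 * ε1 * (h * k) → lam / 2 ≤ G k := by
    intro G K hD hG hkK hd
    have h1 := seq_low hh hl hA hD hG hkpos hkK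
    have h2 : 2 * (A * l) / (h * k) ≤ lam / 4 := by
      rw [div_le_iff₀ hhk]
      have h3 : 8 * A / lam * l ≤ h * k := (mul_le_mul_of_nonneg_right hCb hl.le).trans hkk0
      have h4 : lam / 4 * (8 * A / lam * l) = 2 * (A * l) := by field_simp; ring
      calc 2 * (A * l) = lam / 4 * (8 * A / lam * l) := h4.symm
        _ ≤ lam / 4 * (h * k) := mul_le_mul_of_nonneg_left h3 (by positivity)
    have h5 : (∑ i ∈ range k, G i) / k = G k + Dq h G k / (h * k) := by
      unfold Dq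
      field_simp
      ring
    have h6 : Dq h G k / (h * k) ≤ 4 * ε1 := by
      rw [div_le_iff₀ hhk]
      exact hd
    linarith
  -- bound for the sums
  have hsum : ∀ (G : ℕ → ℝ), (∀ k, 0 ≤ G k ∧ G k ≤ A) → (∀ k ≤ N, 0 < Dq h G k + 2 * (A * l)) →
      ∑ i ∈ Ico a N, (Dq h G i + 2 * (A * l)) ≤ ε1 * (h * N ^ 2) →
      h * ∑ i ∈ range k, Dq h G i ≤ ε * (h * k) ^ 2 := by
    intro G hG hD hS
    have h1 : ∑ i ∈ range k, Dq h G i ≤ ∑ i ∈ range N, (Dq h G i + 2 * (A * l)) := by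
      calc ∑ i ∈ range k, Dq h G i ≤ ∑ i ∈ range k, (Dq h G i + 2 * (A * l)) :=
            sum_le_sum fun i _ => by linarith
        _ ≤ ∑ i ∈ range N, (Dq h G i + 2 * (A * l)) := by
          apply sum_le_sum_of_subset_of_nonneg
          · exact range_subset_range.2 (by omega)
          · intro i hi _
            exact (hD i (mem_range.1 hi).le).le
    have h2 : ∑ i ∈ range N, (Dq h G i + 2 * (A * l)) =
        ∑ i ∈ range a, (Dq h G i + 2 * (A * l)) + ∑ i ∈ Ico a N, (Dq h G i + 2 * (A * l)) := by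
      rw [range_eq_Ico, range_eq_Ico, sum_Ico_consecutive _ (Nat.zero_le _) (by omega)]
    have h3 : ∑ i ∈ range a, (Dq h G i + 2 * (A * l)) ≤ a * (h * a * A + 2 * (A * l)) := by
      calc ∑ i ∈ range a, (Dq h G i + 2 * (A * l))
          ≤ ∑ i ∈ range a, (h * a * A + 2 * (A * l)) := by
            apply sum_le_sum
            intro i hi
            have hia := mem_range.1 hi
            have q1 : ∑ t ∈ range i, G t ≤ a * A := by
              calc ∑ t ∈ range i, G t ≤ ∑ t ∈ range i, A := sum_le_sum fun t _ => (hG t).2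
                _ = i * A := by simp
                _ ≤ a * A := by
                  apply mul_le_mul_of_nonneg_right _ hA0.le
                  exact_mod_cast hia.le
            have q2 : 0 ≤ h * i * G i := by
              have := (hG i).1
              positivity
            have q3 := mul_le_mul_of_nonneg_left q1 hh.le
            unfold Dq
            nlinarith
        _ = a * (h * a * A + 2 * (A * l)) := by rw [sum_const, card_range, nsmul_eq_mul]
    have har : (0 : ℝ) < a := by exact_mod_cast hapos1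
    have hNar : (N : ℝ) = κ * a := by rw [hNa]; push_cast; ring
    have hha : h * a ≤ 2 * (h * k) / κ := by
      rw [le_div_iff₀ (by positivity)]
      calc h * a * κ = h * N := by rw [hNar]; ring
        _ ≤ 2 * (h * k) := hNk'
    have hl2 : l ≤ h * k / C0 := by
      rw [le_div_iff₀ (by positivity)]
      linarith
    -- the three pieces
    have p1 : (h * a) * (h * a * A) ≤ ε / 3 * (h * k) ^ 2 := by
      have s1 : (h * a) * (h * a * A) ≤ (2 * (h * k) / κ) * ((2 * (h * k) / κ) * A) := by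
        apply mul_le_mul hha _ (by positivity) (by positivity)
        exact mul_le_mul_of_nonneg_right hha hA0.le
      have s2 : (2 * (h * k) / κ) * ((2 * (h * k) / κ) * A) = (4 * A / κ ^ 2) * (h * k) ^ 2 := by
        field_simp
        ring
      have s3 : 4 * A / (κ : ℝ) ^ 2 ≤ ε / 3 := by
        rw [div_le_iff₀ (by positivity)]
        have t1 : 12 * A ≤ ε * κ := by
          have := mul_le_mul_of_nonneg_left hκA hε.le
          have t2 : ε * (12 * A / ε) = 12 * A := by field_simp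
          linarith
        nlinarith
      rw [s2] at s1
      exact s1.trans (mul_le_mul_of_nonneg_right s3 (by positivity))
    have p2 : (h * a) * (2 * (A * l)) ≤ ε / 3 * (h * k) ^ 2 := by
      have s1 : (h * a) * (2 * (A * l)) ≤ (2 * (h * k) / κ) * (2 * (A * (h * k / C0))) := by
        apply mul_le_mul hha _ (by positivity) (by positivity)
        apply mul_le_mul_of_nonneg_left _ (by norm_num)
        exact mul_le_mul_of_nonneg_left hl2 hA0.le
      have s2 : (2 * (h * k) / κ) * (2 * (A * (h * k / C0))) =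
          (4 * A / (κ * C0)) * (h * k) ^ 2 := by
        field_simp
        ring
      have s3 : 4 * A / ((κ : ℝ) * C0) ≤ ε / 3 := by
        rw [div_le_iff₀ (by positivity)]
        have t1 : 6 * A ≤ ε * C0 := by
          have := mul_le_mul_of_nonneg_left hCa hε.le
          have t2 : ε * (6 * A / ε) = 6 * A := by field_simp
          linarith
        have t3 : 2 * (ε * C0) ≤ κ * (ε * C0) := by
          apply mul_le_mul_of_nonneg_right hκr
          positivity
        nlinarith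
      rw [s2] at s1
      exact s1.trans (mul_le_mul_of_nonneg_right s3 (by positivity))
    have p3 : h * (ε1 * (h * N ^ 2)) ≤ ε / 3 * (h * k) ^ 2 := by
      have s1 : h * (ε1 * (h * N ^ 2)) = ε1 * (h * N) ^ 2 := by ring
      have s2 : (h * N) ^ 2 ≤ (2 * (h * k)) ^ 2 := by
        apply pow_le_pow_left₀ (by positivity) hNk'
      rw [s1]
      calc ε1 * (h * N) ^ 2 ≤ ε1 * (2 * (h * k)) ^ 2 := mul_le_mul_of_nonneg_left s2 hε1pos.le
        _ = (4 * ε1) * (h * k) ^ 2 := by ring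
        _ ≤ ε / 3 * (h * k) ^ 2 := mul_le_mul_of_nonneg_right hε1a (by positivity)
    have h4 : h * ∑ i ∈ range k, Dq h G i ≤
        h * (a * (h * a * A + 2 * (A * l)) + ε1 * (h * N ^ 2)) := by
      apply mul_le_mul_of_nonneg_left _ hh.le
      rw [h2] at h1
      linarith
    have h5 : h * (a * (h * a * A + 2 * (A * l)) + ε1 * (h * N ^ 2)) =
        (h * a) * (h * a * A) + (h * a) * (2 * (A * l)) + h * (ε1 * (h * N ^ 2)) := by ring
    rw [h5] at h4
    linarith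
  have hS1 : ∑ i ∈ Ico a N, (Dq h G1 i + 2 * (A * l)) ≤ ε1 * (h * N ^ 2) := by
    refine le_trans ?_ hblock
    apply sum_le_sum
    intro i hi
    have := hD2n i (mem_Ico.1 hi).2.le
    linarith
  have hS2 : ∑ i ∈ Ico a N, (Dq h G2 i + 2 * (A * l)) ≤ ε1 * (h * N ^ 2) := by
    refine le_trans ?_ hblock
    apply sum_le_sum
    intro i hi
    have := hD1n i (mem_Ico.1 hi).2.le
    linarith
  have hε1c : 4 * ε1 ≤ ε := by linarith
  have hdε : 4 * ε1 * (h * k) ≤ ε * (h * k) := mul_le_mul_of_nonneg_right hε1c hhk.le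
  refine ⟨k, by omega, by omega, ?_, hGlow G1 K1 hD1 hlam1 (by omega) hd1,
    hGlow G2 K2 hD2 hlam2 (by omega) hd2, hd1.trans hdε, hd2.trans hdε,
    hsum G1 hG1 hD1n hS1, hsum G2 hG2 hD2n hS2⟩
  have t1 : 1 / ε * l ≤ h * k := (mul_le_mul_of_nonneg_right hCc hl.le).trans hkk0
  have t2 : ε * (1 / ε * l) = l := by field_simp
  calc l = ε * (1 / ε * l) := t2.symm
    _ ≤ ε * (h * k) := mul_le_mul_of_nonneg_left t1 hε.le

end Pool.MP_dd84fd_nt.QZ
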