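import Pool.Agent.Lib.MP_dd84fd_nt.QZ.SelA
import Pool.Agent.Lib.MP_dd84fd_nt.QZ.BtA

/-!
# QZ-SysA: `uu` satisfies `Sys`.  Prefix aux lemmas `sysa_`.

`τ = β - α`, so `τ ≥ z^(-1/16)`.  For `y < z`: `βy < z`, no `n ≤ βy` has `La z n ≠ 0`: `uu = 0`.
uu_bd: `y ≥ z`: window `(⌊αy⌋, ⌊βy⌋]`, length `≤ τy + 1 ≤ 2τy = H`, `v ≤ y ≤ H z^(1/8)`: bt gives `‖uu‖ ≤ 2C`.
slow: `y' < z`: 0.  Else `y ≥ z/3`; the windows of `y`, `y'` differ in `(⌊αy⌋, ⌊αy'⌋]`, `(⌊βy⌋, ⌊βy'⌋]`, lengths `≤ 2hy + 1 ≤ 3hy`: bt with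
`H = 3hy'` (`v ≤ y' ≤ H z^(1/8)`): the sums differ by `≤ C hy'`; divided by `τy`: `≤ C h/τ ≤ C δ`; the factor `1/(τy) - 1/(τy')`
costs `≤ C h ≤ C δ`.
uu_sel: `y < z^101`: trivial: `‖uu‖ log y ≤ 101 C log z`, `∑ La(m)/m ≤ C (1 + log y)` (bt_inv).  `y ≥ z^101`: for `m ≥ 1` the window
of `y/m` is `Ioc (⌊αy⌋/m) (⌊βy⌋/m)` (Nat.floor_div_natCast), so
`∑_{n ∈ win(y)} ∑_{mk = n} La(m) f(m) La(k) f(k) = τy ∑_{m ≤ y} (La(m) f(m)/m) uu(y/m)`.  Hence
`τy (uu(y) log y + ∑ ..) = ∑_{win} rho lam2 f + ∑_{win} La(n) f(n) (log y - log n)`: first `≤ C H log z` by m2 with `H = τy + 1`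
(`H ≤ v`: `v ≥ βy - 1 ≥ 2τy - 1`, since `α ≥ τ`), second: `n > αy ≥ τy`: `0 ≤ log(y/n) ≤ log(1/τ) ≤ log z/16`, bt.
-/

set_option autoImplicit false

namespace Pool.MP_dd84fd_nt.QZ

open Finset
open Pool.MP_dd84fd_nt.En (Rough rho)

private theorem sysa_la_nonneg (z : ℝ) (n : ℕ) : 0 ≤ La z n := by
  unfold La rho
  split_ifs
  · rw [one_mul]
    exact ArithmeticFunction.vonMangoldt_nonneg
  · rw [zero_mul]

private theorem sysa_zero {z : ℝ} {n : ℕ} (h : (n : ℝ) < z) : La z n = 0 := by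
  unfold La
  by_cases hn : IsPrimePow n
  · obtain ⟨p, k, hp, hk, rfl⟩ := hn
    have hp' := hp.nat_prime
    have h1 : ¬ Rough z (p ^ k) := by
      intro hr
      have h1 := hr p hp' (dvd_pow_self p hk.ne')
      have h2 : p ≤ p ^ k := Nat.le_self_pow hk.ne' p
      have h3 : (p : ℝ) ≤ ((p ^ k : ℕ) : ℝ) := by exact_mod_cast h2
      linarith
    unfold rho
    rw [if_neg h1, zero_mul]
  · rw [ArithmeticFunction.vonMangoldt_eq_zero_iff.2 hn, mul_zero]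

private theorem sysa_norm {z : ℝ} {f : ℕ → ℂ} (hf : Ch z f) (S : Finset ℕ) :
    ‖∑ n ∈ S, ((La z n : ℝ) : ℂ) * f n‖ ≤ ∑ n ∈ S, La z n := by
  refine (norm_sum_le _ _).trans (sum_le_sum fun n _ => ?_)
  rw [norm_mul, Complex.norm_real, Real.norm_of_nonneg (sysa_la_nonneg z n)]
  exact mul_le_of_le_one_right (sysa_la_nonneg z n) (hf.bd n)

private theorem sysa_pow {z τ : ℝ} (hz : 1 ≤ z) (hτ : 1 ≤ τ * z ^ (1 / 16 : ℝ)) :
    0 < τ ∧ 1 ≤ τ * z ^ (1 / 8 : ℝ) ∧ 1 ≤ τ * z := by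
  have hz0 : 0 < z := by linarith
  have h1 : 0 < z ^ (1 / 16 : ℝ) := Real.rpow_pos_of_pos hz0 _
  have hτ0 : 0 < τ := by
    by_contra h
    have : τ * z ^ (1 / 16 : ℝ) ≤ 0 := mul_nonpos_of_nonpos_of_nonneg (not_lt.1 h) h1.le
    linarith
  have h2 : z ^ (1 / 16 : ℝ) ≤ z ^ (1 / 8 : ℝ) :=
    Real.rpow_le_rpow_of_exponent_le hz (by norm_num)
  have h3 : z ^ (1 / 16 : ℝ) ≤ z := by
    conv_rhs => rw [← Real.rpow_one z]
    exact Real.rpow_le_rpow_of_exponent_le hz (by norm_num)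
  exact ⟨hτ0, hτ.trans (mul_le_mul_of_nonneg_left h2 hτ0.le),
    hτ.trans (mul_le_mul_of_nonneg_left h3 hτ0.le)⟩

private theorem sysa_win {C z : ℝ} (hz : 1 ≤ z)
    (BT : ∀ (u v : ℕ) (H : ℝ), u ≤ v → (v : ℝ) - u ≤ H → (v : ℝ) ≤ H * z ^ (1 / 8 : ℝ) →
      ∑ n ∈ Ioc u v, La z n ≤ C * H)
    {α β y : ℝ} (hα : 0 ≤ α) (hαβ : α < β) (hβ : β ≤ 1)
    (hτ : 1 ≤ (β - α) * z ^ (1 / 16 : ℝ)) (hy : z ≤ y) :
    ∑ n ∈ Ioc ⌊α * y⌋₊ ⌊β * y⌋₊, La z n ≤ C * (2 * ((β - α) * y)) := by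
  obtain ⟨h0, h1, h2⟩ := sysa_pow hz hτ
  have hy0 : 0 < y := by linarith
  have hβ0 : 0 ≤ β := by linarith
  have h3 : ((⌊β * y⌋₊ : ℕ) : ℝ) ≤ β * y := Nat.floor_le (by positivity)
  have h4 : α * y < (⌊α * y⌋₊ : ℕ) + 1 := Nat.lt_floor_add_one _
  have h5 : 1 ≤ (β - α) * y := h2.trans (mul_le_mul_of_nonneg_left hy h0.le)
  refine BT _ _ _ (Nat.floor_le_floor (mul_le_mul_of_nonneg_right hαβ.le hy0.le)) ?_ ?_
  · nlinarith
  · have h6 : β * y ≤ y := by nlinarith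
    have h7 : y ≤ 2 * ((β - α) * y) * z ^ (1 / 8 : ℝ) := by
      have : 2 * ((β - α) * y) * z ^ (1 / 8 : ℝ) = 2 * y * ((β - α) * z ^ (1 / 8 : ℝ)) := by ring
      rw [this]
      nlinarith
    linarith

private theorem sysa_diff (g : ℕ → ℂ) {a b a' b' : ℕ} (h1 : a ≤ b) (h2 : a' ≤ b') (h3 : a ≤ a')
    (h4 : b ≤ b') : ∑ n ∈ Ioc a' b', g n - ∑ n ∈ Ioc a b, g n =
      ∑ n ∈ Ioc b b', g n - ∑ n ∈ Ioc a a', g n := by
  have e1 := Finset.sum_Ioc_consecutive g h1 h4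
  have e2 := Finset.sum_Ioc_consecutive g h3 h2
  rw [← e1] at e2
  linear_combination e2

private theorem sysa_exp {h : ℝ} (h0 : 0 < h) (h1 : h ≤ 1) : Real.exp h ≤ 1 + 2 * h := by
  have := Real.abs_exp_sub_one_le (x := h) (by rw [abs_of_pos h0]; exact h1)
  rw [abs_of_pos h0] at this
  have h2 := le_abs_self (Real.exp h - 1)
  linarith

private theorem sysa_short {C z : ℝ} (hz : 1 ≤ z)
    (BT : ∀ (u v : ℕ) (H : ℝ), u ≤ v → (v : ℝ) - u ≤ H → (v : ℝ) ≤ H * z ^ (1 / 8 : ℝ) →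
      ∑ n ∈ Ioc u v, La z n ≤ C * H)
    {γ h y y' : ℝ} (hγ : 0 ≤ γ) (hγ1 : γ ≤ 1) (hh : 1 ≤ h * z ^ (1 / 16 : ℝ)) (hy : 0 < y)
    (hyy : y ≤ y') (hd : y' - y ≤ 2 * h * y) (hhy : 1 ≤ h * y) :
    ∑ n ∈ Ioc ⌊γ * y⌋₊ ⌊γ * y'⌋₊, La z n ≤ C * (3 * (h * y')) := by
  obtain ⟨h0, h1, h2⟩ := sysa_pow hz hh
  have hy' : 0 < y' := by linarith
  have h3 : ((⌊γ * y'⌋₊ : ℕ) : ℝ) ≤ γ * y' := Nat.floor_le (by positivity)
  have h4 : γ * y < (⌊γ * y⌋₊ : ℕ) + 1 := Nat.lt_floor_add_one _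
  refine BT _ _ _ (Nat.floor_le_floor (mul_le_mul_of_nonneg_left hyy hγ)) ?_ ?_
  · have h5 : γ * y' - γ * y ≤ y' - y := by
      have : γ * y' - γ * y = γ * (y' - y) := by ring
      rw [this]
      nlinarith
    have h6 : h * y ≤ h * y' := mul_le_mul_of_nonneg_left hyy h0.le
    linarith
  · have h6 : γ * y' ≤ y' := by nlinarith
    have h7 : y' ≤ 3 * (h * y') * z ^ (1 / 8 : ℝ) := by
      have : 3 * (h * y') * z ^ (1 / 8 : ℝ) = 3 * y' * (h * z ^ (1 / 8 : ℝ)) := by ring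
      rw [this]
      nlinarith
    linarith

/-- bounded, zero below `z`, slowly varying -/
theorem uu_bd : ∃ C z0 : ℝ, 0 < C ∧ 2 ≤ z0 ∧ ∀ z : ℝ, z0 ≤ z → ∀ f : ℕ → ℂ, Ch z f →
    ∀ α β δ h : ℝ, 0 ≤ α → α < β → β ≤ 1 → 0 < h → h ≤ 1 → 1 ≤ h * z ^ (1 / 16 : ℝ) →
    h ≤ δ * (β - α) → δ ≤ 1 →
    (∀ y : ℝ, ‖uu z f α β y‖ ≤ C) ∧ (∀ y : ℝ, y < z → uu z f α β y = 0) ∧
    (∀ y y' : ℝ, 0 < y → y ≤ y' → y' ≤ y * Real.exp h →
      ‖uu z f α β y' - uu z f α β y‖ ≤ C * δ) := by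
  obtain ⟨C1, z1, hC1, hz1, BT0⟩ := bt
  refine ⟨10 * C1, max z1 9, by positivity, hz1.trans (le_max_left _ _), ?_⟩
  intro z hz f hf α β δ h hα hαβ hβ hh0 hh1 hhz hhδ hδ1
  have BT := BT0 z ((le_max_left _ _).trans hz)
  have hz9 : 9 ≤ z := (le_max_right _ _).trans hz
  have hzone : 1 ≤ z := by linarith
  have hz0 : 0 < z := by linarith
  have hτ0 : 0 < β - α := by linarith
  have hδ0 : 0 < δ := by
    by_contra hn
    have : δ * (β - α) ≤ 0 := mul_nonpos_of_nonpos_of_nonneg (not_lt.1 hn) hτ0.le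
    linarith
  have hhτ : h ≤ β - α := hhδ.trans (by nlinarith)
  have hτz : 1 ≤ (β - α) * z ^ (1 / 16 : ℝ) :=
    hhz.trans (mul_le_mul_of_nonneg_right hhτ (Real.rpow_pos_of_pos hz0 _).le)
  have hzero : ∀ y : ℝ, y < z → uu z f α β y = 0 := by
    intro y hy
    unfold uu
    rw [sum_eq_zero, mul_zero]
    intro n hn
    rw [mem_Ioc] at hn
    have h1 : 0 < ⌊β * y⌋₊ := by omega
    have h2 : 0 < β * y := Nat.pos_of_floor_pos h1
    have h3 : 0 < y := by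
      by_contra hn'
      have : β * y ≤ 0 := mul_nonpos_of_nonneg_of_nonpos (by linarith) (not_lt.1 hn')
      linarith
    have h4 : (n : ℝ) ≤ β * y := (Nat.le_floor_iff h2.le).1 hn.2
    have h5 : (n : ℝ) < z := by nlinarith
    rw [sysa_zero h5]
    simp
  have hbd : ∀ y : ℝ, z ≤ y → ‖∑ n ∈ Ioc ⌊α * y⌋₊ ⌊β * y⌋₊, ((La z n : ℝ) : ℂ) * f n‖ ≤
      C1 * (2 * ((β - α) * y)) := fun y hy =>
    (sysa_norm hf _).trans (sysa_win hzone BT hα hαβ hβ hτz hy)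
  have hbd2 : ∀ y : ℝ, ‖uu z f α β y‖ ≤ 2 * C1 := by
    intro y
    rcases lt_or_ge y z with hy | hy
    · rw [hzero y hy, norm_zero]
      positivity
    · have hy0 : 0 < y := by linarith
      have hτy : 0 < (β - α) * y := mul_pos hτ0 hy0
      unfold uu
      rw [norm_mul, Complex.norm_real, Real.norm_of_nonneg (by positivity), one_div,
        inv_mul_le_iff₀ hτy]
      refine (hbd y hy).trans (le_of_eq ?_)
      ring
  refine ⟨fun y => (hbd2 y).trans (by linarith), hzero, ?_⟩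
  intro y y' hy hyy hye
  rcases lt_or_ge y' z with hy' | hy'
  · rw [hzero y' hy', hzero y (by linarith), sub_zero, norm_zero]
    positivity
  · have hy'0 : 0 < y' := by linarith
    have he := sysa_exp hh0 hh1
    have hd : y' - y ≤ 2 * h * y := by
      have : y * Real.exp h ≤ y * (1 + 2 * h) := mul_le_mul_of_nonneg_left he hy.le
      nlinarith
    have hy3 : z ≤ 3 * y := by nlinarith
    have hz15 : 3 ≤ z ^ (15 / 16 : ℝ) := by
      have h1 : z ^ (1 / 2 : ℝ) ≤ z ^ (15 / 16 : ℝ) :=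
        Real.rpow_le_rpow_of_exponent_le hzone (by norm_num)
      have h2 : (3 : ℝ) ≤ z ^ (1 / 2 : ℝ) := by
        rw [← Real.sqrt_eq_rpow, Real.le_sqrt' (by norm_num)]
        linarith
      linarith
    have hhy : 1 ≤ h * y := by
      have h1 : z = z ^ (1 / 16 : ℝ) * z ^ (15 / 16 : ℝ) := by
        rw [← Real.rpow_add hz0]
        norm_num
      have h2 : 3 ≤ h * z := by
        calc (3 : ℝ) ≤ 1 * z ^ (15 / 16 : ℝ) := by linarith
          _ ≤ (h * z ^ (1 / 16 : ℝ)) * z ^ (15 / 16 : ℝ) :=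
              mul_le_mul_of_nonneg_right hhz (by linarith)
          _ = h * (z ^ (1 / 16 : ℝ) * z ^ (15 / 16 : ℝ)) := by ring
          _ = h * z := by rw [← h1]
      nlinarith
    have hτy : 0 < (β - α) * y := mul_pos hτ0 hy
    have hτy' : 0 < (β - α) * y' := mul_pos hτ0 hy'0
    obtain ⟨S, hS⟩ : ∃ S : ℂ, S = ∑ n ∈ Ioc ⌊α * y⌋₊ ⌊β * y⌋₊, ((La z n : ℝ) : ℂ) * f n :=
      ⟨_, rfl⟩
    obtain ⟨S', hS'⟩ : ∃ S' : ℂ, S' = ∑ n ∈ Ioc ⌊α * y'⌋₊ ⌊β * y'⌋₊, ((La z n : ℝ) : ℂ) * f n :=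
      ⟨_, rfl⟩
    have hu : uu z f α β y = ((1 / ((β - α) * y) : ℝ) : ℂ) * S := by rw [hS]; rfl
    have hu' : uu z f α β y' = ((1 / ((β - α) * y') : ℝ) : ℂ) * S' := by rw [hS']; rfl
    have hSn : ‖S‖ ≤ 2 * C1 * ((β - α) * y) := by
      have h1 := hbd2 y
      rw [hu, norm_mul, Complex.norm_real, Real.norm_of_nonneg (by positivity), one_div,
        inv_mul_le_iff₀ hτy] at h1
      linarith
    have hD : ‖S' - S‖ ≤ 6 * C1 * (h * y') := by
      rw [hS, hS', sysa_diff (fun n => ((La z n : ℝ) : ℂ) * f n)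
        (Nat.floor_le_floor (mul_le_mul_of_nonneg_right hαβ.le hy.le))
        (Nat.floor_le_floor (mul_le_mul_of_nonneg_right hαβ.le hy'0.le))
        (Nat.floor_le_floor (mul_le_mul_of_nonneg_left hyy hα))
        (Nat.floor_le_floor (mul_le_mul_of_nonneg_left hyy (by linarith)))]
      have h1 := (sysa_norm hf (Ioc ⌊β * y⌋₊ ⌊β * y'⌋₊)).trans
        (sysa_short hzone BT (by linarith) hβ hhz hy hyy hd hhy)
      have h2 := (sysa_norm hf (Ioc ⌊α * y⌋₊ ⌊α * y'⌋₊)).trans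
        (sysa_short hzone BT hα (by linarith) hhz hy hyy hd hhy)
      refine (norm_sub_le _ _).trans ((add_le_add h1 h2).trans (le_of_eq ?_))
      ring
    have e1 : uu z f α β y' - uu z f α β y = ((1 / ((β - α) * y') : ℝ) : ℂ) * (S' - S) -
        (((y' - y) / ((β - α) * y * y') : ℝ) : ℂ) * S := by
      have e2 : ((y' - y) / ((β - α) * y * y') : ℝ) =
          1 / ((β - α) * y) - 1 / ((β - α) * y') := by
        field_simp
      rw [hu, hu', e2]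
      push_cast
      ring
    have hn1 : ‖((1 / ((β - α) * y') : ℝ) : ℂ) * (S' - S)‖ ≤ 6 * C1 * δ := by
      rw [norm_mul, Complex.norm_real, Real.norm_of_nonneg (by positivity), one_div,
        inv_mul_le_iff₀ hτy']
      refine hD.trans ?_
      have : h * y' ≤ δ * (β - α) * y' := mul_le_mul_of_nonneg_right hhδ hy'0.le
      nlinarith
    have hn2 : ‖(((y' - y) / ((β - α) * y * y') : ℝ) : ℂ) * S‖ ≤ 4 * C1 * δ := by
      have h1 : 0 ≤ (y' - y) / ((β - α) * y * y') := by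
        have : 0 ≤ y' - y := by linarith
        positivity
      rw [norm_mul, Complex.norm_real, Real.norm_of_nonneg h1]
      calc (y' - y) / ((β - α) * y * y') * ‖S‖ ≤
            (2 * h * y) / ((β - α) * y * y') * (2 * C1 * ((β - α) * y)) := by
            refine mul_le_mul (div_le_div_of_nonneg_right hd (by positivity)) hSn
              (norm_nonneg _) (by positivity)
        _ = 4 * C1 * (h * (y / y')) := by
            field_simp
            ring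
        _ ≤ 4 * C1 * δ := by
            refine mul_le_mul_of_nonneg_left ?_ (by positivity)
            have h2 : y / y' ≤ 1 := (div_le_one hy'0).2 hyy
            have h3 : h ≤ δ := hhδ.trans (by nlinarith)
            have h4 : h * (y / y') ≤ h * 1 := mul_le_mul_of_nonneg_left h2 hh0.le
            linarith
    rw [e1]
    refine (norm_sub_le _ _).trans ((add_le_add hn1 hn2).trans (le_of_eq ?_))
    ring

private theorem sysa_swap (F : ℕ → ℕ → ℂ) (u v : ℕ) :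
    ∑ n ∈ Ioc u v, ∑ a ∈ n.divisorsAntidiagonal, F a.1 a.2 =
      ∑ a ∈ Icc 1 v, ∑ b ∈ Ioc (u / a) (v / a), F a b := by
  rw [sum_sigma', sum_sigma']
  refine sum_nbij' (fun x => ⟨x.2.1, x.2.2⟩) (fun y => ⟨y.1 * y.2, (y.1, y.2)⟩) ?_ ?_ ?_ ?_ ?_
  · rintro ⟨n, a, b⟩ h
    simp only [mem_sigma, mem_Ioc, Nat.mem_divisorsAntidiagonal, mem_Icc] at h ⊢
    obtain ⟨⟨h1, h2⟩, h3, h4⟩ := h
    have ha : 0 < a := Nat.pos_of_ne_zero fun h => h4 (by rw [← h3, h, zero_mul])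
    have hb : 0 < b := Nat.pos_of_ne_zero fun h => h4 (by rw [← h3, h, mul_zero])
    refine ⟨⟨ha, ?_⟩, ?_, ?_⟩
    · calc a ≤ a * b := Nat.le_mul_of_pos_right a hb
        _ = n := h3
        _ ≤ v := h2
    · rw [Nat.div_lt_iff_lt_mul ha, mul_comm, h3]; exact h1
    · rw [Nat.le_div_iff_mul_le ha, mul_comm, h3]; exact h2
  · rintro ⟨a, b⟩ h
    simp only [mem_sigma, mem_Ioc, Nat.mem_divisorsAntidiagonal, mem_Icc] at h ⊢
    obtain ⟨⟨ha, h2⟩, h3, h4⟩ := h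
    rw [Nat.div_lt_iff_lt_mul ha, mul_comm] at h3
    rw [Nat.le_div_iff_mul_le ha, mul_comm] at h4
    refine ⟨⟨h3, h4⟩, trivial, by omega⟩
  · rintro ⟨n, a, b⟩ h
    simp only [mem_sigma, mem_Ioc, Nat.mem_divisorsAntidiagonal] at h
    obtain ⟨_, h3, _⟩ := h
    subst h3
    rfl
  · rintro ⟨a, b⟩ h
    rfl
  · rintro ⟨n, a, b⟩ h
    rfl

private theorem sysa_rho_mul (z : ℝ) (a b : ℕ) : rho z (a * b) = rho z a * rho z b := by
  have h : Rough z (a * b) ↔ Rough z a ∧ Rough z b := by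
    unfold Rough
    constructor
    · intro h
      exact ⟨fun p hp hd => h p hp (hd.mul_right b), fun p hp hd => h p hp (hd.mul_left a)⟩
    · rintro ⟨h1, h2⟩ p hp hd
      rcases (Nat.Prime.dvd_mul hp).1 hd with h | h
      · exact h1 p hp h
      · exact h2 p hp h
  unfold rho
  by_cases h1 : Rough z a <;> by_cases h2 : Rough z b <;> simp [h, h1, h2]

private theorem sysa_lam {z : ℝ} {f : ℕ → ℂ} (hf : Ch z f) (n : ℕ) :
    ((rho z n * lam2 n : ℝ) : ℂ) * f n =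
      ((La z n : ℝ) : ℂ) * f n * ((Real.log n : ℝ) : ℂ) +
      ∑ a ∈ n.divisorsAntidiagonal,
        ((La z a.1 : ℝ) : ℂ) * f a.1 * (((La z a.2 : ℝ) : ℂ) * f a.2) := by
  have h1 : ∑ a ∈ n.divisorsAntidiagonal,
      ((La z a.1 : ℝ) : ℂ) * f a.1 * (((La z a.2 : ℝ) : ℂ) * f a.2) =
      ((rho z n : ℝ) : ℂ) * f n * ∑ a ∈ n.divisorsAntidiagonal,
        ((ArithmeticFunction.vonMangoldt a.1 * ArithmeticFunction.vonMangoldt a.2 : ℝ) : ℂ) := by
    rw [mul_sum]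
    refine sum_congr rfl fun a ha => ?_
    obtain ⟨h1, h2⟩ := Nat.mem_divisorsAntidiagonal.1 ha
    rw [← h1, sysa_rho_mul, hf.mul]
    unfold La
    push_cast
    ring
  rw [h1]
  unfold lam2 La
  push_cast
  ring

private theorem sysa_sum {z : ℝ} {f : ℕ → ℂ} (α β y : ℝ) (hαβ : α < β)
    (hβ : β ≤ 1) (hy : 0 < y) :
    ∑ m ∈ Icc 1 ⌊y⌋₊, ((La z m / m : ℝ) : ℂ) * f m * uu z f α β (y / m) =
      ((1 / ((β - α) * y) : ℝ) : ℂ) * ∑ n ∈ Ioc ⌊α * y⌋₊ ⌊β * y⌋₊,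
        ∑ a ∈ n.divisorsAntidiagonal,
          ((La z a.1 : ℝ) : ℂ) * f a.1 * (((La z a.2 : ℝ) : ℂ) * f a.2) := by
  have hτ0 : β - α ≠ 0 := by
    have : 0 < β - α := by linarith
    exact this.ne'
  have h1 : ∀ m ∈ Icc 1 ⌊y⌋₊, ((La z m / m : ℝ) : ℂ) * f m * uu z f α β (y / m) =
      ((1 / ((β - α) * y) : ℝ) : ℂ) * ∑ k ∈ Ioc (⌊α * y⌋₊ / m) (⌊β * y⌋₊ / m),
        ((La z m : ℝ) : ℂ) * f m * (((La z k : ℝ) : ℂ) * f k) := by
    intro m hm
    rw [mem_Icc] at hm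
    have hm0 : (m : ℝ) ≠ 0 := by
      have : (0 : ℝ) < m := by exact_mod_cast hm.1
      exact this.ne'
    unfold uu
    rw [← mul_div_assoc α y, ← mul_div_assoc β y, Nat.floor_div_natCast, Nat.floor_div_natCast,
      ← mul_sum]
    have e1 : ((La z m / m : ℝ) : ℂ) * ((1 / ((β - α) * (y / m)) : ℝ) : ℂ) =
        ((1 / ((β - α) * y) : ℝ) : ℂ) * ((La z m : ℝ) : ℂ) := by
      rw [← Complex.ofReal_mul, ← Complex.ofReal_mul]
      congr 1
      field_simp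
    calc _ = (((La z m / m : ℝ) : ℂ) * ((1 / ((β - α) * (y / m)) : ℝ) : ℂ)) * f m *
          ∑ k ∈ Ioc (⌊α * y⌋₊ / m) (⌊β * y⌋₊ / m), ((La z k : ℝ) : ℂ) * f k := by ring
      _ = _ := by rw [e1]; ring
  rw [sum_congr rfl h1, ← mul_sum, sysa_swap (fun a b =>
    ((La z a : ℝ) : ℂ) * f a * (((La z b : ℝ) : ℂ) * f b))]
  congr 1
  symm
  refine sum_subset ?_ ?_
  · refine Icc_subset_Icc le_rfl (Nat.floor_le_floor ?_)
    nlinarith
  · intro m hm1 hm2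
    rw [mem_Icc] at hm1 hm2
    have h2 : ⌊β * y⌋₊ / m = 0 := Nat.div_eq_of_lt (by omega)
    rw [h2, Ioc_eq_empty (Nat.not_lt_zero _), sum_empty]

/-- Selberg's formula -/
theorem uu_sel : ∃ C z0 : ℝ, 0 < C ∧ 2 ≤ z0 ∧ ∀ z : ℝ, z0 ≤ z → ∀ f : ℕ → ℂ, Ch z f →
    ∀ α β : ℝ, β - α ≤ α → α < β → β ≤ 1 → 1 ≤ (β - α) * z ^ (1 / 16 : ℝ) →
    ∀ y : ℝ, 1 ≤ y → ‖uu z f α β y * ((Real.log y : ℝ) : ℂ) +
      ∑ m ∈ Icc 1 ⌊y⌋₊, ((La z m / m : ℝ) : ℂ) * f m * uu z f α β (y / m)‖ ≤ C * Real.log z := by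
  obtain ⟨Cb, zb, hCb, hzb, UB⟩ := uu_bd
  obtain ⟨C1, z1, hC1, hz1, BT0⟩ := bt
  obtain ⟨Ci, zi, hCi, hzi, BI⟩ := bt_inv
  obtain ⟨Cm, zm, hCm, hzm, M2⟩ := m2
  refine ⟨Cb * 101 + Cb * (Ci * 102) + (2 * Cm + C1), max (max zb z1) (max (max zi zm)
    (Real.exp 1)), by positivity, hzb.trans ((le_max_left _ _).trans (le_max_left _ _)), ?_⟩
  intro z hz f hf α β hτα hαβ hβ hτz y hy
  have hzb' : zb ≤ z := ((le_max_left _ _).trans (le_max_left _ _)).trans hz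
  have hz1' : z1 ≤ z := ((le_max_right _ _).trans (le_max_left _ _)).trans hz
  have hzi' : zi ≤ z :=
    ((le_max_left _ _).trans ((le_max_left _ _).trans (le_max_right _ _))).trans hz
  have hzm' : zm ≤ z :=
    ((le_max_right _ _).trans ((le_max_left _ _).trans (le_max_right _ _))).trans hz
  have hze : Real.exp 1 ≤ z := ((le_max_right _ _).trans (le_max_right _ _)).trans hz
  have hz0 : 0 < z := (Real.exp_pos 1).trans_le hze
  have hzone : 1 ≤ z := (Real.one_le_exp zero_le_one).trans hze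
  have hl : 1 ≤ Real.log z := (Real.le_log_iff_exp_le hz0).2 hze
  have hτ0 : 0 < β - α := by linarith
  have hα0 : 0 < α := by linarith
  have hy0 : 0 < y := by linarith
  have hlogy : 0 ≤ Real.log y := Real.log_nonneg hy
  obtain ⟨hB, -, -⟩ := UB z hzb' f hf α β 1 (β - α) hα0.le hαβ hβ hτ0 (by linarith) hτz
    (by linarith) le_rfl
  rcases lt_or_ge y (z ^ 101) with hy101 | hy101
  · have hly : Real.log y ≤ 101 * Real.log z := by
      have := Real.log_le_log hy0 hy101.le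
      rw [Real.log_pow] at this
      exact_mod_cast this
    have h1 : ‖uu z f α β y * ((Real.log y : ℝ) : ℂ)‖ ≤ Cb * 101 * Real.log z := by
      rw [norm_mul, Complex.norm_real, Real.norm_of_nonneg hlogy]
      calc ‖uu z f α β y‖ * Real.log y ≤ Cb * (101 * Real.log z) :=
            mul_le_mul (hB y) hly hlogy hCb.le
        _ = Cb * 101 * Real.log z := by ring
    have h2 : ‖∑ m ∈ Icc 1 ⌊y⌋₊, ((La z m / m : ℝ) : ℂ) * f m * uu z f α β (y / m)‖ ≤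
        Cb * (Ci * 102) * Real.log z := by
      refine (norm_sum_le _ _).trans ?_
      have h3 : ∀ m ∈ Icc 1 ⌊y⌋₊, ‖((La z m / m : ℝ) : ℂ) * f m * uu z f α β (y / m)‖ ≤
          Cb * (La z m / m) := by
        intro m _
        have h4 : 0 ≤ La z m / m := div_nonneg (sysa_la_nonneg z m) (Nat.cast_nonneg m)
        rw [norm_mul, norm_mul, Complex.norm_real, Real.norm_of_nonneg h4]
        calc La z m / m * ‖f m‖ * ‖uu z f α β (y / m)‖ ≤ La z m / m * 1 * Cb := by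
              refine mul_le_mul (mul_le_mul_of_nonneg_left (hf.bd m) h4) (hB _)
                (norm_nonneg _) (by simpa using h4)
          _ = _ := by ring
      refine (sum_le_sum h3).trans ?_
      rw [← mul_sum]
      have h4 := BI z hzi' y hy
      have h5 : Ci * (1 + Real.log y) ≤ Ci * (102 * Real.log z) :=
        mul_le_mul_of_nonneg_left (by linarith) hCi.le
      calc Cb * ∑ m ∈ Icc 1 ⌊y⌋₊, La z m / m ≤ Cb * (Ci * (102 * Real.log z)) :=
            mul_le_mul_of_nonneg_left (h4.trans h5) hCb.le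
        _ = _ := by ring
    refine (norm_add_le _ _).trans ((add_le_add h1 h2).trans ?_)
    have h3 : 0 ≤ (2 * Cm + C1) * Real.log z := by positivity
    nlinarith
  · -- large `y`
    have hzy : z ≤ y := by
      refine le_trans ?_ hy101
      calc z = z ^ 1 := (pow_one z).symm
        _ ≤ z ^ 101 := pow_le_pow_right₀ hzone (by norm_num)
    obtain ⟨hτ0', hτ8, hτ1⟩ := sysa_pow hzone hτz
    have hτy : 0 < (β - α) * y := mul_pos hτ0 hy0
    have hz100 : (1 : ℝ) ≤ z ^ 100 := one_le_pow₀ hzone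
    have hτy100 : z ^ 100 ≤ (β - α) * y := by
      calc z ^ 100 = 1 * z ^ 100 := (one_mul _).symm
        _ ≤ (β - α) * z * z ^ 100 := mul_le_mul_of_nonneg_right hτ1 (by positivity)
        _ = (β - α) * z ^ 101 := by ring
        _ ≤ (β - α) * y := mul_le_mul_of_nonneg_left hy101 hτ0.le
    have hz2 : 2 ≤ z ^ 100 := by
      have h2 : (2 : ℝ) ≤ z := by
        have := Real.add_one_le_exp (1 : ℝ)
        linarith
      calc (2 : ℝ) ≤ z ^ 1 := by rw [pow_one]; exact h2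
        _ ≤ z ^ 100 := pow_le_pow_right₀ hzone (by norm_num)
    obtain ⟨u, hu⟩ : ∃ u : ℕ, u = ⌊α * y⌋₊ := ⟨_, rfl⟩
    obtain ⟨v, hv⟩ : ∃ v : ℕ, v = ⌊β * y⌋₊ := ⟨_, rfl⟩
    have huv : u ≤ v := by
      rw [hu, hv]
      exact Nat.floor_le_floor (mul_le_mul_of_nonneg_right hαβ.le hy0.le)
    have hv1 : (v : ℝ) ≤ β * y := by
      rw [hv]
      exact Nat.floor_le (mul_nonneg (by linarith) hy0.le)
    have hv2 : β * y < (v : ℝ) + 1 := by
      rw [hv]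
      exact Nat.lt_floor_add_one _
    have hu2 : α * y < (u : ℝ) + 1 := by
      rw [hu]
      exact Nat.lt_floor_add_one _
    have hvy : (v : ℝ) ≤ y := by nlinarith
    have hv3 : 2 * ((β - α) * y) - 1 ≤ v := by nlinarith
    have hM := M2 z hzm' f hf u v ((β - α) * y + 1) huv (by nlinarith) (by linarith)
      (by
        have h1 : y * 1 ≤ y * ((β - α) * z ^ (1 / 8 : ℝ)) :=
          mul_le_mul_of_nonneg_left hτ8 hy0.le
        have h2 : 0 < z ^ (1 / 8 : ℝ) := Real.rpow_pos_of_pos hz0 _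
        nlinarith)
      (by linarith)
    have hW := sysa_win hzone (BT0 z hz1') hα0.le hαβ hβ hτz hzy
    rw [← hu, ← hv] at hW
    have e1 : uu z f α β y * ((Real.log y : ℝ) : ℂ) +
        ∑ m ∈ Icc 1 ⌊y⌋₊, ((La z m / m : ℝ) : ℂ) * f m * uu z f α β (y / m) =
        ((1 / ((β - α) * y) : ℝ) : ℂ) *
          (∑ n ∈ Ioc u v, ((rho z n * lam2 n : ℝ) : ℂ) * f n +
          ∑ n ∈ Ioc u v, ((La z n : ℝ) : ℂ) * f n * ((Real.log y - Real.log n : ℝ) : ℂ)) := by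
      rw [sysa_sum α β y hαβ hβ hy0, ← hu, ← hv]
      have e2 : uu z f α β y = ((1 / ((β - α) * y) : ℝ) : ℂ) *
          ∑ n ∈ Ioc u v, ((La z n : ℝ) : ℂ) * f n := by
        rw [hu, hv]
        rfl
      have e3 : ∑ n ∈ Ioc u v, ((rho z n * lam2 n : ℝ) : ℂ) * f n =
          ∑ n ∈ Ioc u v, ((La z n : ℝ) : ℂ) * f n * ((Real.log n : ℝ) : ℂ) +
          ∑ n ∈ Ioc u v, ∑ a ∈ n.divisorsAntidiagonal,
            ((La z a.1 : ℝ) : ℂ) * f a.1 * (((La z a.2 : ℝ) : ℂ) * f a.2) := by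
        rw [← sum_add_distrib]
        exact sum_congr rfl fun n _ => sysa_lam hf n
      have e4 : ∑ n ∈ Ioc u v, ((La z n : ℝ) : ℂ) * f n * ((Real.log y - Real.log n : ℝ) : ℂ) =
          (∑ n ∈ Ioc u v, ((La z n : ℝ) : ℂ) * f n) * ((Real.log y : ℝ) : ℂ) -
          ∑ n ∈ Ioc u v, ((La z n : ℝ) : ℂ) * f n * ((Real.log n : ℝ) : ℂ) := by
        rw [sum_mul, ← sum_sub_distrib]
        refine sum_congr rfl fun n _ => ?_
        push_cast
        ring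
      rw [e2, e3, e4]
      ring
    have hlτ : Real.log (1 / (β - α)) ≤ Real.log z / 2 := by
      have h1 : 1 / (β - α) ≤ z ^ (1 / 16 : ℝ) := by
        rw [div_le_iff₀ hτ0]
        linarith
      have h2 := Real.log_le_log (by positivity) h1
      rw [Real.log_rpow hz0] at h2
      linarith
    have hR : ‖∑ n ∈ Ioc u v, ((La z n : ℝ) : ℂ) * f n *
        ((Real.log y - Real.log n : ℝ) : ℂ)‖ ≤ C1 * (2 * ((β - α) * y)) * (Real.log z / 2) := by
      refine (norm_sum_le _ _).trans ?_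
      have h1 : ∀ n ∈ Ioc u v, ‖((La z n : ℝ) : ℂ) * f n *
          ((Real.log y - Real.log n : ℝ) : ℂ)‖ ≤ La z n * (Real.log z / 2) := by
        intro n hn
        rw [mem_Ioc] at hn
        have h2 : (n : ℝ) ≤ v := by exact_mod_cast hn.2
        have h3 : (u : ℝ) + 1 ≤ n := by exact_mod_cast hn.1
        have h4 : (β - α) * y ≤ n := by nlinarith
        have hn0 : (0 : ℝ) < n := by linarith
        have h5 : 0 ≤ Real.log y - Real.log n := by
          have := Real.log_le_log hn0 (h2.trans hvy)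
          linarith
        have h6 : Real.log y - Real.log n ≤ Real.log z / 2 := by
          rw [← Real.log_div hy0.ne' hn0.ne']
          refine le_trans (Real.log_le_log (by positivity) ?_) hlτ
          rw [div_le_div_iff₀ hn0 hτ0]
          linarith
        rw [norm_mul, norm_mul, Complex.norm_real, Complex.norm_real,
          Real.norm_of_nonneg (sysa_la_nonneg z n), Real.norm_of_nonneg h5]
        calc La z n * ‖f n‖ * (Real.log y - Real.log n) ≤ La z n * 1 * (Real.log z / 2) := by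
              refine mul_le_mul (mul_le_mul_of_nonneg_left (hf.bd n) (sysa_la_nonneg z n)) h6 h5
                (by simpa using sysa_la_nonneg z n)
          _ = _ := by ring
      refine (sum_le_sum h1).trans ?_
      rw [← sum_mul]
      exact mul_le_mul_of_nonneg_right hW (by linarith)
    rw [e1, norm_mul, Complex.norm_real, Real.norm_of_nonneg (by positivity), one_div,
      inv_mul_le_iff₀ hτy]
    refine (norm_add_le _ _).trans ((add_le_add hM hR).trans ?_)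
    have h1 : Cm * ((β - α) * y + 1) * Real.log z ≤ Cm * (2 * ((β - α) * y)) * Real.log z := by
      refine mul_le_mul_of_nonneg_right (mul_le_mul_of_nonneg_left (by linarith) hCm.le)
        (by linarith)
    have h2 : 0 ≤ (Cb * 101 + Cb * (Ci * 102)) * Real.log z * ((β - α) * y) := by positivity
    nlinarith

theorem sys_uu : ∃ C z0 : ℝ, 0 < C ∧ 2 ≤ z0 ∧ ∀ z : ℝ, z0 ≤ z → ∀ f : ℕ → ℂ, Ch z f →
    ∀ α β δ h L : ℝ, β - α ≤ α → α < β → β ≤ 1 → 0 < h → 1 ≤ h * z ^ (1 / 16 : ℝ) →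
    h ≤ δ * (β - α) → δ ≤ 1 → Sys C z L δ h f (uu z f α β) := by
  obtain ⟨Cb, zb, hCb, hzb, UB⟩ := uu_bd
  obtain ⟨Cs, zs, hCs, hzs, US⟩ := uu_sel
  refine ⟨max Cb Cs, max zb zs, lt_max_of_lt_left hCb, hzb.trans (le_max_left _ _), ?_⟩
  intro z hz f hf α β δ h L hτα hαβ hβ hh hhz hhδ hδ1
  have hzb' : zb ≤ z := (le_max_left _ _).trans hz
  have hzs' : zs ≤ z := (le_max_right _ _).trans hz
  have hz0 : 0 < z := by linarith
  have hτ0 : 0 < β - α := by linarith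
  have hδ0 : 0 < δ := by
    by_contra hn
    have : δ * (β - α) ≤ 0 := mul_nonpos_of_nonpos_of_nonneg (not_lt.1 hn) hτ0.le
    linarith
  have hhτ : h ≤ β - α := hhδ.trans (by nlinarith)
  have hh1 : h ≤ 1 := by linarith
  have hτz : 1 ≤ (β - α) * z ^ (1 / 16 : ℝ) :=
    hhz.trans (mul_le_mul_of_nonneg_right hhτ (Real.rpow_pos_of_pos hz0 _).le)
  obtain ⟨h1, h2, h3⟩ := UB z hzb' f hf α β δ h (by linarith) hαβ hβ hh hh1 hhz hhδ hδ1
  have hlz : 0 ≤ Real.log z := Real.log_nonneg (by linarith)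
  exact {
    mul := hf.mul
    one := hf.one
    bd := fun y => (h1 y).trans (le_max_left _ _)
    zero := h2
    slow := fun y y' hy hyy hye => (h3 y y' hy hyy hye).trans
      (mul_le_mul_of_nonneg_right (le_max_left _ _) hδ0.le)
    sel := fun y hy _ => (US z hzs' f hf α β hτα hαβ hβ hτz y hy).trans
      (mul_le_mul_of_nonneg_right (le_max_right _ _) hlz) }

end Pool.MP_dd84fd_nt.QZ
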