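import Pool.Agent.Lib.MP_dd84fd_nt.QZ.Core
import Pool.Agent.Lib.MP_dd84fd_nt.QZ.PmA
import Pool.Agent.Lib.MP_dd84fd_nt.QZ.SysA
import Pool.Agent.Lib.MP_dd84fd_nt.QZ.SelB
import Pool.Agent.Lib.MP_dd84fd_nt.BX.LsA

/-!
# QZ-Za: at most one heavy primitive character of conductor `≤ X^δ`.  Prefix aux lemmas `za_`.

ch_pv: periodic mod `r = ψ.1 ≥ 2`, primitive so nonprincipal: complete periods vanish, `|∑_{Ioc a b}| ≤ r`; rough `n` (primes `≥ z > r`) is coprime to `r`.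
ch_pair: modulus `r₁ r₂ ≤ z²`, the product is nonprincipal (two different primitive characters; library: LsA / L2G PV `PV_all`-type lemmas for
`ψ₁ conj ψ₂`; see the proof of pv2 for PFam in BX: grep `pv2`), complete periods vanish.
za. Let `C` = max of the constants of sys_uu, win2 (and 1), `δ0` = core C (lam/2) c, `δ' ≤ min(δ0, 1)`, `δ = δ'/4`, `z = X^δ'`, `L = log X`,
`h = δ'/(2 L^B)`.  `Ch z (pv ψ_i)` (`X^δ < z`), `Ch z (pair)` from ch_pair with `X^δ`, squared (`(X^δ)² ≤ z`; monotone in z: state it for the weaker bound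
`≤ z` and rough numbers for larger z are fewer: `Ch z f → z ≤ z' → Ch z' f`).
`Hvy` gives `x, H`: `y = x + H`, `β = 1`, `α = x/(x+H)`, `τ = H/(x+H) ≥ 1/(2L^B)`, `τ ≤ α` (H ≤ x), `h ≤ δ' τ`, window `(x, x+H]`,
`‖uu‖ ≥ (1/H)(lam H - ∑ (Λ - La)) ≥ lam/2`: `n > x ≥ X^c ≥ z` (δ' ≤ c): `Λ(n) ≠ La z n` only for proper powers of primes `< z`: `≤ C √X^.. `: at most
`√(2x) log² (2x) ≤ lam H/2`.  `Real.exp (c L) = X^c ≤ y ≤ X`.  pm with exponent `B + 1` (`h L^(B+1) ≥ 1`), `h z^(1/16) ≥ 1` for large X.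
-/

set_option autoImplicit false

namespace Pool.MP_dd84fd_nt.QZ

open Finset
open Pool.MP_dd84fd_nt.En (Rough rho)

open Pool.MP_dd84fd_nt.BX (PC pv IsPC)

/-- `|Σ_{x < n ≤ x+H} Λ(n) ψ(n)| ≥ lam H`, `X^c ≤ x`, `x + H ≤ X`, `x/(log X)^B ≤ H ≤ x` -/
def Hvy (lam c : ℝ) (B X : ℕ) (ψ : PC) : Prop :=
  ∃ x H : ℝ, 0 < H ∧ (X : ℝ) ^ c ≤ x ∧ x + H ≤ X ∧ H ≤ x ∧ x ≤ H * (Real.log X) ^ B ∧
    lam * H ≤ ‖∑ n ∈ Ioc ⌊x⌋₊ ⌊x + H⌋₊,
      ((ArithmeticFunction.vonMangoldt n : ℝ) : ℂ) * pv ψ n‖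

private theorem za_ch_mono {z z' : ℝ} {f : ℕ → ℂ} (h : Ch z f) (hz : z ≤ z') : Ch z' f where
  mul := h.mul
  bd := h.bd
  one := fun n hn hr => h.one n hn (fun p hp hpn => hz.trans (hr p hp hpn))
  pv := fun a b => (h.pv a b).trans hz

private theorem za_sum {q : ℕ} (hq : 1 ≤ q) (χ : DirichletCharacter ℂ q) (hχ : χ ≠ 1) (a b : ℕ) :
    ‖∑ n ∈ Ioc a b, χ (n : ZMod q)‖ ≤ q := by
  rcases le_total a b with hab | hab
  · have h2 : Ioc a b = Ico (a + 1) (b + 1) := by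
      ext n; simp only [mem_Ioc, mem_Ico]; omega
    rw [h2]
    exact SW.char_sum_bound hq χ hχ (by omega)
  · rw [Ioc_eq_empty_of_le hab, sum_empty, norm_zero]
    exact Nat.cast_nonneg _

private theorem za_cop {z : ℝ} {n r : ℕ} (hr : 1 ≤ r) (hz : (r : ℝ) < z) (hn : Rough z n) :
    Nat.Coprime n r := by
  by_contra hcon
  obtain ⟨p, hp, hpn, hpr⟩ := Nat.Prime.not_coprime_iff_dvd.1 hcon
  have h4 := hn p hp hpn
  have h5 : p ≤ r := Nat.le_of_dvd (by omega) hpr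
  have h6 : (p : ℝ) ≤ r := by exact_mod_cast h5
  linarith

private theorem za_unit (ψ : PC) (n : ℕ) (hc : Nat.Coprime n ψ.1) : ‖pv ψ n‖ = 1 := by
  have hu : IsUnit ((n : ℕ) : ZMod ψ.1) := (ZMod.isUnit_iff_coprime n ψ.1).2 hc
  unfold pv
  have h1 := DirichletCharacter.unit_norm_eq_one ψ.2 hu.unit
  rwa [IsUnit.unit_spec] at h1

private theorem za_mul (ψ : PC) (m n : ℕ) : pv ψ (m * n) = pv ψ m * pv ψ n := by
  unfold pv
  rw [Nat.cast_mul, map_mul]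

private theorem za_bd (ψ : PC) (n : ℕ) : ‖pv ψ n‖ ≤ 1 := DirichletCharacter.norm_le_one ψ.2 _

/-- characters satisfy `Ch` -/
theorem ch_pv {z : ℝ} (ψ : PC) (h1 : IsPC ψ) (h2 : 2 ≤ ψ.1) (h3 : (ψ.1 : ℝ) < z) :
    Ch z (pv ψ) where
  mul := za_mul ψ
  bd := za_bd ψ
  one := fun n _ hr => za_unit ψ n (za_cop (by omega) h3 hr)
  pv := fun a b => by
    have h0 : ψ.2 ≠ 1 := by
      intro h
      have h4 : ψ.2.conductor = ψ.1 := h1.2
      rw [h] at h4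
      have : NeZero ψ.1 := ⟨by omega⟩
      rw [DirichletCharacter.conductor_one] at h4
      omega
    exact (za_sum (by omega) ψ.2 h0 a b).trans h3.le

theorem ch_pair {z : ℝ} (hz : 0 ≤ z) (ψ₁ ψ₂ : PC) (h1 : IsPC ψ₁) (h2 : IsPC ψ₂) (hne : ψ₁ ≠ ψ₂)
    (h3 : (ψ₁.1 : ℝ) ≤ z) (h4 : (ψ₂.1 : ℝ) ≤ z) :
    Ch (z ^ 2) (fun n => pv ψ₁ n * (starRingEnd ℂ) (pv ψ₂ n)) := by
  have hr1 : 1 ≤ ψ₁.1 := h1.1
  have hr2 : 1 ≤ ψ₂.1 := h2.1
  have hr1' : (1 : ℝ) ≤ ψ₁.1 := by exact_mod_cast hr1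
  have hz1 : 1 ≤ z := hr1'.trans h3
  have hrough : ∀ r : ℕ, 1 ≤ r → (r : ℝ) ≤ z → ∀ n : ℕ, Rough (z ^ 2) n → Nat.Coprime n r := by
    intro r hr hrz n hn
    rcases Nat.lt_or_ge 1 r with h | h
    · refine za_cop hr ?_ hn
      have hr' : (1 : ℝ) < r := by exact_mod_cast h
      nlinarith
    · have : r = 1 := by omega
      rw [this]
      exact Nat.coprime_one_right n
  refine ⟨?_, ?_, ?_, ?_⟩
  · intro m n
    simp only [za_mul, map_mul]
    ring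
  · intro n
    rw [norm_mul, RCLike.norm_conj]
    exact mul_le_one₀ (za_bd ψ₁ n) (norm_nonneg _) (za_bd ψ₂ n)
  · intro n _ hn
    rw [norm_mul, RCLike.norm_conj, za_unit ψ₁ n (hrough _ hr1 h3 n hn),
      za_unit ψ₂ n (hrough _ hr2 h4 n hn), one_mul]
  · intro a b
    obtain ⟨Q, hQ⟩ : ∃ Q, Q = Nat.lcm ψ₁.1 ψ₂.1 := ⟨_, rfl⟩
    have hQ0 : Q ≠ 0 := by rw [hQ]; exact Nat.lcm_ne_zero (by omega) (by omega)
    have : NeZero Q := ⟨hQ0⟩
    have hd : ψ₁.1 ∣ Q := hQ ▸ Nat.dvd_lcm_left _ _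
    have hd' : ψ₂.1 ∣ Q := hQ ▸ Nat.dvd_lcm_right _ _
    have hpr : ∀ p : ℕ, p.Prime → p ∣ Q → p ∣ ψ₁.1 ∨ p ∣ ψ₂.1 := by
      intro p hp hpQ
      rw [hQ] at hpQ
      exact (Nat.Prime.dvd_mul hp).1 (hpQ.trans (Nat.lcm_dvd_mul _ _))
    rw [sum_congr rfl fun n _ => BX.pv_conj_eq ψ₁ ψ₂ Q hd hd' hpr n]
    refine (za_sum (by omega) _ (BX.pc_ne ψ₁ ψ₂ h1 h2 hne Q hd hd') a b).trans ?_
    have hQle : Q ≤ ψ₁.1 * ψ₂.1 := by
      rw [hQ]
      exact Nat.le_of_dvd (Nat.mul_pos hr1 hr2) (Nat.lcm_dvd_mul _ _)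
    calc (Q : ℝ) ≤ (ψ₁.1 : ℝ) * ψ₂.1 := by exact_mod_cast hQle
      _ ≤ z * z := mul_le_mul h3 h4 (Nat.cast_nonneg _) hz
      _ = z ^ 2 := by ring

private theorem za_rho01 (z : ℝ) (n : ℕ) : 0 ≤ rho z n ∧ rho z n ≤ 1 := by
  unfold rho
  split_ifs <;> norm_num

private theorem za_La_le (z : ℝ) (n : ℕ) : La z n ≤ ArithmeticFunction.vonMangoldt n := by
  unfold La
  have h := mul_le_mul_of_nonneg_right (za_rho01 z n).2
    (ArithmeticFunction.vonMangoldt_nonneg (n := n))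
  linarith

private theorem za_La_nonneg (z : ℝ) (n : ℕ) : 0 ≤ La z n :=
  mul_nonneg (za_rho01 z n).1 ArithmeticFunction.vonMangoldt_nonneg

/-- proper prime powers -/
private theorem za_diff {z : ℝ} {a b : ℕ} (ha : z ≤ (a : ℝ) + 1) (hb : 1 ≤ b) :
    ∑ n ∈ Ioc a b, (ArithmeticFunction.vonMangoldt n - La z n) ≤
      2 * Real.sqrt b * Real.log b := by
  have h1 := Chebyshev.psi_sub_theta_le (x := (b : ℝ)) (by exact_mod_cast hb)
  rw [Chebyshev.psi_sub_theta_eq_sum_not_prime, Nat.floor_natCast] at h1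
  refine le_trans ?_ h1
  rw [sum_filter]
  calc ∑ n ∈ Ioc a b, (ArithmeticFunction.vonMangoldt n - La z n)
      ≤ ∑ n ∈ Ioc a b, (if ¬ n.Prime then ArithmeticFunction.vonMangoldt n else 0) := by
        refine sum_le_sum fun n hn => ?_
        rw [mem_Ioc] at hn
        by_cases hp : n.Prime
        swap
        · rw [if_pos hp]
          have := za_La_nonneg z n
          linarith
        · rw [if_neg (not_not.2 hp)]
          have hr : Rough z n := by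
            intro p hp' hpn
            have h2 : p = n := (Nat.prime_dvd_prime_iff_eq hp' hp).1 hpn
            rw [h2]
            have h3 : a + 1 ≤ n := hn.1
            have h4 : (a : ℝ) + 1 ≤ n := by exact_mod_cast h3
            linarith
          unfold La rho
          rw [if_pos hr]
          linarith
    _ ≤ ∑ n ∈ Ioc 0 b, (if ¬ n.Prime then ArithmeticFunction.vonMangoldt n else 0) := by
        refine sum_le_sum_of_subset_of_nonneg (Ioc_subset_Ioc_left (Nat.zero_le a)) ?_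
        intro n _ _
        by_cases hp : n.Prime
        · rw [if_neg (not_not.2 hp)]
        · rw [if_pos hp]
          exact ArithmeticFunction.vonMangoldt_nonneg

private theorem za_uu (z : ℝ) (f : ℕ → ℂ) (hf : ∀ n, ‖f n‖ ≤ 1) (x H lam : ℝ) (hx : 0 < x)
    (hH : 0 < H)
    (hsum : lam * H ≤ ‖∑ n ∈ Ioc ⌊x⌋₊ ⌊x + H⌋₊,
      ((ArithmeticFunction.vonMangoldt n : ℝ) : ℂ) * f n‖)
    (hE : ∑ n ∈ Ioc ⌊x⌋₊ ⌊x + H⌋₊, (ArithmeticFunction.vonMangoldt n - La z n) ≤ lam / 2 * H) :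
    lam / 2 ≤ ‖uu z f (x / (x + H)) 1 (x + H)‖ := by
  have hxH : 0 < x + H := by linarith
  have e1 : (1 - x / (x + H)) * (x + H) = H := by
    field_simp
    ring
  have e2 : x / (x + H) * (x + H) = x := by field_simp
  unfold uu
  rw [e1, e2, one_mul, norm_mul]
  have e3 : ‖((1 / H : ℝ) : ℂ)‖ = 1 / H := by
    rw [Complex.norm_real, Real.norm_of_nonneg (by positivity)]
  rw [e3]
  have h1 : ‖∑ n ∈ Ioc ⌊x⌋₊ ⌊x + H⌋₊, ((ArithmeticFunction.vonMangoldt n : ℝ) : ℂ) * f n‖ ≤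
      ‖∑ n ∈ Ioc ⌊x⌋₊ ⌊x + H⌋₊, ((La z n : ℝ) : ℂ) * f n‖ +
      ∑ n ∈ Ioc ⌊x⌋₊ ⌊x + H⌋₊, (ArithmeticFunction.vonMangoldt n - La z n) := by
    have h2 : ∑ n ∈ Ioc ⌊x⌋₊ ⌊x + H⌋₊, ((ArithmeticFunction.vonMangoldt n : ℝ) : ℂ) * f n =
        ∑ n ∈ Ioc ⌊x⌋₊ ⌊x + H⌋₊, ((La z n : ℝ) : ℂ) * f n +
        ∑ n ∈ Ioc ⌊x⌋₊ ⌊x + H⌋₊,
          ((ArithmeticFunction.vonMangoldt n - La z n : ℝ) : ℂ) * f n := by
      rw [← sum_add_distrib]
      refine sum_congr rfl fun n _ => ?_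
      push_cast
      ring
    rw [h2]
    refine (norm_add_le _ _).trans (add_le_add le_rfl ?_)
    refine (norm_sum_le _ _).trans (sum_le_sum fun n _ => ?_)
    rw [norm_mul, Complex.norm_real, Real.norm_of_nonneg (by linarith [za_La_le z n])]
    have h3 := mul_le_mul_of_nonneg_left (hf n)
      (show 0 ≤ ArithmeticFunction.vonMangoldt n - La z n by linarith [za_La_le z n])
    linarith
  have h4 : lam / 2 * H ≤ ‖∑ n ∈ Ioc ⌊x⌋₊ ⌊x + H⌋₊, ((La z n : ℝ) : ℂ) * f n‖ := by linarith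
  calc lam / 2 = 1 / H * (lam / 2 * H) := by field_simp
    _ ≤ _ := mul_le_mul_of_nonneg_left h4 (by positivity)

private theorem za_sys_mono {C C' z L δ h : ℝ} {f : ℕ → ℂ} {u : ℝ → ℂ} (hS : Sys C z L δ h f u)
    (hC : C ≤ C') (hδ : 0 ≤ δ) (hz : 0 ≤ Real.log z) : Sys C' z L δ h f u where
  mul := hS.mul
  one := hS.one
  bd := fun y => (hS.bd y).trans hC
  zero := hS.zero
  slow := fun y y' h1 h2 h3 => (hS.slow y y' h1 h2 h3).trans (mul_le_mul_of_nonneg_right hC hδ)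
  sel := fun y h1 h2 => (hS.sel y h1 h2).trans (mul_le_mul_of_nonneg_right hC hz)

private theorem za_win_mono {C C' z L h : ℝ} {g : ℕ → ℂ} (hW : Win2 C z L h g)
    (hC : C ≤ C') (hh : 0 ≤ h) (hz : 0 ≤ Real.log z) (hL : 0 ≤ L) : Win2 C' z L h g := by
  intro M hM hML
  obtain ⟨h1, h2⟩ := hW M hM hML
  have hM0 : 0 ≤ M := by linarith
  constructor
  · refine h1.trans (mul_le_mul_of_nonneg_right (mul_le_mul_of_nonneg_right hC ?_) hz)
    positivity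
  · refine h2.trans (mul_le_mul_of_nonneg_right (mul_le_mul_of_nonneg_right hC ?_) hL)
    positivity

theorem za (lam c : ℝ) (hlam : 0 < lam) (hc : 0 < c) : ∃ δ : ℝ, 0 < δ ∧ ∀ B : ℕ, ∃ X0 : ℕ,
    ∀ X : ℕ, X0 ≤ X → ∀ ψ₁ ψ₂ : PC, IsPC ψ₁ → IsPC ψ₂ → 2 ≤ ψ₁.1 → 2 ≤ ψ₂.1 →
    (ψ₁.1 : ℝ) ≤ (X : ℝ) ^ δ → (ψ₂.1 : ℝ) ≤ (X : ℝ) ^ δ →
    Hvy lam c B X ψ₁ → Hvy lam c B X ψ₂ → ψ₁ = ψ₂ := by
  obtain ⟨C1, z1, hC1, hz1, hsys⟩ := sys_uu
  obtain ⟨C2, z2, hC2, hz2, hwin⟩ := win2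
  obtain ⟨C, hC⟩ : ∃ C : ℝ, C = max 1 (max C1 C2) := ⟨_, rfl⟩
  have hCa : 1 ≤ C := by rw [hC]; exact le_max_left _ _
  have hCb : C1 ≤ C := by rw [hC]; exact (le_max_left _ _).trans (le_max_right _ _)
  have hCc : C2 ≤ C := by rw [hC]; exact (le_max_right _ _).trans (le_max_right _ _)
  obtain ⟨δ0, hδ0, hcore⟩ := core C (lam / 2) c hCa (half_pos hlam) hc
  obtain ⟨δ, hδ⟩ : ∃ δ : ℝ, δ = min δ0 (min 1 c) := ⟨_, rfl⟩
  have hδp : 0 < δ := by rw [hδ]; exact lt_min hδ0 (lt_min one_pos hc)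
  have hδa : δ ≤ δ0 := by rw [hδ]; exact min_le_left _ _
  have hδb : δ ≤ 1 := by rw [hδ]; exact (min_le_right _ _).trans (min_le_left _ _)
  have hδc : δ ≤ c := by rw [hδ]; exact (min_le_right _ _).trans (min_le_right _ _)
  refine ⟨δ / 4, by positivity, fun B => ?_⟩
  obtain ⟨Xp, hpm⟩ := pm δ (B + 1) hδp hδb
  have hexp : Filter.Tendsto (fun L : ℝ => Real.exp (δ * L)) Filter.atTop Filter.atTop :=
    Real.tendsto_exp_atTop.comp (Filter.tendsto_id.const_mul_atTop hδp)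
  have hev1 : ∀ᶠ L : ℝ in Filter.atTop, max z1 z2 ≤ Real.exp (δ * L) :=
    hexp.eventually (Filter.eventually_ge_atTop _)
  have hev2 : ∀ᶠ L : ℝ in Filter.atTop, max 1 (2 / δ) ≤ L := Filter.eventually_ge_atTop _
  have hev3 : ∀ᶠ L : ℝ in Filter.atTop, ‖L ^ B‖ ≤ δ / 2 * ‖Real.exp (δ / 16 * L)‖ :=
    (isLittleO_pow_exp_pos_mul_atTop (k := B) (b := δ / 16) (by positivity)).bound
      (by positivity)
  have hev4 : ∀ᶠ L : ℝ in Filter.atTop, ‖L ^ (B + 1)‖ ≤ lam / 8 * ‖Real.exp (c / 2 * L)‖ :=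
    (isLittleO_pow_exp_pos_mul_atTop (k := B + 1) (b := c / 2) (by positivity)).bound
      (by positivity)
  have hev := hev1.and (hev2.and (hev3.and hev4))
  have hlim : Filter.Tendsto (fun X : ℕ => Real.log X) Filter.atTop Filter.atTop :=
    Real.tendsto_log_atTop.comp tendsto_natCast_atTop_atTop
  obtain ⟨X1, hX1⟩ := Filter.eventually_atTop.1 (hlim.eventually hev)
  refine ⟨max (max X1 Xp) 1, ?_⟩
  intro X hX ψ₁ ψ₂ hp1 hp2 h21 h22 hr1 hr2 hh1 hh2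
  obtain ⟨a1, a2, a3, a4⟩ := hX1 X (((le_max_left _ _).trans (le_max_left _ _)).trans hX)
  have hXp : Xp ≤ X := ((le_max_right _ _).trans (le_max_left _ _)).trans hX
  have hX1' : 1 ≤ X := (le_max_right _ _).trans hX
  have hX0 : (0 : ℝ) < X := by exact_mod_cast hX1'
  have hX1r : (1 : ℝ) ≤ X := by exact_mod_cast hX1'
  obtain ⟨L, hL⟩ : ∃ L : ℝ, L = Real.log X := ⟨_, rfl⟩
  rw [← hL] at a1 a2 a3 a4
  have hL1 : 1 ≤ L := (le_max_left _ _).trans a2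
  have hL2 : 2 / δ ≤ L := (le_max_right _ _).trans a2
  have hL0 : 0 < L := by linarith
  have hexpL : Real.exp L = X := by rw [hL, Real.exp_log hX0]
  have hpow : ∀ t : ℝ, (X : ℝ) ^ t = Real.exp (t * L) := by
    intro t
    rw [Real.rpow_def_of_pos hX0, hL, mul_comm]
  obtain ⟨z, hz⟩ : ∃ z : ℝ, z = (X : ℝ) ^ δ := ⟨_, rfl⟩
  have hzexp : z = Real.exp (δ * L) := by rw [hz, hpow]
  have hz1' : z1 ≤ z := by rw [hzexp]; exact (le_max_left _ _).trans a1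
  have hz2' : z2 ≤ z := by rw [hzexp]; exact (le_max_right _ _).trans a1
  have hlogz : Real.log z = δ * L := by rw [hzexp, Real.log_exp]
  have hlogz0 : 0 ≤ Real.log z := by rw [hlogz]; positivity
  have hLB1 : 1 ≤ L ^ B := one_le_pow₀ hL1
  have hLB0 : 0 < L ^ B := by positivity
  rw [Real.norm_of_nonneg (by positivity), Real.norm_of_nonneg (Real.exp_pos _).le] at a3 a4
  obtain ⟨h, hh⟩ : ∃ h : ℝ, h = δ / (2 * L ^ B) := ⟨_, rfl⟩
  have hh0 : 0 < h := by rw [hh]; positivity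
  have hhδ : h ≤ δ := by
    rw [hh]
    refine div_le_self hδp.le ?_
    linarith
  have hh1' : h ≤ 1 := hhδ.trans hδb
  have hhL : 1 ≤ h * L ^ (B + 1) := by
    have e : h * L ^ (B + 1) = δ * L / 2 := by
      rw [hh, pow_succ]
      field_simp
    rw [e]
    rw [div_le_iff₀ hδp] at hL2
    linarith
  have hhz : 1 ≤ h * z ^ (1 / 16 : ℝ) := by
    have e : z ^ (1 / 16 : ℝ) = Real.exp (δ / 16 * L) := by
      rw [hzexp, ← Real.exp_mul]
      congr 1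
      ring
    rw [e, hh, div_mul_eq_mul_div, le_div_iff₀ (by positivity)]
    linarith
  have hPm : Pm z L δ h := by
    have := hpm X hXp h (by rw [← hL]; exact hhL) hhδ
    rw [← hz, ← hL] at this
    exact this
  by_contra hne
  -- characters
  have hXz : (X : ℝ) ^ (δ / 4) < z := by
    rw [hpow, hzexp]
    apply Real.exp_lt_exp.2
    have : 0 < δ * L := by positivity
    have e : δ / 4 * L = δ * L / 4 := by ring
    rw [e]
    linarith
  have hch1 : Ch z (pv ψ₁) := ch_pv ψ₁ hp1 h21 (lt_of_le_of_lt hr1 hXz)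
  have hch2 : Ch z (pv ψ₂) := ch_pv ψ₂ hp2 h22 (lt_of_le_of_lt hr2 hXz)
  have hch3 : Ch z (fun n => pv ψ₁ n * (starRingEnd ℂ) (pv ψ₂ n)) := by
    refine za_ch_mono (ch_pair (z := (X : ℝ) ^ (δ / 4)) (by positivity) ψ₁ ψ₂ hp1 hp2 hne hr1 hr2) ?_
    rw [hpow, hzexp, ← Real.exp_nat_mul]
    apply Real.exp_le_exp.2
    have : 0 < δ * L := by positivity
    have e : ((2 : ℕ) : ℝ) * (δ / 4 * L) = δ * L / 2 := by
      push_cast
      ring
    rw [e]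
    linarith
  have hW : Win2 C z L h (fun n => pv ψ₁ n * (starRingEnd ℂ) (pv ψ₂ n)) :=
    za_win_mono (hwin z hz2' _ hch3 h L hh0 hh1' hhz hL1) hCc hh0.le hlogz0 hL0.le
  have hmain : ∀ ψ : PC, Ch z (pv ψ) → Hvy lam c B X ψ → ∃ α y : ℝ,
      Sys C z L δ h (pv ψ) (uu z (pv ψ) α 1) ∧ Real.exp (c * L) ≤ y ∧ y ≤ Real.exp L ∧
      lam / 2 ≤ ‖uu z (pv ψ) α 1 y‖ := by
    intro ψ hch hv
    obtain ⟨x, H, hH0, hxc, hxX, hHx, hxH, hsum⟩ := hv
    rw [← hL] at hxH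
    rw [hpow] at hxc
    have hx0 : 0 < x := lt_of_lt_of_le (Real.exp_pos _) hxc
    have hy0 : 0 < x + H := by linarith
    have eβ : 1 - x / (x + H) = H / (x + H) := by
      field_simp
      ring
    refine ⟨x / (x + H), x + H, ?_, by linarith, by rw [hexpL]; exact hxX, ?_⟩
    · refine za_sys_mono (hsys z hz1' (pv ψ) hch (x / (x + H)) 1 δ h L ?_ ?_ le_rfl hh0 hhz ?_ hδb)
        hCb hδp.le hlogz0
      · rw [eβ]
        exact div_le_div_of_nonneg_right hHx hy0.le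
      · rw [div_lt_one hy0]
        linarith
      · rw [eβ, hh, div_le_iff₀ (by positivity)]
        have e : δ * (H / (x + H)) * (2 * L ^ B) = δ * ((2 * (H * L ^ B)) / (x + H)) := by ring
        rw [e]
        have h5 : 1 ≤ (2 * (H * L ^ B)) / (x + H) := by
          rw [le_div_iff₀ hy0]
          have : H * 1 ≤ H * L ^ B := mul_le_mul_of_nonneg_left hLB1 hH0.le
          linarith
        have h6 := mul_le_mul_of_nonneg_left h5 hδp.le
        linarith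
    · refine za_uu z (pv ψ) hch.bd x H lam hx0 hH0 hsum ?_
      have hx1 : 1 ≤ x := by
        refine le_trans (Real.one_le_exp ?_) hxc
        positivity
      have hb1 : 1 ≤ ⌊x + H⌋₊ := by
        rw [Nat.one_le_floor_iff]
        linarith
      have hzx : z ≤ (⌊x⌋₊ : ℝ) + 1 := by
        have h7 : z ≤ x := by
          rw [hzexp]
          exact (Real.exp_le_exp.2 (mul_le_mul_of_nonneg_right hδc hL0.le)).trans hxc
        have h8 := Nat.lt_floor_add_one x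
        linarith
      refine (za_diff hzx hb1).trans ?_
      have hb1r : (1 : ℝ) ≤ (⌊x + H⌋₊ : ℕ) := by exact_mod_cast hb1
      have hbx : ((⌊x + H⌋₊ : ℕ) : ℝ) ≤ x + H := Nat.floor_le hy0.le
      have hsq : Real.sqrt (⌊x + H⌋₊ : ℕ) ≤ 2 * Real.sqrt x := by
        have e : 2 * Real.sqrt x = Real.sqrt (4 * x) := by
          rw [Real.sqrt_mul (by norm_num), show (4 : ℝ) = 2 ^ 2 by norm_num,
            Real.sqrt_sq (by norm_num)]
        rw [e]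
        exact Real.sqrt_le_sqrt (by linarith)
      have hlog : Real.log (⌊x + H⌋₊ : ℕ) ≤ L := by
        rw [hL]
        exact Real.log_le_log (by linarith) (by linarith)
      have hlog0 : 0 ≤ Real.log (⌊x + H⌋₊ : ℕ) := Real.log_nonneg hb1r
      have hsx : Real.exp (c / 2 * L) ≤ Real.sqrt x := by
        apply Real.le_sqrt_of_sq_le
        rw [← Real.exp_nat_mul]
        refine le_trans (le_of_eq ?_) hxc
        congr 1
        push_cast
        ring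
      have hsx0 : 0 ≤ Real.sqrt x := Real.sqrt_nonneg _
      have h9 : 2 * Real.sqrt (⌊x + H⌋₊ : ℕ) * Real.log (⌊x + H⌋₊ : ℕ) ≤
          4 * Real.sqrt x * L := by
        refine mul_le_mul (by linarith) hlog hlog0 (by positivity)
      refine h9.trans ?_
      have h10 : 4 * Real.sqrt x * L * L ^ B ≤ lam / 2 * H * L ^ B := by
        calc 4 * Real.sqrt x * L * L ^ B = 4 * Real.sqrt x * L ^ (B + 1) := by
              rw [pow_succ]; ring
          _ ≤ 4 * Real.sqrt x * (lam / 8 * Real.sqrt x) := by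
              refine mul_le_mul_of_nonneg_left ?_ (by positivity)
              exact a4.trans (mul_le_mul_of_nonneg_left hsx (by positivity))
          _ = lam / 2 * (Real.sqrt x * Real.sqrt x) := by ring
          _ = lam / 2 * x := by rw [Real.mul_self_sqrt hx0.le]
          _ ≤ lam / 2 * (H * L ^ B) := mul_le_mul_of_nonneg_left hxH (by positivity)
          _ = _ := by ring
      exact le_of_mul_le_mul_right h10 hLB0
  obtain ⟨α1, y1, s1, b1, b2, b3⟩ := hmain ψ₁ hch1 hh1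
  obtain ⟨α2, y2, s2, b4, b5, b6⟩ := hmain ψ₂ hch2 hh2
  exact hcore z L δ h (pv ψ₁) (pv ψ₂) _ _ hPm hδa s1 s2 hW y1 y2 b1 b2 b4 b5 b3 b6

end Pool.MP_dd84fd_nt.QZ
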